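import Mathlib

set_option autoImplicit false

/-!
# Project QD: the spectrum of convex quadrilaterals. Definitions and statements, analysis only
-/

namespace Pool.Agent.N275.QD

open MeasureTheory Set Filter Topology Complex
open scoped Real

/-- ratio of hyperbolic sines -/
noncomputable def Rf (α μ : ℝ) : ℝ := Real.sinh (α * μ) / Real.sinh ((π - α) * μ)

/-- its moments -/
noncomputable def mm (k : ℕ) (α : ℝ) : ℝ := ∫ μ in Ioi (0 : ℝ), μ ^ k * Rf α μ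

/-- the diffraction coefficient of the wedge, direction `φ` -/
noncomputable def Df (α φ : ℝ) : ℝ := ∫ μ in Ioi (0 : ℝ), Rf α μ * Real.sinh (φ * μ) ^ 2

/-- Macdonald's function of imaginary order `μ` -/
noncomputable def Kf (μ x : ℝ) : ℝ :=
  ∫ u in Ioi (0 : ℝ), Real.exp (-(x * Real.cosh u)) * Real.cos (μ * u)

/-- `p_H - p_W`, where `p_H` and `p_W` are the Dirichlet heat kernels of the upper half-plane and of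
the wedge `W = {r e^{iφ} : 0 < φ < π - α}` -/
noncomputable def Gf (α t : ℝ) (z w : ℂ) : ℝ :=
  Real.exp (-((‖z‖ ^ 2 + ‖w‖ ^ 2) / (4 * t))) / (π ^ 2 * t) *
    ∫ μ in Ioi (0 : ℝ), Kf μ (‖z‖ * ‖w‖ / (2 * t)) * Rf α μ *
      (Real.sinh (arg z * μ) * Real.sinh (arg w * μ))

/-- the same in the coordinates turned by the angle `φ` -/
noncomputable def Gr (α φ t : ℝ) (z w : ℂ) : ℝ :=
  Gf α t (Complex.exp ((φ : ℂ) * I) * z) (Complex.exp ((φ : ℂ) * I) * w)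

/-- the reference kernel -/
noncomputable def Th (t : ℝ) (z w : ℂ) : ℝ :=
  Real.exp (-((‖z‖ ^ 2 + ‖w‖ ^ 2) / (4 * t))) / (π ^ 2 * t) * Kf 0 (‖z‖ * ‖w‖ / (2 * t))

/-- one dimensional heat kernel -/
noncomputable def g1 (s y : ℝ) : ℝ := Real.exp (-(y ^ 2 / (4 * s))) / √(4 * π * s)

/-- vertical average of a kernel -/
noncomputable def Ja (σ Y : ℝ) (F : ℂ → ℂ → ℝ) (x x' : ℝ) : ℝ :=
  ∫ y in Ioo (-Y) Y, ∫ y' in Ioo (-Y) Y, g1 σ (y - y') * F ((x : ℂ) + (y : ℂ) * I) ((x' : ℂ) + (y' : ℂ) * I)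

/-- KF: Macdonald's function of imaginary order -/
def S_KF : Prop :=
  (∀ μ x β : ℝ, 0 ≤ μ → 0 < x → 0 ≤ β → β < π / 2 →
    |Kf μ x| ≤ Real.exp (-(β * μ) - x * Real.cos β) * √(π / (2 * x * Real.cos β))) ∧
  (∀ x ψ : ℝ, 0 < x → |ψ| < π / 2 → IntegrableOn (fun μ => Kf μ x * Real.cosh (ψ * μ)) (Ioi 0) ∧
    ∫ μ in Ioi (0 : ℝ), Kf μ x * Real.cosh (ψ * μ) = π / 2 * Real.exp (-(x * Real.cos ψ))) ∧
  (∀ μ x β : ℝ, 0 < x → |β| < π / 2 →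
    Integrable (fun u : ℝ => Complex.exp (-((x : ℂ) * Complex.cosh ((u : ℂ) + (β : ℂ) * I))) *
      Complex.exp (I * (μ : ℂ) * ((u : ℂ) + (β : ℂ) * I))) ∧
    ∫ u : ℝ, Complex.exp (-((x : ℂ) * Complex.cosh ((u : ℂ) + (β : ℂ) * I))) *
      Complex.exp (I * (μ : ℂ) * ((u : ℂ) + (β : ℂ) * I)) = 2 * (Kf μ x : ℂ)) ∧
  ContinuousOn (fun q : ℝ × ℝ => Kf q.1 q.2) (univ ×ˢ Ioi 0)

/-- MO: integrability and monotonicity of the moments and of the diffraction coefficient -/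
def S_MO : Prop :=
  (∀ (k : ℕ) (α φ : ℝ), 0 < α → 0 ≤ φ → φ + α < π / 2 →
    IntegrableOn (fun μ => μ ^ k * Rf α μ * Real.cosh (φ * μ) ^ 2) (Ioi 0)) ∧
  (∀ (k : ℕ) (α : ℝ), 0 < α → α < π / 2 → IntegrableOn (fun μ => μ ^ k * Rf α μ) (Ioi 0) ∧
    0 < mm k α) ∧
  StrictMonoOn (mm 2) (Ioo 0 (π / 2)) ∧ Tendsto (mm 2) (𝓝[<] (π / 2)) atTop ∧
  ∀ α : ℝ, 0 < α → StrictMonoOn (Df α) (Ico 0 (π / 2 - α)) ∧ Df α 0 = 0

/-- MM: closed forms of two moments -/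
def S_MM : Prop := ∀ α x : ℝ, 0 < α → α < π / 2 → x = π * α / (2 * (π - α)) →
  mm 2 α = (π / (π - α)) ^ 3 * Real.sin x / (4 * Real.cos x ^ 3) ∧
  mm 4 α = (π / (π - α)) ^ 2 * (3 / Real.cos x ^ 2 - 1) * mm 2 α

/-- IJ: two angles are determined by two symmetric functions of them -/
def S_IJ : Prop := ∀ α β α' β' : ℝ, 0 < α → α < π / 2 → 0 < β → β < π / 2 → 0 < α' → α' < π / 2 →
  0 < β' → β' < π / 2 → mm 2 α * mm 2 β = mm 2 α' * mm 2 β' →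
  mm 4 α / mm 2 α + mm 4 β / mm 2 β = mm 4 α' / mm 2 α' + mm 4 β' / mm 2 β' →
  (α = α' ∧ β = β') ∨ (α = β' ∧ β = α')

/-- E1: second order asymptotics of the kernel near the boundary, relative to another wedge -/
def S_E1 : Prop := ∀ α α' l ε : ℝ, 0 < α → α < π / 2 → 0 < α' → α' < π / 2 → 0 < l → 0 < ε →
  ∃ η : ℝ, 0 < η ∧ ∀ t τ x x' y y' : ℝ, 0 < t → t < η → |τ - t| ≤ η * t → |x - l| ≤ η →
    |x' - l| ≤ η → 0 < y → y ^ 2 ≤ η * t → 0 < y' → y' ^ 2 ≤ η * t →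
    0 < Gf α' τ ((x : ℂ) + (y : ℂ) * I) ((x' : ℂ) + (y' : ℂ) * I) ∧
    |Gf α τ ((x : ℂ) + (y : ℂ) * I) ((x' : ℂ) + (y' : ℂ) * I) -
      mm 2 α / mm 2 α' * (1 - t / l ^ 2 * (mm 4 α / mm 2 α - mm 4 α' / mm 2 α')) *
        Gf α' τ ((x : ℂ) + (y : ℂ) * I) ((x' : ℂ) + (y' : ℂ) * I)| ≤
      ε * t * Gf α' τ ((x : ℂ) + (y : ℂ) * I) ((x' : ℂ) + (y' : ℂ) * I)

/-- E0: first order asymptotics of the kernel near the boundary, relative to another wedge -/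
def S_E0 : Prop := ∀ α α' l ε : ℝ, 0 < α → α < π / 2 → 0 < α' → α' < π / 2 → 0 < l → 0 < ε →
  ∃ η : ℝ, 0 < η ∧ ∀ t τ x x' y y' : ℝ, 0 < t → t < η → t / 2 ≤ τ → τ ≤ t → |x - l| ≤ η →
    |x' - l| ≤ η → 0 < y → y ≤ η → 0 < y' → y' ≤ η →
    0 < Gf α' τ ((x : ℂ) + (y : ℂ) * I) ((x' : ℂ) + (y' : ℂ) * I) ∧
    |Gf α τ ((x : ℂ) + (y : ℂ) * I) ((x' : ℂ) + (y' : ℂ) * I) -
      mm 2 α / mm 2 α' * Gf α' τ ((x : ℂ) + (y : ℂ) * I) ((x' : ℂ) + (y' : ℂ) * I)| ≤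
      ε * Gf α' τ ((x : ℂ) + (y : ℂ) * I) ((x' : ℂ) + (y' : ℂ) * I)

/-- E2: the kernel near the boundary is small compared with the reference kernel -/
def S_E2 : Prop := ∀ α l ε : ℝ, 0 < α → α < π / 2 → 0 < l → 0 < ε →
  ∃ η : ℝ, 0 < η ∧ ∀ t τ x x' y y' : ℝ, 0 < t → t < η → t / 2 ≤ τ → τ ≤ t → |x - l| ≤ η →
    |x' - l| ≤ η → 0 < y → y ≤ η → 0 < y' → y' ≤ η →
    Gf α τ ((x : ℂ) + (y : ℂ) * I) ((x' : ℂ) + (y' : ℂ) * I) ≤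
      ε * Th τ ((x : ℂ) + (y : ℂ) * I) ((x' : ℂ) + (y' : ℂ) * I)

/-- E3: second order asymptotics of the vertical average of the kernel in the direction `φ` -/
def S_E3 : Prop := ∀ α φ d ε : ℝ, 0 < α → 0 < φ → φ + α < π / 2 → 0 < d → 0 < ε →
  ∃ η : ℝ, 0 < η ∧ ∀ t τ σ x x' Y : ℝ, 0 < t → t < η → |τ - t| ≤ η * t → 0 < σ → σ ≤ η * t →
    |x - d| ≤ η → |x' - d| ≤ η → 0 < Y → t ≤ η * Y ^ 2 → Y ^ 3 ≤ η * t →
    0 < Ja σ Y (Th τ) x x' ∧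
    |Ja σ Y (Gr α φ τ) x x' - (Df α φ + t / (2 * d ^ 2) * mm 2 α) * Ja σ Y (Th τ) x x'| ≤
      ε * t * Ja σ Y (Th τ) x x'

/-! ## The heat equation -/

/-- `a` is the second derivative of `f` at `0` -/
def D2 (f : ℝ → ℝ) (a : ℝ) : Prop :=
  ∃ f' : ℝ → ℝ, (∀ᶠ x in 𝓝 (0 : ℝ), HasDerivAt f (f' x) x) ∧ HasDerivAt f' a 0

/-- the heat equation at the point `(t, z)` -/
def Heat (u : ℝ → ℂ → ℝ) (t : ℝ) (z : ℂ) : Prop :=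
  ∃ a b : ℝ, D2 (fun x : ℝ => u t (z + (x : ℂ))) a ∧ D2 (fun y : ℝ => u t (z + (y : ℂ) * I)) b ∧
    HasDerivAt (fun τ => u τ z) (a + b) t

/-- MP: the maximum principle -/
def S_MP : Prop := ∀ (Ω : Set ℂ) (T : ℝ) (v : ℝ → ℂ → ℝ), IsOpen Ω →
  ContinuousOn (fun q : ℝ × ℂ => v q.1 q.2) (Ioc 0 T ×ˢ Ω) →
  (∀ t z, 0 < t → t ≤ T → z ∈ Ω → Heat v t z) →
  (∀ ε : ℝ, 0 < ε → ∃ K : Set (ℝ × ℂ), IsCompact K ∧ K ⊆ Ioc 0 T ×ˢ Ω ∧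
    ∀ t z, 0 < t → t ≤ T → z ∈ Ω → (t, z) ∉ K → -ε ≤ v t z) →
  ∀ t z, 0 < t → t ≤ T → z ∈ Ω → 0 ≤ v t z

end Pool.Agent.N275.QD
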