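import Pool.Agent.R225.LP.Stm7
import Pool.Agent.R225.LP.FP3
import Pool.Agent.N275.QD.Ana

set_option autoImplicit false

/-!
# Project QD: the spectrum of convex quadrilaterals. Definitions and statements of the parts
-/

namespace Pool.Agent.N275.QD

open MeasureTheory Set Filter Topology Complex
open Pool.Agent.W780.PG (IsConvexPolygon region ang)
open Pool.Agent.Y289.SQ (Z area per)
open Pool.Agent.R225.LP (gk ks ip cr nu co hp tau qq hS hx mx pts gm PG YN NN sk el sd dl eM Rm)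
open Pool.Agent.R225.LP.FP (cyc)
open scoped Real ENNReal ComplexConjugate

/-! ## Solutions of the heat equation -/

/-- the heat extension of a function -/
noncomputable def he (f : ℂ → ℝ) (t : ℝ) (z : ℂ) : ℝ := ∫ w : ℂ, gk t (w - z) * f w

/-- HE: heat extensions solve the heat equation -/
def S_HE : Prop := ∀ (f : ℂ → ℝ) (B : ℝ), Measurable f → (∀ w, |f w| ≤ B) →
  (∀ t z, 0 < t → Heat (he f) t z) ∧ (∀ t z, 0 < t → |he f t z| ≤ B) ∧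
  ContinuousOn (fun q : ℝ × ℂ => he f q.1 q.2) (Ioi 0 ×ˢ univ) ∧
  (Continuous f → Tendsto f (cocompact ℂ) (𝓝 0) →
    ContinuousOn (fun q : ℝ × ℂ => if 0 < q.1 then he f q.1 q.2 else f q.2) (Ici 0 ×ˢ univ) ∧
    ∀ T ε : ℝ, 0 < ε → ∃ R : ℝ, ∀ t z, 0 < t → t ≤ T → R ≤ ‖z‖ → |he f t z| ≤ ε)

/-- a Dirichlet heat kernel of `Ω` with pole `b` -/
structure Dir (Ω : Set ℂ) (b : ℂ) (p : ℝ → ℂ → ℝ) : Prop where
  heat : ∀ t z, 0 < t → z ∈ Ω → Heat p t z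
  nonneg : ∀ t z, 0 < t → 0 ≤ p t z
  le : ∀ t z, 0 < t → p t z ≤ gk t (b - z)
  zero : ∀ t z, 0 < t → z ∉ Ω → p t z = 0
  cont : ContinuousOn (fun q : ℝ × ℂ => p q.1 q.2) (Ioi 0 ×ˢ univ)

/-- LO: the kernels of the killed chains are upper bounds -/
def S_LO : Prop := ∀ (Ω : Set ℂ) (b : ℂ) (p : ℝ → ℂ → ℝ), IsOpen Ω → Dir Ω b p →
  ∀ (s : ℝ) (m : ℕ) (z : ℂ), 0 < s → z ∈ Ω →
    ENNReal.ofReal (p ((m + 1) * s) z) ≤ ks Ω s m z b

/-- UP: the chains killed in a smaller set -/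
def S_UP : Prop := ∀ (Ω E : Set ℂ) (b : ℂ) (p : ℝ → ℂ → ℝ) (r κ s : ℝ), IsOpen Ω → Dir Ω b p →
  MeasurableSet E → 0 < r → (∀ z ∈ E, ∀ w, w ∉ Ω → r ≤ dist z w) → E ⊆ Ω → 0 < s → 0 ≤ κ →
  (∀ z ∈ E, gk s (b - z) ≤ p s z + κ) → ∀ (m : ℕ) (z : ℂ), z ∈ E →
    ks E s m z b ≤
      ENNReal.ofReal (p ((m + 1) * s) z + κ + m * (Real.exp (-(r ^ 2 / (4 * s))) / (4 * π * s)))

/-- the half-plane of the points `r e^{iθ}`, `-φ < θ < π - φ` -/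
def Hh (φ : ℝ) : Set ℂ := {z | 0 < z.re * Real.sin φ + z.im * Real.cos φ}

/-- the Dirichlet heat kernel of the upper half-plane -/
noncomputable def pH (b : ℂ) (t : ℝ) (z : ℂ) : ℝ :=
  if 0 < z.im then gk t (b - z) - gk t (conj b - z) else 0

/-- PH -/
def S_PH : Prop := ∀ b : ℂ, 0 < b.im → Dir (Hh 0) b (pH b)

open scoped Classical in
/-- the Dirichlet heat kernel of the wedge -/
noncomputable def pW (α : ℝ) (b : ℂ) (t : ℝ) (z : ℂ) : ℝ :=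
  if z ∈ Hh 0 ∩ Hh α then gk t (b - z) - gk t (conj b - z) - Gf α t z b else 0

/-- GW -/
def S_GW : Prop := ∀ (α : ℝ) (b : ℂ), 0 < α → α < π / 2 → 0 < b.im → arg b < π / 2 - α →
  Dir (Hh 0 ∩ Hh α) b (pW α b) ∧ ∀ t z, 0 < t → z ∈ Hh 0 ∩ Hh α → 0 ≤ Gf α t z b

/-- GC: joint continuity -/
def S_GC : Prop := ∀ α : ℝ, 0 < α → α < π / 2 →
  ContinuousOn (fun q : ℝ × ℂ × ℂ => Gf α q.1 q.2.1 q.2.2)
    {q | 0 < q.1 ∧ q.2.1 ≠ 0 ∧ 0 ≤ arg q.2.1 ∧ arg q.2.1 < π / 2 - α ∧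
      q.2.2 ≠ 0 ∧ 0 ≤ arg q.2.2 ∧ arg q.2.2 < π / 2 - α}

/-! ## Chains which visit a set -/

/-- the kernel of the chain killed outside `Q` with `m` intermediate points, at least one of which
is in `A` -/
noncomputable def hk (Q A : Set ℂ) (s : ℝ) : ℕ → ℂ → ℂ → ℝ≥0∞
  | 0, _, _ => 0
  | n + 1, a, b => (∫⁻ z in Q ∩ A, ENNReal.ofReal (gk s (z - a)) * ks Q s n z b) +
      ∫⁻ z in Q \ A, ENNReal.ofReal (gk s (z - a)) * hk Q A s n z b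

/-- KR: the limit of the discrete kernels -/
def S_KR : Prop := ∀ (α φ t : ℝ) (K : Set ℂ) (ε : ℝ), 0 < α → 0 ≤ φ → φ + α < π / 2 → 0 < t →
  IsCompact K → (∀ z ∈ K, 0 < z.re ∧ 0 ≤ arg z + φ ∧ arg z + φ < π / 2 - α) → 0 < ε →
  ∀ᶠ M : ℕ in atTop, ∀ m : ℕ, t / 2 ≤ (m + 1) * (t / M) → (m + 1) * (t / M) ≤ t →
    ∀ z ∈ K ∩ Hh φ, ∀ w ∈ K ∩ Hh φ,
      |(hk (Hh φ) (Hh (φ + α))ᶜ (t / M) m z w).toReal - Gr α φ ((m + 1) * (t / M)) z w| ≤ ε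

/-- SU: a supersolution -/
def S_SU : Prop := ∀ (n l : ℂ) (c s : ℝ) (z : ℂ), ‖n‖ = 1 → 0 < s → 0 < ip l n →
  ip l n * √s ≤ 1 → ip n z ≤ c →
  ∫⁻ w in {w : ℂ | ip n w < c}, ENNReal.ofReal (gk s (w - z)) *
      ENNReal.ofReal (Real.exp (-(ip l w)) *
        (1 - Real.exp (-(8 * (ip l n * √s))) * Real.exp (-(2 * ip l n * (c - ip n w))))) ≤
    ENNReal.ofReal (Real.exp (‖l‖ ^ 2 * s) * (Real.exp (-(ip l z)) *
        (1 - Real.exp (-(8 * (ip l n * √s))) * Real.exp (-(2 * ip l n * (c - ip n z))))))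

/-- FT: the chain in a vertical strip splits into independent coordinates -/
noncomputable def k1 (I : Set ℝ) (s : ℝ) : ℕ → ℝ → ℝ → ℝ≥0∞
  | 0, a, b => ENNReal.ofReal (g1 s (b - a))
  | n + 1, a, b => ∫⁻ x in I, ENNReal.ofReal (g1 s (x - a)) * k1 I s n x b

def S_FT : Prop := ∀ (I : Set ℝ) (s : ℝ) (m : ℕ) (a b : ℂ), MeasurableSet I → 0 < s →
  ks {z | z.re ∈ I} s m a b =
    k1 I s m a.re b.re * ENNReal.ofReal (g1 ((m + 1) * s) (b.im - a.im))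

/-- the measure of the loops with `m + 1` points in `H` whose extreme point in the direction `n` is
in `F` and which visit `A` -/
noncomputable def LM (H A F : Set ℂ) (n : ℂ) (s : ℝ) (m : ℕ) : ℝ≥0∞ :=
  ((m + 1 : ℕ) : ℝ≥0∞) * ∫⁻ b in F ∩ H, hk (H ∩ {z | ip n z < ip n b}) A s m b b

/-- RT: the same as an integral over loops -/
def S_RT : Prop := ∀ (H A F : Set ℂ) (n : ℂ) (s : ℝ) (m : ℕ), MeasurableSet H → MeasurableSet A →
  MeasurableSet F → n ≠ 0 → 0 < s →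
  LM H A F n s m = ∫⁻ W : Fin (m + 1) → ℂ, ENNReal.ofReal (cyc s W) *
    {W : Fin (m + 1) → ℂ | (∀ i, W i ∈ H) ∧ ∃ k, W k ∈ F ∧ (∀ i, i ≠ k → ip n (W i) < ip n (W k)) ∧
      ∃ i, i ≠ k ∧ W i ∈ A}.indicator 1 W

/-- cotangent of the angle `α` -/
noncomputable def ct (α : ℝ) : ℝ := Real.cos α / Real.sin α

/-- the contribution of a side of length `l` with exterior angles `α`, `β` -/
noncomputable def Nn (α β l t : ℝ) (M : ℕ) : ℝ :=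
  NN (-ct α) (-ct β) l t M / (2 * (ct α + ct β))

/-- BR: this contribution as a measure of loops; `F₀` is the half-plane beyond the second
neighbouring side. Part (i): `n = e^{-i(π/2-β)}`, the side is on the real axis, between `0` and `l`.
Part (ii): all loops which visit the half-plane, whatever the direction `n`. -/
def S_BR : Prop := ∀ (α β l t : ℝ) (m : ℕ), 0 < α → 0 < β → α + β < π → 0 < l → 0 < t →
  ENNReal.ofReal (Nn α β l t (m + 1)) = ENNReal.ofReal (4 * π * t) *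
    ∫⁻ W : Fin (m + 1) → ℂ, ENNReal.ofReal (cyc (t / (m + 1)) W) *
      {W : Fin (m + 1) → ℂ | (∀ i, W i ∈ Hh 0) ∧ (∃ i, W i ∉ Hh α) ∧
        ∃ i, l * Real.sin β ≤ (W i).re * Real.sin β - (W i).im * Real.cos β}.indicator 1 W

/-- the distance of the two neighbouring sides -/
noncomputable def dd (β l : ℝ) : ℝ := if β ≤ π / 2 then l else l * Real.sin β

/-- LB: crude lower bound -/
def S_LB : Prop := ∀ α β l : ℝ, 0 < α → α < π / 2 → 0 < β → α + β < π → 0 < l →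
  ∃ (k : ℕ) (t₀ : ℝ), 0 < t₀ ∧ ∀ t : ℝ, 0 < t → t < t₀ → ∀ᶠ M : ℕ in atTop,
    t ^ k * Real.exp (-(dd β l ^ 2 / t)) ≤ Nn α β l t M

/-- FA: crude upper bound -/
def S_FA : Prop := ∀ α β l : ℝ, 0 < α → α < π / 2 → 0 < β → α + β < π → 0 < l →
  ∃ C t₀ : ℝ, 0 < t₀ ∧ ∀ t : ℝ, 0 < t → t < t₀ → ∀ᶠ M : ℕ in atTop, ∀ l' : ℝ, l ≤ l' → l' ≤ 2 * l →
    Nn α β l' t M ≤ C * Real.exp (-(dd β l' ^ 2 / t))

/-! ## Asymptotics -/

/-- T1: second order asymptotics of the ratio, obtuse interior angles -/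
def S_T1 : Prop := ∀ α α' β l ε : ℝ, 0 < α → α < π / 2 → 0 < α' → α' < π / 2 → 0 < β → β < π / 2 →
  0 < l → 0 < ε → ∃ t₀ : ℝ, 0 < t₀ ∧ ∀ t : ℝ, 0 < t → t < t₀ → ∀ᶠ M : ℕ in atTop,
    |Nn α β l t M - mm 2 α / mm 2 α' *
        (1 - t / l ^ 2 * (mm 4 α / mm 2 α - mm 4 α' / mm 2 α')) * Nn α' β l t M| ≤
      ε * t * Nn α' β l t M

/-- T0: first order asymptotics of the ratio, one right angle -/
def S_T0 : Prop := ∀ α α' l ε : ℝ, 0 < α → α < π / 2 → 0 < α' → α' < π / 2 →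
  0 < l → 0 < ε → ∃ t₀ : ℝ, 0 < t₀ ∧ ∀ t : ℝ, 0 < t → t < t₀ → ∀ᶠ M : ℕ in atTop,
    |Nn α (π / 2) l t M - mm 2 α / mm 2 α' * Nn α' (π / 2) l t M| ≤ ε * Nn α' (π / 2) l t M

/-- T3: second order asymptotics, one acute interior angle -/
def S_T3 : Prop := ∀ α φ α' φ' d ε : ℝ, 0 < α → 0 < φ → φ + α < π / 2 → 0 < α' → 0 < φ' →
  φ' + α' < π / 2 → 0 < d → 0 < ε → ∃ t₀ : ℝ, 0 < t₀ ∧ ∀ t : ℝ, 0 < t → t < t₀ →
    ∀ᶠ M : ℕ in atTop,
    |Nn α (π / 2 + φ) (d / Real.cos φ) t M * (Df α' φ' + t / (2 * d ^ 2) * mm 2 α') -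
      Nn α' (π / 2 + φ') (d / Real.cos φ') t M * (Df α φ + t / (2 * d ^ 2) * mm 2 α)| ≤
      ε * t * Nn α (π / 2 + φ) (d / Real.cos φ) t M

/-- T2: right angle compared with an acute one -/
def S_T2 : Prop := ∀ α α' φ' d ε : ℝ, 0 < α → α < π / 2 → 0 < α' → 0 < φ' →
  φ' + α' < π / 2 → 0 < d → 0 < ε → ∃ t₀ : ℝ, 0 < t₀ ∧ ∀ t : ℝ, 0 < t → t < t₀ →
    ∀ᶠ M : ℕ in atTop,
    Nn α (π / 2) d t M ≤ ε * Nn α' (π / 2 + φ') (d / Real.cos φ') t M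

/-- UQ: the leading exponentially small term determines the side and its two angles -/
def S_UQ : Prop := ∀ α β l α' β' l' : ℝ, 0 < α → α ≤ β → α + β < π → 0 < l → 0 < α' → α' ≤ β' →
  α' + β' < π → 0 < l' → dd β l = dd β' l' →
  (∃ A C t₀ : ℝ, dd β l ^ 2 < A ∧ 0 < t₀ ∧ ∀ t : ℝ, 0 < t → t < t₀ → ∃ᶠ M : ℕ in atTop,
    |Nn α β l t M - Nn α' β' l' t M| ≤ C * Real.exp (-(A / t))) →
  l = l' ∧ α = α' ∧ β = β'

/-! ## Geometry -/

/-- the distance of the neighbours of the side `k`, if the side is not longer than the opposite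
one -/
noncomputable def dk (p : Fin (1 + 3) → ℂ) (k : Fin (1 + 3)) : ℝ :=
  ‖p (k + 1) - p k‖ / √(1 + (max 0 (max (sk (nu p) k) (sk (nu p) (k + 1)))) ^ 2)

/-- the side `k` disappears first -/
def Fst (p : Fin (1 + 3) → ℂ) (k : Fin (1 + 3)) : Prop :=
  sk (nu p) k + sk (nu p) (k + 1) < 0 ∧ ∀ j, j ≠ k → sk (nu p) j + sk (nu p) (j + 1) ≤ 0 →
    dk p k < dk p j

/-- the distance of the sides `k` and `k + 2` -/
noncomputable def ds (p : Fin (1 + 3) → ℂ) (k : Fin (1 + 3)) : ℝ :=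
  sInf {r : ℝ | ∃ x ∈ segment ℝ (p k) (p (k + 1)), ∃ y ∈ segment ℝ (p (k + 2)) (p (k + 3)),
    r = dist x y}

/-- CL: classification -/
def S_CL : Prop := ∀ p : Fin (1 + 3) → ℂ, IsConvexPolygon p → ds p 0 ≠ ds p 1 →
  (∃ k, Fst p k) ∨ ∃ i, nu p (i + 2) = -nu p i ∧ co p i + co p (i + 2) = sd p

/-- CD: the least distance -/
def S_CD : Prop := ∀ (p : Fin (1 + 3) → ℂ) (k : Fin (1 + 3)), IsConvexPolygon p → Fst p k →
  sd p = dk p k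

/-- QE: the leading term of the remainder -/
def S_QE : Prop := ∀ (p : Fin (1 + 3) → ℂ) (k : Fin (1 + 3)), IsConvexPolygon p → Fst p k →
  ∃ (A C : ℝ) (N : ℕ), dk p k ^ 2 < A ∧ 0 < N ∧ ∀ (j : ℕ) (t : ℝ), 0 < j → 0 < t → t ≤ 1 →
    |eM p t (N * j) - NN (sk (nu p) (k + 1)) (sk (nu p) k) ‖p (k + 1) - p k‖ t (N * j) /
        (-(2 * (sk (nu p) k + sk (nu p) (k + 1))))| ≤ C * Real.exp (-(A / t))

/-- the quadrilateral with the side of length `l` between `0` and `l`, neighbours `x = s y` and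
`x = l - s' y`, heights `a` and `b` of the other two vertices -/
noncomputable def q4 (l s s' a b : ℝ) : Fin (1 + 3) → ℂ :=
  ![0, (l : ℂ), ((l - s' * b : ℝ) : ℂ) + (b : ℂ) * I, ((s * a : ℝ) : ℂ) + (a : ℂ) * I]

/-- N4: normal form -/
def S_N4 : Prop :=
  (∀ l s s' a b : ℝ, 0 < l → 0 < a → 0 < b → s + s' < 0 → IsConvexPolygon (q4 l s s' a b) ∧
    area (region (q4 l s s' a b)) = (l * (a + b) - (s + s') * (a * b)) / 2 ∧
    per (q4 l s s' a b) = l + a * √(1 + s ^ 2) + b * √(1 + s' ^ 2) +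
      √((l - s' * b - s * a) ^ 2 + (b - a) ^ 2) ∧
    ∃ φ : ℂ ≃ᵢ ℂ, φ '' region (q4 l s s' a b) = region (q4 l s' s b a)) ∧
  ∀ (p : Fin (1 + 3) → ℂ) (k : Fin (1 + 3)), IsConvexPolygon p →
    sk (nu p) k + sk (nu p) (k + 1) < 0 → ∃ a b : ℝ, 0 < a ∧ 0 < b ∧
      ∃ φ : ℂ ≃ᵢ ℂ, φ '' region p =
        region (q4 ‖p (k + 1) - p k‖ (sk (nu p) k) (sk (nu p) (k + 1)) a b)

/-- RC: the heights up to an exchange -/
def S_RC : Prop := ∀ l s s' a b a' b' : ℝ, 0 < l → 0 < a → 0 < b → 0 < a' → 0 < b' → s + s' < 0 →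
  l * (a + b) - (s + s') * (a * b) = l * (a' + b') - (s + s') * (a' * b') →
  a * √(1 + s ^ 2) + b * √(1 + s' ^ 2) + √((l - s' * b - s * a) ^ 2 + (b - a) ^ 2) =
    a' * √(1 + s ^ 2) + b' * √(1 + s' ^ 2) + √((l - s' * b' - s * a') ^ 2 + (b' - a') ^ 2) →
  (a = a' ∧ b = b') ∨
    ((a - l / (s + s')) * √(1 + s ^ 2) = (b' - l / (s + s')) * √(1 + s' ^ 2) ∧
      (b - l / (s + s')) * √(1 + s' ^ 2) = (a' - l / (s + s')) * √(1 + s ^ 2))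

/-- SW: the exchange changes the heat trace -/
def S_SW : Prop := ∀ l s s' a b a' b' : ℝ, 0 < l → 0 < a → 0 < b → 0 < a' → 0 < b' → s + s' < 0 →
  s ≠ s' → a ≠ a' →
  (a - l / (s + s')) * √(1 + s ^ 2) = (b' - l / (s + s')) * √(1 + s' ^ 2) →
  (b - l / (s + s')) * √(1 + s' ^ 2) = (a' - l / (s + s')) * √(1 + s ^ 2) →
  ∃ t : ℝ, 0 < t ∧ Z (region (q4 l s s' a b)) t ≠ Z (region (q4 l s s' a' b')) t

end Pool.Agent.N275.QD
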