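import Pool.Agent.N275.QD.T1

set_option autoImplicit false

/-!
# Project QD: two obtuse interior angles, the theorem
-/

namespace Pool.Agent.N275.QD

open MeasureTheory Set Filter Topology Complex
open Pool.Agent.R225.LP (gk ks ip ip_self)
open scoped Real ENNReal ComplexConjugate

theorem pow_small (k : ℕ) {c : ℝ} (hc : 0 < c) : ∀ᶠ x : ℝ in 𝓝[>] 0, x ^ (k + 1) ≤ c := by
  have h1 : Tendsto (fun x : ℝ => x ^ (k + 1)) (𝓝 0) (𝓝 (0 ^ (k + 1))) :=
    (continuous_pow (k + 1)).tendsto 0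
  rw [zero_pow (by omega)] at h1
  exact (tendsto_nhdsWithin_of_tendsto_nhds h1).eventually (ge_mem_nhds hc)

theorem exp_le_q {a c₀ x : ℝ} (k : ℕ) (hx : 0 < x) (hx1 : x ≤ 1) (hc₀ : 0 ≤ c₀) (ha : c₀ ≤ a) :
    Real.exp (-(a / x ^ (k + 1))) ≤ Real.exp (-(c₀ / x)) := by
  refine Real.exp_le_exp.2 (neg_le_neg ?_)
  have h1 : x ^ (k + 1) ≤ x := by
    rw [pow_succ]
    have : x ^ k ≤ 1 := pow_le_one₀ hx.le hx1
    nlinarith
  exact div_le_div₀ (hc₀.trans ha) ha (by positivity) h1

theorem ptA1 {α β l : ℝ} (hα : 0 < α) (hα2 : α < π / 2) (hβ : 0 < β) (hβ2 : β < π / 2)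
    (hl : 0 < l) : ∀ᶠ x : ℝ in 𝓝[>] 0,
    Pt (nv β 0) (Hh 0) ((Hh (0 + α))ᶜ ∩ Hh 0) (Tv β 0 (l * Real.sin β)) l (x ^ 5) (x ^ 10)
      (x ^ 9) (x ^ 6) (x ^ 6 / (10 * x ^ 5)) (4 * x ^ 5 / (l / x ^ 10)) (x ^ 9 / 2)
      (Real.cos β / 4) := by
  have hs : 0 < Real.sin β := Real.sin_pos_of_pos_of_lt_pi hβ (by linarith [Real.pi_pos])
  have hc : 0 < Real.cos β := Real.cos_pos_of_mem_Ioo ⟨by linarith, hβ2⟩
  have hcont : ∀ᶠ x : ℝ in 𝓝[>] 0, Real.sin β / 2 ≤ Real.cos (x / 10) * Real.sin β -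
      Real.sin (x / 10) * |-Real.cos β| := by
    have h1 : Continuous fun x : ℝ => Real.cos (x / 10) * Real.sin β -
      Real.sin (x / 10) * |-Real.cos β| := by fun_prop
    have h2 := h1.tendsto 0
    simp only [zero_div, Real.cos_zero, Real.sin_zero, one_mul, zero_mul, sub_zero] at h2
    exact (tendsto_nhdsWithin_of_tendsto_nhds h2).eventually (le_mem_nhds (half_lt_self hs))
  filter_upwards [self_mem_nhdsWithin, hcont, pow_small 0 (c := 1) (by norm_num),
    pow_small 4 (c := l / 16) (by positivity), pow_small 2 (c := Real.cos β / 2) (by positivity)]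
    with x hx0 hx2 hx3 hx4 hx5
  have hx : 0 < x := hx0
  rw [zero_add, pow_one] at hx3
  have e1 : x ^ 6 / (10 * x ^ 5) = x / 10 := by field_simp
  rw [e1]
  exact
    { ht := by positivity
      hY := by positivity
      hkk := by positivity
      hθ := by positivity
      hθ2 := by
        have := Real.pi_gt_three
        linarith
      hθn := by
        rw [nv0_re, nv0_im]
        exact hx2
      hTt := by positivity
      hTt4 := by
        have e2 : 4 * x ^ 5 / (l / x ^ 10) = 4 * x ^ 5 / l * x ^ 10 := by field_simp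
        have e3 : 4 * x ^ 5 / l ≤ 1 / 4 := by
          rw [div_le_iff₀ hl]
          have : x ^ (4 + 1) = x ^ 5 := rfl
          linarith
        rw [e2]
        have : 4 * x ^ 5 / l * x ^ 10 ≤ 1 / 4 * x ^ 10 := by gcongr
        linarith
      hc := by positivity
      far := by
        intro b hb hbg
        refine ⟨1, by simp, ?_, fun z hz => ?_, ?_⟩
        · rw [Pool.Agent.N275.QD.ip_one, nv0_re]
          linarith
        · rw [Pool.Agent.N275.QD.ip_one]
          exact A_neg hα hα2 hz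
        · rw [Pool.Agent.N275.QD.ip_one]
          have h1 : l * Real.sin β ≤ ip (nv β 0) b := hb.1
          rw [nv0_ip] at h1
          have h2 : 0 < b.im := (Hh0 b).1 hb.2
          have h3 : b.im * Real.cos β ≤ (b.re - l) * Real.sin β := by linarith
          have hs1 := Real.sin_le_one β
          have hc1 := Real.cos_le_one β
          have hrel : l ≤ b.re := by
            have : 0 ≤ (b.re - l) * Real.sin β := le_trans (by positivity) h3
            have := nonneg_of_mul_nonneg_left this hs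
            linarith
          have h4 : b.im * Real.cos β ≤ b.re - l := by nlinarith
          have h5 : l + x ^ 9 < b.re := by
            by_contra hcon
            push Not at hcon
            refine hbg ⟨hb, hcon, ?_⟩
            rw [abs_of_pos h2]
            have h6 : b.im * Real.cos β ≤ x ^ 9 := by linarith
            have h7 : x ^ 9 ≤ x ^ 6 / 2 * Real.cos β := by
              have : x ^ 9 = x ^ 6 * x ^ (2 + 1) := by ring
              rw [this]
              have h8 : x ^ 6 * x ^ (2 + 1) ≤ x ^ 6 * (Real.cos β / 2) := by gcongr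
              linarith
            exact le_of_mul_le_mul_right (h6.trans h7) hc
          rw [abs_of_nonneg (by linarith : 0 ≤ b.re - l), abs_of_pos h2]
          nlinarith }

/-- the error of type I -/
theorem BtA1 {β l : ℝ} (hβ : 0 < β) (hβ2 : β < π / 2) (hl : 0 < l) : ∀ᶠ x : ℝ in 𝓝[>] 0,
    Bt (nv β 0) l (x ^ 5) (x ^ 5 * Real.sin β) (x ^ 10)
      (x ^ 9) (x ^ 6) (x ^ 6 / (10 * x ^ 5)) (4 * x ^ 5 / (l / x ^ 10)) (x ^ 9 / 2)
      (Real.cos β / 4) ≤ (1 + 2 / l ^ 2) * (16 * l) ^ 2 * (8 + (4 / (l * Real.cos β)) ^ 2) / x ^ 20 *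
        Real.exp (-((l / 100) / x)) := by
  have hs : 0 < Real.sin β := Real.sin_pos_of_pos_of_lt_pi hβ (by linarith [Real.pi_pos])
  have hc : 0 < Real.cos β := Real.cos_pos_of_mem_Ioo ⟨by linarith, hβ2⟩
  filter_upwards [self_mem_nhdsWithin, pow_small 0 (c := 1) (by norm_num),
    pow_small 4 (c := l * Real.sin β ^ 2) (by positivity)] with x hx0 hx3 hx4
  have hx : 0 < x := hx0
  rw [zero_add, pow_one] at hx3
  have hx5 : x ^ 5 ≤ l * Real.sin β ^ 2 := hx4
  have ht : 0 < x ^ 10 := by positivity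
  have hlt : 0 < l / x ^ 10 := by positivity
  have h95 : x ^ 9 ≤ x ^ 5 := pow_le_pow_of_le_one hx.le hx3 (by norm_num)
  refine Bt_le ht hl hx hx3 rfl (Lc_pos (n := nv β 0) (by rw [nv0_re]; exact hs) hl (by positivity)
    ht).le ?_ (by positivity) (by positivity) ?_ ?_ ?_ ?_ ?_ ?_
  · refine (Lc_le hl ht ?_).trans (le_of_eq (by ring))
    rw [nv0_re]
    have e : l / x ^ 10 * Real.sin β * (x ^ 5 * Real.sin β) = l * Real.sin β ^ 2 / x ^ 5 := by
      field_simp
    rw [e, le_div_iff₀ (by positivity)]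
    linarith
  · rw [← pow_add]
    exact pow_le_one₀ hx.le hx3
  · refine (gT_le hlt h95).trans ?_
    have e : 3 / 2 * (l / x ^ 10) * x ^ 5 = (3 / 2 * l) / x ^ (4 + 1) := by
      field_simp
    rw [e]
    exact exp_le_q 4 hx hx3 (by positivity) (by linarith)
  · refine (gY_le hlt (by positivity) h95 (by positivity) ?_).trans ?_
    · have e1 : x ^ 6 / (10 * x ^ 5) = x / 10 := by field_simp
      rw [e1]
      have := Real.pi_gt_three
      linarith
    · have e : 3 / 200 * (l / x ^ 10) * (x ^ 6) ^ 2 / x ^ 5 = (3 / 200 * l) / x ^ (2 + 1) := by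
        field_simp
      rw [e]
      exact exp_le_q 2 hx hx3 (by positivity) (by linarith)
  · have e : 2 * (l / x ^ 10) * (x ^ 9 / 2) = l / x ^ (0 + 1) := by
      rw [zero_add, pow_one]
      field_simp
    rw [e]
    exact exp_le_q 0 hx hx3 (by positivity) (by linarith)
  · have e : 2 * (l / x ^ 10) * x ^ 5 = (2 * l) / x ^ (4 + 1) := by
      field_simp
    rw [e]
    exact exp_le_q 4 hx hx3 (by positivity) (by linarith)
  · have e : x ^ 10 / (l * (Real.cos β / 4)) = x ^ 10 * (4 / (l * Real.cos β)) := by field_simp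
    rw [e, mul_pow]
    have h1 : (x ^ 10) ^ 2 ≤ 1 := pow_le_one₀ ht.le (pow_le_one₀ hx.le hx3)
    have h2 : 0 ≤ (4 / (l * Real.cos β)) ^ 2 := sq_nonneg _
    nlinarith

theorem t1 (hSU : S_SU) (hKR : S_KR) (hBR : S_BR) (hLB : S_LB) (hE1 : S_E1) (hMO : S_MO) :
    S_T1 := by
  intro α α' β l ε hα hα2 hα' hα'2 hβ hβ2 hl hε
  have hs : 0 < Real.sin β := Real.sin_pos_of_pos_of_lt_pi hβ (by linarith [Real.pi_pos])
  have hc : 0 < Real.cos β := Real.cos_pos_of_mem_Ioo ⟨by linarith, hβ2⟩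
  obtain ⟨η, hη, hE⟩ := hE1 α α' l (ε / 2) hα hα2 hα' hα'2 hl (by positivity)
  obtain ⟨k, t₁, ht₁, hlb⟩ := hLB α β l hα hα2 hβ (by linarith) hl
  obtain ⟨k', t₁', ht₁', hlb'⟩ := hLB α' β l hα' hα'2 hβ (by linarith) hl
  set r := mm 2 α / mm 2 α' with hr
  set cc := mm 4 α / mm 2 α - mm 4 α' / mm 2 α' with hcc
  have hr0 : 0 < r := div_pos (hMO.2.1 2 α hα hα2).2 (hMO.2.1 2 α' hα' hα'2).2
  set CB := (1 + 2 / l ^ 2) * (16 * l) ^ 2 * (8 + (4 / (l * Real.cos β)) ^ 2) with hCB
  set c₀ := min (l / 100) 1 with hc₀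
  have hc₀0 : 0 < c₀ := lt_min (by positivity) one_pos
  refine root10 (P := fun t => ∀ᶠ M : ℕ in atTop, |Nn α β l t M - r * (1 - t / l ^ 2 * cc) *
    Nn α' β l t M| ≤ ε * t * Nn α' β l t M) ?_
  have e1 := exp_small hc₀0 (4 * π * (2 * r + 2) * (CB + 1)) 20 (10 * k') (half_pos hε)
  have e2 := pow_small 9 (c := η / 2) (by positivity)
  have e3 := pow_small 9 (c := t₁ / 2) (by positivity)
  have e4 := pow_small 9 (c := t₁' / 2) (by positivity)
  have e5 := pow_small 1 (c := η) (by positivity)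
  have e6 := pow_small 4 (c := η * l / 8) (by positivity)
  have e7 := pow_small 4 (c := η / 2) (by positivity)
  have e8 := pow_small 4 (c := l / 8) (by positivity)
  have e9 := pow_small 9 (c := l ^ 2 / (2 * (|cc| + 1))) (by positivity)
  have e10 := pow_small 9 (c := r / ε) (by positivity)
  have e11 := pow_small 9 (c := 1 / ε) (by positivity)
  have hsα : 0 < Real.sin (π / 2 - α) := Real.sin_pos_of_pos_of_lt_pi (by linarith)
    (by linarith [Real.pi_pos])
  have hsα' : 0 < Real.sin (π / 2 - α') := Real.sin_pos_of_pos_of_lt_pi (by linarith)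
    (by linarith [Real.pi_pos])
  have e12 := pow_small 5 (c := 3 / 8 * l * Real.sin (π / 2 - α)) (by positivity)
  have e13 := pow_small 5 (c := 3 / 8 * l * Real.sin (π / 2 - α')) (by positivity)
  filter_upwards [self_mem_nhdsWithin, pow_small 0 (c := 1) (by norm_num), e1, e2, e3, e4, e5, e6,
    e7, e8, e9, e10, e11, e12, e13, ptA1 hα hα2 hβ hβ2 hl, ptA1 hα' hα'2 hβ hβ2 hl,
    BtA1 hβ hβ2 hl] with x hx0 hx1 e1 e2 e3 e4 e5 e6 e7 e8 e9 e10 e11 e12 e13 p p' hB
  have hx : 0 < x := hx0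
  rw [zero_add, pow_one] at hx1
  set t := x ^ 10 with htdef
  have ht : 0 < t := by positivity
  have ht2 : t ≤ η / 2 := e2
  have ht1 : t ≤ 1 := pow_le_one₀ hx.le hx1
  have hδ : 0 < x ^ 5 := by positivity
  have hδl : x ^ 5 ≤ l / 8 := e8
  have glo := gloA (α := α) (β := β) hα hα2 hβ hβ2.le hl hδ hδl
  have glo' := gloA (α := α') (β := β) hα' hα'2 hβ hβ2.le hl hδ hδl
  set q₀ := Real.exp (-(1 / x)) with hq₀
  have hq₀0 : 0 < q₀ := Real.exp_pos _
  have f1 := fixed_t hSU hKR hα le_rfl (by linarith : (0 : ℝ) + α < π / 2) glo p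
    (Kc_compact l (x ^ 5) (x ^ 6)) (Kc_sub l (x ^ 5) (x ^ 6)) (Kc_arg hl hδl hα2 hα (by
      have : x ^ (5 + 1) = x ^ 6 := rfl
      have : 0 < 3 / 8 * l * Real.sin (π / 2 - α) := by positivity
      linarith)) hq₀0
  have f2 := fixed_t hSU hKR hα' le_rfl (by linarith : (0 : ℝ) + α' < π / 2) glo' p'
    (Kc_compact l (x ^ 5) (x ^ 6)) (Kc_sub l (x ^ 5) (x ^ 6)) (Kc_arg hl hδl hα'2 hα' (by
      have : x ^ (5 + 1) = x ^ 6 := rfl
      have : 0 < 3 / 8 * l * Real.sin (π / 2 - α') := by positivity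
      linarith)) hq₀0
  have hlbt := (tendsto_add_atTop_nat 1).eventually (hlb t ht (by
    have : x ^ (9 + 1) = t := rfl
    linarith))
  have hlbt' := (tendsto_add_atTop_nat 1).eventually (hlb' t ht (by
    have : x ^ (9 + 1) = t := rfl
    linarith))
  have main : ∀ᶠ m : ℕ in atTop, |Nn α β l t (m + 1) - r * (1 - t / l ^ 2 * cc) *
      Nn α' β l t (m + 1)| ≤ ε * t * Nn α' β l t (m + 1) := by
    filter_upwards [f1, f2, hlbt, hlbt', p.par] with m f1 f2 g1 g2 hp
    have hdd : dd β l = l := by unfold dd; rw [if_pos hβ2.le]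
    rw [hdd] at g1 g2
    have hN : 0 ≤ Nn α β l t (m + 1) := le_trans (by positivity) g1
    have hN' : 0 ≤ Nn α' β l t (m + 1) := le_trans (by positivity) g2
    set B := Bt (nv β 0) l (x ^ 5) (x ^ 5 * Real.sin β) t (x ^ 9) (x ^ 6) (x ^ 6 / (10 * x ^ 5))
      (4 * x ^ 5 / (l / t)) (x ^ 9 / 2) (Real.cos β / 4) with hBdef
    set ρ := r * (1 - t / l ^ 2 * cc) with hρ
    have htl : t ≤ l ^ 2 / (2 * (|cc| + 1)) := e9
    have hcct : |t / l ^ 2 * cc| ≤ 1 / 2 := by
      rw [abs_mul, abs_of_pos (by positivity : 0 < t / l ^ 2)]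
      have h1 : t / l ^ 2 ≤ 1 / (2 * (|cc| + 1)) := by
        rw [div_le_div_iff₀ (by positivity) (by positivity)]
        rw [le_div_iff₀ (by positivity)] at htl
        linarith
      calc t / l ^ 2 * |cc| ≤ 1 / (2 * (|cc| + 1)) * (|cc| + 1) := by
            gcongr
            linarith
        _ = 1 / 2 := by field_simp
    rw [abs_le] at hcct
    have hρ1 : r / 2 ≤ ρ := by
      rw [hρ]
      nlinarith
    have hρ2 : ρ ≤ 2 * r := by
      rw [hρ]
      nlinarith
    have htr : t ≤ r / ε := e10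
    have hte : t ≤ 1 / ε := e11
    rw [le_div_iff₀ hε] at htr hte
    have hs0 : 0 < t / ((m : ℝ) + 1) := by positivity
    have hB0 : 0 ≤ B := by
      have hgT : 0 < gT (l / t) (x ^ 9) (x ^ 5) (4 * x ^ 5 / (l / t)) := Real.exp_pos _
      have hgY : 0 < gY (l / t) (x ^ 9) (x ^ 5) (x ^ 6) (x ^ 6 / (10 * x ^ 5)) := Real.exp_pos _
      rw [hBdef]
      unfold Bt
      positivity
    set err := Real.exp (-(l ^ 2 / t)) * (B + q₀) with herr
    have herr0 : 0 ≤ err := by positivity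
    -- comparison of the kernels
    have hcmp : ∀ i < Nt t (4 * x ^ 5 / (l / t)) m, ∀ j < Nt t (4 * x ^ 5 / (l / t)) m,
        ∀ u ∈ Hh 0 ∩ Sg l (x ^ 5) (x ^ 6), ∀ v ∈ Hh 0 ∩ Sg l (x ^ 5) (x ^ 6),
        |Gf α (((m - 1 - i - 1 - j : ℕ) + 1) * (t / (m + 1))) u v - ρ *
          Gf α' (((m - 1 - i - 1 - j : ℕ) + 1) * (t / (m + 1))) u v| ≤
          ε / 2 * t * Gf α' (((m - 1 - i - 1 - j : ℕ) + 1) * (t / (m + 1))) u v := by
      intro i hi j hj u hu v hv
      have h1 := hp.mid hi hj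
      have h5 : 0 < ((i : ℝ) + 1) * (t / (m + 1)) := by positivity
      have h6 : 0 < ((j : ℝ) + 1) * (t / (m + 1)) := by positivity
      have hTt : 2 * (4 * x ^ 5 / (l / t)) ≤ η * t := by
        have e : 2 * (4 * x ^ 5 / (l / t)) = 8 * x ^ 5 / l * t := by
          field_simp
          ring
        rw [e]
        gcongr
        rw [div_le_iff₀ hl]
        have : x ^ (4 + 1) = x ^ 5 := rfl
        linarith
      have hY2 : (x ^ 6) ^ 2 ≤ η * t := by
        have e : (x ^ 6) ^ 2 = x ^ (1 + 1) * t := by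
          rw [htdef]
          ring
        rw [e]
        gcongr
      have key := hE t (((m - 1 - i - 1 - j : ℕ) + 1) * (t / (m + 1))) u.re v.re u.im v.im ht
        (by linarith) (by
          rw [abs_le]
          constructor
          · linarith [h1.1]
          · have : 0 < η * t := by positivity
            linarith [h1.2]) (by
          have := hu.2.1
          have := hu.2.2.1
          have : x ^ (4 + 1) = x ^ 5 := rfl
          rw [abs_le]
          constructor <;> linarith) (by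
          have := hv.2.1
          have := hv.2.2.1
          have : x ^ (4 + 1) = x ^ 5 := rfl
          rw [abs_le]
          constructor <;> linarith) ((Hh0 u).1 hu.1) (by
          have := hu.2.2.2
          have h7 := (Hh0 u).1 hu.1
          have h8 := (abs_lt.1 this).2
          exact (pow_le_pow_left₀ h7.le h8.le 2).trans hY2) ((Hh0 v).1 hv.1) (by
          have := hv.2.2.2
          have h7 := (Hh0 v).1 hv.1
          have h8 := (abs_lt.1 this).2
          exact (pow_le_pow_left₀ h7.le h8.le 2).trans hY2)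
      rw [Complex.re_add_im, Complex.re_add_im] at key
      exact key.2
    have hpos : ∀ i < Nt t (4 * x ^ 5 / (l / t)) m, ∀ j < Nt t (4 * x ^ 5 / (l / t)) m,
        ∀ u ∈ Hh 0 ∩ Sg l (x ^ 5) (x ^ 6), ∀ v ∈ Hh 0 ∩ Sg l (x ^ 5) (x ^ 6),
        0 ≤ Gf α' (((m - 1 - i - 1 - j : ℕ) + 1) * (t / (m + 1))) u v := by
      intro i hi j hj u hu v hv
      have h1 := (abs_nonneg _).trans (hcmp i hi j hj u hu v hv)
      exact nonneg_of_mul_nonneg_right h1 (by positivity)
    have m1 : Mn (Gk α 0 (t / (m + 1))) (nv β 0) (Hh 0) (Tv β 0 (l * Real.sin β)) l (x ^ 5) (x ^ 9)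
        (x ^ 6) (t / (m + 1)) m (Nt t (4 * x ^ 5 / (l / t)) m) ≤ ENNReal.ofReal (ρ + ε / 2 * t) *
        Mn (Gk α' 0 (t / (m + 1))) (nv β 0) (Hh 0) (Tv β 0 (l * Real.sin β)) l (x ^ 5) (x ^ 9)
        (x ^ 6) (t / (m + 1)) m (Nt t (4 * x ^ 5 / (l / t)) m) := by
      rw [← Mn_mul _ ENNReal.ofReal_ne_top]
      refine Mn_mono glo fun i hi j hj u hu v hv => ?_
      have h1 := hcmp i hi j hj u hu v hv
      rw [abs_le] at h1
      unfold Gk
      rw [← ENNReal.ofReal_mul (by
        have : 0 < ε / 2 * t := by positivity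
        linarith), Gr0, Gr0]
      refine ENNReal.ofReal_le_ofReal ?_
      linarith [h1.2]
    have m2 : ENNReal.ofReal (ρ - ε / 2 * t) *
        Mn (Gk α' 0 (t / (m + 1))) (nv β 0) (Hh 0) (Tv β 0 (l * Real.sin β)) l (x ^ 5) (x ^ 9)
        (x ^ 6) (t / (m + 1)) m (Nt t (4 * x ^ 5 / (l / t)) m) ≤ Mn (Gk α 0 (t / (m + 1)))
        (nv β 0) (Hh 0) (Tv β 0 (l * Real.sin β)) l (x ^ 5) (x ^ 9)
        (x ^ 6) (t / (m + 1)) m (Nt t (4 * x ^ 5 / (l / t)) m) := by
      rw [← Mn_mul _ ENNReal.ofReal_ne_top]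
      refine Mn_mono glo fun i hi j hj u hu v hv => ?_
      have h1 := hcmp i hi j hj u hu v hv
      rw [abs_le] at h1
      unfold Gk
      rw [← ENNReal.ofReal_mul (by linarith), Gr0, Gr0]
      refine ENNReal.ofReal_le_ofReal ?_
      linarith [h1.1]
    have fin := combine (c₀ := 4 * π * t) (ρ := ρ) (η := ε / 2 * t) hN hN' (by positivity) herr0
      herr0 (by positivity) (by linarith) (con (φ := 0) hBR hα hβ (by linarith) hl ht m)
      (con (φ := 0) hBR hα' hβ (by linarith) hl ht m) f1.1 f1.2 f2.1 f2.2 m1 m2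
    refine fin.trans ?_
    -- the errors are small
    have hq : B + q₀ ≤ (CB + 1) / x ^ 20 * Real.exp (-(c₀ / x)) := by
      have h1 : Real.exp (-((l / 100) / x)) ≤ Real.exp (-(c₀ / x)) := by
        refine Real.exp_le_exp.2 (neg_le_neg ?_)
        gcongr
        exact min_le_left _ _
      have h2 : q₀ ≤ Real.exp (-(c₀ / x)) := by
        refine Real.exp_le_exp.2 (neg_le_neg ?_)
        gcongr
        exact min_le_right _ _
      have hCB0 : 0 ≤ CB := by positivity
      have h3 : CB / x ^ 20 * Real.exp (-((l / 100) / x)) ≤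
          CB / x ^ 20 * Real.exp (-(c₀ / x)) := by gcongr
      have h4 : q₀ ≤ 1 / x ^ 20 * Real.exp (-(c₀ / x)) := by
        refine h2.trans (le_mul_of_one_le_left (Real.exp_pos _).le ?_)
        rw [le_div_iff₀ (by positivity), one_mul]
        exact pow_le_one₀ hx.le hx1
      have h5 : (CB + 1) / x ^ 20 * Real.exp (-(c₀ / x)) = CB / x ^ 20 * Real.exp (-(c₀ / x)) +
          1 / x ^ 20 * Real.exp (-(c₀ / x)) := by ring
      rw [h5]
      exact add_le_add (hB.trans h3) h4
    have hfin : 4 * π * t * ((ρ + ε / 2 * t) * err + err) ≤ ε / 2 * t * Nn α' β l t (m + 1) := by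
      have h1 : (ρ + ε / 2 * t) * err + err ≤ (2 * r + 2) * err := by
        have h2 : ρ + ε / 2 * t + 1 ≤ 2 * r + 2 := by linarith
        calc (ρ + ε / 2 * t) * err + err = (ρ + ε / 2 * t + 1) * err := by ring
          _ ≤ _ := by gcongr
      have h3 : (4 * π * (2 * r + 2)) * (B + q₀) ≤ ε / 2 * t ^ k' := by
        calc (4 * π * (2 * r + 2)) * (B + q₀) ≤ (4 * π * (2 * r + 2)) * ((CB + 1) / x ^ 20 *
              Real.exp (-(c₀ / x))) := by gcongr
          _ = 4 * π * (2 * r + 2) * (CB + 1) / x ^ 20 * Real.exp (-(c₀ / x)) := by ring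
          _ ≤ ε / 2 * x ^ (10 * k') := e1
          _ = ε / 2 * t ^ k' := by rw [htdef, ← pow_mul]
      calc 4 * π * t * ((ρ + ε / 2 * t) * err + err) ≤ 4 * π * t * ((2 * r + 2) * err) := by
            gcongr
        _ = t * (((4 * π * (2 * r + 2)) * (B + q₀)) * Real.exp (-(l ^ 2 / t))) := by
            rw [herr]
            ring
        _ ≤ t * ((ε / 2 * t ^ k') * Real.exp (-(l ^ 2 / t))) := by gcongr
        _ = ε / 2 * t * (t ^ k' * Real.exp (-(l ^ 2 / t))) := by ring
        _ ≤ ε / 2 * t * Nn α' β l t (m + 1) := by gcongr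
    have e : ε * t * Nn α' β l t (m + 1) = ε / 2 * t * Nn α' β l t (m + 1) +
        ε / 2 * t * Nn α' β l t (m + 1) := by ring
    linarith
  rw [eventually_atTop] at main ⊢
  obtain ⟨m₀, hm₀⟩ := main
  refine ⟨m₀ + 1, fun M hM => ?_⟩
  obtain ⟨m, rfl⟩ : ∃ m, M = m + 1 := ⟨M - 1, by omega⟩
  exact hm₀ m (by omega)

end Pool.Agent.N275.QD
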