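import Pool.Agent.N275.QD.Side

set_option autoImplicit false

/-!
# Project QD: an acute interior angle
-/

namespace Pool.Agent.N275.QD

open MeasureTheory Set Filter Topology Complex
open Pool.Agent.R225.LP (gk ks ip ip_self gk_nonneg)
open scoped Real ENNReal ComplexConjugate

/-- lower bound of the contribution in terms of `x` -/
theorem lbx (hLB : S_LB) {α φ d : ℝ} (hα : 0 < α) (hφ : 0 < φ) (hαφ : φ + α < π / 2)
    (hd : 0 < d) : ∃ k : ℕ, ∀ᶠ x : ℝ in 𝓝[>] 0, ∀ᶠ m : ℕ in atTop,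
      (x ^ 10) ^ k * Real.exp (-(d ^ 2 / x ^ 10)) ≤
        Nn α (π / 2 + φ) (d / Real.cos φ) (x ^ 10) (m + 1) := by
  have hpi := Real.pi_gt_three
  have hφ2 : φ < π / 2 := by linarith
  have hcos : 0 < Real.cos φ := Real.cos_pos_of_mem_Ioo ⟨by linarith, hφ2⟩
  obtain ⟨k, t₁, ht₁, hlb⟩ := hLB α (π / 2 + φ) (d / Real.cos φ) hα (by linarith) (by linarith)
    (by linarith) (by positivity)
  refine ⟨k, ?_⟩
  filter_upwards [self_mem_nhdsWithin, pow_small 9 (c := t₁ / 2) (by positivity)] with x hx0 hx1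
  have hx : 0 < x := hx0
  have hx1' : x ^ 10 ≤ t₁ / 2 := hx1
  have h1 := (tendsto_add_atTop_nat 1).eventually (hlb (x ^ 10) (by positivity) (by linarith))
  filter_upwards [h1] with m hm
  have hdd : dd (π / 2 + φ) (d / Real.cos φ) = d := by
    unfold dd
    rw [if_neg (by linarith)]
    have h1 : Real.sin (π / 2 + φ) = Real.cos φ := by
      rw [add_comm, Real.sin_add_pi_div_two]
    rw [h1]
    field_simp
  rwa [hdd] at hm

theorem Df_pos (hMO : S_MO) {α φ : ℝ} (hα : 0 < α) (hφ : 0 < φ) (hαφ : φ + α < π / 2) :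
    0 < Df α φ := by
  have h1 := hMO.2.2.2.2 α hα
  have h2 := h1.1 (⟨le_rfl, by linarith⟩ : (0 : ℝ) ∈ Ico 0 (π / 2 - α))
    (⟨hφ.le, by linarith⟩ : φ ∈ Ico 0 (π / 2 - α)) hφ
  rwa [h1.2] at h2

/-- control of the reference quantity -/
theorem P_le {N P c D e κ' t : ℝ} (hP : 0 ≤ P) (hD : 0 < D) (hc : D ≤ c)
    (het : e * t ≤ D / 2) (h : |N - P * c| ≤ P * (e * t) + κ') (hκ : κ' ≤ N) :
    P ≤ 4 / D * N := by
  rw [abs_le] at h
  have h1 : P * c - P * (e * t) ≤ 2 * N := by linarith [h.1]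
  have h2 : P * D ≤ P * c := by gcongr
  have h3 : P * (e * t) ≤ P * (D / 2) := by gcongr
  rw [div_mul_eq_mul_div, le_div_iff₀ hD]
  linarith

theorem t3 (hSU : S_SU) (hKR : S_KR) (hBR : S_BR) (hLB : S_LB) (hE3 : S_E3) (hMO : S_MO)
    (hGW : S_GW) (hKF : S_KF) : S_T3 := by
  intro α φ α' φ' d ε hα hφ hαφ hα' hφ' hαφ' hd hε
  have hpi := Real.pi_gt_three
  have hD := Df_pos hMO hα hφ hαφ
  have hD' := Df_pos hMO hα' hφ' hαφ'
  have hm := (hMO.2.1 2 α hα (by linarith)).2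
  have hm' := (hMO.2.1 2 α' hα' (by linarith)).2
  set D := Df α φ with hDdef
  set D' := Df α' φ' with hDdef'
  set C := D + 1 / (2 * d ^ 2) * mm 2 α + (D' + 1 / (2 * d ^ 2) * mm 2 α') with hC
  have hC0 : 0 < C := by positivity
  obtain ⟨k, hk⟩ := lbx hLB hα hφ hαφ hd
  obtain ⟨k', hk'⟩ := lbx hLB hα' hφ' hαφ' hd
  set ε₁ := ε * D / (16 * C) with hε₁
  have hε₁0 : 0 < ε₁ := by positivity
  set κ := min 1 (ε / (4 * C)) with hκ
  have hκ0 : 0 < κ := by positivity
  have hκ1 : κ ≤ 1 := min_le_left _ _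
  have hκ2 : κ ≤ ε / (4 * C) := min_le_right _ _
  have hN0 : ∀ᶠ x : ℝ in 𝓝[>] 0, ∀ᶠ m : ℕ in atTop,
      0 ≤ Nn α (π / 2 + φ) (d / Real.cos φ) (x ^ 10) (m + 1) := by
    filter_upwards [hk, self_mem_nhdsWithin] with x hx hx0
    have hx0' : 0 < x := hx0
    filter_upwards [hx] with m hm
    exact le_trans (by positivity) hm
  have hN0' : ∀ᶠ x : ℝ in 𝓝[>] 0, ∀ᶠ m : ℕ in atTop,
      0 ≤ Nn α' (π / 2 + φ') (d / Real.cos φ') (x ^ 10) (m + 1) := by
    filter_upwards [hk', self_mem_nhdsWithin] with x hx hx0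
    have hx0' : 0 < x := hx0
    filter_upwards [hx] with m hm
    exact le_trans (by positivity) hm
  obtain ⟨δ₀, hδ₀, hs⟩ := side hSU hKR hBR hE3 hMO hGW hKF hα hφ hαφ hd hε₁0 hκ0 (k + 1) hN0
  obtain ⟨δ₀', hδ₀', hs'⟩ := side hSU hKR hBR hE3 hMO hGW hKF hα' hφ' hαφ' hd hε₁0 hκ0 (k + 1) hN0'
  set δ := min δ₀ δ₀' with hδ
  have hδ0 : 0 < δ := lt_min hδ₀ hδ₀'
  refine root10 (P := fun t => ∀ᶠ M : ℕ in atTop,
    |Nn α (π / 2 + φ) (d / Real.cos φ) t M * (D' + t / (2 * d ^ 2) * mm 2 α') -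
      Nn α' (π / 2 + φ') (d / Real.cos φ') t M * (D + t / (2 * d ^ 2) * mm 2 α)| ≤
      ε * t * Nn α (π / 2 + φ) (d / Real.cos φ) t M) ?_
  filter_upwards [self_mem_nhdsWithin, pow_small 0 (c := 1) (by norm_num), hk,
    hs δ hδ0 (min_le_left _ _), hs' δ hδ0 (min_le_right _ _),
    pow_small 9 (c := D / (2 * ε₁)) (by positivity)] with x hx0 hx1 hk h1 h2 h3
  have hx : 0 < x := hx0
  rw [zero_add, pow_one] at hx1
  set t := x ^ 10 with htdef
  have ht : 0 < t := by positivity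
  have ht1 : t ≤ 1 := pow_le_one₀ hx.le hx1
  have h3' : t ≤ D / (2 * ε₁) := h3
  have main : ∀ᶠ m : ℕ in atTop,
      |Nn α (π / 2 + φ) (d / Real.cos φ) t (m + 1) * (D' + t / (2 * d ^ 2) * mm 2 α') -
      Nn α' (π / 2 + φ') (d / Real.cos φ') t (m + 1) * (D + t / (2 * d ^ 2) * mm 2 α)| ≤
      ε * t * Nn α (π / 2 + φ) (d / Real.cos φ) t (m + 1) := by
    filter_upwards [hk, h1, h2] with m hk h1 h2
    set N := Nn α (π / 2 + φ) (d / Real.cos φ) t (m + 1) with hNdef
    set N' := Nn α' (π / 2 + φ') (d / Real.cos φ') t (m + 1) with hNdef'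
    set P := 4 * π * t * (ZZ d δ x m).toReal with hP
    have hP0 : 0 ≤ P := by positivity
    set c := D + t / (2 * d ^ 2) * mm 2 α with hc
    set c' := D' + t / (2 * d ^ 2) * mm 2 α' with hc'
    set E := Real.exp (-(d ^ 2 / t)) with hE
    have hE0 : 0 < E := Real.exp_pos _
    have hN0 : 0 ≤ N := le_trans (by positivity) hk
    have hκN : κ * t ^ (k + 1) * E ≤ κ * t * N := by
      calc κ * t ^ (k + 1) * E = κ * t * (t ^ k * E) := by ring
        _ ≤ _ := by gcongr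
    have hκN1 : κ * t ^ (k + 1) * E ≤ N := by
      refine hκN.trans ?_
      have : κ * t ≤ 1 * 1 := by gcongr
      nlinarith
    have g1 : |N - P * c| ≤ P * (ε₁ * t) + κ * t ^ (k + 1) * E := by
      have e1 : P * c = 4 * π * t * c * (ZZ d δ x m).toReal := by rw [hP]; ring
      have e2 : P * (ε₁ * t) = 4 * π * t * (ε₁ * t) * (ZZ d δ x m).toReal := by rw [hP]; ring
      rw [e1, e2]
      exact h1.2
    have g2 : |N' - P * c'| ≤ P * (ε₁ * t) + κ * t ^ (k + 1) * E := by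
      have e1 : P * c' = 4 * π * t * c' * (ZZ d δ x m).toReal := by rw [hP]; ring
      have e2 : P * (ε₁ * t) = 4 * π * t * (ε₁ * t) * (ZZ d δ x m).toReal := by rw [hP]; ring
      rw [e1, e2]
      exact h2.2
    have hcD : D ≤ c := by
      have : 0 ≤ t / (2 * d ^ 2) * mm 2 α := by positivity
      linarith
    have hc0 : 0 ≤ c := hD.le.trans hcD
    have hc0' : 0 ≤ c' := by positivity
    have hcC : c + c' ≤ C := by
      have e1 : t / (2 * d ^ 2) * mm 2 α ≤ 1 / (2 * d ^ 2) * mm 2 α := by gcongr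
      have e2 : t / (2 * d ^ 2) * mm 2 α' ≤ 1 / (2 * d ^ 2) * mm 2 α' := by gcongr
      linarith
    have hPN := P_le hP0 hD hcD (by
      have : ε₁ * t ≤ ε₁ * (D / (2 * ε₁)) := by gcongr
      have e : ε₁ * (D / (2 * ε₁)) = D / 2 := by field_simp
      linarith) g1 hκN1
    have e1 : N * c' - N' * c = (N - P * c) * c' - (N' - P * c') * c := by ring
    have e2 : |N * c' - N' * c| ≤ (P * (ε₁ * t) + κ * t ^ (k + 1) * E) * (c + c') := by
      rw [e1]
      refine (abs_sub _ _).trans ?_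
      rw [abs_mul, abs_mul, abs_of_nonneg hc0, abs_of_nonneg hc0']
      have a1 : |N - P * c| * c' ≤ (P * (ε₁ * t) + κ * t ^ (k + 1) * E) * c' := by gcongr
      have a2 : |N' - P * c'| * c ≤ (P * (ε₁ * t) + κ * t ^ (k + 1) * E) * c := by gcongr
      linarith
    refine e2.trans ?_
    calc (P * (ε₁ * t) + κ * t ^ (k + 1) * E) * (c + c') ≤
          ((4 / D * N) * (ε₁ * t) + κ * t * N) * C := by gcongr
      _ ≤ ((4 / D * N) * (ε₁ * t) + ε / (4 * C) * t * N) * C := by gcongr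
      _ = ε / 2 * t * N := by
          rw [hε₁]
          field_simp
          ring
      _ ≤ _ := by
          have : 0 ≤ ε * t * N := by positivity
          linarith
  rw [eventually_atTop] at main ⊢
  obtain ⟨m₀, hm₀⟩ := main
  refine ⟨m₀ + 1, fun M hM => ?_⟩
  obtain ⟨m, rfl⟩ : ∃ m, M = m + 1 := ⟨M - 1, by omega⟩
  exact hm₀ m (by omega)

theorem t2 (hSU : S_SU) (hKR : S_KR) (hBR : S_BR) (hLB : S_LB) (hE2 : S_E2) (hE3 : S_E3)
    (hMO : S_MO) (hGW : S_GW) (hKF : S_KF) : S_T2 := by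
  intro α α' φ' d ε hα hα2 hα' hφ' hαφ' hd hε
  have hpi := Real.pi_gt_three
  have hD' := Df_pos hMO hα' hφ' hαφ'
  have hm' := (hMO.2.1 2 α' hα' (by linarith)).2
  set D' := Df α' φ' with hDdef'
  obtain ⟨k', hk'⟩ := lbx hLB hα' hφ' hαφ' hd
  set ε₂ := ε * D' / 16 with hε₂
  have hε₂0 : 0 < ε₂ := by positivity
  obtain ⟨η, hη, hE⟩ := hE2 α d ε₂ hα hα2 hd hε₂0
  set κ := min 1 (ε / 4) with hκ
  have hκ0 : 0 < κ := by positivity
  have hκ1 : κ ≤ 1 := min_le_left _ _
  have hκ2 : κ ≤ ε / 4 := min_le_right _ _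
  have hN0' : ∀ᶠ x : ℝ in 𝓝[>] 0, ∀ᶠ m : ℕ in atTop,
      0 ≤ Nn α' (π / 2 + φ') (d / Real.cos φ') (x ^ 10) (m + 1) := by
    filter_upwards [hk', self_mem_nhdsWithin] with x hx hx0
    have hx0' : 0 < x := hx0
    filter_upwards [hx] with m hm
    exact le_trans (by positivity) hm
  obtain ⟨δ₀', hδ₀', hs'⟩ := side hSU hKR hBR hE3 hMO hGW hKF hα' hφ' hαφ' hd
    (one_pos : (0 : ℝ) < 1) hκ0 k' hN0'
  set δ := min δ₀' (min (d / 16) (η / 4)) with hδdef
  have hδ : 0 < δ := by positivity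
  have hδl : δ ≤ d / 16 := (min_le_right _ _).trans (min_le_left _ _)
  have hδη : δ ≤ η / 4 := (min_le_right _ _).trans (min_le_right _ _)
  refine root10 (P := fun t => ∀ᶠ M : ℕ in atTop, Nn α (π / 2) d t M ≤
    ε * Nn α' (π / 2 + φ') (d / Real.cos φ') t M) ?_
  set CB := (1 + 2 / d ^ 2) * (16 * d) ^ 2 * (8 + 1600) with hCB
  have hCB0 : 0 ≤ CB := by positivity
  set c₁ := min (3 / 2 * d * δ) (min (3 * d / (200 * δ)) (1 / 50)) with hc₁
  have hc₁0 : 0 < c₁ := by positivity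
  have e1 := err_small hc₁0 hCB0 (R := 4 * π) (by positivity) hκ0 k'
  have hsα : 0 < Real.sin (π / 2 - α) := Real.sin_pos_of_pos_of_lt_pi (by linarith)
    (by linarith [Real.pi_pos])
  filter_upwards [self_mem_nhdsWithin, pow_small 0 (c := 1) (by norm_num), e1, hk',
    hs' δ hδ (min_le_left _ _), pow_small 9 (c := D' / 2) (by positivity),
    pow_small 9 (c := η / 2) (by positivity), pow_small 3 (c := η) (by positivity),
    pow_small 3 (c := 3 / 8 * d * Real.sin (π / 2 - α)) (by positivity),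
    ptB (φ := 0) hα le_rfl (by linarith) hd hδ hδl, BtB (φ := 0) hd hδ]
    with x hx0 hx1 e1 hk h2 h3 e2 e3 e4 p hB
  have hx : 0 < x := hx0
  rw [zero_add, pow_one] at hx1
  set t := x ^ 10 with htdef
  have ht : 0 < t := by positivity
  have ht1 : t ≤ 1 := pow_le_one₀ hx.le hx1
  have ht2 : t ≤ η / 2 := e2
  have h3' : t ≤ D' / 2 := h3
  have glo := gloB (α := α) (φ := 0) hα le_rfl (by linarith) hd hδ (by linarith)
  set q₀ := Real.exp (-(1 / x)) with hq₀
  have hq₀0 : 0 < q₀ := Real.exp_pos _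
  have f1 := fixed_t hSU hKR hα le_rfl (by linarith : (0 : ℝ) + α < π / 2) glo p
    (Kc_compact d δ (x ^ 4)) (Kc_sub d δ (x ^ 4)) (Kc_arg hd (by linarith) hα2 hα (by
      have : x ^ (3 + 1) = x ^ 4 := rfl
      have : 0 < 3 / 8 * d * Real.sin (π / 2 - α) := by positivity
      linarith)) hq₀0
  have main : ∀ᶠ m : ℕ in atTop, Nn α (π / 2) d t (m + 1) ≤
      ε * Nn α' (π / 2 + φ') (d / Real.cos φ') t (m + 1) := by
    filter_upwards [hk, h2, f1, p.par] with m hk h2 f1 hp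
    set N := Nn α (π / 2) d t (m + 1) with hNdef
    set N' := Nn α' (π / 2 + φ') (d / Real.cos φ') t (m + 1) with hNdef'
    set P := 4 * π * t * (ZZ d δ x m).toReal with hP
    have hP0 : 0 ≤ P := by positivity
    set c' := D' + t / (2 * d ^ 2) * mm 2 α' with hc'
    set E := Real.exp (-(d ^ 2 / t)) with hEE
    have hE0 : 0 < E := Real.exp_pos _
    have hN0 : 0 ≤ N' := le_trans (by positivity) hk
    have hκN : κ * t ^ k' * E ≤ κ * N' := by
      calc κ * t ^ k' * E = κ * (t ^ k' * E) := by ring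
        _ ≤ _ := by gcongr
    have hκN1 : κ * t ^ k' * E ≤ N' := by
      refine hκN.trans ?_
      nlinarith
    have g2 : |N' - P * c'| ≤ P * (1 * t) + κ * t ^ k' * E := by
      have e1 : P * c' = 4 * π * t * c' * (ZZ d δ x m).toReal := by rw [hP]; ring
      have e2 : P * (1 * t) = 4 * π * t * (1 * t) * (ZZ d δ x m).toReal := by rw [hP]; ring
      rw [e1, e2]
      exact h2.2
    have hcD : D' ≤ c' := by
      have : 0 ≤ t / (2 * d ^ 2) * mm 2 α' := by positivity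
      linarith
    have hPN := P_le hP0 hD' hcD (by linarith) g2 hκN1
    set B := Bt (nv (π / 2 + 0) 0) d δ δ t δ (x ^ 4) (x ^ 4 / (10 * δ)) (4 * δ / (d / t))
      (x ^ 8 / (100 * d)) (x ^ 4 / (40 * d)) with hBdef
    have hB0 : 0 ≤ B := Bt_nonneg ht hδ.le (by positivity)
    have hTl : Tv (π / 2 + 0) 0 d = Tv (π / 2) 0 (d * Real.sin (π / 2)) := by
      rw [add_zero, Real.sin_pi_div_two, mul_one]
    have hnl : nv (π / 2 + 0) 0 = nv (π / 2) 0 := by rw [add_zero]
    have c1 := con (φ := 0) hBR hα (by linarith : 0 < π / 2) (by linarith) hd ht m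
    rw [← hTl, ← hnl] at c1
    -- comparison of the kernels
    have m1 : Mn (Gk α 0 (t / (m + 1))) (nv (π / 2 + 0) 0) (Hh 0) (Tv (π / 2 + 0) 0 d) d δ δ
        (x ^ 4) (t / (m + 1)) m (Nt t (4 * δ / (d / t)) m) ≤ ENNReal.ofReal ε₂ *
        ZZ d δ x m := by
      have m2 : Mn (Gk α 0 (t / (m + 1))) (nv (π / 2 + 0) 0) (Hh 0) (Tv (π / 2 + 0) 0 d) d δ δ
          (x ^ 4) (t / (m + 1)) m (Nt t (4 * δ / (d / t)) m) ≤
          Mn (fun k u v => ENNReal.ofReal ε₂ * Tk (t / (m + 1)) k u v) (nv (π / 2 + 0) 0) (Hh 0)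
            (Tv (π / 2 + 0) 0 d) d δ δ (x ^ 4) (t / (m + 1)) m (Nt t (4 * δ / (d / t)) m) := by
        refine Mn_mono glo fun i hi j hj u hu v hv => ?_
        have h1 := hp.mid hi hj
        have h5 : 0 < ((i : ℝ) + 1) * (t / (m + 1)) := by positivity
        have h6 : 0 < ((j : ℝ) + 1) * (t / (m + 1)) := by positivity
        have h4 := p.hTt4
        have key := hE t (((m - 1 - i - 1 - j : ℕ) + 1) * (t / (m + 1))) u.re v.re u.im v.im ht
          (by linarith) (by linarith [h1.1]) (by linarith [h1.2]) (by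
            have := hu.2.1
            have := hu.2.2.1
            rw [abs_le]
            constructor <;> linarith) (by
            have := hv.2.1
            have := hv.2.2.1
            rw [abs_le]
            constructor <;> linarith) ((Hh0 u).1 hu.1) (by
            have := hu.2.2.2
            have h8 := (abs_lt.1 this).2
            have : x ^ (3 + 1) = x ^ 4 := rfl
            linarith) ((Hh0 v).1 hv.1) (by
            have := hv.2.2.2
            have h8 := (abs_lt.1 this).2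
            have : x ^ (3 + 1) = x ^ 4 := rfl
            linarith)
        rw [Complex.re_add_im, Complex.re_add_im] at key
        unfold Gk Tk
        rw [← ENNReal.ofReal_mul hε₂0.le, Gr0]
        exact ENNReal.ofReal_le_ofReal key
      rw [Mn_mul _ ENNReal.ofReal_ne_top] at m2
      exact m2.trans (mul_le_mul_right Mn_le_Ms _)
    have g3 : ENNReal.ofReal N ≤ ENNReal.ofReal (4 * π * t * (ε₂ * (ZZ d δ x m).toReal +
        Real.exp (-(d ^ 2 / t)) * (B + q₀))) := by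
      rw [c1, ENNReal.ofReal_mul (p := 4 * π * t) (by positivity), ENNReal.ofReal_add
        (by positivity) (by positivity), ENNReal.ofReal_mul hε₂0.le, ENNReal.ofReal_toReal h2.1]
      exact mul_le_mul_right (f1.1.trans (add_le_add_left m1 _)) _
    rw [ENNReal.ofReal_le_ofReal_iff (by positivity)] at g3
    have herr : 4 * π * t * (Real.exp (-(d ^ 2 / t)) * (B + q₀)) ≤
        κ * t ^ k' * Real.exp (-(d ^ 2 / t)) := by
      have h3 : 4 * π * (B + q₀) ≤ κ * t ^ k' := e1 B hB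
      calc 4 * π * t * (Real.exp (-(d ^ 2 / t)) * (B + q₀)) =
            t * ((4 * π * (B + q₀)) * Real.exp (-(d ^ 2 / t))) := by ring
        _ ≤ 1 * ((κ * t ^ k') * Real.exp (-(d ^ 2 / t))) := by gcongr
        _ = _ := by ring
    calc N ≤ ε₂ * P + 4 * π * t * (Real.exp (-(d ^ 2 / t)) * (B + q₀)) := by
          rw [hP]
          linarith
      _ ≤ ε₂ * (4 / D' * N') + κ * N' :=
          add_le_add (mul_le_mul_of_nonneg_left hPN hε₂0.le) (herr.trans hκN)
      _ ≤ ε₂ * (4 / D' * N') + ε / 4 * N' := by gcongr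
      _ = ε / 2 * N' := by
          rw [hε₂]
          field_simp
          ring
      _ ≤ _ := by
          have : 0 ≤ ε * N' := by positivity
          linarith
  rw [eventually_atTop] at main ⊢
  obtain ⟨m₀, hm₀⟩ := main
  refine ⟨m₀ + 1, fun M hM => ?_⟩
  obtain ⟨m, rfl⟩ : ∃ m, M = m + 1 := ⟨M - 1, by omega⟩
  exact hm₀ m (by omega)

end Pool.Agent.N275.QD
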