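import Pool.Agent.N275.QD.Trap
import Pool.Agent.N275.QD.T1b
import Pool.Agent.N275.QD.T23
import Pool.Agent.N908.QD.MP
import Pool.Agent.N789.QD.KF
import Pool.Agent.N151.SU
import Pool.Agent.N670.QD.RC
import Pool.Agent.N456.QD.E01
import Pool.Agent.N124.QD.E3
import Pool.Agent.N789.QD.GW4
import Pool.Agent.N868.QD.KR3
import Pool.Agent.N731.QD.LB
import Pool.Agent.N96.QD.N4
import Pool.Agent.N96.QD.SW
import Pool.Agent.N130.QD.QE
import Pool.Agent.N689.QD.HE2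
import Pool.Agent.N689.QD.LU2
import Pool.Agent.N130.QD.PH
import Pool.Agent.N670.QD.BR
import Pool.Agent.N670.QD.MM
import Pool.Agent.N670.QD.IJ
import Pool.Agent.N670.QD.MO

set_option autoImplicit false

/-!
# Project QD: the end
-/

namespace Pool.Agent.N275.QD

open MeasureTheory Set Filter Topology Complex
open Pool.Agent.W780.PG (IsConvexPolygon region ang)
open Pool.Agent.W703.GP (Isospectral iso_trans)
open Pool.Agent.R225.LP (ip co nu sk sd Cg h_TR h_TB)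
open scoped Real ENNReal ComplexConjugate

theorem h_LO : S_LO := Pool.Agent.N689.QD.lo Pool.Agent.N908.QD.mp Pool.Agent.N689.QD.S_HE_proof

theorem h_UP : S_UP := Pool.Agent.N689.QD.up Pool.Agent.N908.QD.mp Pool.Agent.N689.QD.S_HE_proof

theorem h_KR (hLO : S_LO) (hUP : S_UP) : S_KR :=
  Pool.Agent.N868.QD.kr hLO hUP Pool.Agent.N130.QD.ph
    (Pool.Agent.N789.GW.gw Pool.Agent.N908.QD.mp Pool.Agent.N130.QD.ph) Pool.Agent.N789.GW.gc

theorem h_LB (hLO : S_LO) : S_LB :=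
  Pool.Agent.N731.QD.lb Pool.Agent.N670.QD.br hLO Pool.Agent.N130.QD.ph

theorem h_UQ (hLO : S_LO) (hUP : S_UP) : S_UQ := by
  have su := Pool.Agent.N151.SU.su
  have kr := h_KR hLO hUP
  have br := Pool.Agent.N670.QD.br
  have lb := h_LB hLO
  have mo := Pool.Agent.N670.QD.mo
  have gw := Pool.Agent.N789.GW.gw Pool.Agent.N908.QD.mp Pool.Agent.N130.QD.ph
  have kf := Pool.Agent.N789.KF.kf
  exact Pool.Agent.N7.QDUQ.uq (t0 su kr br lb (Pool.Agent.N456.QD.e0 mo) mo)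
    (t1 su kr br lb (Pool.Agent.N456.QD.e1 mo) mo)
    (t2 su kr br lb (Pool.Agent.N456.QD.e2 mo) Pool.Agent.N124.QD.e3 mo gw kf)
    (t3 su kr br lb Pool.Agent.N124.QD.e3 mo gw kf) mo
    (Pool.Agent.N670.QD.ij Pool.Agent.N670.QD.mm') lb br

/-- the main theorem -/
theorem main {p q : Fin (1 + 3) → ℂ} (hp : IsConvexPolygon p)
    (hq : IsConvexPolygon q)
    (hdp : ds p 0 = ds p 1 → ∃ k, sk (nu p) k + sk (nu p) (k + 1) = 0)
    (hdq : ds q 0 = ds q 1 → ∃ k, sk (nu q) k + sk (nu q) (k + 1) = 0)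
    (h : Isospectral (region p) (region q)) :
    Cg (region p) (region q) :=
  trap Pool.Agent.N885.QD.cl Pool.Agent.N885.QD.cd (Pool.Agent.N130.QD.qe Pool.Agent.N885.QD.cd)
    Pool.Agent.N96.QD.n4 (h_UQ h_LO h_UP) Pool.Agent.N670.QD.rc
    (Pool.Agent.N96.QD.sw h_TR h_TB) hp hq hdp hdq h

end Pool.Agent.N275.QD
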