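import Pool.Agent.N275.QD.Fin
import Pool.Agent.W703.GP.Fin4

set_option autoImplicit false

/-!
# Project QD: almost every quadrilateral
-/

namespace Pool.Agent.N275.QD

open MeasureTheory Set Filter Topology Complex
open Pool.Agent.W780.PG (IsConvexPolygon region)
open Pool.Agent.W703.GP hiding nu
open Pool.Agent.R225.LP (ip cr co nu sk sd Cg tz)
open scoped Real ENNReal ComplexConjugate

/-- three quotients, one of which is the square of the distance `dk` -/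
noncomputable def nd (p : Fin (1 + 3) → ℂ) (k : Fin (1 + 3)) : Fin 3 → ℝ × ℝ :=
  ![(((p (k + 1)).re - (p k).re) ^ 2 + ((p (k + 1)).im - (p k).im) ^ 2, 1),
    ((((p k).re - (p (k - 1)).re) * ((p (k + 1)).im - (p k).im) -
      ((p k).im - (p (k - 1)).im) * ((p (k + 1)).re - (p k).re)) ^ 2,
      ((p k).re - (p (k - 1)).re) ^ 2 + ((p k).im - (p (k - 1)).im) ^ 2),
    ((((p (k + 1)).re - (p k).re) * ((p (k + 2)).im - (p (k + 1)).im) -
      ((p (k + 1)).im - (p k).im) * ((p (k + 2)).re - (p (k + 1)).re)) ^ 2,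
      ((p (k + 2)).re - (p (k + 1)).re) ^ 2 + ((p (k + 2)).im - (p (k + 1)).im) ^ 2)]

theorem dk_aux {u v : ℂ} (hu : ‖u‖ = 1) (hv : ‖v‖ = 1) (hc : 0 < cr u v) :
    1 + (-(ip u v / cr u v)) ^ 2 = 1 / cr u v ^ 2 := by
  have h1 := Pool.Agent.N885.QD.sq_one hu
  have h2 := Pool.Agent.N885.QD.sq_one hv
  have h3 : ip u v ^ 2 + cr u v ^ 2 = 1 := by
    have : ip u v ^ 2 + cr u v ^ 2 = (u.re ^ 2 + u.im ^ 2) * (v.re ^ 2 + v.im ^ 2) := by
      simp only [ip, cr]; ring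
    rw [this, h1, h2, one_mul]
  field_simp
  linarith

theorem cr_side {a b : ℂ} (ha : 0 < ‖a‖) (hb : 0 < ‖b‖) :
    cr (-I * (a / (‖a‖ : ℂ))) (-I * (b / (‖b‖ : ℂ))) * (‖a‖ * ‖b‖) = cr a b := by
  have h1 : (-I * (a / (‖a‖ : ℂ))).re = a.im / ‖a‖ := by
    rw [neg_mul, Complex.neg_re, Complex.I_mul_re, Complex.div_ofReal_im, neg_neg]
  have h2 : (-I * (a / (‖a‖ : ℂ))).im = -(a.re / ‖a‖) := by
    rw [neg_mul, Complex.neg_im, Complex.I_mul_im, Complex.div_ofReal_re]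
  have h3 : (-I * (b / (‖b‖ : ℂ))).re = b.im / ‖b‖ := by
    rw [neg_mul, Complex.neg_re, Complex.I_mul_re, Complex.div_ofReal_im, neg_neg]
  have h4 : (-I * (b / (‖b‖ : ℂ))).im = -(b.re / ‖b‖) := by
    rw [neg_mul, Complex.neg_im, Complex.I_mul_im, Complex.div_ofReal_re]
  simp only [cr]
  rw [h1, h2, h3, h4]
  field_simp
  ring

theorem dk_cases {p : Fin (1 + 3) → ℂ} (hp : IsConvexPolygon p) (k : Fin (1 + 3)) :
    ∃ a : Fin 3, dk p k ^ 2 * (nd p k a).2 = (nd p k a).1 ∧ 0 < (nd p k a).2 := by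
  have hinj := (Pool.Agent.W174.PG.basic 1 p hp).1
  have hne : ∀ k : Fin (1 + 3), k + 1 ≠ k := by decide
  have hl : ∀ k, 0 < ‖p (k + 1) - p k‖ := fun k => by
    rw [norm_pos_iff, sub_ne_zero]
    exact fun h => hne k (hinj h)
  have hn : ∀ k, ‖p (k + 1) - p k‖ ^ 2 =
      ((p (k + 1)).re - (p k).re) ^ 2 + ((p (k + 1)).im - (p k).im) ^ 2 := fun k => by
    rw [Complex.sq_norm, Complex.normSq_apply, Complex.sub_re, Complex.sub_im]
    ring
  have hs : ∀ k : Fin (1 + 3), k - 1 + 1 = k := by decide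
  have e2 : ∀ k : Fin (1 + 3), k + 1 + 1 = k + 2 := by decide
  have hsd : ∀ k, 0 < cr (nu p (k - 1)) (nu p k) ∧
      1 + sk (nu p) k ^ 2 = 1 / cr (nu p (k - 1)) (nu p k) ^ 2 ∧
      cr (nu p (k - 1)) (nu p k) * (‖p k - p (k - 1)‖ * ‖p (k + 1) - p k‖) =
        cr (p k - p (k - 1)) (p (k + 1) - p k) := by
    intro k
    have c0 := Pool.Agent.R225.LP.cr_nu hinj hp (k - 1)
    rw [hs] at c0
    refine ⟨c0, ?_, ?_⟩
    · exact dk_aux (Pool.Agent.R225.LP.norm_nu hinj _) (Pool.Agent.R225.LP.norm_nu hinj _) c0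
    · have h1 := hl (k - 1)
      rw [hs] at h1
      have := cr_side h1 (hl k)
      have e1 : nu p (k - 1) = -I * ((p k - p (k - 1)) / (‖p k - p (k - 1)‖ : ℂ)) := by
        unfold nu
        rw [hs]
      rw [e1]
      exact this
  have hdk : dk p k ^ 2 = ‖p (k + 1) - p k‖ ^ 2 /
      (1 + (max 0 (max (sk (nu p) k) (sk (nu p) (k + 1)))) ^ 2) := by
    unfold dk
    rw [div_pow, Real.sq_sqrt (by positivity)]
  rcases le_total (max (sk (nu p) k) (sk (nu p) (k + 1))) 0 with h | h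
  · refine ⟨0, ?_, ?_⟩
    · rw [hdk, max_eq_left h, hn]
      simp [nd]
    · simp [nd]
  · rw [max_eq_right h] at hdk
    rcases le_total (sk (nu p) (k + 1)) (sk (nu p) k) with h' | h'
    · rw [max_eq_left h'] at hdk
      obtain ⟨c0, c1, c2⟩ := hsd k
      have h1 := hl (k - 1)
      rw [hs] at h1
      have h3 := hn (k - 1)
      rw [hs] at h3
      refine ⟨1, ?_, ?_⟩
      · have e : (nd p k 1).1 = cr (p k - p (k - 1)) (p (k + 1) - p k) ^ 2 := by
          simp [nd, cr]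
        have e' : (nd p k 1).2 = ‖p k - p (k - 1)‖ ^ 2 := by rw [h3]; simp [nd]
        rw [e, e', hdk, c1, ← c2]
        have := c0.ne'
        field_simp
      · have e' : (nd p k 1).2 = ‖p k - p (k - 1)‖ ^ 2 := by rw [h3]; simp [nd]
        rw [e']
        positivity
    · rw [max_eq_right h'] at hdk
      obtain ⟨c0, c1, c2⟩ := hsd (k + 1)
      rw [add_sub_cancel_right, e2] at c2
      rw [add_sub_cancel_right] at c0 c1
      have h1 := hl (k + 1)
      rw [e2] at h1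
      have h3 := hn (k + 1)
      rw [e2] at h3
      have h4 := hl k
      refine ⟨2, ?_, ?_⟩
      · have e : (nd p k 2).1 = cr (p (k + 1) - p k) (p (k + 2) - p (k + 1)) ^ 2 := by
          simp [nd, cr]
        have e' : (nd p k 2).2 = ‖p (k + 2) - p (k + 1)‖ ^ 2 := by rw [h3]; simp [nd]
        rw [e, e', hdk, c1, ← c2]
        have := c0.ne'
        field_simp
      · have e' : (nd p k 2).2 = ‖p (k + 2) - p (k + 1)‖ ^ 2 := by rw [h3]; simp [nd]
        rw [e']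
        positivity

/-- the polynomials whose zero sets cover the exceptional quadrilaterals -/
noncomputable def fx (k j : Fin (1 + 3)) (a b : Fin 3) (p : Fin (1 + 3) → ℂ) : ℝ :=
  (nd p k a).1 * (nd p j b).2 - (nd p j b).1 * (nd p k a).2

theorem exc_cover {p : Fin (1 + 3) → ℂ} (hp : IsConvexPolygon p) (h : ds p 0 = ds p 1)
    (hn : ∀ k, sk (nu p) k + sk (nu p) (k + 1) ≠ 0) :
    ∃ k j : Fin (1 + 3), ∃ a b : Fin 3, (k = 0 ∨ k = 2) ∧ (j = 1 ∨ j = 3) ∧ fx k j a b p = 0 := by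
  have key : ∀ m : Fin (1 + 3), ∃ k, (k = m ∨ k = m + 2) ∧
      sk (nu p) k + sk (nu p) (k + 1) < 0 := by
    intro m
    rcases lt_or_gt_of_ne (hn m) with h1 | h1
    · exact ⟨m, Or.inl rfl, h1⟩
    · exact ⟨m + 2, Or.inr rfl, lt_of_le_of_ne ((Pool.Agent.N885.QD.opp p hp m).2 h1) (hn _)⟩
  have hall : ∀ k : Fin (1 + 3), ds p (k + 1) = ds p k := by
    have e1 : ds p 2 = ds p 0 := Pool.Agent.N885.QD.ds_symm p 0
    have e2 : ds p 3 = ds p 1 := Pool.Agent.N885.QD.ds_symm p 1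
    have a1 : (0 : Fin (1 + 3)) + 1 = 1 := by decide
    have a2 : (1 : Fin (1 + 3)) + 1 = 2 := by decide
    have a3 : (2 : Fin (1 + 3)) + 1 = 3 := by decide
    have a4 : (3 : Fin (1 + 3)) + 1 = 0 := by decide
    intro k
    rcases (by decide : ∀ k : Fin (1 + 3), k = 0 ∨ k = 1 ∨ k = 2 ∨ k = 3) k with
      rfl | rfl | rfl | rfl
    · rw [a1, h]
    · rw [a2, e1, h]
    · rw [a3, e1, e2, h]
    · rw [a4, e2, h]
  have hd : ∀ k, sk (nu p) k + sk (nu p) (k + 1) < 0 → dk p k = ds p 0 := by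
    intro k hk
    obtain ⟨h1, h2⟩ := Pool.Agent.N885.QD.lemA p hp k hk.le
    have e : ds p k = ds p 0 := by
      have a1 : (0 : Fin (1 + 3)) + 1 = 1 := by decide
      have a2 : (1 : Fin (1 + 3)) + 1 = 2 := by decide
      have a3 : (2 : Fin (1 + 3)) + 1 = 3 := by decide
      have b0 := hall 0
      have b1 := hall 1
      have b2 := hall 2
      rw [a1] at b0
      rw [a2] at b1
      rw [a3] at b2
      rcases (by decide : ∀ k : Fin (1 + 3), k = 0 ∨ k = 1 ∨ k = 2 ∨ k = 3) k with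
        rfl | rfl | rfl | rfl
      · rfl
      · exact b0
      · rw [b1, b0]
      · rw [b2, b1, b0]
    rw [hall k] at h1 h2
    rcases h2 with h2 | h2
    · rw [← h2, e]
    · exact absurd h1 (not_le.2 h2)
  obtain ⟨k, hk, hk'⟩ := key 0
  obtain ⟨j, hj, hj'⟩ := key 1
  obtain ⟨a, ha, ha'⟩ := dk_cases hp k
  obtain ⟨b, hb, hb'⟩ := dk_cases hp j
  rw [hd k hk'] at ha
  rw [hd j hj'] at hb
  refine ⟨k, j, a, b, ?_, ?_, ?_⟩
  · rcases hk with rfl | rfl
    · exact Or.inl rfl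
    · exact Or.inr (by decide)
  · rcases hj with rfl | rfl
    · exact Or.inl rfl
    · exact Or.inr (by decide)
  · unfold fx
    rw [← ha, ← hb]
    ring

theorem an_re (i : Fin (1 + 3)) (p : Fin (1 + 3) → ℂ) :
    AnalyticAt ℝ (fun q : Fin (1 + 3) → ℂ => (q i).re) p :=
  (Complex.reCLM.comp (ContinuousLinearMap.proj (R := ℝ) (φ := fun _ : Fin (1 + 3) => ℂ) i)).analyticAt p

theorem an_im (i : Fin (1 + 3)) (p : Fin (1 + 3) → ℂ) :
    AnalyticAt ℝ (fun q : Fin (1 + 3) → ℂ => (q i).im) p :=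
  (Complex.imCLM.comp (ContinuousLinearMap.proj (R := ℝ) (φ := fun _ : Fin (1 + 3) => ℂ) i)).analyticAt p

theorem an_nd (k : Fin (1 + 3)) (a : Fin 3) (p : Fin (1 + 3) → ℂ) :
    AnalyticAt ℝ (fun q : Fin (1 + 3) → ℂ => (nd q k a).1) p ∧
    AnalyticAt ℝ (fun q : Fin (1 + 3) → ℂ => (nd q k a).2) p := by
  have hr : ∀ i j : Fin (1 + 3), AnalyticAt ℝ (fun q : Fin (1 + 3) → ℂ => (q i).re - (q j).re) p :=
    fun i j => (an_re i p).sub (an_re j p)
  have hi : ∀ i j : Fin (1 + 3), AnalyticAt ℝ (fun q : Fin (1 + 3) → ℂ => (q i).im - (q j).im) p :=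
    fun i j => (an_im i p).sub (an_im j p)
  rcases (by decide : ∀ a : Fin 3, a = 0 ∨ a = 1 ∨ a = 2) a with rfl | rfl | rfl
  · exact ⟨((hr _ _).pow 2).add ((hi _ _).pow 2), analyticAt_const⟩
  · exact ⟨(((hr _ _).mul (hi _ _)).sub ((hi _ _).mul (hr _ _))).pow 2,
      ((hr _ _).pow 2).add ((hi _ _).pow 2)⟩
  · exact ⟨(((hr _ _).mul (hi _ _)).sub ((hi _ _).mul (hr _ _))).pow 2,
      ((hr _ _).pow 2).add ((hi _ _).pow 2)⟩

theorem an_fx (k j : Fin (1 + 3)) (a b : Fin 3) (p : Fin (1 + 3) → ℂ) :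
    AnalyticAt ℝ (fx k j a b) p :=
  ((an_nd k a p).1.mul (an_nd j b p).2).sub ((an_nd j b p).1.mul (an_nd k a p).2)

/-- a rectangle -/
theorem rect : (![2, 2, 1, 0, 1] : Fin (2 * 1 + 3) → ℝ) ∈ Yn 1 ∧
    vert (n := 1) ![2, 2, 1, 0, 1] = tz 1 2 0 0 := by
  have h : vert (n := 1) ![2, 2, 1, 0, 1] = tz 1 2 0 0 := by
    funext i
    rcases (by decide : ∀ k : Fin (1 + 3), k = 0 ∨ k = 1 ∨ k = 2 ∨ k = 3) i with
      rfl | rfl | rfl | rfl
    · rfl
    · rw [vert_one]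
      rfl
    · change (⟨2, 1⟩ : ℂ) = ((2 - 1 * 0 : ℝ) : ℂ) + ((1 : ℝ) : ℂ) * I
      apply Complex.ext <;> simp
    · change (⟨0, 1⟩ : ℂ) = ((1 * 0 : ℝ) : ℂ) + ((1 : ℝ) : ℂ) * I
      apply Complex.ext <;> simp
  refine ⟨⟨?_, ?_⟩, h⟩
  · change (0 : ℝ) < 2
    norm_num
  · have := (Pool.Agent.R225.LP.tz_thm 1 2 0 0 one_pos two_pos (by norm_num)).1
    rw [← h] at this
    exact this

theorem fx_rect (k j : Fin (1 + 3)) (a b : Fin 3) (hk : k = 0 ∨ k = 2) (hj : j = 1 ∨ j = 3) :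
    fx k j a b (tz 1 2 0 0) ≠ 0 := by
  have t0 : tz 1 2 0 0 0 = 0 := rfl
  have t1 : tz 1 2 0 0 1 = ((2 : ℝ) : ℂ) := rfl
  have t2 : tz 1 2 0 0 2 = ((2 - 1 * 0 : ℝ) : ℂ) + ((1 : ℝ) : ℂ) * I := rfl
  have t3 : tz 1 2 0 0 3 = ((1 * 0 : ℝ) : ℂ) + ((1 : ℝ) : ℂ) * I := rfl
  have r0 : (tz 1 2 0 0 0).re = 0 := by rw [t0]; simp
  have r1 : (tz 1 2 0 0 1).re = 2 := by rw [t1]; simp
  have r2 : (tz 1 2 0 0 2).re = 2 := by rw [t2]; simp
  have r3 : (tz 1 2 0 0 3).re = 0 := by rw [t3]; simp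
  have i0 : (tz 1 2 0 0 0).im = 0 := by rw [t0]; simp
  have i1 : (tz 1 2 0 0 1).im = 0 := by rw [t1]; simp
  have i2 : (tz 1 2 0 0 2).im = 1 := by rw [t2]; simp
  have i3 : (tz 1 2 0 0 3).im = 1 := by rw [t3]; simp
  have a01 : (0 : Fin (1 + 3)) + 1 = 1 := by decide
  have a02 : (0 : Fin (1 + 3)) + 2 = 2 := by decide
  have a03 : (0 : Fin (1 + 3)) - 1 = 3 := by decide
  have a11 : (1 : Fin (1 + 3)) + 1 = 2 := by decide
  have a12 : (1 : Fin (1 + 3)) + 2 = 3 := by decide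
  have a13 : (1 : Fin (1 + 3)) - 1 = 0 := by decide
  have a21 : (2 : Fin (1 + 3)) + 1 = 3 := by decide
  have a22 : (2 : Fin (1 + 3)) + 2 = 0 := by decide
  have a23 : (2 : Fin (1 + 3)) - 1 = 1 := by decide
  have a31 : (3 : Fin (1 + 3)) + 1 = 0 := by decide
  have a32 : (3 : Fin (1 + 3)) + 2 = 1 := by decide
  have a33 : (3 : Fin (1 + 3)) - 1 = 2 := by decide
  have h4 : ∀ a, nd (tz 1 2 0 0) 0 a = (4, 1) ∧ nd (tz 1 2 0 0) 2 a = (4, 1) := by
    intro a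
    rcases (by decide : ∀ a : Fin 3, a = 0 ∨ a = 1 ∨ a = 2) a with rfl | rfl | rfl <;>
    · constructor <;>
      · simp only [nd, a01, a02, a03, a21, a22, a23, r0, r1, r2, r3, i0, i1, i2, i3,
          Matrix.cons_val_zero, Matrix.cons_val_one, Matrix.cons_val_two, Matrix.cons_val]
        norm_num
  have h1 : ∀ a, (nd (tz 1 2 0 0) 1 a = (1, 1) ∨ nd (tz 1 2 0 0) 1 a = (4, 4)) ∧
      (nd (tz 1 2 0 0) 3 a = (1, 1) ∨ nd (tz 1 2 0 0) 3 a = (4, 4)) := by
    intro a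
    rcases (by decide : ∀ a : Fin 3, a = 0 ∨ a = 1 ∨ a = 2) a with rfl | rfl | rfl
    · constructor <;> left <;>
      · simp only [nd, a11, a12, a13, a31, a32, a33, r0, r1, r2, r3, i0, i1, i2, i3,
          Matrix.cons_val_zero, Matrix.cons_val_one, Matrix.cons_val_two, Matrix.cons_val]
        norm_num
    · constructor <;> right <;>
      · simp only [nd, a11, a12, a13, a31, a32, a33, r0, r1, r2, r3, i0, i1, i2, i3,
          Matrix.cons_val_zero, Matrix.cons_val_one, Matrix.cons_val_two, Matrix.cons_val]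
        norm_num
    · constructor <;> right <;>
      · simp only [nd, a11, a12, a13, a31, a32, a33, r0, r1, r2, r3, i0, i1, i2, i3,
          Matrix.cons_val_zero, Matrix.cons_val_one, Matrix.cons_val_two, Matrix.cons_val]
        norm_num
  unfold fx
  rcases hk with rfl | rfl <;> rcases hj with rfl | rfl
  · rw [(h4 a).1]
    rcases (h1 b).1 with h | h <;> rw [h] <;> norm_num
  · rw [(h4 a).1]
    rcases (h1 b).2 with h | h <;> rw [h] <;> norm_num
  · rw [(h4 a).2]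
    rcases (h1 b).1 with h | h <;> rw [h] <;> norm_num
  · rw [(h4 a).2]
    rcases (h1 b).2 with h | h <;> rw [h] <;> norm_num

/-- the exceptional parameters -/
def Ex : Set (Fin (2 * 1 + 3) → ℝ) :=
  {x | x ∈ Yn 1 ∧ ds (vert (n := 1) x) 0 = ds (vert (n := 1) x) 1 ∧
    ∀ k, sk (nu (vert (n := 1) x)) k + sk (nu (vert (n := 1) x)) (k + 1) ≠ 0}

theorem ex_null : volume Ex = 0 := by
  have hvert : ∀ y : Fin (2 * 1 + 3) → ℝ, AnalyticAt ℝ (vert (n := 1)) y := by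
    intro y
    obtain ⟨L, hL⟩ := vert_lin 1
    have : vert (n := 1) = L := funext fun x => (hL x).symm
    rw [this]
    exact L.analyticAt y
  have h1 : ∀ k j : Fin (1 + 3), ∀ a b : Fin 3, (k = 0 ∨ k = 2) → (j = 1 ∨ j = 3) →
      volume (Yn 1 ∩ {x | fx k j a b (vert (n := 1) x) = 0}) = 0 := by
    intro k j a b hk hj
    refine h_AZ _ (Yn 1) (fun x => fx k j a b (vert (n := 1) x)) (h_YO 1) (h_YC 1)
      (fun x _ => (an_fx k j a b _).comp (hvert x)) ⟨_, rect.1, ?_⟩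
    rw [rect.2]
    exact fx_rect k j a b hk hj
  have h2 : Ex ⊆ ⋃ k : Fin (1 + 3), ⋃ j : Fin (1 + 3), ⋃ a : Fin 3, ⋃ b : Fin 3,
      ⋃ _ : k = 0 ∨ k = 2, ⋃ _ : j = 1 ∨ j = 3,
        (Yn 1 ∩ {x | fx k j a b (vert (n := 1) x) = 0}) := by
    rintro x ⟨hx, h, hn⟩
    obtain ⟨k, j, a, b, hk, hj, hf⟩ := exc_cover hx.2 h hn
    simp only [mem_iUnion]
    exact ⟨k, j, a, b, hk, hj, hx, hf⟩
  refine measure_mono_null h2 ?_
  simp only [measure_iUnion_null_iff]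
  intro k j a b hk hj
  exact h1 k j a b hk hj

/-- almost every quadrilateral is determined by its spectrum among all convex polygons with at most
four vertices -/
theorem ae_det : ∀ᵐ p : Fin (1 + 3) → ℂ, IsConvexPolygon p →
    ∀ m ≤ 1, ∀ q : Fin (m + 3) → ℂ, IsConvexPolygon q → Isospectral (region p) (region q) →
      Cg (region p) (region q) := by
  obtain ⟨I, hI, hx⟩ := h_RK 1
  obtain ⟨Z, hZ0, hZ⟩ := main_null h_YO h_YC h_PA h_AZ h_NL h_LD I hI hx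
  set Φ := Pool.Agent.W703.GP.FF (n := 1) I with hΦ
  have hC1 : ContDiffOn ℝ 1 Φ (Yn 1) :=
    (an_FF h_PA I hI).contDiffOn (h_YO 1).uniqueDiffOn
  obtain ⟨-, hN2, -⟩ := h_NL _ (Yn 1) Φ (h_YO 1) hC1
  have himg : volume (Φ '' Ex) = 0 := by
    refine MeasureTheory.addHaar_image_eq_zero_of_differentiableOn_of_addHaar_eq_zero volume ?_
      ex_null
    intro x hx
    exact ((hC1.differentiableOn one_ne_zero) x hx.1).mono fun y hy => hy.1
  have hN := hN2 _ himg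
  have hZ' : volume (Z ∪ (Ex ∪ {x ∈ Yn 1 | (fderiv ℝ Φ x).det ≠ 0 ∧ Φ x ∈ Φ '' Ex})) = 0 := by
    rw [measure_union_null_iff, measure_union_null_iff]
    exact ⟨hZ0, ex_null, hN⟩
  have h0 := h_NM 1 _ hZ'
  rw [ae_iff]
  refine measure_mono_null ?_ h0
  intro p hp
  simp only [mem_ofPred_eq, Classical.not_imp] at hp ⊢
  obtain ⟨hpc, hp2⟩ := hp
  obtain ⟨x, hxY, θ, v, hθ⟩ := h_NF 1 p hpc
  by_contra hcon
  apply hp2
  have hxZ : x ∉ Z ∪ (Ex ∪ {x ∈ Yn 1 | (fderiv ℝ Φ x).det ≠ 0 ∧ Φ x ∈ Φ '' Ex}) :=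
    fun h => hcon ⟨x, h, θ, v, hθ⟩
  rw [mem_union, mem_union, not_or, not_or] at hxZ
  obtain ⟨hx1, hx2, hx3⟩ := hxZ
  obtain ⟨k1, k2, k3⟩ := hZ x hxY hx1
  obtain ⟨φ, hφ⟩ := h_RG 1 (vert x) p θ v hθ
  have hpx : Isospectral (region (vert x)) (region p) := iso_of_congr h_PI φ hφ
  have hcx : Cg (region (vert (n := 1) x)) (region p) := ⟨φ, hφ⟩
  intro m hm q hq hiso
  obtain ⟨z, hz, θ', v', hθ'⟩ := h_NF m q hq
  obtain ⟨φ', hφ'⟩ := h_RG m (vert z) q θ' v' hθ'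
  have hqz : Isospectral (region (vert z)) (region q) := iso_of_congr h_PI φ' hφ'
  have hcz : Cg (region (vert z)) (region q) := ⟨φ', hφ'⟩
  have hxz : Isospectral (region (vert (n := 1) x)) (region (vert z)) :=
    iso_trans hpx (iso_trans hiso (iso_symm hqz))
  rcases Nat.lt_or_eq_of_le hm with hm1 | rfl
  · exfalso
    apply k3 m hm1 z hz
    funext j
    exact ps_congr (iso_symm hxz) _
  · have hΦz : Φ z = Φ x := by
      funext j
      exact ps_congr (iso_symm hxz) _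
    have hzE : z ∉ Ex := fun hz' => hx3 ⟨hxY, k1, z, hz', hΦz⟩
    have hc : Cg (region (vert (n := 1) x)) (region (vert (n := 1) z)) := by
      refine main hxY.2 hz.2 (fun h => ?_) (fun h => ?_) hxz
      · by_contra hn
        push Not at hn
        exact hx2 ⟨hxY, h, hn⟩
      · by_contra hn
        push Not at hn
        exact hzE ⟨hz, h, hn⟩
    exact hcx.symm.trans (hc.trans hcz)

end Pool.Agent.N275.QD
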