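import Pool.Agent.N7.QDUQ
import Pool.Agent.R225.LP.Fc

set_option autoImplicit false

/-!
# Project QD: assembly
-/

namespace Pool.Agent.N275.QD

open MeasureTheory Set Filter Topology Complex
open Pool.Agent.W780.PG (IsConvexPolygon region ang)
open Pool.Agent.W703.GP (Isospectral iso_trans)
open Pool.Agent.Y289.SQ (Z area per)
open Pool.Agent.R225.LP (ip co nu sk sd eM Rm NN Cg tz eM_lim h_IN g1_thm h_TR iso_Rm least_distance)
open scoped Real ENNReal ComplexConjugate

/-- the standard data of a quadrilateral -/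
theorem std (hCD : S_CD) (hQE : S_QE) (hN4 : S_N4) {p : Fin (1 + 3) → ℂ} {k : Fin (1 + 3)}
    (hp : IsConvexPolygon p) (hF : Fst p k) : ∃ l s s' a b : ℝ, 0 < l ∧ 0 < a ∧ 0 < b ∧
      s + s' < 0 ∧ s' ≤ s ∧ Cg (region p) (region (q4 l s s' a b)) ∧
      sd p = l / √(1 + (max 0 s) ^ 2) ∧
      ∃ (A C : ℝ) (N : ℕ), sd p ^ 2 < A ∧ 0 < N ∧ ∀ (j : ℕ) (t : ℝ), 0 < j → 0 < t → t ≤ 1 →
        |eM p t (N * j) - NN s' s l t (N * j) / (-(2 * (s + s')))| ≤ C * Real.exp (-(A / t)) := by
  obtain ⟨A, C, N, hA, hN, hE⟩ := hQE p k hp hF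
  obtain ⟨a, b, ha, hb, hφ⟩ := hN4.2 p k hp hF.1
  have hcd := hCD p k hp hF
  have hinj := (Pool.Agent.W174.PG.basic 1 p hp).1
  have hl : 0 < ‖p (k + 1) - p k‖ := by
    rw [norm_pos_iff, sub_ne_zero]
    intro h
    have h1 := hinj h
    have h2 : ∀ k : Fin (1 + 3), k + 1 ≠ k := by decide
    exact h2 k h1
  set l := ‖p (k + 1) - p k‖ with hldef
  set x := sk (nu p) k with hx
  set y := sk (nu p) (k + 1) with hy
  have hsum : x + y < 0 := hF.1
  rcases le_total y x with hyx | hxy
  · refine ⟨l, x, y, a, b, hl, ha, hb, hsum, hyx, hφ, ?_, A, C, N, by rw [hcd]; exact hA, hN, hE⟩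
    rw [hcd, dk, ← hx, ← hy, max_eq_left hyx]
  · refine ⟨l, y, x, b, a, hl, hb, ha, by linarith, hxy, ?_, ?_, A, C, N, by rw [hcd]; exact hA, hN,
      fun j t hj ht ht1 => ?_⟩
    · exact Cg.trans hφ (hN4.1 l x y a b hl ha hb hsum).2.2.2
    · rw [hcd, dk, ← hx, ← hy, max_eq_right hxy]
    · have h1 := hE j t hj ht ht1
      have h2 := (Pool.Agent.R225.LP.ni.1 x y l t (N * j) ht (by positivity)).2.1
      rw [h2, add_comm y x]
      exact h1

/-- the angle with a given cotangent -/
noncomputable def ac (c : ℝ) : ℝ := π / 2 - Real.arctan c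

theorem ac_pos (c : ℝ) : 0 < ac c := by
  have := Real.arctan_lt_pi_div_two c
  unfold ac
  linarith

theorem ac_lt (c : ℝ) : ac c < π := by
  have := Real.neg_pi_div_two_lt_arctan c
  unfold ac
  linarith

theorem sin_ac (c : ℝ) : Real.sin (ac c) = 1 / √(1 + c ^ 2) := by
  unfold ac
  rw [Real.sin_pi_div_two_sub, Real.cos_arctan]

theorem ct_ac (c : ℝ) : ct (ac c) = c := by
  unfold ct ac
  rw [Real.sin_pi_div_two_sub, Real.cos_pi_div_two_sub, ← Real.tan_eq_sin_div_cos,
    Real.tan_arctan]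

theorem ac_anti {c c' : ℝ} (h : c ≤ c') : ac c' ≤ ac c := by
  unfold ac
  have := Real.arctan_strictMono.monotone h
  linarith

theorem ac_sum {c c' : ℝ} (h : 0 < c + c') : ac c + ac c' < π := by
  unfold ac
  have h1 := Real.arctan_strictMono (by linarith : -c < c')
  rw [Real.arctan_neg] at h1
  linarith

theorem dd_ac {l s : ℝ} : dd (ac (-s)) l = l / √(1 + (max 0 s) ^ 2) := by
  unfold dd
  split_ifs with h
  · have h1 : s ≤ 0 := by
      unfold ac at h
      rw [Real.arctan_neg] at h
      have h2 : Real.arctan s ≤ Real.arctan 0 := by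
        rw [Real.arctan_zero]
        linarith
      exact Real.arctan_strictMono.le_iff_le.1 h2
    rw [max_eq_left h1]
    simp
  · have h1 : 0 < s := by
      unfold ac at h
      rw [Real.arctan_neg] at h
      have h2 : Real.arctan 0 < Real.arctan s := by
        rw [Real.arctan_zero]
        linarith
      exact Real.arctan_strictMono.lt_iff_lt.1 h2
    rw [max_eq_right h1.le, sin_ac, neg_sq]
    ring

/-- isospectral quadrilaterals for which one side disappears first -/
theorem fst_fst (hCD : S_CD) (hQE : S_QE) (hN4 : S_N4) (hUQ : S_UQ) (hRC : S_RC) (hSW : S_SW)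
    {p q : Fin (1 + 3) → ℂ} {k j : Fin (1 + 3)} (hp : IsConvexPolygon p) (hq : IsConvexPolygon q)
    (hFp : Fst p k) (hFq : Fst q j) (h : Isospectral (region p) (region q)) :
    Cg (region p) (region q) := by
  obtain ⟨l, s, s', a, b, hl, ha, hb, hs, hss, hg, hsd, A, C, N, hA, hN, hE⟩ :=
    std hCD hQE hN4 hp hFp
  obtain ⟨l₂, s₂, s₂', a₂, b₂, hl₂, ha₂, hb₂, hs₂, hss₂, hg₂, hsd₂, A₂, C₂, N₂, hA₂, hN₂, hE₂⟩ :=
    std hCD hQE hN4 hq hFq
  have hsdd : sd q = sd p := (least_distance (n := 0) p q hp hq h).2.1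
  have hR := (iso_Rm hp hq h).2.2.2
  -- the parameters
  have key : l = l₂ ∧ ac (-s') = ac (-s₂') ∧ ac (-s) = ac (-s₂) := by
    refine hUQ (ac (-s')) (ac (-s)) l (ac (-s₂')) (ac (-s₂)) l₂ (ac_pos _) (ac_anti (by linarith))
      (ac_sum (by linarith)) hl (ac_pos _) (ac_anti (by linarith)) (ac_sum (by linarith)) hl₂ ?_ ?_
    · rw [dd_ac, dd_ac, ← hsd, ← hsd₂, hsdd]
    · refine ⟨min A A₂, |C| + |C₂| + 1, 1, ?_, one_pos, fun t ht ht1 => ?_⟩
      · rw [dd_ac, ← hsd]
        refine lt_min hA ?_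
        rw [← hsdd]
        exact hA₂
      · have hlim : Tendsto (fun M : ℕ => eM p t M - eM q t M) atTop (𝓝 0) := by
          have h1 := (eM_lim h_IN g1_thm h_TR hp ht).sub (eM_lim h_IN g1_thm h_TR hq ht)
          rwa [hR, sub_self] at h1
        have hab := hlim.abs
        rw [abs_zero] at hab
        have hev := hab.eventually (ge_mem_nhds (Real.exp_pos (-(min A A₂ / t))))
        rw [frequently_atTop]
        intro M₀
        obtain ⟨M₁, hM₁⟩ := eventually_atTop.1 hev
        set i := M₀ + M₁ + 1 with hi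
        have hi0 : 0 < i := by omega
        have hNN : 1 ≤ N * N₂ := Nat.one_le_iff_ne_zero.2 (by positivity)
        have hbig : i ≤ N * N₂ * i := Nat.le_mul_of_pos_left i (by omega)
        refine ⟨N * N₂ * i, by omega, ?_⟩
        have e1 := hE (N₂ * i) t (by positivity) ht ht1.le
        have e2 := hE₂ (N * i) t (by positivity) ht ht1.le
        have e3 := hM₁ (N * N₂ * i) (by omega)
        have r1 : N * (N₂ * i) = N * N₂ * i := by ring
        have r2 : N₂ * (N * i) = N * N₂ * i := by ring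
        rw [r1] at e1
        rw [r2] at e2
        have n1 : Nn (ac (-s')) (ac (-s)) l t (N * N₂ * i) =
            NN s' s l t (N * N₂ * i) / (-(2 * (s + s'))) := by
          unfold Nn
          rw [ct_ac, ct_ac, neg_neg, neg_neg]
          congr 1
          ring
        have n2 : Nn (ac (-s₂')) (ac (-s₂)) l₂ t (N * N₂ * i) =
            NN s₂' s₂ l₂ t (N * N₂ * i) / (-(2 * (s₂ + s₂'))) := by
          unfold Nn
          rw [ct_ac, ct_ac, neg_neg, neg_neg]
          congr 1
          ring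
        rw [n1, n2]
        set X := NN s' s l t (N * N₂ * i) / (-(2 * (s + s')))
        set X₂ := NN s₂' s₂ l₂ t (N * N₂ * i) / (-(2 * (s₂ + s₂')))
        have g1 : Real.exp (-(A / t)) ≤ Real.exp (-(min A A₂ / t)) := by
          refine Real.exp_le_exp.2 (neg_le_neg ?_)
          gcongr
          exact min_le_left _ _
        have g2 : Real.exp (-(A₂ / t)) ≤ Real.exp (-(min A A₂ / t)) := by
          refine Real.exp_le_exp.2 (neg_le_neg ?_)
          gcongr
          exact min_le_right _ _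
        have g3 : C * Real.exp (-(A / t)) ≤ |C| * Real.exp (-(min A A₂ / t)) :=
          (mul_le_mul_of_nonneg_right (le_abs_self C) (Real.exp_pos _).le).trans
            (mul_le_mul_of_nonneg_left g1 (abs_nonneg _))
        have g4 : C₂ * Real.exp (-(A₂ / t)) ≤ |C₂| * Real.exp (-(min A A₂ / t)) :=
          (mul_le_mul_of_nonneg_right (le_abs_self C₂) (Real.exp_pos _).le).trans
            (mul_le_mul_of_nonneg_left g2 (abs_nonneg _))
        rw [abs_le] at e1 e2 e3 ⊢
        constructor <;> nlinarith [e1.1, e1.2, e2.1, e2.2, e3.1, e3.2]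
  obtain ⟨rfl, k1, k2⟩ := key
  have k1' : s' = s₂' := by
    have := congrArg ct k1
    rw [ct_ac, ct_ac] at this
    linarith
  have k2' : s = s₂ := by
    have := congrArg ct k2
    rw [ct_ac, ct_ac] at this
    linarith
  subst k1'
  subst k2'
  -- the other two parameters
  obtain ⟨c1, a1, p1, r1⟩ := hN4.1 l s s' a b hl ha hb hs
  obtain ⟨c2, a2, p2, r2⟩ := hN4.1 l s s' a₂ b₂ hl ha₂ hb₂ hs
  have hi : Isospectral (region (q4 l s s' a b)) (region (q4 l s s' a₂ b₂)) :=
    iso_trans hg.symm.iso (iso_trans h hg₂.iso)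
  have hi2 := iso_Rm c1 c2 hi
  have hZ : ∀ t, Z (region (q4 l s s' a b)) t = Z (region (q4 l s s' a₂ b₂)) t := fun t => by
    unfold Z
    exact tsum_congr fun k => by rw [show Pool.Agent.W703.GP.ev (region (q4 l s s' a b)) (k + 1) =
      Pool.Agent.W703.GP.ev (region (q4 l s s' a₂ b₂)) (k + 1) from hi (k + 1)]
  have fin : Cg (region (q4 l s s' a b)) (region (q4 l s s' a₂ b₂)) → Cg (region p) (region q) :=
    fun hc => hg.trans (hc.trans hg₂.symm)
  have hA1 := hi2.1
  rw [a1, a2] at hA1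
  have hP1 := hi2.2.1
  rw [p1, p2] at hP1
  rcases hRC l s s' a b a₂ b₂ hl ha hb ha₂ hb₂ hs (by linarith) (by linarith) with ⟨e1, e2⟩ |
    ⟨e1, e2⟩
  · rw [e1, e2] at fin
    exact fin (Cg.refl _)
  · by_cases haa : a = a₂
    · have hbb : b = b₂ := by
        rw [← haa] at hA1
        have h3 : (l - (s + s') * a) * (b - b₂) = 0 := by linarith
        have h4 : 0 < l - (s + s') * a := by
          have : (s + s') * a < 0 := mul_neg_of_neg_of_pos hs ha
          linarith
        rcases mul_eq_zero.1 h3 with h5 | h5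
        · exact absurd h5 h4.ne'
        · linarith
      rw [haa, hbb] at fin
      exact fin (Cg.refl _)
    · by_cases hs1 : s = s'
      · have hq : 0 < √(1 + s ^ 2) := Real.sqrt_pos.2 (by positivity)
        rw [← hs1] at e1 e2
        have e3 := mul_right_cancel₀ hq.ne' e1
        have e4 := mul_right_cancel₀ hq.ne' e2
        have e5 : a = b₂ := by linarith
        have e6 : b = a₂ := by linarith
        refine fin ?_
        have : Cg (region (q4 l s s' a b)) (region (q4 l s' s b a)) := r1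
        rw [e5, e6, ← hs1] at this
        rw [e5, e6, ← hs1]
        exact this
      · obtain ⟨t, ht, hne⟩ := hSW l s s' a b a₂ b₂ hl ha hb ha₂ hb₂ hs hs1 haa e1 e2
        exact absurd (hZ t) hne

end Pool.Agent.N275.QD
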