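import Pool.Agent.N275.QD.Asm
import Pool.Agent.R225.LP.AJ

set_option autoImplicit false

/-!
# Project QD: parallel sides, trapezoids
-/

namespace Pool.Agent.N275.QD

open MeasureTheory Set Filter Topology Complex
open Pool.Agent.W780.PG (IsConvexPolygon region ang)
open Pool.Agent.W703.GP (Isospectral iso_trans)
open Pool.Agent.Y289.SQ (Z area per)
open Pool.Agent.R225.LP (ip co nu sk sd eM Rm NN Cg tz iso_Rm least_distance h_B5 nf tz_main tz_thm)
open scoped Real ENNReal ComplexConjugate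

/-- the distance of two sides which are not adjacent is at least the least one -/
theorem sd_le {n : ℕ} (p : Fin (n + 3) → ℂ) {i j : Fin (n + 3)} (h1 : j ≠ i) (h2 : j ≠ i + 1)
    (h3 : i ≠ j + 1) {x y : ℂ} (hx : x ∈ segment ℝ (p i) (p (i + 1)))
    (hy : y ∈ segment ℝ (p j) (p (j + 1))) : sd p ≤ dist x y := by
  refine csInf_le ⟨0, ?_⟩ ⟨i, j, h1, h2, h3, x, hx, y, hy, rfl⟩
  rintro r ⟨_, _, _, _, _, x, _, y, _, rfl⟩
  exact dist_nonneg

/-- two parallel sides at the least distance -/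
theorem par_case {p : Fin (1 + 3) → ℂ} (hp : IsConvexPolygon p) {i : Fin (1 + 3)}
    (h1 : nu p (i + 2) = -nu p i) (h2 : co p i + co p (i + 2) = sd p) {m : ℕ}
    {q : Fin (m + 3) → ℂ} (hq : IsConvexPolygon q) (h : Isospectral (region p) (region q)) :
    Cg (region p) (region q) := by
  have e : ∀ i : Fin (1 + 3), i + 2 = i + 1 + 1 := by decide
  rw [e] at h1 h2
  obtain ⟨b, x, y, hh, hb, hxy, hφ⟩ := nf p hp i h1
  change co p i + co p (i + 1 + 1) = sd p at h2
  rw [h2] at hh hxy hφ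
  have hg : Cg (region p) (region (tz (sd p) b x y)) := hφ
  obtain ⟨hcp, -⟩ := tz_thm (sd p) b x y hh hb hxy
  have hsd : sd (tz (sd p) b x y) = sd p := (least_distance (n := 0) p _ hp hcp hg.iso).2.1
  refine hg.trans (tz_main h_B5 hh hb hxy (fun z hz w hw => ?_) hq
    (iso_trans hg.symm.iso h))
  conv_lhs => rw [← hsd]
  refine sd_le (tz (sd p) b x y) (i := (3 : Fin (0 + 1 + 3))) (j := (1 : Fin (0 + 1 + 3)))
    (by decide) (by decide) (by decide) ?_ ?_
  · have e1 : (3 : Fin (0 + 1 + 3)) + 1 = 0 := by decide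
    rw [e1, segment_symm]
    exact hz
  · exact hw

/-- the main theorem from the parts -/
theorem quad (hCL : S_CL) (hCD : S_CD) (hQE : S_QE) (hN4 : S_N4) (hUQ : S_UQ) (hRC : S_RC)
    (hSW : S_SW) {p q : Fin (1 + 3) → ℂ} (hp : IsConvexPolygon p) (hq : IsConvexPolygon q)
    (hdp : ds p 0 ≠ ds p 1) (hdq : ds q 0 ≠ ds q 1) (h : Isospectral (region p) (region q)) :
    Cg (region p) (region q) := by
  rcases hCL p hp hdp with ⟨k, hk⟩ | ⟨i, hi1, hi2⟩
  · rcases hCL q hq hdq with ⟨j, hj⟩ | ⟨i, hi1, hi2⟩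
    · exact fst_fst hCD hQE hN4 hUQ hRC hSW hp hq hk hj h
    · exact (par_case hq hi1 hi2 hp (Pool.Agent.W703.GP.iso_symm h)).symm
  · exact par_case hp hi1 hi2 hq h

end Pool.Agent.N275.QD
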