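import Pool.Agent.N275.QD.Avg

set_option autoImplicit false

/-!
# Project QD: the vertical averages of the kernels
-/

namespace Pool.Agent.N275.QD

open MeasureTheory Set Filter Topology Complex
open Pool.Agent.R225.LP (gk ks ip ip_self gk_nonneg)
open Pool.Agent.N670.QD (g1_nonneg g1_cont)
open scoped Real ENNReal ComplexConjugate

theorem Kf_meas : Measurable fun q : ℝ × ℝ => Kf q.1 q.2 := by
  unfold Kf
  have h : StronglyMeasurable fun p : (ℝ × ℝ) × ℝ =>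
      Real.exp (-(p.1.2 * Real.cosh p.2)) * Real.cos (p.1.1 * p.2) := by
    have : Continuous fun p : (ℝ × ℝ) × ℝ =>
      Real.exp (-(p.1.2 * Real.cosh p.2)) * Real.cos (p.1.1 * p.2) := by fun_prop
    exact this.stronglyMeasurable
  exact (h.integral_prod_right' (ν := volume.restrict (Ioi (0 : ℝ)))).measurable

theorem Rf_meas (α : ℝ) : Measurable (Rf α) := by
  unfold Rf
  have h1 : Measurable fun μ : ℝ => Real.sinh (α * μ) := by fun_prop
  have h2 : Measurable fun μ : ℝ => Real.sinh ((π - α) * μ) := by fun_prop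
  exact h1.div h2

theorem Gf_meas (α t : ℝ) : Measurable fun p : ℂ × ℂ => Gf α t p.1 p.2 := by
  unfold Gf
  refine Measurable.mul ?_ ?_
  · have : Continuous fun p : ℂ × ℂ => Real.exp (-((‖p.1‖ ^ 2 + ‖p.2‖ ^ 2) / (4 * t))) /
        (π ^ 2 * t) := by fun_prop
    exact this.measurable
  · have h : StronglyMeasurable fun q : (ℂ × ℂ) × ℝ =>
        Kf q.2 (‖q.1.1‖ * ‖q.1.2‖ / (2 * t)) * Rf α q.2 *
          (Real.sinh (arg q.1.1 * q.2) * Real.sinh (arg q.1.2 * q.2)) := by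
      refine Measurable.stronglyMeasurable ?_
      refine Measurable.mul (Measurable.mul ?_ ?_) ?_
      · refine Kf_meas.comp (f := fun q : (ℂ × ℂ) × ℝ => (q.2, ‖q.1.1‖ * ‖q.1.2‖ / (2 * t))) ?_
        have : Continuous fun q : (ℂ × ℂ) × ℝ => (q.2, ‖q.1.1‖ * ‖q.1.2‖ / (2 * t)) := by
          fun_prop
        exact this.measurable
      · exact (Rf_meas α).comp measurable_snd
      · have h1 : Measurable fun q : (ℂ × ℂ) × ℝ => arg q.1.1 * q.2 :=
          (measurable_arg.comp (measurable_fst.comp measurable_fst)).mul measurable_snd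
        have h2 : Measurable fun q : (ℂ × ℂ) × ℝ => arg q.1.2 * q.2 :=
          (measurable_arg.comp (measurable_snd.comp measurable_fst)).mul measurable_snd
        exact (Real.continuous_sinh.measurable.comp h1).mul
          (Real.continuous_sinh.measurable.comp h2)
    exact (h.integral_prod_right' (ν := volume.restrict (Ioi (0 : ℝ)))).measurable

theorem Gr_meas (α φ t : ℝ) : Measurable fun p : ℂ × ℂ => Gr α φ t p.1 p.2 := by
  unfold Gr
  exact (Gf_meas α t).comp (f := fun p : ℂ × ℂ => (Complex.exp ((φ : ℂ) * I) * p.1,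
    Complex.exp ((φ : ℂ) * I) * p.2)) (by fun_prop)

theorem Th_meas (t : ℝ) : Measurable fun p : ℂ × ℂ => Th t p.1 p.2 := by
  unfold Th
  refine Measurable.mul ?_ ?_
  · have : Continuous fun p : ℂ × ℂ => Real.exp (-((‖p.1‖ ^ 2 + ‖p.2‖ ^ 2) / (4 * t))) /
        (π ^ 2 * t) := by fun_prop
    exact this.measurable
  · refine Kf_meas.comp (f := fun q : ℂ × ℂ => ((0 : ℝ), ‖q.1‖ * ‖q.2‖ / (2 * t))) ?_
    have : Continuous fun q : ℂ × ℂ => ((0 : ℝ), ‖q.1‖ * ‖q.2‖ / (2 * t)) := by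
      fun_prop
    exact this.measurable

theorem Gk_meas (α φ s : ℝ) (k : ℕ) : Measurable (Function.uncurry (Gk α φ s k)) := by
  unfold Gk
  exact (Gr_meas α φ _).ennreal_ofReal

/-- the reference kernel -/
noncomputable def Tk (s : ℝ) (k : ℕ) (u v : ℂ) : ℝ≥0∞ := ENNReal.ofReal (Th ((k + 1) * s) u v)

theorem Tk_meas (s : ℝ) (k : ℕ) : Measurable (Function.uncurry (Tk s k)) := by
  unfold Tk
  exact (Th_meas _).ennreal_ofReal

theorem g1_le {σ : ℝ} (hσ : 0 < σ) (y : ℝ) : g1 σ y ≤ 1 / √(4 * π * σ) := by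
  unfold g1
  gcongr
  rw [Real.exp_le_one_iff]
  have : 0 ≤ y ^ 2 / (4 * σ) := by positivity
  linarith

/-- the average as an integral of real functions -/
theorem Av_Ja {σ Y a a' C : ℝ} (hσ : 0 < σ) {F : ℂ → ℂ → ℝ}
    (hF : Measurable fun p : ℂ × ℂ => F p.1 p.2)
    (h0 : ∀ y ∈ Ioo (-Y) Y, ∀ y' ∈ Ioo (-Y) Y, 0 ≤ F ((a : ℂ) + (y : ℂ) * I) ((a' : ℂ) + (y' : ℂ) * I))
    (h1 : ∀ y ∈ Ioo (-Y) Y, ∀ y' ∈ Ioo (-Y) Y, F ((a : ℂ) + (y : ℂ) * I) ((a' : ℂ) + (y' : ℂ) * I) ≤ C) :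
    Av σ Y (fun u v => ENNReal.ofReal (F u v)) a a' = ENNReal.ofReal (Ja σ Y F a a') := by
  set G : ℝ → ℝ → ℝ := fun y y' => g1 σ (y - y') *
    F ((a : ℂ) + (y : ℂ) * I) ((a' : ℂ) + (y' : ℂ) * I) with hG
  set M := 1 / √(4 * π * σ) * C with hM
  have hGm : Measurable fun p : ℝ × ℝ => G p.1 p.2 := by
    rw [hG]
    refine Measurable.mul ((g1_cont _).measurable.comp (by fun_prop)) ?_
    exact hF.comp (f := fun p : ℝ × ℝ => ((a : ℂ) + (p.1 : ℂ) * I, (a' : ℂ) + (p.2 : ℂ) * I))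
      (by fun_prop)
  have hG0 : ∀ y ∈ Ioo (-Y) Y, ∀ y' ∈ Ioo (-Y) Y, 0 ≤ G y y' := fun y hy y' hy' =>
    mul_nonneg (g1_nonneg _ _) (h0 y hy y' hy')
  have hGM : ∀ y ∈ Ioo (-Y) Y, ∀ y' ∈ Ioo (-Y) Y, G y y' ≤ M := fun y hy y' hy' =>
    mul_le_mul (g1_le hσ _) (h1 y hy y' hy') (h0 y hy y' hy') (by positivity)
  have hint : ∀ y ∈ Ioo (-Y) Y, IntegrableOn (G y) (Ioo (-Y) Y) := by
    intro y hy
    refine Measure.integrableOn_of_bounded (M := M) (by simp) ?_ ?_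
    · exact (hGm.comp (f := fun y' : ℝ => (y, y')) (by fun_prop)).aestronglyMeasurable
    · rw [ae_restrict_iff' measurableSet_Ioo]
      refine Eventually.of_forall fun y' hy' => ?_
      rw [Real.norm_eq_abs, abs_of_nonneg (hG0 y hy y' hy')]
      exact hGM y hy y' hy'
  have hi0 : ∀ y ∈ Ioo (-Y) Y, 0 ≤ ∫ y' in Ioo (-Y) Y, G y y' := fun y hy =>
    setIntegral_nonneg measurableSet_Ioo fun y' hy' => hG0 y hy y' hy'
  have hint2 : IntegrableOn (fun y => ∫ y' in Ioo (-Y) Y, G y y') (Ioo (-Y) Y) := by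
    refine Measure.integrableOn_of_bounded (M := M * (volume (Ioo (-Y) Y)).toReal) (by simp) ?_ ?_
    · exact (hGm.stronglyMeasurable.integral_prod_right'
        (ν := volume.restrict (Ioo (-Y) Y))).aestronglyMeasurable
    · rw [ae_restrict_iff' measurableSet_Ioo]
      refine Eventually.of_forall fun y hy => ?_
      refine norm_setIntegral_le_of_norm_le_const (by simp) fun y' hy' => ?_
      rw [Real.norm_eq_abs, abs_of_nonneg (hG0 y hy y' hy')]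
      exact hGM y hy y' hy'
  change (∫⁻ y in Ioo (-Y) Y, ∫⁻ y' in Ioo (-Y) Y, ENNReal.ofReal (g1 σ (y - y')) *
    ENNReal.ofReal (F ((a : ℂ) + (y : ℂ) * I) ((a' : ℂ) + (y' : ℂ) * I))) =
    ENNReal.ofReal (∫ y in Ioo (-Y) Y, ∫ y' in Ioo (-Y) Y, G y y')
  rw [ofReal_integral_eq_lintegral_ofReal hint2 (by
    rw [EventuallyLE, ae_restrict_iff' measurableSet_Ioo]
    exact Eventually.of_forall hi0)]
  refine setLIntegral_congr_fun measurableSet_Ioo fun y hy => ?_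
  rw [ofReal_integral_eq_lintegral_ofReal (hint y hy) (by
    rw [EventuallyLE, ae_restrict_iff' measurableSet_Ioo]
    exact Eventually.of_forall (hG0 y hy))]
  refine lintegral_congr fun y' => ?_
  rw [hG, ENNReal.ofReal_mul (g1_nonneg _ _)]

/-- the sector -/
theorem rot_arg {α φ : ℝ} (hφ : 0 < φ) (hα : 0 < α) (hαφ : φ + α < π / 2) {z : ℂ}
    (hz : 0 < z.re) (h1 : 0 < arg z + φ) (h2 : arg z + φ < π / 2 - α) :
    arg (Complex.exp ((φ : ℂ) * I) * z) = arg z + φ ∧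
      Complex.exp ((φ : ℂ) * I) * z ∈ Hh 0 ∩ Hh α ∧ 0 < (Complex.exp ((φ : ℂ) * I) * z).im := by
  have hpi := Real.pi_gt_three
  have hz0 : z ≠ 0 := fun h => by rw [h] at hz; simp at hz
  have hn : 0 < ‖z‖ := norm_pos_iff.2 hz0
  have e : Complex.exp ((φ : ℂ) * I) * z = (‖z‖ : ℂ) * Complex.exp (((arg z + φ : ℝ) : ℂ) * I) := by
    conv_lhs => rw [← norm_mul_exp_arg_mul_I z]
    rw [mul_left_comm, ← Complex.exp_add]
    congr 2
    push_cast
    ring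
  have e1 : Complex.exp (((arg z + φ : ℝ) : ℂ) * I) = ((Real.cos (arg z + φ) : ℝ) : ℂ) +
      ((Real.sin (arg z + φ) : ℝ) : ℂ) * I := by
    rw [Complex.exp_mul_I, Complex.ofReal_cos, Complex.ofReal_sin]
  have harg : arg (Complex.exp ((φ : ℂ) * I) * z) = arg z + φ := by
    rw [e, e1, Complex.ofReal_cos, Complex.ofReal_sin]
    exact Complex.arg_mul_cos_add_sin_mul_I hn ⟨by linarith, by linarith⟩
  have him : 0 < (Complex.exp ((φ : ℂ) * I) * z).im := by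
    rw [e, e1]
    simp only [mul_im, ofReal_re, add_im, ofReal_im, I_im, I_re, mul_re, mul_zero, mul_one,
      add_zero, zero_mul, zero_add, sub_zero, add_re]
    have : 0 < Real.sin (arg z + φ) := Real.sin_pos_of_pos_of_lt_pi h1 (by linarith)
    positivity
  have hre : 0 < (Complex.exp ((φ : ℂ) * I) * z).re := by
    rw [e, e1]
    simp only [mul_re, ofReal_re, add_re, ofReal_im, I_re, I_im, mul_zero, mul_one, sub_zero,
      zero_mul, add_zero, mul_im, zero_add, sub_self, add_im]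
    have : 0 < Real.cos (arg z + φ) := Real.cos_pos_of_mem_Ioo ⟨by linarith, by linarith⟩
    positivity
  refine ⟨harg, ⟨(Hh0 _).2 him, ?_⟩, him⟩
  change 0 < (Complex.exp ((φ : ℂ) * I) * z).re * Real.sin α +
    (Complex.exp ((φ : ℂ) * I) * z).im * Real.cos α
  have hs : 0 < Real.sin α := Real.sin_pos_of_pos_of_lt_pi hα (by linarith)
  have hc : 0 < Real.cos α := Real.cos_pos_of_mem_Ioo ⟨by linarith, by linarith⟩
  positivity

theorem gk_le {s : ℝ} (hs : 0 < s) (z : ℂ) : gk s z ≤ 1 / (4 * π * s) := by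
  unfold gk
  gcongr
  rw [Real.exp_le_one_iff]
  have : 0 ≤ ‖z‖ ^ 2 / (4 * s) := by positivity
  linarith

/-- bounds of the kernel -/
theorem Gr_bd (hGW : S_GW) {α φ t : ℝ} (hα : 0 < α) (hφ : 0 < φ) (hαφ : φ + α < π / 2) (ht : 0 < t)
    {z w : ℂ} (hz : 0 < z.re) (hz1 : 0 < arg z + φ) (hz2 : arg z + φ < π / 2 - α)
    (hw : 0 < w.re) (hw1 : 0 < arg w + φ) (hw2 : arg w + φ < π / 2 - α) :
    0 ≤ Gr α φ t z w ∧ Gr α φ t z w ≤ 1 / (4 * π * t) := by
  have hpi := Real.pi_gt_three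
  have h1 := rot_arg hφ hα hαφ hz hz1 hz2
  have h2 := rot_arg hφ hα hαφ hw hw1 hw2
  have h3 := hGW α (Complex.exp ((φ : ℂ) * I) * w) hα (by linarith) h2.2.2 (by rw [h2.1]; exact hw2)
  refine ⟨h3.2 t _ ht h1.2.1, ?_⟩
  have h4 := h3.1.nonneg t (Complex.exp ((φ : ℂ) * I) * z) ht
  unfold pW at h4
  rw [if_pos h1.2.1] at h4
  have h5 := gk_nonneg (s := t) ht (conj (Complex.exp ((φ : ℂ) * I) * w) -
    Complex.exp ((φ : ℂ) * I) * z)
  have h6 := gk_le ht (Complex.exp ((φ : ℂ) * I) * w - Complex.exp ((φ : ℂ) * I) * z)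
  unfold Gr
  linarith

/-- bounds of the reference kernel -/
theorem Th_bd (hKF : S_KF) {t r : ℝ} (ht : 0 < t) (hr : 0 < r) {z w : ℂ} (hz : r ≤ ‖z‖)
    (hw : r ≤ ‖w‖) : 0 ≤ Th t z w ∧ Th t z w ≤ 1 / (π ^ 2 * t) * √(π / (2 * (r * r / (2 * t)))) := by
  have hn : 0 < ‖z‖ := hr.trans_le hz
  have hn' : 0 < ‖w‖ := hr.trans_le hw
  have hx : 0 < ‖z‖ * ‖w‖ / (2 * t) := by positivity
  have h0 : 0 ≤ Kf 0 (‖z‖ * ‖w‖ / (2 * t)) := by
    unfold Kf
    refine integral_nonneg fun u => ?_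
    rw [zero_mul, Real.cos_zero, mul_one]
    exact (Real.exp_pos _).le
  have h1 := hKF.1 0 (‖z‖ * ‖w‖ / (2 * t)) 0 le_rfl hx le_rfl (by positivity)
  rw [abs_of_nonneg h0, Real.cos_zero, mul_one, mul_one] at h1
  have h2 : Kf 0 (‖z‖ * ‖w‖ / (2 * t)) ≤ √(π / (2 * (r * r / (2 * t)))) := by
    refine h1.trans ?_
    have h3 : Real.exp (-(0 * 0) - ‖z‖ * ‖w‖ / (2 * t)) ≤ 1 := by
      rw [Real.exp_le_one_iff]
      linarith
    calc _ ≤ 1 * √(π / (2 * (‖z‖ * ‖w‖ / (2 * t)))) := by gcongr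
      _ ≤ _ := by
        rw [one_mul]
        refine Real.sqrt_le_sqrt ?_
        gcongr
  have h4 : Real.exp (-((‖z‖ ^ 2 + ‖w‖ ^ 2) / (4 * t))) ≤ 1 := by
    rw [Real.exp_le_one_iff]
    have : 0 ≤ (‖z‖ ^ 2 + ‖w‖ ^ 2) / (4 * t) := by positivity
    linarith
  unfold Th
  exact ⟨by positivity, by gcongr⟩

theorem Kd_arg' {d δ Y α φ : ℝ} (hd : 0 < d) (hδ : δ ≤ d / 8) (hφ : 0 < φ) (hα : 0 < α)
    (hαφ : φ + α < π / 2) (hY1 : Y < 3 / 4 * d * Real.sin φ)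
    (hY2 : Y < 3 / 4 * d * Real.sin (π / 2 - α - φ)) :
    ∀ z ∈ Kd d δ Y, 3 / 4 * d ≤ z.re ∧ 0 < arg z + φ ∧ arg z + φ < π / 2 - α := by
  rintro z ⟨⟨h1, h2⟩, ⟨h3, h4⟩⟩
  have hre : 3 / 4 * d ≤ z.re := by
    have h1' : d - 2 * δ ≤ z.re := h1
    linarith
  have him : |z.im| ≤ Y := abs_le.2 ⟨h3, h4⟩
  have a1 := arg_small (z := z) (r := 3 / 4 * d) (ψ := φ) (by linarith) hre hφ
    (by linarith) (by linarith)
  have a2 := arg_small (z := z) (r := 3 / 4 * d) (ψ := π / 2 - α - φ) (by linarith) hre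
    (by linarith) (by linarith) (by linarith)
  have b1 := (abs_lt.1 a1).1
  have b2 := (abs_lt.1 a2).2
  exact ⟨hre, by linarith, by linarith⟩

/-- the property in `S_E3` -/
def E3P (α φ d ε η : ℝ) : Prop := ∀ t τ σ x x' Y : ℝ, 0 < t → t < η → |τ - t| ≤ η * t → 0 < σ →
    σ ≤ η * t → |x - d| ≤ η → |x' - d| ≤ η → 0 < Y → t ≤ η * Y ^ 2 → Y ^ 3 ≤ η * t →
    0 < Ja σ Y (Th τ) x x' ∧
    |Ja σ Y (Gr α φ τ) x x' - (Df α φ + t / (2 * d ^ 2) * mm 2 α) * Ja σ Y (Th τ) x x'| ≤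
      ε * t * Ja σ Y (Th τ) x x'

theorem Ms_Tk (hGW : S_GW) (hKF : S_KF) {α φ d δ x ε η t s k θ Tt : ℝ} {m N : ℕ}
    (hE : E3P α φ d ε η) (h : Xc α φ d δ x)
    (hY2 : x ^ 4 < 3 / 4 * d * Real.sin (π / 2 - α - φ))
    (p : Par (nv (π / 2 + φ) φ) d t s k δ (x ^ 4) θ Tt m N) (hTt : 2 * Tt ≤ η * t)
    (hδη : 2 * δ ≤ η) (htη : t < η) (h1 : t ≤ η * (x ^ 4) ^ 2) (h2 : (x ^ 4) ^ 3 ≤ η * t)
    (hc : ε * t ≤ Df α φ + t / (2 * d ^ 2) * mm 2 α) (hε : 0 ≤ ε) :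
    ENNReal.ofReal (Df α φ + t / (2 * d ^ 2) * mm 2 α - ε * t) *
      Ms (Tk s) d δ δ (x ^ 4) s m N ≤ Ms (Gk α φ s) d δ δ (x ^ 4) s m N ∧
    Ms (Gk α φ s) d δ δ (x ^ 4) s m N ≤
      ENNReal.ofReal (Df α φ + t / (2 * d ^ 2) * mm 2 α + ε * t) *
        Ms (Tk s) d δ δ (x ^ 4) s m N := by
  have ht := p.ht
  have hs := p.s0
  have hd := h.hd
  have hδ := h.hδ
  have hx := h.hx
  have hδd : δ ≤ d / 8 := by linarith [h.hδd]
  have hpi := Real.pi_gt_three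
  have hsφ : 0 < Real.sin φ := Real.sin_pos_of_pos_of_lt_pi h.hφ (by linarith [h.hα, h.hαφ])
  have hY1 : x ^ 4 < 3 / 4 * d * Real.sin φ := by
    have := h.h4
    have : 0 < d * Real.sin φ := by positivity
    linarith
  have hKa := Kd_arg' (Y := x ^ 4) hd hδd h.hφ h.hα h.hαφ hY1 hY2
  set c := Df α φ + t / (2 * d ^ 2) * mm 2 α with hcdef
  set Y := x ^ 4 with hY
  have hY0 : 0 < Y := by positivity
  have hmem : ∀ a ∈ Icc (d - 2 * δ) (d - δ), ∀ y ∈ Ioo (-Y) Y,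
      (a : ℂ) + (y : ℂ) * I ∈ Kd d δ Y := by
    intro a ha y hy
    refine ⟨?_, ?_⟩
    · simpa using ha
    · simp only [mem_preimage, add_im, ofReal_im, mul_im, ofReal_re, I_im, mul_one, I_re, mul_zero,
        add_zero, zero_add]
      exact ⟨hy.1.le, hy.2.le⟩
  -- the two averages
  have key : ∀ i < N, ∀ j < N, ∀ a ∈ Icc (d - 2 * δ) (d - δ), ∀ a' ∈ Icc (d - 2 * δ) (d - δ),
      ∃ J J' : ℝ, 0 < J ∧ |J' - c * J| ≤ ε * t * J ∧
      Av (((j : ℝ) + 1) * s + ((i : ℝ) + 1) * s) Y (Tk s (m - 1 - i - 1 - j)) a a' =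
        ENNReal.ofReal J ∧
      Av (((j : ℝ) + 1) * s + ((i : ℝ) + 1) * s) Y (Gk α φ s (m - 1 - i - 1 - j)) a a' =
        ENNReal.ofReal J' := by
    intro i hi j hj a ha a' ha'
    set σ := ((j : ℝ) + 1) * s + ((i : ℝ) + 1) * s with hσ
    set τ := ((m - 1 - i - 1 - j : ℕ) + 1 : ℝ) * s with hτ
    have hm := p.mid hi hj
    have hσ0 : 0 < σ := by positivity
    have hτ1 : τ = t - σ := by
      rw [hτ, hm.2, hσ]
      ring
    have hτ2 : t - 2 * Tt ≤ τ := hm.1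
    have hτ0 : 0 < τ := by
      have := p.hTt4
      linarith
    have hσt : σ ≤ η * t := by linarith
    have hJ := hE t τ σ a a' Y ht htη (by
      rw [hτ1]
      have e : t - σ - t = -σ := by ring
      rw [e, abs_neg, abs_of_pos hσ0]
      exact hσt) hσ0 hσt (by
      rw [abs_le]
      constructor <;> linarith [ha.1, ha.2]) (by
      rw [abs_le]
      constructor <;> linarith [ha'.1, ha'.2]) hY0 h1 h2
    refine ⟨Ja σ Y (Th τ) a a', Ja σ Y (Gr α φ τ) a a', hJ.1, hJ.2, ?_, ?_⟩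
    · refine Av_Ja (C := 1 / (π ^ 2 * τ) * √(π / (2 * ((3 / 4 * d) * (3 / 4 * d) / (2 * τ)))))
        hσ0 (Th_meas τ) (fun y hy y' hy' => ?_) (fun y hy y' hy' => ?_)
      · exact (Th_bd hKF hτ0 (r := 3 / 4 * d) (by positivity)
          ((hKa _ (hmem a ha y hy)).1.trans (re_le_norm _))
          ((hKa _ (hmem a' ha' y' hy')).1.trans (re_le_norm _))).1
      · exact (Th_bd hKF hτ0 (r := 3 / 4 * d) (by positivity)
          ((hKa _ (hmem a ha y hy)).1.trans (re_le_norm _))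
          ((hKa _ (hmem a' ha' y' hy')).1.trans (re_le_norm _))).2
    · have hbd : ∀ y ∈ Ioo (-Y) Y, ∀ y' ∈ Ioo (-Y) Y,
          0 ≤ Gr α φ τ ((a : ℂ) + (y : ℂ) * I) ((a' : ℂ) + (y' : ℂ) * I) ∧
          Gr α φ τ ((a : ℂ) + (y : ℂ) * I) ((a' : ℂ) + (y' : ℂ) * I) ≤ 1 / (4 * π * τ) := by
        intro y hy y' hy'
        have k1 := hKa _ (hmem a ha y hy)
        have k2 := hKa _ (hmem a' ha' y' hy')
        exact Gr_bd hGW h.hα h.hφ h.hαφ hτ0 (by linarith [k1.1]) k1.2.1 k1.2.2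
          (by linarith [k2.1]) k2.2.1 k2.2.2
      exact Av_Ja (C := 1 / (4 * π * τ)) hσ0 (Gr_meas α φ τ) (fun y hy y' hy' =>
        (hbd y hy y' hy').1) (fun y hy y' hy' => (hbd y hy y' hy').2)
  constructor
  · rw [← one_mul (Ms (Gk α φ s) d δ δ Y s m N)]
    refine Ms_av (Tk_meas s) (Gk_meas α φ s) hs ENNReal.ofReal_ne_top ENNReal.one_ne_top
      fun i hi j hj a ha a' ha' => ?_
    obtain ⟨J, J', hJ, hJJ, e1, e2⟩ := key i hi j hj a ha a' ha'
    rw [e1, e2, one_mul, ← ENNReal.ofReal_mul (by linarith)]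
    refine ENNReal.ofReal_le_ofReal ?_
    rw [abs_le] at hJJ
    linarith [hJJ.1]
  · rw [← one_mul (Ms (Gk α φ s) d δ δ Y s m N)]
    refine Ms_av (Gk_meas α φ s) (Tk_meas s) hs ENNReal.one_ne_top ENNReal.ofReal_ne_top
      fun i hi j hj a ha a' ha' => ?_
    obtain ⟨J, J', hJ, hJJ, e1, e2⟩ := key i hi j hj a ha a' ha'
    have hεt : 0 ≤ ε * t := by positivity
    rw [e1, e2, one_mul, ← ENNReal.ofReal_mul (by linarith)]
    refine ENNReal.ofReal_le_ofReal ?_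
    rw [abs_le] at hJJ
    linarith [hJJ.2]

end Pool.Agent.N275.QD
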