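import Pool.Agent.N275.QD.Strip3

set_option autoImplicit false

/-!
# Project QD: the vertical average
-/

namespace Pool.Agent.N275.QD

open MeasureTheory Set Filter Topology Complex
open Pool.Agent.R225.LP (gk ks ip ip_self)
open Pool.Agent.R225.LP.TR (ch ch_meas meas_left meas_right ch_mono_set kp kp_meas kp_comm ks_eq)
open Pool.Agent.N670.QD (ft g1_nonneg g1_cont g1_conv)
open scoped Real ENNReal ComplexConjugate

/-- Tonelli's theorem in a rectangle -/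
theorem lint_rect {f : ℂ → ℝ≥0∞} (hf : Measurable f) {A B : Set ℝ} (hA : MeasurableSet A)
    (hB : MeasurableSet B) : ∫⁻ z in {z : ℂ | z.re ∈ A ∧ z.im ∈ B}, f z =
      ∫⁻ x in A, ∫⁻ y in B, f ((x : ℂ) + (y : ℂ) * I) := by
  have hS : MeasurableSet {z : ℂ | z.re ∈ A ∧ z.im ∈ B} :=
    (measurable_re hA).inter (measurable_im hB)
  rw [← lintegral_indicator hS, lint_plane (hf.indicator hS), ← lintegral_indicator hA]
  refine lintegral_congr fun x => ?_
  by_cases hx : x ∈ A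
  · rw [indicator_of_mem hx, ← lintegral_indicator hB]
    refine lintegral_congr fun y => ?_
    by_cases hy : y ∈ B
    · rw [indicator_of_mem hy, indicator_of_mem]
      simp [hx, hy]
    · rw [indicator_of_notMem hy, indicator_of_notMem]
      simp [hy]
  · rw [indicator_of_notMem hx]
    rw [lintegral_congr (g := fun _ => 0)]
    · simp
    · intro y
      rw [indicator_of_notMem]
      simp [hx]

/-- joint measurability of the one dimensional chain, also in the end point of the interval -/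
theorem k1v_meas (c s : ℝ) (i : ℕ) :
    Measurable fun q : ℝ × ℝ × ℝ => k1 (Ioo c q.1) s i q.2.1 q.2.2 := by
  induction i with
  | zero =>
    unfold k1
    exact ENNReal.measurable_ofReal.comp ((g1_cont s).measurable.comp (by fun_prop))
  | succ i ih =>
    have e : (fun q : ℝ × ℝ × ℝ => k1 (Ioo c q.1) s (i + 1) q.2.1 q.2.2) = fun q =>
        ∫⁻ z : ℝ, {p : (ℝ × ℝ × ℝ) × ℝ | c < p.2 ∧ p.2 < p.1.1}.indicator (fun p =>
          ENNReal.ofReal (g1 s (p.2 - p.1.2.1)) * k1 (Ioo c p.1.1) s i p.2 p.1.2.2) (q, z) := by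
      funext q
      change ∫⁻ z in Ioo c q.1, ENNReal.ofReal (g1 s (z - q.2.1)) *
        k1 (Ioo c q.1) s i z q.2.2 = _
      rw [← lintegral_indicator measurableSet_Ioo]
      refine lintegral_congr fun z => ?_
      by_cases hz : z ∈ Ioo c q.1
      · rw [indicator_of_mem hz, indicator_of_mem]
        exact hz
      · rw [indicator_of_notMem hz, indicator_of_notMem]
        exact hz
    rw [e]
    refine Measurable.lintegral_prod_right' (f := fun p : (ℝ × ℝ × ℝ) × ℝ =>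
      {p : (ℝ × ℝ × ℝ) × ℝ | c < p.2 ∧ p.2 < p.1.1}.indicator (fun p =>
          ENNReal.ofReal (g1 s (p.2 - p.1.2.1)) * k1 (Ioo c p.1.1) s i p.2 p.1.2.2) p) ?_
    refine Measurable.indicator ?_ ?_
    · refine Measurable.mul ?_ ?_
      · exact ENNReal.measurable_ofReal.comp ((g1_cont s).measurable.comp (by fun_prop))
      · exact ih.comp (f := fun p : (ℝ × ℝ × ℝ) × ℝ => (p.1.1, p.2, p.1.2.2)) (by fun_prop)
    · exact (measurableSet_lt measurable_const measurable_snd).inter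
        (measurableSet_lt measurable_snd (by fun_prop))

/-- the vertical average of a kernel -/
noncomputable def Av (σ Y : ℝ) (K : ℂ → ℂ → ℝ≥0∞) (a a' : ℝ) : ℝ≥0∞ :=
  ∫⁻ y in Ioo (-Y) Y, ∫⁻ y' in Ioo (-Y) Y, ENNReal.ofReal (g1 σ (y - y')) *
    K ((a : ℂ) + (y : ℂ) * I) ((a' : ℂ) + (y' : ℂ) * I)

theorem ch_St {d δ s : ℝ} (hs : 0 < s) (b : ℂ) (i : ℕ) (u v : ℂ) :
    ch (kp s) (St d δ b) i u v = k1 (Ioo (d - δ) b.re) s i u.re v.re *
      ENNReal.ofReal (g1 ((i + 1) * s) (v.im - u.im)) := by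
  rw [← ks_eq]
  exact ft (Ioo (d - δ) b.re) s i u v measurableSet_Ioo hs

theorem Sg_rect (d δ Y : ℝ) :
    Sg d δ Y = {z : ℂ | z.re ∈ Icc (d - 2 * δ) (d - δ) ∧ z.im ∈ Ioo (-Y) Y} := by
  ext z
  simp only [Sg, mem_ofPred_eq, mem_Icc, mem_Ioo, abs_lt]
  tauto

theorem S0_rect (d kk : ℝ) :
    {b : ℂ | d ≤ b.re ∧ b.re ≤ d + kk} = {z : ℂ | z.re ∈ Icc d (d + kk) ∧ z.im ∈ univ} := by
  ext z
  simp

/-- the term with `i` and `j` -/
noncomputable def FF (K : ℂ → ℂ → ℝ≥0∞) (c s : ℝ) (i j : ℕ) (b u v : ℂ) : ℝ≥0∞ :=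
  k1 (Ioo c b.re) s i b.re u.re * ENNReal.ofReal (g1 ((i + 1) * s) (u.im - b.im)) *
    (K u v * (k1 (Ioo c b.re) s j v.re b.re * ENNReal.ofReal (g1 ((j + 1) * s) (b.im - v.im))))

theorem FF_meas {K : ℂ → ℂ → ℝ≥0∞} (hK : Measurable (Function.uncurry K)) (c s : ℝ) (i j : ℕ) :
    Measurable fun q : ℂ × ℂ × ℂ => FF K c s i j q.1 q.2.1 q.2.2 := by
  unfold FF
  have h1 : Measurable fun q : ℂ × ℂ × ℂ => k1 (Ioo c q.1.re) s i q.1.re q.2.1.re :=
    (k1v_meas c s i).comp (f := fun q : ℂ × ℂ × ℂ => (q.1.re, q.1.re, q.2.1.re)) (by fun_prop)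
  have h2 : Measurable fun q : ℂ × ℂ × ℂ => k1 (Ioo c q.1.re) s j q.2.2.re q.1.re :=
    (k1v_meas c s j).comp (f := fun q : ℂ × ℂ × ℂ => (q.1.re, q.2.2.re, q.1.re)) (by fun_prop)
  have h3 : Measurable fun q : ℂ × ℂ × ℂ => ENNReal.ofReal (g1 ((i + 1) * s) (q.2.1.im - q.1.im)) :=
    ENNReal.measurable_ofReal.comp ((g1_cont _).measurable.comp (by fun_prop))
  have h4 : Measurable fun q : ℂ × ℂ × ℂ => ENNReal.ofReal (g1 ((j + 1) * s) (q.1.im - q.2.2.im)) :=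
    ENNReal.measurable_ofReal.comp ((g1_cont _).measurable.comp (by fun_prop))
  have h5 : Measurable fun q : ℂ × ℂ × ℂ => K q.2.1 q.2.2 :=
    hK.comp (f := fun q : ℂ × ℂ × ℂ => q.2) measurable_snd
  exact (h1.mul h3).mul (h5.mul (h2.mul h4))

theorem ml1 {X : Type*} [MeasurableSpace X] {F : X → ℂ → ℝ≥0∞}
    (hF : Measurable (Function.uncurry F)) (S : Set ℂ) : Measurable fun x => ∫⁻ v in S, F x v :=
  Measurable.lintegral_prod_right' (f := Function.uncurry F) hF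

theorem T_avg {K : ℂ → ℂ → ℝ≥0∞} (hK : Measurable (Function.uncurry K)) {d δ Y s : ℝ}
    (hs : 0 < s) (i j : ℕ) (x : ℝ) :
    ∫⁻ y : ℝ, ∫⁻ u in Sg d δ Y, ∫⁻ v in Sg d δ Y, FF K (d - δ) s i j ((x : ℂ) + (y : ℂ) * I) u v =
      ∫⁻ a in Icc (d - 2 * δ) (d - δ), ∫⁻ a' in Icc (d - 2 * δ) (d - δ),
        k1 (Ioo (d - δ) x) s i x a * k1 (Ioo (d - δ) x) s j a' x *
          Av (((j : ℝ) + 1) * s + ((i : ℝ) + 1) * s) Y K a a' := by
  set c := d - δ with hc
  have hF := FF_meas hK c s i j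
  have hFy : Measurable fun q : ℝ × ℂ × ℂ => FF K c s i j ((x : ℂ) + (q.1 : ℂ) * I) q.2.1 q.2.2 :=
    hF.comp (f := fun q : ℝ × ℂ × ℂ => ((x : ℂ) + (q.1 : ℂ) * I, q.2.1, q.2.2)) (by fun_prop)
  have m1 : Measurable (Function.uncurry fun (y : ℝ) (u : ℂ) => ∫⁻ v in Sg d δ Y,
      FF K c s i j ((x : ℂ) + (y : ℂ) * I) u v) :=
    ml1 (X := ℝ × ℂ) (F := fun p v => FF K c s i j ((x : ℂ) + (p.1 : ℂ) * I) p.2 v)
      (hFy.comp (f := fun p : (ℝ × ℂ) × ℂ => (p.1.1, p.1.2, p.2)) (by fun_prop)) _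
  rw [lintegral_lintegral_swap m1.aemeasurable]
  have hg : ∀ u v : ℂ, ∫⁻ y : ℝ, FF K c s i j ((x : ℂ) + (y : ℂ) * I) u v =
      k1 (Ioo c x) s i x u.re * k1 (Ioo c x) s j v.re x *
        (ENNReal.ofReal (g1 (((j : ℝ) + 1) * s + ((i : ℝ) + 1) * s) (u.im - v.im)) * K u v) := by
    intro u v
    have e : ∀ y : ℝ, FF K c s i j ((x : ℂ) + (y : ℂ) * I) u v =
        (k1 (Ioo c x) s i x u.re * k1 (Ioo c x) s j v.re x * K u v) *
        (ENNReal.ofReal (g1 (((j : ℝ) + 1) * s) (y - v.im)) *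
          ENNReal.ofReal (g1 (((i : ℝ) + 1) * s) (u.im - y))) := by
      intro y
      unfold FF
      simp only [add_re, ofReal_re, mul_re, I_re, mul_zero, ofReal_im, I_im, mul_one, sub_self,
        add_zero, add_im, mul_im, zero_add]
      ring
    simp_rw [e]
    rw [lintegral_const_mul, g1_conv _ _ _ _ (by positivity) (by positivity)]
    · ring
    · exact (ENNReal.measurable_ofReal.comp ((g1_cont _).measurable.comp (by fun_prop))).mul
        (ENNReal.measurable_ofReal.comp ((g1_cont _).measurable.comp (by fun_prop)))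
  set H : ℂ → ℂ → ℝ≥0∞ := fun u v => k1 (Ioo c x) s i x u.re * k1 (Ioo c x) s j v.re x *
        (ENNReal.ofReal (g1 (((j : ℝ) + 1) * s + ((i : ℝ) + 1) * s) (u.im - v.im)) * K u v) with hH
  have hk1 : Measurable fun a : ℝ => k1 (Ioo c x) s i x a :=
    (k1v_meas c s i).comp (f := fun a : ℝ => (x, x, a)) (by fun_prop)
  have hk2 : Measurable fun a : ℝ => k1 (Ioo c x) s j a x :=
    (k1v_meas c s j).comp (f := fun a : ℝ => (x, a, x)) (by fun_prop)
  have hHm : Measurable (Function.uncurry H) := by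
    rw [hH]
    refine Measurable.mul (Measurable.mul ?_ ?_) (Measurable.mul ?_ ?_)
    · exact hk1.comp (f := fun p : ℂ × ℂ => p.1.re) (by fun_prop)
    · exact hk2.comp (f := fun p : ℂ × ℂ => p.2.re) (by fun_prop)
    · exact ENNReal.measurable_ofReal.comp ((g1_cont _).measurable.comp
        (f := fun p : ℂ × ℂ => p.1.im - p.2.im) (by fun_prop))
    · exact hK
  have step1 : ∀ u : ℂ, ∫⁻ y : ℝ, ∫⁻ v in Sg d δ Y, FF K c s i j ((x : ℂ) + (y : ℂ) * I) u v =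
      ∫⁻ v in Sg d δ Y, H u v := by
    intro u
    rw [lintegral_lintegral_swap]
    · exact lintegral_congr fun v => hg u v
    · exact (hFy.comp (f := fun p : ℝ × ℂ => (p.1, u, p.2)) (by fun_prop)).aemeasurable
  rw [lintegral_congr step1, Sg_rect, lint_rect (ml1 hHm _) measurableSet_Icc measurableSet_Ioo]
  refine lintegral_congr fun a => ?_
  have step2 : ∀ y : ℝ, ∫⁻ v in {z : ℂ | z.re ∈ Icc (d - 2 * δ) c ∧ z.im ∈ Ioo (-Y) Y},
      H ((a : ℂ) + (y : ℂ) * I) v = ∫⁻ a' in Icc (d - 2 * δ) c, ∫⁻ y' in Ioo (-Y) Y,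
        H ((a : ℂ) + (y : ℂ) * I) ((a' : ℂ) + (y' : ℂ) * I) := fun y =>
    lint_rect (hHm.comp (f := fun v : ℂ => ((a : ℂ) + (y : ℂ) * I, v)) (by fun_prop))
      measurableSet_Icc measurableSet_Ioo
  rw [lintegral_congr step2, lintegral_lintegral_swap]
  · refine lintegral_congr fun a' => ?_
    unfold Av
    have hin : ∀ y : ℝ, Measurable fun y' : ℝ => ENNReal.ofReal (g1 (((j : ℝ) + 1) * s +
        ((i : ℝ) + 1) * s) (y - y')) * K ((a : ℂ) + (y : ℂ) * I) ((a' : ℂ) + (y' : ℂ) * I) := by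
      intro y
      refine Measurable.mul ?_ ?_
      · exact ENNReal.measurable_ofReal.comp ((g1_cont _).measurable.comp (by fun_prop))
      · exact hK.comp (f := fun y' : ℝ => ((a : ℂ) + (y : ℂ) * I, (a' : ℂ) + (y' : ℂ) * I))
          (by fun_prop)
    have hout : Measurable fun y : ℝ => ∫⁻ y' in Ioo (-Y) Y, ENNReal.ofReal (g1 (((j : ℝ) + 1) * s +
        ((i : ℝ) + 1) * s) (y - y')) * K ((a : ℂ) + (y : ℂ) * I) ((a' : ℂ) + (y' : ℂ) * I) := by
      refine Measurable.lintegral_prod_right' (f := fun p : ℝ × ℝ => ENNReal.ofReal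
        (g1 (((j : ℝ) + 1) * s + ((i : ℝ) + 1) * s) (p.1 - p.2)) *
          K ((a : ℂ) + (p.1 : ℂ) * I) ((a' : ℂ) + (p.2 : ℂ) * I)) ?_
      refine Measurable.mul ?_ ?_
      · exact ENNReal.measurable_ofReal.comp ((g1_cont _).measurable.comp (by fun_prop))
      · exact hK.comp (f := fun p : ℝ × ℝ => ((a : ℂ) + (p.1 : ℂ) * I, (a' : ℂ) + (p.2 : ℂ) * I))
          (by fun_prop)
    rw [← lintegral_const_mul _ hout]
    refine lintegral_congr fun y => ?_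
    rw [← lintegral_const_mul _ (hin y)]
    refine lintegral_congr fun y' => ?_
    rw [hH]
    simp
  · refine Measurable.aemeasurable ?_
    refine Measurable.lintegral_prod_right' (f := fun p : (ℝ × ℝ) × ℝ =>
      H ((a : ℂ) + (p.1.1 : ℂ) * I) ((p.1.2 : ℂ) + (p.2 : ℂ) * I)) ?_
    exact hHm.comp (f := fun p : (ℝ × ℝ) × ℝ => ((a : ℂ) + (p.1.1 : ℂ) * I,
      (p.1.2 : ℂ) + (p.2 : ℂ) * I)) (by fun_prop)

theorem Ms_eq {K : ℕ → ℂ → ℂ → ℝ≥0∞} (hK : ∀ k, Measurable (Function.uncurry (K k)))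
    {d δ kk Y s : ℝ} (hs : 0 < s) (m N : ℕ) :
    Ms K d δ kk Y s m N = ((m + 1 : ℕ) : ℝ≥0∞) * ∫⁻ x in Icc d (d + kk),
      ∑ i ∈ Finset.range N, ∑ j ∈ Finset.range N,
      ∫⁻ a in Icc (d - 2 * δ) (d - δ), ∫⁻ a' in Icc (d - 2 * δ) (d - δ),
        k1 (Ioo (d - δ) x) s i x a * k1 (Ioo (d - δ) x) s j a' x *
          Av (((j : ℝ) + 1) * s + ((i : ℝ) + 1) * s) Y (K (m - 1 - i - 1 - j)) a a' := by
  unfold Ms
  congr 1
  have hT : ∀ i j : ℕ, Measurable fun b : ℂ => ∫⁻ u in Sg d δ Y, ∫⁻ v in Sg d δ Y,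
      FF (K (m - 1 - i - 1 - j)) (d - δ) s i j b u v := by
    intro i j
    have hF := FF_meas (hK (m - 1 - i - 1 - j)) (d - δ) s i j
    refine ml1 (F := fun b u => ∫⁻ v in Sg d δ Y, FF (K (m - 1 - i - 1 - j)) (d - δ) s i j b u v) ?_ _
    exact ml1 (X := ℂ × ℂ) (F := fun p v => FF (K (m - 1 - i - 1 - j)) (d - δ) s i j p.1 p.2 v)
      (hF.comp (f := fun p : (ℂ × ℂ) × ℂ => (p.1.1, p.1.2, p.2)) (by fun_prop)) _
  have hE : ∀ b : ℂ, Ess K (St d δ b) (Sg d δ Y) s m N b = ∑ i ∈ Finset.range N,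
      ∑ j ∈ Finset.range N, ∫⁻ u in Sg d δ Y, ∫⁻ v in Sg d δ Y,
        FF (K (m - 1 - i - 1 - j)) (d - δ) s i j b u v := by
    intro b
    unfold Ess
    refine Finset.sum_congr rfl fun i _ => Finset.sum_congr rfl fun j _ => ?_
    refine lintegral_congr fun u => ?_
    rw [← lintegral_const_mul]
    · refine lintegral_congr fun v => ?_
      rw [ch_St hs, ch_St hs]
      rfl
    · exact (meas_right (hK _) u).mul (meas_left (ch_meas (kp_meas s) _ j) b)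
  simp_rw [hE]
  have hTs : Measurable fun b : ℂ => ∑ i ∈ Finset.range N,
      ∑ j ∈ Finset.range N, ∫⁻ u in Sg d δ Y, ∫⁻ v in Sg d δ Y,
        FF (K (m - 1 - i - 1 - j)) (d - δ) s i j b u v :=
    Finset.measurable_fun_sum _ fun i _ => Finset.measurable_fun_sum _ fun j _ => hT i j
  rw [S0_rect, lint_rect hTs measurableSet_Icc MeasurableSet.univ]
  refine lintegral_congr fun x => ?_
  rw [Measure.restrict_univ]
  have hTy : ∀ i j : ℕ, Measurable fun y : ℝ => ∫⁻ u in Sg d δ Y, ∫⁻ v in Sg d δ Y,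
      FF (K (m - 1 - i - 1 - j)) (d - δ) s i j ((x : ℂ) + (y : ℂ) * I) u v := fun i j =>
    (hT i j).comp (f := fun y : ℝ => (x : ℂ) + (y : ℂ) * I) (by fun_prop)
  rw [lintegral_finsetSum _ fun i _ => Finset.measurable_fun_sum _ fun j _ => hTy i j]
  refine Finset.sum_congr rfl fun i _ => ?_
  rw [lintegral_finsetSum _ fun j _ => hTy i j]
  refine Finset.sum_congr rfl fun j _ => ?_
  exact T_avg (hK _) hs i j x

/-- comparison by vertical averages -/
theorem Ms_av {K₁ K₂ : ℕ → ℂ → ℂ → ℝ≥0∞} (hK₁ : ∀ k, Measurable (Function.uncurry (K₁ k)))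
    (hK₂ : ∀ k, Measurable (Function.uncurry (K₂ k))) {d δ kk Y s : ℝ} (hs : 0 < s) {m N : ℕ}
    {C₁ C₂ : ℝ≥0∞} (hC₁ : C₁ ≠ ∞) (hC₂ : C₂ ≠ ∞)
    (h : ∀ i < N, ∀ j < N, ∀ a ∈ Icc (d - 2 * δ) (d - δ), ∀ a' ∈ Icc (d - 2 * δ) (d - δ),
      C₁ * Av (((j : ℝ) + 1) * s + ((i : ℝ) + 1) * s) Y (K₁ (m - 1 - i - 1 - j)) a a' ≤
        C₂ * Av (((j : ℝ) + 1) * s + ((i : ℝ) + 1) * s) Y (K₂ (m - 1 - i - 1 - j)) a a') :
    C₁ * Ms K₁ d δ kk Y s m N ≤ C₂ * Ms K₂ d δ kk Y s m N := by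
  rw [Ms_eq hK₁ hs, Ms_eq hK₂ hs, mul_left_comm, mul_left_comm C₂]
  gcongr ((m + 1 : ℕ) : ℝ≥0∞) * ?_
  rw [← lintegral_const_mul' _ _ hC₁, ← lintegral_const_mul' _ _ hC₂]
  refine lintegral_mono fun x => ?_
  rw [Finset.mul_sum, Finset.mul_sum]
  refine Finset.sum_le_sum fun i hi => ?_
  rw [Finset.mul_sum, Finset.mul_sum]
  refine Finset.sum_le_sum fun j hj => ?_
  rw [← lintegral_const_mul' _ _ hC₁, ← lintegral_const_mul' _ _ hC₂]
  refine setLIntegral_mono' measurableSet_Icc fun a ha => ?_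
  rw [← lintegral_const_mul' _ _ hC₁, ← lintegral_const_mul' _ _ hC₂]
  refine setLIntegral_mono' measurableSet_Icc fun a' ha' => ?_
  rw [mul_left_comm, mul_left_comm C₂]
  exact mul_le_mul_right (h i (Finset.mem_range.1 hi) j (Finset.mem_range.1 hj) a ha a' ha') _

end Pool.Agent.N275.QD
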