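import Pool.Agent.N275.QD.T1b

set_option autoImplicit false

/-!
# Project QD: parameters for the other types
-/

namespace Pool.Agent.N275.QD

open MeasureTheory Set Filter Topology Complex
open Pool.Agent.R225.LP (gk ks ip ip_self)
open scoped Real ENNReal ComplexConjugate

theorem nvB_re (φ : ℝ) : (nv (π / 2 + φ) φ).re = 1 := by
  simp [nv]

theorem nvB_im (φ : ℝ) : (nv (π / 2 + φ) φ).im = 0 := by
  simp [nv]

theorem nvB_ip (φ : ℝ) (z : ℂ) : ip (nv (π / 2 + φ) φ) z = z.re := by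
  simp [ip, nvB_re, nvB_im]

theorem HhB (φ : ℝ) (z : ℂ) : z ∈ Hh φ ↔ 0 < z.re * Real.sin φ + z.im * Real.cos φ := Iff.rfl

theorem notHhB (φ : ℝ) (z : ℂ) : z ∈ (Hh φ)ᶜ ↔ z.re * Real.sin φ + z.im * Real.cos φ ≤ 0 := by
  simp [Hh]

/-- the points of `A` -/
theorem AB {α φ : ℝ} (hα : 0 < α) (hφ : 0 ≤ φ) (hαφ : φ + α < π / 2) {z : ℂ}
    (hz : z ∈ (Hh (φ + α))ᶜ ∩ Hh φ) : z.re ≤ 0 ∧ 0 ≤ z.im := by
  have h1 := (notHhB (φ + α) z).1 hz.1
  have h2 := (HhB φ z).1 hz.2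
  have h3 : 0 < Real.sin α := Real.sin_pos_of_pos_of_lt_pi hα (by linarith [Real.pi_pos])
  have h4 : 0 < Real.cos φ := Real.cos_pos_of_mem_Ioo ⟨by linarith, by linarith⟩
  have h5 : 0 < Real.cos (φ + α) := Real.cos_pos_of_mem_Ioo ⟨by linarith, hαφ⟩
  have h6 : 0 ≤ Real.sin φ := Real.sin_nonneg_of_nonneg_of_le_pi hφ (by linarith [Real.pi_pos])
  have e : Real.sin α = Real.sin (φ + α) * Real.cos φ - Real.cos (φ + α) * Real.sin φ := by
    rw [← Real.sin_sub]
    congr 1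
    ring
  have hre : z.re ≤ 0 := by
    have h7 : (z.re * Real.sin (φ + α) + z.im * Real.cos (φ + α)) * Real.cos φ ≤ 0 :=
      mul_nonpos_of_nonpos_of_nonneg h1 h4.le
    have h8 : 0 < (z.re * Real.sin φ + z.im * Real.cos φ) * Real.cos (φ + α) := mul_pos h2 h5
    have h9 : z.re * Real.sin α < 0 := by
      rw [e]
      nlinarith
    by_contra hcon
    push Not at hcon
    have := mul_pos hcon h3
    linarith
  refine ⟨hre, ?_⟩
  by_contra hcon
  push Not at hcon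
  have h7 : z.re * Real.sin φ ≤ 0 := mul_nonpos_of_nonpos_of_nonneg hre h6
  have h8 : z.im * Real.cos φ < 0 := mul_neg_of_neg_of_pos hcon h4
  linarith

theorem gloB {α φ d δ : ℝ} (hα : 0 < α) (hφ : 0 ≤ φ) (hαφ : φ + α < π / 2)
    (hd : 0 < d) (hδ : 0 < δ) (hδd : δ ≤ d / 8) :
    Glo (nv (π / 2 + φ) φ) (Hh φ) ((Hh (φ + α))ᶜ ∩ Hh φ) (Tv (π / 2 + φ) φ d) d δ δ :=
  { hn := nv_norm _ _
    hr := by rw [nvB_re]; exact one_pos
    Hm := Hh_meas φ
    Am := (Hh_meas _).compl.inter (Hh_meas φ)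
    Tm := Tv_meas _ _ _
    A0 := fun z hz => (AB hα hφ hαφ hz).1
    Tu := fun b hb z hz => le_trans hb hz
    T0 := fun b hb _ => by
      have h1 : d ≤ ip (nv (π / 2 + φ) φ) b := hb
      rwa [nvB_ip] at h1
    Tc := fun b hb _ z _ hz' => by
      have h1 : d ≤ ip (nv (π / 2 + φ) φ) b := hb
      rw [nvB_ip] at h1 ⊢
      rw [nvB_ip]
      linarith
    hd := hd
    hδ := hδ
    hδd := hδd
    hδ' := hδ }

/-- directions of decay -/
theorem farB {α φ d δ x : ℝ} (hα : 0 < α) (hφ : 0 ≤ φ) (hαφ : φ + α < π / 2)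
    (hd : 0 < d) (hx : 0 < x) (hx3' : x ^ 4 ≤ 8 * d)
    (hx4' : x ^ 4 ≤ 8 * d * (π / 2 - φ - α)) (hx5' : x ^ 8 ≤ d * δ) {b : ℂ} (hre : d ≤ b.re)
    (hcases : x ^ 4 / 2 < |b.im| ∨ d + δ < b.re) :
    ∃ w : ℂ, ‖w‖ = 1 ∧ (nv (π / 2 + φ) φ).re / 2 ≤ ip w (nv (π / 2 + φ) φ) ∧
      (∀ z ∈ (Hh (φ + α))ᶜ ∩ Hh φ, ip w z ≤ 0) ∧
        d + x ^ 8 / (100 * d) + x ^ 4 / (40 * d) * (|b.re - d| + |b.im|) ≤ ip w b := by
  have hpi := Real.pi_gt_three
  set ψ := x ^ 4 / (8 * d) with hψ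
  have hψ0 : 0 < ψ := by positivity
  have hψ1 : ψ ≤ 1 := by
    rw [hψ, div_le_one (by positivity)]
    exact hx3'
  have hψα : ψ ≤ π / 2 - φ - α := by
    rw [hψ, div_le_iff₀ (by positivity)]
    linarith
  have hcos := Real.one_sub_sq_div_two_le_cos (x := ψ)
  have hsin := half_sin hψ0.le (by linarith)
  have hψ2 : ψ ^ 2 ≤ 1 := pow_le_one₀ hψ0.le hψ1
  have hcos2 : 1 / 2 ≤ Real.cos ψ := by linarith
  have hcos1 := Real.cos_le_one ψ
  have hsin0 : 0 < Real.sin ψ := by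
    have : 0 < 3 / 5 * ψ := by positivity
    linarith
  -- the main inequality
  have key : d + x ^ 8 / (100 * d) + x ^ 4 / (40 * d) * (|b.re - d| + |b.im|) ≤
      b.re * Real.cos ψ + |b.im| * Real.sin ψ := by
    rw [abs_of_nonneg (by linarith : 0 ≤ b.re - d)]
    have e1 : x ^ 4 / (40 * d) = ψ / 5 := by
      rw [hψ]
      field_simp
      norm_num
    have e2 : x ^ 8 / (100 * d) = 16 / 25 * (d * ψ ^ 2) := by
      rw [hψ]
      field_simp
      norm_num
    rw [e1, e2]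
    have h1 : d * Real.cos ψ ≥ d - d * ψ ^ 2 / 2 := by nlinarith
    have h2 : |b.im| * Real.sin ψ ≥ |b.im| * (3 / 5 * ψ) := by gcongr
    have h3 : (b.re - d) * Real.cos ψ ≥ (b.re - d) * (1 / 2) := by
      have : 0 ≤ b.re - d := by linarith
      gcongr
    have h4 : (b.re - d) * (ψ / 5) ≤ (b.re - d) * (1 / 4) := by
      have : 0 ≤ b.re - d := by linarith
      gcongr
      linarith
    have hy := abs_nonneg b.im
    have e3 : b.re * Real.cos ψ = d * Real.cos ψ + (b.re - d) * Real.cos ψ := by ring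
    rw [e3]
    rcases hcases with h5 | h5
    · have h6 : x ^ 4 = 8 * d * ψ := by
        rw [hψ]
        field_simp
      rw [h6] at h5
      have h7 : 4 * d * ψ ≤ |b.im| := by linarith
      have h8 : 4 * d * ψ * ψ ≤ |b.im| * ψ := by gcongr
      have h9 : 0 ≤ d * ψ ^ 2 := by positivity
      nlinarith
    · have h6 : x ^ 8 = 64 * (d * ψ) ^ 2 := by
        rw [hψ]
        field_simp
        norm_num
      have h7 : 64 * (d * ψ) ^ 2 ≤ d * δ := by rw [← h6]; exact hx5'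
      have h8 : 64 * (d * ψ ^ 2) ≤ δ := by
        have : d * (64 * (d * ψ ^ 2)) ≤ d * δ := by nlinarith
        exact le_of_mul_le_mul_left this hd
      have h9 : 0 ≤ |b.im| * ψ := by positivity
      nlinarith
  rcases le_total 0 b.im with him | him
  · refine ⟨⟨Real.cos ψ, Real.sin ψ⟩, ?_, ?_, fun z hz => ?_, ?_⟩
    · have h : ‖(⟨Real.cos ψ, Real.sin ψ⟩ : ℂ)‖ ^ 2 = 1 := by
        rw [← ip_self]
        simp only [ip]
        nlinarith [Real.sin_sq_add_cos_sq ψ]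
      have := norm_nonneg (⟨Real.cos ψ, Real.sin ψ⟩ : ℂ)
      nlinarith
    · simp only [ip, nvB_re, nvB_im]
      linarith
    · have h1 := AB hα hφ hαφ hz
      have h2 := (notHhB (φ + α) z).1 hz.1
      have h5 : 0 < Real.cos (φ + α) := Real.cos_pos_of_mem_Ioo ⟨by linarith, hαφ⟩
      have h6 : 0 < Real.sin (φ + α) :=
        Real.sin_pos_of_pos_of_lt_pi (by linarith) (by linarith)
      have h7 : 0 ≤ Real.cos (ψ + (φ + α)) :=
        Real.cos_nonneg_of_mem_Icc ⟨by linarith, by linarith⟩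
      rw [Real.cos_add] at h7
      simp only [ip]
      have h8 : (z.re * Real.sin (φ + α) + z.im * Real.cos (φ + α)) * Real.cos ψ ≤ 0 :=
        mul_nonpos_of_nonpos_of_nonneg h2 (by linarith)
      have h9 : 0 ≤ z.im * (Real.cos ψ * Real.cos (φ + α) -
        Real.sin ψ * Real.sin (φ + α)) := mul_nonneg h1.2 h7
      have h10 : (Real.cos ψ * z.re + Real.sin ψ * z.im) * Real.sin (φ + α) ≤ 0 := by
        nlinarith
      by_contra hcon
      push Not at hcon
      have := mul_pos hcon h6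
      linarith
    · simp only [ip]
      rw [abs_of_nonneg him] at key
      have e : Real.cos ψ * b.re + Real.sin ψ * b.im = b.re * Real.cos ψ +
        b.im * Real.sin ψ := by ring
      rw [e, abs_of_nonneg him]
      exact key
  · refine ⟨⟨Real.cos ψ, -Real.sin ψ⟩, ?_, ?_, fun z hz => ?_, ?_⟩
    · have h : ‖(⟨Real.cos ψ, -Real.sin ψ⟩ : ℂ)‖ ^ 2 = 1 := by
        rw [← ip_self]
        simp only [ip]
        nlinarith [Real.sin_sq_add_cos_sq ψ]
      have := norm_nonneg (⟨Real.cos ψ, -Real.sin ψ⟩ : ℂ)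
      nlinarith
    · simp only [ip, nvB_re, nvB_im]
      linarith
    · have h1 := AB hα hφ hαφ hz
      simp only [ip]
      nlinarith
    · simp only [ip]
      rw [abs_of_nonpos him] at key
      have e : Real.cos ψ * b.re + -Real.sin ψ * b.im = b.re * Real.cos ψ +
        -b.im * Real.sin ψ := by ring
      rw [e, abs_of_nonpos him]
      exact key

theorem ptB {α φ d δ : ℝ} (hα : 0 < α) (hφ : 0 ≤ φ) (hαφ : φ + α < π / 2)
    (hd : 0 < d) (hδ : 0 < δ) (hδd : δ ≤ d / 16) : ∀ᶠ x : ℝ in 𝓝[>] 0,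
    Pt (nv (π / 2 + φ) φ) (Hh φ) ((Hh (φ + α))ᶜ ∩ Hh φ) (Tv (π / 2 + φ) φ d) d δ (x ^ 10)
      δ (x ^ 4) (x ^ 4 / (10 * δ)) (4 * δ / (d / x ^ 10)) (x ^ 8 / (100 * d))
      (x ^ 4 / (40 * d)) := by
  filter_upwards [self_mem_nhdsWithin, pow_small 0 (c := 1) (by norm_num),
    pow_small 3 (c := 10 * δ) (by positivity), pow_small 3 (c := 8 * d) (by positivity),
    pow_small 3 (c := 8 * d * (π / 2 - φ - α)) (mul_pos (by positivity) (by linarith)),
    pow_small 7 (c := d * δ) (by positivity)]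
    with x hx0 hx1 hx2 hx3 hx4 hx5
  have hx : 0 < x := hx0
  rw [zero_add, pow_one] at hx1
  have hx2' : x ^ 4 ≤ 10 * δ := hx2
  have hx3' : x ^ 4 ≤ 8 * d := hx3
  have hx4' : x ^ 4 ≤ 8 * d * (π / 2 - φ - α) := hx4
  have hx5' : x ^ 8 ≤ d * δ := hx5
  have hpi := Real.pi_gt_three
  have hθ1 : x ^ 4 / (10 * δ) ≤ 1 := by
    rw [div_le_one (by positivity)]
    exact hx2'
  exact
    { ht := by positivity
      hY := by positivity
      hkk := hδ.le
      hθ := by positivity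
      hθ2 := by linarith
      hθn := by
        rw [nvB_re, nvB_im, abs_zero, mul_zero, sub_zero, mul_one]
        have h1 := Real.one_sub_sq_div_two_le_cos (x := x ^ 4 / (10 * δ))
        have h2 : (x ^ 4 / (10 * δ)) ^ 2 ≤ 1 := pow_le_one₀ (by positivity) hθ1
        linarith
      hTt := by positivity
      hTt4 := by
        have e2 : 4 * δ / (d / x ^ 10) = 4 * δ / d * x ^ 10 := by field_simp
        have e3 : 4 * δ / d ≤ 1 / 4 := by
          rw [div_le_iff₀ hd]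
          linarith
        rw [e2]
        have : 4 * δ / d * x ^ 10 ≤ 1 / 4 * x ^ 10 := by gcongr
        linarith
      hc := by positivity
      far := by
        intro b hb hbg
        refine farB (δ := δ) hα hφ hαφ hd hx hx3' hx4' hx5' ?_ ?_
        · have h1 : d ≤ ip (nv (π / 2 + φ) φ) b := hb.1
          rwa [nvB_ip] at h1
        · by_contra hcon
          push Not at hcon
          exact hbg ⟨hb, hcon.2, hcon.1⟩ }

/-- the error of the types II and III -/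
theorem BtB {φ d δ : ℝ} (hd : 0 < d) (hδ : 0 < δ) : ∀ᶠ x : ℝ in 𝓝[>] 0,
    Bt (nv (π / 2 + φ) φ) d δ δ (x ^ 10)
      δ (x ^ 4) (x ^ 4 / (10 * δ)) (4 * δ / (d / x ^ 10)) (x ^ 8 / (100 * d))
      (x ^ 4 / (40 * d)) ≤ (1 + 2 / d ^ 2) * (16 * d) ^ 2 * (8 + 1600) / x ^ 20 *
        Real.exp (-(min (3 / 2 * d * δ) (min (3 * d / (200 * δ)) (1 / 50)) / x)) := by
  filter_upwards [self_mem_nhdsWithin, pow_small 0 (c := 1) (by norm_num),
    pow_small 9 (c := d * δ) (by positivity), pow_small 3 (c := 1 / δ) (by positivity),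
    pow_small 3 (c := 10 * δ) (by positivity)] with x hx0 hx3 hx4 hx5 hx6
  have hx : 0 < x := hx0
  rw [zero_add, pow_one] at hx3
  have hx4' : x ^ 10 ≤ d * δ := hx4
  have hx5' : x ^ 4 ≤ 1 / δ := hx5
  have hx6' : x ^ 4 ≤ 10 * δ := hx6
  have ht : 0 < x ^ 10 := by positivity
  have hlt : 0 < d / x ^ 10 := by positivity
  set c₀ := min (3 / 2 * d * δ) (min (3 * d / (200 * δ)) (1 / 50)) with hc₀
  have hc₀0 : 0 ≤ c₀ := by positivity
  have hm1 : c₀ ≤ 3 / 2 * d * δ := min_le_left _ _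
  have hm2 : c₀ ≤ 3 * d / (200 * δ) := (min_le_right _ _).trans (min_le_left _ _)
  have hm3 : c₀ ≤ 1 / 50 := (min_le_right _ _).trans (min_le_right _ _)
  refine Bt_le ht hd hx hx3 rfl (Lc_pos (n := nv (π / 2 + φ) φ) (by rw [nvB_re]; exact one_pos) hd
    hδ ht).le ?_ hδ.le (by positivity) ?_ ?_ ?_ ?_ ?_ ?_
  · refine (Lc_le hd ht ?_).trans (le_of_eq (by ring))
    rw [nvB_re, mul_one, div_mul_eq_mul_div, le_div_iff₀ ht]
    linarith
  · rw [le_div_iff₀ hδ] at hx5'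
    linarith
  · refine (gT_le hlt le_rfl).trans ?_
    have e : 3 / 2 * (d / x ^ 10) * δ = (3 / 2 * d * δ) / x ^ (9 + 1) := by
      field_simp
    rw [e]
    exact exp_le_q 9 hx hx3 hc₀0 hm1
  · refine (gY_le hlt hδ le_rfl (by positivity) ?_).trans ?_
    · have h1 : x ^ 4 / (10 * δ) ≤ 1 := by
        rw [div_le_one (by positivity)]
        exact hx6'
      have := Real.pi_gt_three
      linarith
    · have e : 3 / 200 * (d / x ^ 10) * (x ^ 4) ^ 2 / δ = (3 * d / (200 * δ)) / x ^ (1 + 1) := by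
        field_simp
      rw [e]
      exact exp_le_q 1 hx hx3 hc₀0 hm2
  · have e : 2 * (d / x ^ 10) * (x ^ 8 / (100 * d)) = (1 / 50) / x ^ (1 + 1) := by
      field_simp
      ring
    rw [e]
    exact exp_le_q 1 hx hx3 hc₀0 hm3
  · have e : 2 * (d / x ^ 10) * δ = (2 * d * δ) / x ^ (9 + 1) := by
      field_simp
    rw [e]
    exact exp_le_q 9 hx hx3 hc₀0 (hm1.trans (by nlinarith [mul_pos hd hδ]))
  · have e : x ^ 10 / (d * (x ^ 4 / (40 * d))) = 40 * x ^ 6 := by field_simp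
    rw [e, mul_pow]
    have h1 : (x ^ 6) ^ 2 ≤ 1 := pow_le_one₀ (by positivity) (pow_le_one₀ hx.le hx3)
    nlinarith

end Pool.Agent.N275.QD
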