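import Pool.Agent.N275.QD.Up

set_option autoImplicit false

/-!
# Project QD: numerical bounds at one point
-/

namespace Pool.Agent.N275.QD

open MeasureTheory Set Filter Topology Complex
open Pool.Agent.R225.LP (gk ks ip ip_self ip_sub_right ip_sub_left ip_add_left ip_add_right
  ip_smul_left ip_smul_right norm_sq_add norm_sq_sub lint_exp gk_pos gk_nonneg gk_cont nG lint_nG
  mgf_nG gkE_meas ip_cont)
open Pool.Agent.R225.LP.TR (ch ch_meas meas_left meas_right ch_mono_set kp kp_meas kp_comm ks_eq)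
open scoped Real ENNReal ComplexConjugate

theorem one_sub_cos_le (x : ℝ) : 1 - Real.cos x ≤ x ^ 2 / 2 := by
  have := Real.one_sub_sq_div_two_le_cos (x := x)
  linarith

theorem expmul {a b c g X : ℝ} (hX : 0 ≤ X) (h : a + b ≤ c + g) :
    Real.exp a * (Real.exp b * X) ≤ Real.exp c * (X * Real.exp g) := by
  have h1 : Real.exp a * (Real.exp b * X) = Real.exp (a + b) * X := by
    rw [Real.exp_add]
    ring
  have h2 : Real.exp c * (X * Real.exp g) = Real.exp (c + g) * X := by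
    rw [Real.exp_add]
    ring
  rw [h1, h2]
  gcongr

/-- the jump constant -/
noncomputable def zt (l k δ s : ℝ) (m : ℕ) : ℝ := m * Real.exp (-(k * δ) + (l + k) ^ 2 * s)

theorem zt_nonneg (l k δ s : ℝ) (m : ℕ) : 0 ≤ zt l k δ s m := by
  unfold zt
  positivity

theorem Sit.jump {n : ℂ} {Q A : Set ℂ} {b : ℂ} {d δ δ' : ℝ} (h : Sit n Q A b d δ δ') {s l k : ℝ}
    (hs : 0 < s) (hk : 0 ≤ k) (m : ℕ) :
    lg s (l : ℂ) (Q \ Vh (d - δ)) (Q ∩ Vh (d - δ) ∩ Jl (d - 2 * δ)) m b ≤
      ENNReal.ofReal (zt l k δ s m * Real.exp (-(l * b.re))) := by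
  have hb := h.hb
  have hδ := h.hδ
  have h1 := lg_jump hs (L := (l : ℂ)) (R := Q \ Vh (d - δ))
    (E := Q ∩ Vh (d - δ) ∩ Jl (d - 2 * δ)) (h.Qm.diff (Vh_meas _)) (c := d - δ) (δ := δ)
    ((h.Qm.inter (Vh_meas _)).inter (Jl_meas _)) hk (fun z hz => by
      have : ¬ z.re ≤ d - δ := hz.2
      linarith) (fun z hz => by
      have : z.re < d - 2 * δ := hz.2
      linarith) m (b := b) (by linarith)
  refine h1.trans (le_of_eq ?_)
  unfold zt
  rw [ip_real, ← Complex.ofReal_add, Complex.norm_real, Real.norm_eq_abs, sq_abs]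

/-- the decay of the exceptional legs -/
noncomputable def gT (l : ℝ) (kk δ Tt : ℝ) : ℝ := Real.exp (-(3 / 4 * l ^ 2 * Tt) + l / 2 * (kk + 2 * δ))

noncomputable def gY (l : ℝ) (kk δ Y θ : ℝ) : ℝ :=
  Real.exp (l * (1 - Real.cos θ) * (kk + 2 * δ) - l * Real.sin θ * (Y / 2))

theorem Sit.bad (hSU : S_SU) {n : ℂ} {Q A : Set ℂ} {b : ℂ} {d δ δ' : ℝ}
    (h : Sit n Q A b d δ δ') {s t : ℝ} (ht : 0 < t) {m N : ℕ} (hs : ((m : ℝ) + 1) * s = t)
    (hst : d / t * √s ≤ 1) {Y k kk θ Tt : ℝ} (hk : 0 ≤ k) (hY : 0 < Y) (hkk : b.re ≤ d + kk)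
    (hbY : |b.im| ≤ Y / 2) (hθ : 0 ≤ θ) (hθ2 : θ ≤ π / 2)
    (hθn : n.re / 2 ≤ Real.cos θ * n.re - Real.sin θ * |n.im|) (hTt : Tt ≤ (N + 1) * s) :
    ∑ i ∈ Finset.range m, ∫⁻ u in Q ∩ Vh (d - δ), ch (kp s) (Q \ Vh (d - δ)) i b u *
          bt s (d / t) (1 / t + 2 / d ^ 2) (1 / (4 * π * s)) (Jl (d - 2 * δ)) N Y i u ≤
      ENNReal.ofReal (Real.exp (-(d / t * b.re)) * (1 / (4 * π * s) * zt (d / t) k δ s m +
        (1 / t + 2 / d ^ 2) * (Lc n d δ' t * √s * (gT (d / t) kk δ Tt +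
          2 * gY (d / t) kk δ Y θ)))) := by
  have hd := h.hd
  have hδ := h.hδ
  have hb := h.hb
  have hm1 : (0 : ℝ) < (m : ℝ) + 1 := by positivity
  have hs0 : 0 < s := by
    by_contra hcon
    have : ((m : ℝ) + 1) * s ≤ 0 := mul_nonpos_of_nonneg_of_nonpos hm1.le (by linarith)
    linarith
  have hLc := Lc_pos (n := n) h.hr hd h.hδ' ht
  set l := d / t with hl
  have hl0 : 0 < l := by positivity
  set R := Q \ Vh (d - δ) with hR
  set E := Q ∩ Vh (d - δ) with hE
  set J := Jl (d - 2 * δ) with hJ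
  have hEm : MeasurableSet E := h.Qm.inter (Vh_meas _)
  have hJm : MeasurableSet J := Jl_meas _
  have hY1 : MeasurableSet {z : ℂ | Y ≤ z.im} :=
    (isClosed_le continuous_const continuous_im).measurableSet
  have hY2 : MeasurableSet {z : ℂ | z.im ≤ -Y} :=
    (isClosed_le continuous_im continuous_const).measurableSet
  have habs := abs_le.1 hbY
  have hsin : 0 ≤ Real.sin θ := Real.sin_nonneg_of_nonneg_of_le_pi hθ (by linarith [Real.pi_pos])
  have hcos : 0 ≤ Real.cos θ := Real.cos_nonneg_of_mem_Icc ⟨by linarith [Real.pi_pos], hθ2⟩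
  have hcos1 : Real.cos θ ≤ 1 := Real.cos_le_one θ
  rw [bt_sum hJm]
  -- jumps
  have b1 := h.jump hs0 hk m (l := l)
  -- late legs
  have b2 : ∑ i ∈ Finset.range m, (if N ≤ i then rr s (l : ℂ) ^ (i + 1) *
      ∫⁻ u in E ∩ Jᶜ, ch (kp s) R i b u * ENNReal.ofReal (Real.exp (-(ip (l : ℂ) u))) else 0) ≤
      ENNReal.ofReal (Real.exp (-(l * b.re)) * (Lc n d δ' t * √s * gT l kk δ Tt)) := by
    have h1 := lg_cmp (s := s) (L := (l : ℂ)) (L' := ((l / 2 : ℝ) : ℂ)) (R := R) (E := E ∩ Jᶜ)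
      (E' := E) (hEm.inter hJm.compl) inter_subset_left (N := m) (b := b)
      (Γ := Real.exp (-(3 / 4 * l ^ 2 * Tt) - l / 2 * (d - 2 * δ))) (Real.exp_pos _).le
      (fun i => N ≤ i) (fun i hi u hu => by
        rw [ip_real, ip_real, ← Real.exp_add, Complex.norm_real, Complex.norm_real,
          Real.norm_eq_abs, Real.norm_eq_abs, sq_abs, sq_abs]
        refine Real.exp_le_exp.2 ?_
        have hu1 : ¬ u.re < d - 2 * δ := hu.2
        have hi1 : (N : ℝ) ≤ i := by exact_mod_cast hi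
        have h3 : Tt ≤ (i + 1) * s := hTt.trans (by gcongr)
        have h4 : l ^ 2 * Tt ≤ l ^ 2 * ((i + 1) * s) := by gcongr
        nlinarith)
    have h2 := h.tilt hSU hs0 ht hst (L := ((l / 2 : ℝ) : ℂ)) (by
      rw [Complex.norm_real, Real.norm_eq_abs, abs_of_pos (by positivity)]
      linarith) (by
      rw [ip_real]
      linarith) hEm subset_rfl m
    refine h1.trans ?_
    refine (mul_le_mul_right h2 _).trans ?_
    rw [← ENNReal.ofReal_mul (Real.exp_pos _).le]
    refine ENNReal.ofReal_le_ofReal ?_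
    rw [ip_real]
    unfold gT
    refine expmul (by positivity) ?_
    have h6 : l / 2 * b.re ≤ l / 2 * (d + kk) := by gcongr
    linarith
  -- high legs
  have b3 : lg s (l : ℂ) R (E ∩ (Jᶜ ∩ {z | Y ≤ z.im})) m b ≤
      ENNReal.ofReal (Real.exp (-(l * b.re)) * (Lc n d δ' t * √s * gY l kk δ Y θ)) := by
    set L' : ℂ := ⟨l * Real.cos θ, -(l * Real.sin θ)⟩ with hL'
    have hnL : ‖L'‖ = l := by
      have h1 : ‖L'‖ ^ 2 = l ^ 2 := by
        rw [← ip_self]
        simp only [ip, hL']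
        nlinarith [Real.sin_sq_add_cos_sq θ]
      have h2 := abs_eq_abs.2 (sq_eq_sq_iff_abs_eq_abs _ _ |>.1 h1 |> abs_eq_abs.1)
      rwa [abs_of_nonneg (norm_nonneg _), abs_of_pos hl0] at h2
    have hip : ∀ u, ip L' u = l * (Real.cos θ * u.re - Real.sin θ * u.im) := fun u => by
      simp only [ip, hL']
      ring
    have h1 := lg_cmp (s := s) (L := (l : ℂ)) (L' := L') (R := R) (E := E ∩ (Jᶜ ∩ {z | Y ≤ z.im}))
      (E' := E) (hEm.inter (hJm.compl.inter hY1)) inter_subset_left (N := m) (b := b)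
      (Γ := Real.exp (-(l * (1 - Real.cos θ) * (d - 2 * δ)) - l * Real.sin θ * Y))
      (Real.exp_pos _).le (fun _ => True) (fun i hi u hu => by
        rw [ip_real, hip, ← Real.exp_add, Complex.norm_real, hnL, Real.norm_eq_abs, sq_abs]
        refine Real.exp_le_exp.2 ?_
        have hu1 : ¬ u.re < d - 2 * δ := hu.2.1
        have hu2 : Y ≤ u.im := hu.2.2
        have h3 : l * (1 - Real.cos θ) * (d - 2 * δ) ≤ l * (1 - Real.cos θ) * u.re := by
          gcongr
          linarith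
        have h4 : l * Real.sin θ * Y ≤ l * Real.sin θ * u.im := by gcongr
        nlinarith)
    simp only [if_true] at h1
    have h2 := h.tilt hSU hs0 ht hst (L := L') hnL.le (by
      rw [hip]
      have h3 : Real.sin θ * n.im ≤ Real.sin θ * |n.im| := by
        gcongr
        exact le_abs_self _
      have h4 : n.re / 2 ≤ Real.cos θ * n.re - Real.sin θ * n.im := by linarith
      have h5 := mul_le_mul_of_nonneg_left h4 hl0.le
      linarith) hEm subset_rfl m
    have h5 : lg s (l : ℂ) R (E ∩ (Jᶜ ∩ {z | Y ≤ z.im})) m b ≤ _ := h1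
    refine h5.trans ?_
    refine (mul_le_mul_right h2 _).trans ?_
    rw [← ENNReal.ofReal_mul (Real.exp_pos _).le]
    refine ENNReal.ofReal_le_ofReal ?_
    rw [hip]
    unfold gY
    refine expmul (by positivity) ?_
    have h6 : l * Real.sin θ * b.im ≤ l * Real.sin θ * (Y / 2) := by
      gcongr
      exact habs.2
    have h7 : l * (1 - Real.cos θ) * b.re ≤ l * (1 - Real.cos θ) * (d + kk) := by
      have : 0 ≤ l * (1 - Real.cos θ) := mul_nonneg hl0.le (by linarith)
      exact mul_le_mul_of_nonneg_left hkk this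
    linarith
  -- low legs
  have b4 : lg s (l : ℂ) R (E ∩ (Jᶜ ∩ {z | z.im ≤ -Y})) m b ≤
      ENNReal.ofReal (Real.exp (-(l * b.re)) * (Lc n d δ' t * √s * gY l kk δ Y θ)) := by
    set L' : ℂ := ⟨l * Real.cos θ, l * Real.sin θ⟩ with hL'
    have hnL : ‖L'‖ = l := by
      have h1 : ‖L'‖ ^ 2 = l ^ 2 := by
        rw [← ip_self]
        simp only [ip, hL']
        nlinarith [Real.sin_sq_add_cos_sq θ]
      have h2 := abs_eq_abs.2 (sq_eq_sq_iff_abs_eq_abs _ _ |>.1 h1 |> abs_eq_abs.1)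
      rwa [abs_of_nonneg (norm_nonneg _), abs_of_pos hl0] at h2
    have hip : ∀ u, ip L' u = l * (Real.cos θ * u.re + Real.sin θ * u.im) := fun u => by
      simp only [ip, hL']
      ring
    have h1 := lg_cmp (s := s) (L := (l : ℂ)) (L' := L') (R := R) (E := E ∩ (Jᶜ ∩ {z | z.im ≤ -Y}))
      (E' := E) (hEm.inter (hJm.compl.inter hY2)) inter_subset_left (N := m) (b := b)
      (Γ := Real.exp (-(l * (1 - Real.cos θ) * (d - 2 * δ)) - l * Real.sin θ * Y))
      (Real.exp_pos _).le (fun _ => True) (fun i hi u hu => by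
        rw [ip_real, hip, ← Real.exp_add, Complex.norm_real, hnL, Real.norm_eq_abs, sq_abs]
        refine Real.exp_le_exp.2 ?_
        have hu1 : ¬ u.re < d - 2 * δ := hu.2.1
        have hu2 : u.im ≤ -Y := hu.2.2
        have h3 : l * (1 - Real.cos θ) * (d - 2 * δ) ≤ l * (1 - Real.cos θ) * u.re := by
          gcongr
          linarith
        have h4 : l * Real.sin θ * Y ≤ l * Real.sin θ * (-u.im) := by
          gcongr
          linarith
        nlinarith)
    simp only [if_true] at h1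
    have h2 := h.tilt hSU hs0 ht hst (L := L') hnL.le (by
      rw [hip]
      have h3 : Real.sin θ * -n.im ≤ Real.sin θ * |n.im| := by
        gcongr
        exact neg_le_abs _
      have h4 : n.re / 2 ≤ Real.cos θ * n.re + Real.sin θ * n.im := by linarith
      have h5 := mul_le_mul_of_nonneg_left h4 hl0.le
      linarith) hEm subset_rfl m
    have h5 : lg s (l : ℂ) R (E ∩ (Jᶜ ∩ {z | z.im ≤ -Y})) m b ≤ _ := h1
    refine h5.trans ?_
    refine (mul_le_mul_right h2 _).trans ?_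
    rw [← ENNReal.ofReal_mul (Real.exp_pos _).le]
    refine ENNReal.ofReal_le_ofReal ?_
    rw [hip]
    unfold gY
    refine expmul (by positivity) ?_
    have h6 : l * Real.sin θ * -b.im ≤ l * Real.sin θ * (Y / 2) := by
      gcongr
      linarith
    have h7 : l * (1 - Real.cos θ) * b.re ≤ l * (1 - Real.cos θ) * (d + kk) := by
      have : 0 ≤ l * (1 - Real.cos θ) := mul_nonneg hl0.le (by linarith)
      exact mul_le_mul_of_nonneg_left hkk this
    linarith
  have hgT : 0 < gT l kk δ Tt := Real.exp_pos _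
  have hgY : 0 < gY l kk δ Y θ := Real.exp_pos _
  have hz := zt_nonneg l k δ s m
  calc _ ≤ ENNReal.ofReal (1 / (4 * π * s)) * ENNReal.ofReal (zt l k δ s m *
        Real.exp (-(l * b.re))) + ENNReal.ofReal (1 / t + 2 / d ^ 2) *
        (ENNReal.ofReal (Real.exp (-(l * b.re)) * (Lc n d δ' t * √s * gT l kk δ Tt)) +
        ENNReal.ofReal (Real.exp (-(l * b.re)) * (Lc n d δ' t * √s * gY l kk δ Y θ)) +
        ENNReal.ofReal (Real.exp (-(l * b.re)) * (Lc n d δ' t * √s * gY l kk δ Y θ))) := by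
        gcongr
    _ = _ := by
        rw [← ENNReal.ofReal_add (by positivity) (by positivity),
          ← ENNReal.ofReal_add (by positivity) (by positivity),
          ← ENNReal.ofReal_mul (by positivity), ← ENNReal.ofReal_mul (by positivity),
          ← ENNReal.ofReal_add (by positivity) (by positivity)]
        congr 1
        ring

/-- the error of the upper bound -/
noncomputable def E1 (n : ℂ) (d δ' t s k kk δ Y θ Tt : ℝ) (m : ℕ) : ℝ :=
  2 * (Lc n d δ' t * √s) * (1 / (4 * π * s) * zt (d / t) k δ s m + (1 / t + 2 / d ^ 2) *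
    (Lc n d δ' t * √s * (gT (d / t) kk δ Tt + 2 * gY (d / t) kk δ Y θ))) +
    1 / (4 * π * s) * zt (d / t) k δ s m

theorem Sit.up' (hSU : S_SU) {n : ℂ} {Q A : Set ℂ} {b : ℂ} {d δ δ' : ℝ}
    (h : Sit n Q A b d δ δ') {s t : ℝ} (ht : 0 < t) {m N : ℕ} (hs : ((m : ℝ) + 1) * s = t)
    (hst : d / t * √s ≤ 1) {Y k kk θ Tt : ℝ} (hk : 0 ≤ k) (hY : 0 < Y) (hkk : b.re ≤ d + kk)
    (hbY : |b.im| ≤ Y / 2) (hθ : 0 ≤ θ) (hθ2 : θ ≤ π / 2)
    (hθn : n.re / 2 ≤ Real.cos θ * n.re - Real.sin θ * |n.im|) (hTt : Tt ≤ (N + 1) * s) :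
    hc (kp s) Q A m b b ≤ Ess (hc (kp s) Q A) (Q \ Vh (d - δ)) (Q ∩ Sg d δ Y) s m N b +
      ENNReal.ofReal (Real.exp ((d / t) ^ 2 * t - 2 * (d / t) * b.re) *
        E1 n d δ' t s k kk δ Y θ Tt m) := by
  have hd := h.hd
  have hm1 : (0 : ℝ) < (m : ℝ) + 1 := by positivity
  have hs0 : 0 < s := by
    by_contra hcon
    have : ((m : ℝ) + 1) * s ≤ 0 := mul_nonpos_of_nonneg_of_nonpos hm1.le (by linarith)
    linarith
  have hLc := Lc_pos (n := n) h.hr hd h.hδ' ht
  have hgT : 0 < gT (d / t) kk δ Tt := Real.exp_pos _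
  have hgY : 0 < gY (d / t) kk δ Y θ := Real.exp_pos _
  have hz := zt_nonneg (d / t) k δ s m
  have h0 := h.up (N := N) ht hs (Y := Y)
  have h1 := h.bad hSU ht hs hst hk hY hkk hbY hθ hθ2 hθn hTt
  have h2 := h.tilt hSU hs0 ht hst (L := ((d / t : ℝ) : ℂ)) (by
      rw [Complex.norm_real, Real.norm_eq_abs, abs_of_pos (by positivity)]) (by
      rw [ip_real]
      have : 0 < d / t * n.re := mul_pos (by positivity) h.hr
      linarith) (h.Qm.inter (Vh_meas _)) subset_rfl m
  have h3 := h.jump hs0 hk m (l := d / t)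
  refine h0.trans ?_
  gcongr Ess (hc (kp s) Q A) (Q \ Vh (d - δ)) (Q ∩ Sg d δ Y) s m N b + ?_
  set l := d / t with hl
  calc _ ≤ ENNReal.ofReal (Real.exp (l ^ 2 * t)) * (2 * ENNReal.ofReal (Real.exp (-(l * b.re)) *
        (1 / (4 * π * s) * zt l k δ s m + (1 / t + 2 / d ^ 2) * (Lc n d δ' t * √s *
          (gT l kk δ Tt + 2 * gY l kk δ Y θ)))) * ENNReal.ofReal (Real.exp (-(ip ((l : ℝ) : ℂ) b)) *
          (Lc n d δ' t * √s))) + ENNReal.ofReal (Real.exp (l ^ 2 * t - l * b.re) / (4 * π * s)) *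
          ENNReal.ofReal (zt l k δ s m * Real.exp (-(l * b.re))) := by
        gcongr
    _ = _ := by
        have e2 : (2 : ℝ≥0∞) = ENNReal.ofReal 2 := by simp
        rw [e2, ip_real, ← ENNReal.ofReal_mul (by positivity), ← ENNReal.ofReal_mul (by positivity),
          ← ENNReal.ofReal_mul (by positivity), ← ENNReal.ofReal_mul (by positivity),
          ← ENNReal.ofReal_add (by positivity) (by positivity)]
        congr 1
        have e3 : Real.exp (l ^ 2 * t - 2 * l * b.re) = Real.exp (l ^ 2 * t) *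
            (Real.exp (-(l * b.re)) * Real.exp (-(l * b.re))) := by
          rw [← Real.exp_add, ← Real.exp_add]
          congr 1
          ring
        have e4 : Real.exp (l ^ 2 * t - l * b.re) = Real.exp (l ^ 2 * t) *
            Real.exp (-(l * b.re)) := by
          rw [← Real.exp_add]
          rfl
        rw [e3, e4, E1, ← hl]
        ring

/-! ## Changing the middle kernel -/

theorem ess_cmp {K₁ K₂ : ℕ → ℂ → ℂ → ℝ≥0∞} {R S : Set ℂ} {s : ℝ} (hS : MeasurableSet S)
    {m N : ℕ} {b : ℂ} {w : ℕ → ℂ → ℝ≥0∞}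
    (hw : ∀ i, Measurable (w i)) {C : ℝ≥0∞}
    (h : ∀ i < N, ∀ j < N, ∀ u ∈ S, ∀ v ∈ S, K₁ (m - 1 - i - 1 - j) u v ≤
      K₂ (m - 1 - i - 1 - j) u v + C * (w i u * w j v)) :
    Ess K₁ R S s m N b ≤ Ess K₂ R S s m N b + C *
      (∑ i ∈ Finset.range N, ∫⁻ u in S, ch (kp s) R i b u * w i u) ^ 2 := by
  have hX : ∀ i, Measurable (fun u => ch (kp s) R i b u) :=
    fun i => meas_right (ch_meas (kp_meas s) R i) b
  have hXw : ∀ i, Measurable (fun u => ch (kp s) R i b u * w i u) := fun i => (hX i).mul (hw i)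
  unfold Ess
  rw [sq, Finset.sum_mul_sum, Finset.mul_sum, ← Finset.sum_add_distrib]
  refine Finset.sum_le_sum fun i hi => ?_
  rw [Finset.mul_sum, ← Finset.sum_add_distrib]
  refine Finset.sum_le_sum fun j hj => ?_
  calc ∫⁻ u in S, ch (kp s) R i b u *
        ∫⁻ v in S, K₁ (m - 1 - i - 1 - j) u v * ch (kp s) R j v b
      ≤ ∫⁻ u in S, (ch (kp s) R i b u * (∫⁻ v in S, K₂ (m - 1 - i - 1 - j) u v *
          ch (kp s) R j v b) + C * (∫⁻ v in S, ch (kp s) R j b v * w j v) *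
            (ch (kp s) R i b u * w i u)) := by
        refine setLIntegral_mono' hS fun u hu => ?_
        have e : C * (∫⁻ v in S, ch (kp s) R j b v * w j v) * (ch (kp s) R i b u * w i u) =
            ch (kp s) R i b u * (∫⁻ v in S, C * w i u * (ch (kp s) R j b v * w j v)) := by
          rw [lintegral_const_mul _ (hXw j)]
          ring
        rw [e, ← mul_add, ← lintegral_add_right _ ((hXw j).const_mul _)]
        gcongr ch (kp s) R i b u * ?_
        refine setLIntegral_mono' hS fun v hv => ?_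
        refine (mul_le_mul_left (h i (Finset.mem_range.1 hi) j (Finset.mem_range.1 hj) u hu v
          hv) _).trans (le_of_eq ?_)
        rw [ch_symm (kp_meas s) (kp_comm s) R j b v]
        ring
    _ = _ := by
        rw [lintegral_add_right _ ((hXw i).const_mul _), lintegral_const_mul _ (hXw i)]
        ring

theorem ess_mono {K₁ K₂ : ℕ → ℂ → ℂ → ℝ≥0∞} {R S : Set ℂ} {s : ℝ} (hS : MeasurableSet S)
    {m N : ℕ} {b : ℂ} (h : ∀ i < N, ∀ j < N, ∀ u ∈ S, ∀ v ∈ S, K₁ (m - 1 - i - 1 - j) u v ≤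
      K₂ (m - 1 - i - 1 - j) u v) : Ess K₁ R S s m N b ≤ Ess K₂ R S s m N b := by
  unfold Ess
  refine Finset.sum_le_sum fun i hi => Finset.sum_le_sum fun j hj => ?_
  refine setLIntegral_mono' hS fun u hu => ?_
  gcongr ch (kp s) R i b u * ?_
  refine setLIntegral_mono' hS fun v hv => ?_
  gcongr ?_ * _
  exact h i (Finset.mem_range.1 hi) j (Finset.mem_range.1 hj) u hu v hv

/-- the good legs are part of all the legs -/
theorem Sit.good (hSU : S_SU) {n : ℂ} {Q A : Set ℂ} {b : ℂ} {d δ δ' : ℝ}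
    (h : Sit n Q A b d δ δ') {s t : ℝ} (ht : 0 < t) {m N : ℕ} (hs : ((m : ℝ) + 1) * s = t)
    (hst : d / t * √s ≤ 1) {S : Set ℂ} (hS : MeasurableSet S) (hSE : S ⊆ Q ∩ Vh (d - δ)) :
    ∑ i ∈ Finset.range N, ∫⁻ u in S, ch (kp s) (Q \ Vh (d - δ)) i b u *
      (rr s ((d / t : ℝ) : ℂ) ^ (i + 1) * ENNReal.ofReal (Real.exp (-(ip ((d / t : ℝ) : ℂ) u)))) ≤
      ENNReal.ofReal (Real.exp (-(d / t * b.re)) * (Lc n d δ' t * √s)) := by
  have hd := h.hd
  have hm1 : (0 : ℝ) < (m : ℝ) + 1 := by positivity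
  have hs0 : 0 < s := by
    by_contra hcon
    have : ((m : ℝ) + 1) * s ≤ 0 := mul_nonpos_of_nonneg_of_nonpos hm1.le (by linarith)
    linarith
  have h2 := h.tilt hSU hs0 ht hst (L := ((d / t : ℝ) : ℂ)) (by
      rw [Complex.norm_real, Real.norm_eq_abs, abs_of_pos (by positivity)]) (by
      rw [ip_real]
      have : 0 < d / t * n.re := mul_pos (by positivity) h.hr
      linarith) hS hSE N
  rw [ip_real] at h2
  refine le_trans (le_of_eq ?_) h2
  unfold lg
  refine Finset.sum_congr rfl fun i _ => ?_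
  rw [← lintegral_const_mul' _ _ (ENNReal.pow_ne_top (rr_ne s _))]
  refine lintegral_congr fun u => ?_
  ring

end Pool.Agent.N275.QD
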