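import Pool.Agent.R225.LP.TRa

set_option autoImplicit false

/-!
# Project QD: decompositions of chains
-/

namespace Pool.Agent.N275.QD

open MeasureTheory Set Filter Topology
open Pool.Agent.R225.LP.TR (ch ch_meas meas_left meas_right mm ch_mono_set)
open scoped ENNReal

/-- chains with `m` intermediate points, at least one of which is in `A` -/
noncomputable def hc (κ : ℂ → ℂ → ℝ≥0∞) (Q A : Set ℂ) : ℕ → ℂ → ℂ → ℝ≥0∞
  | 0, _, _ => 0
  | n + 1, a, b => (∫⁻ z in Q ∩ A, κ a z * ch κ Q n z b) + ∫⁻ z in Q \ A, κ a z * hc κ Q A n z b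

theorem ml {f g : ℂ → ℝ≥0∞} (hf : Measurable f) (hg : Measurable g) :
    Measurable (fun x => f x * g x) := hf.mul hg

variable {κ : ℂ → ℂ → ℝ≥0∞}

theorem hc_meas (hκ : Measurable (Function.uncurry κ)) (Q A : Set ℂ) (n : ℕ) :
    Measurable (Function.uncurry (hc κ Q A n)) := by
  induction n with
  | zero => exact measurable_const
  | succ n ih =>
    have h1 : Measurable (fun q : (ℂ × ℂ) × ℂ => κ q.1.1 q.2 * ch κ Q n q.2 q.1.2) :=
      (hκ.comp (measurable_fst.fst.prodMk measurable_snd)).mul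
        ((ch_meas hκ Q n).comp (measurable_snd.prodMk measurable_fst.snd))
    have h2 : Measurable (fun q : (ℂ × ℂ) × ℂ => κ q.1.1 q.2 * hc κ Q A n q.2 q.1.2) :=
      (hκ.comp (measurable_fst.fst.prodMk measurable_snd)).mul
        (ih.comp (measurable_snd.prodMk measurable_fst.snd))
    exact (h1.lintegral_prod_right' (ν := volume.restrict (Q ∩ A))).add
      (h2.lintegral_prod_right' (ν := volume.restrict (Q \ A)))

theorem ch_split (hκ : Measurable (Function.uncurry κ)) (Q : Set ℂ) {A : Set ℂ}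
    (hA : MeasurableSet A) (n : ℕ) (a b : ℂ) :
    ch κ Q n a b = ch κ (Q \ A) n a b + hc κ Q A n a b := by
  induction n generalizing a with
  | zero => simp [ch, hc]
  | succ n ih =>
    change ∫⁻ z in Q, κ a z * ch κ Q n z b = (∫⁻ z in Q \ A, κ a z * ch κ (Q \ A) n z b) +
      ((∫⁻ z in Q ∩ A, κ a z * ch κ Q n z b) + ∫⁻ z in Q \ A, κ a z * hc κ Q A n z b)
    rw [← lintegral_inter_add_sdiff _ Q hA, add_comm (∫⁻ z in Q ∩ A, κ a z * ch κ Q n z b) (∫⁻ z in Q \ A, κ a z * hc κ Q A n z b), ← add_assoc,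
      ← lintegral_add_left (mm (meas_right hκ a) (meas_left (ch_meas hκ (Q \ A) n) b)),
      add_comm]
    congr 1
    refine lintegral_congr fun z => ?_
    rw [← mul_add, ih z]

theorem hc_le_ch (hκ : Measurable (Function.uncurry κ)) (Q : Set ℂ) {A : Set ℂ}
    (hA : MeasurableSet A) (n : ℕ) (a b : ℂ) : hc κ Q A n a b ≤ ch κ Q n a b := by
  rw [ch_split hκ Q hA n a b]
  exact le_add_self

theorem hc_mono {Q Q' A : Set ℂ} (h : Q ⊆ Q') (n : ℕ) (a b : ℂ) :
    hc κ Q A n a b ≤ hc κ Q' A n a b := by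
  induction n generalizing a with
  | zero => exact le_rfl
  | succ n ih =>
    change (∫⁻ z in Q ∩ A, κ a z * ch κ Q n z b) + (∫⁻ z in Q \ A, κ a z * hc κ Q A n z b) ≤
      (∫⁻ z in Q' ∩ A, κ a z * ch κ Q' n z b) + ∫⁻ z in Q' \ A, κ a z * hc κ Q' A n z b
    gcongr ?_ + ?_
    · refine (lintegral_mono fun z => ?_).trans (lintegral_mono_set (inter_subset_inter_left A h))
      gcongr
      exact ch_mono_set h n z b
    · refine (lintegral_mono fun z => ?_).trans (lintegral_mono_set (sdiff_subset_sdiff_left h))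
      gcongr
      exact ih z

theorem hc_congr {Q A A' : Set ℂ} (h : Q ∩ A = Q ∩ A') (n : ℕ) (a b : ℂ) :
    hc κ Q A n a b = hc κ Q A' n a b := by
  have h' : Q \ A = Q \ A' := by
    rw [← sdiff_inter_self_eq_sdiff, inter_comm, h, inter_comm, sdiff_inter_self_eq_sdiff]
  induction n generalizing a with
  | zero => rfl
  | succ n ih =>
    change (∫⁻ z in Q ∩ A, κ a z * ch κ Q n z b) + (∫⁻ z in Q \ A, κ a z * hc κ Q A n z b) =
      (∫⁻ z in Q ∩ A', κ a z * ch κ Q n z b) + ∫⁻ z in Q \ A', κ a z * hc κ Q A' n z b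
    simp_rw [h, h', ih]

theorem swp {κ η : ℂ → ℂ → ℝ≥0∞} (hκ : Measurable (Function.uncurry κ))
    (hη : Measurable (Function.uncurry η)) {F : ℂ → ℝ≥0∞} (hF : Measurable F) (R E : Set ℂ)
    (a : ℂ) : ∫⁻ z in R, κ a z * (∫⁻ u in E, η z u * F u) =
      ∫⁻ u in E, (∫⁻ z in R, κ a z * η z u) * F u := by
  have e1 : ∀ z, κ a z * (∫⁻ w in E, η z w * F w) = ∫⁻ w in E, κ a z * (η z w * F w) := fun z => by
    rw [lintegral_const_mul _ (mm (meas_right hη z) hF)]
  have e2 : ∀ w, (∫⁻ z in R, κ a z * η z w) * F w = ∫⁻ z in R, κ a z * (η z w * F w) := fun w => by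
    rw [← lintegral_mul_const _ (mm (meas_right hκ a) (meas_left hη w))]
    refine lintegral_congr fun z => ?_
    rw [mul_assoc]
  simp_rw [e1, e2]
  refine lintegral_lintegral_swap (Measurable.aemeasurable ?_)
  exact ((meas_right hκ a).comp measurable_fst).mul (hη.mul (hF.comp measurable_snd))

theorem ch_succ' (hκ : Measurable (Function.uncurry κ)) (Q : Set ℂ) (n : ℕ) (a b : ℂ) :
    ch κ Q (n + 1) a b = ∫⁻ z in Q, ch κ Q n a z * κ z b := by
  induction n generalizing a with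
  | zero => rfl
  | succ n ih =>
    change ∫⁻ z in Q, κ a z * ch κ Q (n + 1) z b =
      ∫⁻ w in Q, (∫⁻ z in Q, κ a z * ch κ Q n z w) * κ w b
    simp_rw [ih]
    exact swp hκ (ch_meas hκ Q n) (meas_left hκ b) Q Q a

theorem ch_symm (hκ : Measurable (Function.uncurry κ)) (hs : ∀ a b, κ a b = κ b a) (Q : Set ℂ)
    (n : ℕ) (a b : ℂ) : ch κ Q n a b = ch κ Q n b a := by
  induction n generalizing a b with
  | zero => exact hs a b
  | succ n ih =>
    rw [ch_succ' hκ Q n b a]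
    change ∫⁻ z in Q, κ a z * ch κ Q n z b = _
    refine lintegral_congr fun z => ?_
    rw [ih z b, hs a z, mul_comm]

theorem hc_symm (hκ : Measurable (Function.uncurry κ)) (hs : ∀ a b, κ a b = κ b a) (Q : Set ℂ)
    {A : Set ℂ} (hA : MeasurableSet A) (hf : ∀ (Q : Set ℂ) (n : ℕ) (a b : ℂ), ch κ Q n a b ≠ ∞)
    (n : ℕ) (a b : ℂ) : hc κ Q A n a b = hc κ Q A n b a := by
  have h1 := ch_split hκ Q hA n a b
  have h2 := ch_split hκ Q hA n b a
  rw [ch_symm hκ hs Q n a b, h2, ch_symm hκ hs (Q \ A) n a b] at h1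
  exact (ENNReal.add_right_inj (hf _ _ _ _)).1 h1.symm

open scoped Classical in
/-- the kernel of the chains which visit `A`, the first point included -/
noncomputable def h1 (κ : ℂ → ℂ → ℝ≥0∞) (Q A : Set ℂ) (n : ℕ) (u b : ℂ) : ℝ≥0∞ :=
  if u ∈ A then ch κ Q n u b else hc κ Q A n u b

open scoped Classical in
/-- the kernel of the chains which visit `A`, both ends included -/
noncomputable def h2 (κ : ℂ → ℂ → ℝ≥0∞) (Q A : Set ℂ) (n : ℕ) (u b : ℂ) : ℝ≥0∞ :=
  if u ∈ A ∨ b ∈ A then ch κ Q n u b else hc κ Q A n u b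

theorem h1_meas (hκ : Measurable (Function.uncurry κ)) (Q : Set ℂ) {A : Set ℂ}
    (hA : MeasurableSet A) (n : ℕ) : Measurable (Function.uncurry (h1 κ Q A n)) := by
  classical
  unfold h1
  exact Measurable.ite (measurable_fst hA) (ch_meas hκ Q n) (hc_meas hκ Q A n)

theorem h2_meas (hκ : Measurable (Function.uncurry κ)) (Q : Set ℂ) {A : Set ℂ}
    (hA : MeasurableSet A) (n : ℕ) : Measurable (Function.uncurry (h2 κ Q A n)) := by
  classical
  unfold h2
  exact Measurable.ite ((measurable_fst hA).union (measurable_snd hA)) (ch_meas hκ Q n)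
    (hc_meas hκ Q A n)

theorem h2_le_ch (hκ : Measurable (Function.uncurry κ)) (Q : Set ℂ) {A : Set ℂ}
    (hA : MeasurableSet A) (n : ℕ) (a b : ℂ) : h2 κ Q A n a b ≤ ch κ Q n a b := by
  unfold h2
  split_ifs
  · exact le_rfl
  · exact hc_le_ch hκ Q hA n a b

/-- first entrance -/
theorem hc_dec (hκ : Measurable (Function.uncurry κ)) {Q A E : Set ℂ} (hQ : MeasurableSet Q)
    (hA : MeasurableSet A) (hE : MeasurableSet E) (hAE : A ⊆ E) (m : ℕ) (a b : ℂ) :
    hc κ Q A m a b = ∑ i ∈ Finset.range m,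
      ∫⁻ u in Q ∩ E, ch κ (Q \ E) i a u * h1 κ Q A (m - 1 - i) u b := by
  induction m generalizing a with
  | zero => simp [hc]
  | succ m ih =>
    have hm1 : ∀ n, Measurable (fun u => h1 κ Q A n u b) := fun n =>
      meas_left (h1_meas hκ Q hA n) b
    have hmc : Measurable (fun u => ch κ Q m u b) := meas_left (ch_meas hκ Q m) b
    have hmh : Measurable (fun u => hc κ Q A m u b) := meas_left (hc_meas hκ Q A m) b
    have key : hc κ Q A (m + 1) a b = (∫⁻ u in Q ∩ E, κ a u * h1 κ Q A m u b) +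
        ∫⁻ z in Q \ E, κ a z * hc κ Q A m z b := by
      change (∫⁻ z in Q ∩ A, κ a z * ch κ Q m z b) + (∫⁻ z in Q \ A, κ a z * hc κ Q A m z b) = _
      rw [← lintegral_inter_add_sdiff (fun z => κ a z * hc κ Q A m z b) (Q \ A) hE,
        ← lintegral_inter_add_sdiff (fun u => κ a u * h1 κ Q A m u b) (Q ∩ E) hA, ← add_assoc]
      have e1 : (Q \ A) \ E = Q \ E := by
        ext z
        constructor
        · rintro ⟨⟨h, _⟩, h'⟩
          exact ⟨h, h'⟩
        · rintro ⟨h, h'⟩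
          exact ⟨⟨h, fun h2 => h' (hAE h2)⟩, h'⟩
      have e2 : (Q ∩ E) ∩ A = Q ∩ A := by
        ext z
        constructor
        · rintro ⟨⟨h, _⟩, h'⟩
          exact ⟨h, h'⟩
        · rintro ⟨h, h'⟩
          exact ⟨⟨h, hAE h'⟩, h'⟩
      have e3 : (Q ∩ E) \ A = (Q \ A) ∩ E := by
        ext z
        constructor
        · rintro ⟨⟨h, h2⟩, h'⟩
          exact ⟨⟨h, h'⟩, h2⟩
        · rintro ⟨⟨h, h2⟩, h'⟩
          exact ⟨⟨h, h'⟩, h2⟩
      rw [e1, e2, e3]
      congr 2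
      · refine setLIntegral_congr_fun (hQ.inter hA) fun z hz => ?_
        simp only [h1, if_pos hz.2]
      · refine setLIntegral_congr_fun ((hQ.diff hA).inter hE) fun z hz => ?_
        simp only [h1, if_neg hz.1.2]
    rw [key, Finset.sum_range_succ', add_comm]
    congr 1
    simp_rw [ih]
    have e4 : ∀ z, κ a z * ∑ i ∈ Finset.range m, ∫⁻ u in Q ∩ E, ch κ (Q \ E) i z u *
        h1 κ Q A (m - 1 - i) u b = ∑ i ∈ Finset.range m, κ a z * ∫⁻ u in Q ∩ E,
          ch κ (Q \ E) i z u * h1 κ Q A (m - 1 - i) u b := fun z => Finset.mul_sum _ _ _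
    simp_rw [e4]
    rw [lintegral_finsetSum]
    · refine Finset.sum_congr rfl fun i hi => ?_
      have e5 : m + 1 - 1 - (i + 1) = m - 1 - i := by
        have := Finset.mem_range.1 hi
        omega
      rw [e5, swp hκ (ch_meas hκ (Q \ E) i) (hm1 (m - 1 - i)) (Q \ E) (Q ∩ E) a]
      rfl
    · intro i _
      refine (meas_right hκ a).mul ?_
      exact Measurable.lintegral_prod_right' (f := fun q : ℂ × ℂ => ch κ (Q \ E) i q.1 q.2 *
        h1 κ Q A (m - 1 - i) q.2 b) ((ch_meas hκ (Q \ E) i).mul ((hm1 _).comp measurable_snd))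

/-- first entrance, chains which visit the set -/
theorem ch_dec (hκ : Measurable (Function.uncurry κ)) {Q E : Set ℂ} (hQ : MeasurableSet Q)
    (hE : MeasurableSet E) (m : ℕ) (a b : ℂ) :
    ch κ Q m a b = ch κ (Q \ E) m a b + ∑ i ∈ Finset.range m,
      ∫⁻ u in Q ∩ E, ch κ (Q \ E) i a u * ch κ Q (m - 1 - i) u b := by
  rw [ch_split hκ Q hE, hc_dec hκ hQ hE hE subset_rfl]
  congr 1
  refine Finset.sum_congr rfl fun i _ => ?_
  refine setLIntegral_congr_fun (hQ.inter hE) fun z hz => ?_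
  simp only [h1, if_pos hz.2]

/-- last exit -/
theorem ch_dec' (hκ : Measurable (Function.uncurry κ)) (hs : ∀ a b, κ a b = κ b a) {Q E : Set ℂ}
    (hQ : MeasurableSet Q) (hE : MeasurableSet E) (m : ℕ) (a b : ℂ) :
    ch κ Q m a b = ch κ (Q \ E) m a b + ∑ j ∈ Finset.range m,
      ∫⁻ v in Q ∩ E, ch κ Q (m - 1 - j) a v * ch κ (Q \ E) j v b := by
  rw [ch_symm hκ hs, ch_dec hκ hQ hE, ch_symm hκ hs (Q \ E) m b a]
  congr 1
  refine Finset.sum_congr rfl fun i _ => ?_
  refine lintegral_congr fun z => ?_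
  rw [ch_symm hκ hs (Q \ E) i b z, ch_symm hκ hs Q _ z a, mul_comm]

theorem hc_dec' (hκ : Measurable (Function.uncurry κ)) (hs : ∀ a b, κ a b = κ b a)
    (hf : ∀ (Q : Set ℂ) (n : ℕ) (a b : ℂ), ch κ Q n a b ≠ ∞) {Q A E : Set ℂ}
    (hQ : MeasurableSet Q) (hA : MeasurableSet A) (hE : MeasurableSet E) (hAE : A ⊆ E) (m : ℕ)
    (a b : ℂ) : hc κ Q A m a b = ∑ j ∈ Finset.range m,
      ∫⁻ v in Q ∩ E, h1 κ Q A (m - 1 - j) v a * ch κ (Q \ E) j v b := by
  rw [hc_symm hκ hs Q hA hf, hc_dec hκ hQ hA hE hAE]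
  refine Finset.sum_congr rfl fun i _ => ?_
  refine lintegral_congr fun z => ?_
  rw [ch_symm hκ hs (Q \ E) i b z, mul_comm]

/-- two-sided decomposition -/
theorem hc_dec2 (hκ : Measurable (Function.uncurry κ)) (hs : ∀ a b, κ a b = κ b a)
    (hf : ∀ (Q : Set ℂ) (n : ℕ) (a b : ℂ), ch κ Q n a b ≠ ∞) {Q A E : Set ℂ}
    (hQ : MeasurableSet Q) (hA : MeasurableSet A) (hE : MeasurableSet E) (hAE : A ⊆ E) (m : ℕ)
    (a b : ℂ) : hc κ Q A m a b = ∑ i ∈ Finset.range m, ∫⁻ u in Q ∩ E, ch κ (Q \ E) i a u *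
      (A.indicator (fun u => ch κ (Q \ E) (m - 1 - i) u b) u + ∑ j ∈ Finset.range (m - 1 - i),
        ∫⁻ v in Q ∩ E, h2 κ Q A (m - 1 - i - 1 - j) u v * ch κ (Q \ E) j v b) := by
  rw [hc_dec hκ hQ hA hE hAE]
  refine Finset.sum_congr rfl fun i _ => ?_
  refine lintegral_congr fun u => ?_
  congr 1
  unfold h1
  by_cases hu : u ∈ A
  · rw [if_pos hu, indicator_of_mem hu, ch_dec' hκ hs hQ hE]
    congr 1
    refine Finset.sum_congr rfl fun j _ => ?_
    refine lintegral_congr fun v => ?_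
    rw [h2, if_pos (Or.inl hu)]
  · rw [if_neg hu, indicator_of_notMem hu, zero_add, hc_dec' hκ hs hf hQ hA hE hAE]
    refine Finset.sum_congr rfl fun j _ => ?_
    refine lintegral_congr fun v => ?_
    congr 1
    unfold h1 h2
    by_cases hv : v ∈ A
    · rw [if_pos hv, if_pos (Or.inr hv), ch_symm hκ hs]
    · rw [if_neg hv, if_neg (by tauto), hc_symm hκ hs Q hA hf]

end Pool.Agent.N275.QD
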