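import Pool.Agent.N275.QD.Glo2
import Pool.Agent.N670.QD.RT

set_option autoImplicit false

/-!
# Project QD: the contribution of a side as a measure of rooted loops
-/

namespace Pool.Agent.N275.QD

open MeasureTheory Set Filter Topology Complex
open Pool.Agent.R225.LP (gk ks ip ip_self ip_sub_right ip_sub_left ip_add_left ip_add_right
  ip_smul_left ip_smul_right norm_sq_add norm_sq_sub lint_exp gk_pos gk_nonneg gk_cont nG lint_nG
  mgf_nG gkE_meas ip_cont)
open Pool.Agent.R225.LP.FP (cyc)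
open Pool.Agent.N670.QD (all_meas)
open scoped Real ENNReal ComplexConjugate

theorem tie_null {n : ℂ} (hn : n ≠ 0) {m : ℕ} {i j : Fin (m + 1)} (hij : i ≠ j) :
    volume {W : Fin (m + 1) → ℂ | ip n (W i) = ip n (W j)} = 0 := by
  let S : Submodule ℝ (Fin (m + 1) → ℂ) :=
    { carrier := {W | ip n (W i) = ip n (W j)}
      add_mem' := fun {a b} ha hb => by
        simp only [mem_ofPred_eq, Pi.add_apply, ip_add_right] at *
        rw [ha, hb]
      zero_mem' := by simp [Pool.Agent.R225.LP.ip_zero_right]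
      smul_mem' := fun c x hx => by
        simp only [mem_ofPred_eq, Pi.smul_apply, Complex.real_smul, ip_smul_right] at *
        rw [hx] }
  have hS : S ≠ ⊤ := by
    intro h
    have h1 : (Pi.single i n : Fin (m + 1) → ℂ) ∈ S := by rw [h]; trivial
    have h2 : ip n ((Pi.single i n : Fin (m + 1) → ℂ) i) =
        ip n ((Pi.single i n : Fin (m + 1) → ℂ) j) := h1
    rw [Pi.single_eq_same, Pi.single_eq_of_ne hij.symm, ip_self,
      Pool.Agent.R225.LP.ip_zero_right] at h2
    have : 0 < ‖n‖ := norm_pos_iff.2 hn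
    have := pow_pos this 2
    linarith
  exact Measure.addHaar_submodule volume S hS

theorem tie_ae {n : ℂ} (hn : n ≠ 0) (m : ℕ) : ∀ᵐ W : Fin (m + 1) → ℂ,
    ∀ i j, i ≠ j → ip n (W i) ≠ ip n (W j) := by
  rw [ae_all_iff]
  intro i
  rw [ae_all_iff]
  intro j
  by_cases hij : i = j
  · exact Eventually.of_forall fun W h => (h hij).elim
  · have h := tie_null (m := m) hn hij
    rw [measure_eq_zero_iff_ae_notMem] at h
    filter_upwards [h] with W hW _ h3
    exact hW h3

/-- rotating loops -/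
theorem rot_loops {e : ℂ} (he : ‖e‖ = 1) (m : ℕ) {F : (Fin (m + 1) → ℂ) → ℝ≥0∞}
    (hF : Measurable F) : ∫⁻ W, F W = ∫⁻ W : Fin (m + 1) → ℂ, F (fun i => e * W i) := by
  have he' : e ∈ Submonoid.unitSphere ℂ := mem_sphere_zero_iff_norm.2 he
  have h1 : MeasurePreserving (fun z : ℂ => e * z) volume volume :=
    (rotation ⟨e, he'⟩).measurePreserving
  have h2 : MeasurePreserving (fun (W : Fin (m + 1) → ℂ) i => e * W i) volume volume :=
    volume_preserving_pi fun _ => h1
  exact (h2.lintegral_comp hF).symm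

theorem cyc_rot {e : ℂ} (he : ‖e‖ = 1) (s : ℝ) {m : ℕ} (W : Fin (m + 1) → ℂ) :
    cyc s (fun i => e * W i) = cyc s W := by
  unfold cyc
  refine Finset.prod_congr rfl fun i _ => ?_
  rw [← mul_sub, gk, gk, norm_mul, he, one_mul]

theorem Hh_meas (φ : ℝ) : MeasurableSet (Hh φ) := by
  unfold Hh
  have h : Continuous fun z : ℂ => z.re * Real.sin φ + z.im * Real.cos φ := by fun_prop
  exact (isOpen_lt continuous_const h).measurableSet

/-- the direction of the second neighbour, in the turned coordinates -/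
noncomputable def nv (β φ : ℝ) : ℂ := ⟨Real.sin (β - φ), -Real.cos (β - φ)⟩

theorem nv_norm (β φ : ℝ) : ‖nv β φ‖ = 1 := by
  have h : ‖nv β φ‖ ^ 2 = 1 := by
    rw [← ip_self]
    simp only [ip, nv]
    nlinarith [Real.sin_sq_add_cos_sq (β - φ)]
  have := norm_nonneg (nv β φ)
  nlinarith

/-- the half-plane beyond the second neighbour -/
def Tv (β φ c : ℝ) : Set ℂ := {z | c ≤ ip (nv β φ) z}

theorem Tv_meas (β φ c : ℝ) : MeasurableSet (Tv β φ c) :=
  (isClosed_le continuous_const (ip_cont _)).measurableSet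

theorem con (hBR : S_BR) {α β l t φ : ℝ} (hα : 0 < α) (hβ : 0 < β) (hαβ : α + β < π)
    (hl : 0 < l) (ht : 0 < t) (m : ℕ) : ENNReal.ofReal (Nn α β l t (m + 1)) =
      ENNReal.ofReal (4 * π * t) * LM (Hh φ) (Hh (φ + α))ᶜ (Tv β φ (l * Real.sin β)) (nv β φ)
        (t / (m + 1)) m := by
  have hn0 : nv β φ ≠ 0 := by
    intro h
    have := nv_norm β φ
    rw [h, norm_zero] at this
    exact zero_ne_one this
  have hs : 0 < t / ((m : ℝ) + 1) := by positivity
  rw [hBR α β l t m hα hβ hαβ hl ht,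
    Pool.Agent.N670.QD.rt (Hh φ) (Hh (φ + α))ᶜ (Tv β φ (l * Real.sin β)) (nv β φ) (t / (m + 1)) m
      (Hh_meas _) (Hh_meas _).compl (Tv_meas _ _ _) hn0 hs]
  congr 1
  set e : ℂ := Complex.exp ((φ : ℂ) * I) with he
  have he1 : ‖e‖ = 1 := Complex.norm_exp_ofReal_mul_I φ
  have hre : ∀ z : ℂ, (e * z).re = z.re * Real.cos φ - z.im * Real.sin φ := fun z => by
    rw [mul_re, he, exp_ofReal_mul_I_re, exp_ofReal_mul_I_im]
    ring
  have him : ∀ z : ℂ, (e * z).im = z.re * Real.sin φ + z.im * Real.cos φ := fun z => by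
    rw [mul_im, he, exp_ofReal_mul_I_re, exp_ofReal_mul_I_im]
    ring
  have h1 : ∀ z : ℂ, e * z ∈ Hh 0 ↔ z ∈ Hh φ := fun z => by
    simp only [Hh, mem_ofPred_eq, Real.sin_zero, Real.cos_zero, mul_zero, mul_one, zero_add, him]
  have h2 : ∀ z : ℂ, e * z ∈ Hh α ↔ z ∈ Hh (φ + α) := fun z => by
    simp only [Hh, mem_ofPred_eq, him, hre, Real.sin_add, Real.cos_add]
    constructor
    · intro h
      nlinarith
    · intro h
      nlinarith
  have h3 : ∀ z : ℂ, l * Real.sin β ≤ (e * z).re * Real.sin β - (e * z).im * Real.cos β ↔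
      z ∈ Tv β φ (l * Real.sin β) := fun z => by
    simp only [Tv, nv, ip, mem_ofPred_eq, him, hre, Real.sin_sub, Real.cos_sub]
    constructor
    · intro h
      nlinarith
    · intro h
      nlinarith
  have hTm : MeasurableSet {z : ℂ | l * Real.sin β ≤ z.re * Real.sin β - z.im * Real.cos β} := by
    have hcont : Continuous fun z : ℂ => z.re * Real.sin β - z.im * Real.cos β := by fun_prop
    exact (isClosed_le continuous_const hcont).measurableSet
  have hset : MeasurableSet {W : Fin (m + 1) → ℂ | (∀ i, W i ∈ Hh 0) ∧ (∃ i, W i ∉ Hh α) ∧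
      ∃ i, l * Real.sin β ≤ (W i).re * Real.sin β - (W i).im * Real.cos β} :=
    (all_meas (Hh 0) (Hh_meas 0)).inter ((Pool.Agent.N670.QD.ex_meas (Hh α)ᶜ (Hh_meas α).compl).inter
      (Pool.Agent.N670.QD.ex_meas _ hTm))
  have hcm : Measurable fun W : Fin (m + 1) → ℂ => ENNReal.ofReal (cyc (t / (m + 1)) W) :=
    (Pool.Agent.R225.LP.FP.cyc_cont _).measurable.ennreal_ofReal
  refine (rot_loops he1 m (hcm.mul (measurable_one.indicator hset))).trans ?_
  refine lintegral_congr_ae ?_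
  filter_upwards [tie_ae hn0 m] with W hW
  simp only [Pi.mul_apply]
  rw [cyc_rot he1]
  congr 1
  have key : (fun i => e * W i) ∈ {W : Fin (m + 1) → ℂ | (∀ i, W i ∈ Hh 0) ∧ (∃ i, W i ∉ Hh α) ∧
      ∃ i, l * Real.sin β ≤ (W i).re * Real.sin β - (W i).im * Real.cos β} ↔
      W ∈ {W : Fin (m + 1) → ℂ | (∀ i, W i ∈ Hh φ) ∧ ∃ k, W k ∈ Tv β φ (l * Real.sin β) ∧
        (∀ i, i ≠ k → ip (nv β φ) (W i) < ip (nv β φ) (W k)) ∧
          ∃ i, i ≠ k ∧ W i ∈ (Hh (φ + α))ᶜ} := by
    simp only [mem_ofPred_eq, h1, h2, h3]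
    constructor
    · rintro ⟨a1, ⟨i, a2⟩, ⟨j, a3⟩⟩
      obtain ⟨k, -, hk⟩ := Finset.exists_max_image Finset.univ
        (fun i => ip (nv β φ) (W i)) ⟨0, Finset.mem_univ _⟩
      have hkT : W k ∈ Tv β φ (l * Real.sin β) := by
        have h4 : l * Real.sin β ≤ ip (nv β φ) (W j) := a3
        exact h4.trans (hk j (Finset.mem_univ _))
      refine ⟨a1, k, hkT, fun i hi => lt_of_le_of_ne (hk i (Finset.mem_univ _)) (hW i k hi), i, ?_,
        a2⟩
      rintro rfl
      -- `W i` cannot be in both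
      have b1 : 0 < (e * W i).im := by
        have := (h1 (W i)).2 (a1 i)
        simpa [Hh] using this
      have b2 : (e * W i).re * Real.sin α + (e * W i).im * Real.cos α ≤ 0 := by
        have : ¬ e * W i ∈ Hh α := fun h => a2 ((h2 _).1 h)
        exact le_of_not_gt this
      have b3 := (h3 (W i)).2 hkT
      have s1 := Real.sin_pos_of_pos_of_lt_pi hα (by linarith)
      have s2 := Real.sin_pos_of_pos_of_lt_pi hβ (by linarith)
      have s3 := Real.sin_pos_of_pos_of_lt_pi (show 0 < α + β by linarith) hαβ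
      rw [Real.sin_add] at s3
      have b4 : 0 < ((e * W i).re * Real.sin β - (e * W i).im * Real.cos β) * Real.sin α := by
        have : 0 < l * Real.sin β := by positivity
        exact mul_pos (by linarith) s1
      have b5 : ((e * W i).re * Real.sin α + (e * W i).im * Real.cos α) * Real.sin β ≤ 0 :=
        mul_nonpos_of_nonpos_of_nonneg b2 s2.le
      have b6 := mul_pos b1 s3
      nlinarith
    · rintro ⟨a1, k, a2, a3, i, _, a4⟩
      exact ⟨a1, ⟨i, a4⟩, ⟨k, a2⟩⟩
  by_cases h : W ∈ {W : Fin (m + 1) → ℂ | (∀ i, W i ∈ Hh φ) ∧ ∃ k,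
      W k ∈ Tv β φ (l * Real.sin β) ∧ (∀ i, i ≠ k → ip (nv β φ) (W i) < ip (nv β φ) (W k)) ∧
          ∃ i, i ≠ k ∧ W i ∈ (Hh (φ + α))ᶜ}
  · rw [indicator_of_mem h, indicator_of_mem (key.2 h)]
    rfl
  · rw [indicator_of_notMem h, indicator_of_notMem (fun h' => h (key.1 h'))]

end Pool.Agent.N275.QD
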