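import Pool.Agent.N275.QD.Tilt

set_option autoImplicit false

/-!
# Project QD: integrals over the plane
-/

namespace Pool.Agent.N275.QD

open MeasureTheory Set Filter Topology Complex
open scoped Real ENNReal ComplexConjugate

/-- Tonelli's theorem in the plane -/
theorem lint_plane {f : ℂ → ℝ≥0∞} (hf : Measurable f) :
    ∫⁻ z : ℂ, f z = ∫⁻ x : ℝ, ∫⁻ y : ℝ, f ((x : ℂ) + (y : ℂ) * I) := by
  rw [← (Complex.volume_preserving_equiv_real_prod.symm).lintegral_comp_emb
    Complex.measurableEquivRealProd.symm.measurableEmbedding]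
  have hm : Measurable (fun p : ℝ × ℝ => f (Complex.measurableEquivRealProd.symm p)) :=
    hf.comp Complex.measurableEquivRealProd.symm.measurable
  rw [Measure.volume_eq_prod, lintegral_prod _ hm.aemeasurable]
  refine lintegral_congr fun x => lintegral_congr fun y => ?_
  congr 1
  rw [Complex.measurableEquivRealProd_symm_apply]
  apply Complex.ext <;> simp

theorem lint_abs {c : ℝ} (hc : 0 < c) :
    ∫⁻ x : ℝ, ENNReal.ofReal (Real.exp (-(c * |x|))) = ENNReal.ofReal (2 / c) := by
  have h2 : ∫ x : ℝ, Real.exp (-(c * |x|)) = 2 / c := by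
    rw [integral_comp_abs (f := fun x => Real.exp (-(c * x)))]
    have h4 := integral_exp_mul_Ioi (a := -c) (by linarith) 0
    have h5 : ∫ x in Ioi (0 : ℝ), Real.exp (-(c * x)) = ∫ x in Ioi (0 : ℝ), Real.exp (-c * x) := by
      refine setIntegral_congr_fun measurableSet_Ioi fun x _ => ?_
      simp only [neg_mul]
    rw [h5, h4]
    simp
    field_simp
  have h3 : Integrable (fun x : ℝ => Real.exp (-(c * |x|))) := by
    by_contra h
    rw [integral_undef h] at h2
    have : 0 < 2 / c := by positivity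
    linarith
  rw [← ofReal_integral_eq_lintegral_ofReal h3 (Eventually.of_forall fun x => (Real.exp_pos _).le),
    h2]

theorem lint_abs2 {c : ℝ} (hc : 0 < c) (d : ℝ) :
    ∫⁻ z : ℂ, ENNReal.ofReal (Real.exp (-(c * (|z.re - d| + |z.im|)))) =
      ENNReal.ofReal ((2 / c) ^ 2) := by
  have hm : Measurable (fun z : ℂ => ENNReal.ofReal (Real.exp (-(c * (|z.re - d| + |z.im|))))) := by
    refine Measurable.ennreal_ofReal (Measurable.exp (Measurable.neg (Measurable.const_mul ?_ _)))
    have h1 : Continuous (fun z : ℂ => |z.re - d| + |z.im|) := by fun_prop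
    exact h1.measurable
  rw [lint_plane hm]
  have e : ∀ x y : ℝ, ENNReal.ofReal (Real.exp (-(c * (|((x : ℂ) + (y : ℂ) * I).re - d| +
      |((x : ℂ) + (y : ℂ) * I).im|)))) = ENNReal.ofReal (Real.exp (-(c * |x - d|))) *
        ENNReal.ofReal (Real.exp (-(c * |y|))) := by
    intro x y
    rw [← ENNReal.ofReal_mul (Real.exp_pos _).le, ← Real.exp_add]
    congr 2
    simp
    ring
  simp_rw [e]
  have e2 : ∀ x : ℝ, ∫⁻ y : ℝ, ENNReal.ofReal (Real.exp (-(c * |x - d|))) *
        ENNReal.ofReal (Real.exp (-(c * |y|))) = ENNReal.ofReal (Real.exp (-(c * |x - d|))) *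
        ENNReal.ofReal (2 / c) := by
    intro x
    rw [lintegral_const_mul' _ _ ENNReal.ofReal_ne_top, lint_abs hc]
  simp_rw [e2]
  rw [lintegral_mul_const' _ _ ENNReal.ofReal_ne_top,
    lintegral_sub_right_eq_self (fun x : ℝ => ENNReal.ofReal (Real.exp (-(c * |x|)))) d,
    lint_abs hc, ← ENNReal.ofReal_mul (by positivity), sq]

theorem vol_rect (a b c d : ℝ) : volume {z : ℂ | (a ≤ z.re ∧ z.re ≤ b) ∧ (c ≤ z.im ∧ z.im ≤ d)} =
    ENNReal.ofReal (b - a) * ENNReal.ofReal (d - c) := by
  have h1 : {z : ℂ | (a ≤ z.re ∧ z.re ≤ b) ∧ (c ≤ z.im ∧ z.im ≤ d)} =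
      Complex.measurableEquivRealProd ⁻¹' ((Icc a b) ×ˢ (Icc c d)) := by
    ext z
    simp only [mem_ofPred_eq, mem_preimage, mem_prod, mem_Icc,
      Complex.measurableEquivRealProd_apply]
  rw [h1, Complex.volume_preserving_equiv_real_prod.measure_preimage
    (measurableSet_Icc.prod measurableSet_Icc).nullMeasurableSet, Measure.volume_eq_prod,
    Measure.prod_prod, Real.volume_Icc, Real.volume_Icc]

end Pool.Agent.N275.QD
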