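import Pool.Agent.N275.QD.Tot

set_option autoImplicit false

/-!
# Project QD: integration over the extreme point
-/

namespace Pool.Agent.N275.QD

open MeasureTheory Set Filter Topology Complex
open Pool.Agent.R225.LP (gk ks ip ip_self ip_sub_right ip_sub_left ip_add_left ip_add_right
  ip_smul_left ip_smul_right norm_sq_add norm_sq_sub lint_exp gk_pos gk_nonneg gk_cont nG lint_nG
  mgf_nG gkE_meas ip_cont)
open Pool.Agent.R225.LP.TR (ch ch_meas meas_left meas_right ch_mono_set kp kp_meas kp_comm ks_eq)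
open scoped Real ENNReal ComplexConjugate

/-- the points below `b` -/
def Qb (n : ℂ) (H : Set ℂ) (b : ℂ) : Set ℂ := H ∩ {z | ip n z < ip n b}

/-- the global situation -/
structure Glo (n : ℂ) (H A T : Set ℂ) (d δ δ' : ℝ) : Prop where
  hn : ‖n‖ = 1
  hr : 0 < n.re
  Hm : MeasurableSet H
  Am : MeasurableSet A
  Tm : MeasurableSet T
  A0 : ∀ z ∈ A, z.re ≤ 0
  Tu : ∀ b ∈ T, ∀ z, ip n b ≤ ip n z → z ∈ T
  T0 : ∀ b ∈ T, b ∈ H → d ≤ b.re
  Tc : ∀ b ∈ T, b ∈ H → ∀ z ∈ H, z.re ≤ d - δ → ip n z ≤ ip n b - δ'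
  hd : 0 < d
  hδ : 0 < δ
  hδd : δ ≤ d / 8
  hδ' : 0 < δ'

variable {n : ℂ} {H A T : Set ℂ} {d δ δ' : ℝ}

theorem Glo.sit (h : Glo n H A T d δ δ') {b : ℂ} (hb : b ∈ T) (hb' : b ∈ H) :
    Sit n (Qb n H b) A b d δ δ' where
  hn := h.hn
  hr := h.hr
  Qm := h.Hm.inter (isOpen_lt (ip_cont n) continuous_const).measurableSet
  Am := h.Am
  A0 := h.A0
  Qn := fun z hz => hz.2
  Qc := fun z hz hz' => h.Tc b hb hb' z hz.1 hz'
  hd := h.hd
  hδ := h.hδ
  hδd := h.hδd
  hδ' := h.hδ'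
  hb := h.T0 b hb hb'

/-- the essential region does not depend on `b` -/
theorem Glo.ess_eq (h : Glo n H A T d δ δ') {b : ℂ} (hb : b ∈ T) (hb' : b ∈ H) (Y : ℝ) :
    Qb n H b ∩ Sg d δ Y = H ∩ Sg d δ Y := by
  ext z
  constructor
  · rintro ⟨h1, h2⟩
    exact ⟨h1.1, h2⟩
  · rintro ⟨h1, h2⟩
    refine ⟨⟨h1, ?_⟩, h2⟩
    have h3 := h.Tc b hb hb' z h1 h2.2.1
    have h4 := h.hδ'
    change ip n z < ip n b
    linarith

/-- the kernels of `H` and of `Q` -/
theorem Glo.refl (h : Glo n H A T d δ δ') {b : ℂ} (hb : b ∈ T) {s t : ℝ}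
    (hs : 0 < s) (k : ℕ) (hkt : (k + 1) * s ≤ t) {u v : ℂ} (hu : d - 2 * δ ≤ u.re)
    (hu' : u.re ≤ d - δ) (hv : d - 2 * δ ≤ v.re) (hv' : v.re ≤ d - δ) :
    hc (kp s) H A k u v ≤ hc (kp s) (Qb n H b) A k u v + ENNReal.ofReal
      (2 * Real.exp (-(2 * (d / t) * δ)) * ((1 / t + 2 / d ^ 2) *
        Real.exp ((d / t) ^ 2 * ((k + 1) * s) - d / t * (u.re + v.re)))) := by
  have hd := h.hd
  have hδ := h.hδ
  have hδd := h.hδd
  have hτ : (0 : ℝ) < (k + 1) * s := by positivity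
  have ht : 0 < t := hτ.trans_le hkt
  have hB : MeasurableSet (H ∩ {z | ip n b ≤ ip n z}) :=
    h.Hm.inter (isClosed_le continuous_const (ip_cont n)).measurableSet
  have h1 := refl2 hs (w := 1) (by simp) (c := 0) (c' := d) hd H (A := A)
    (B := H ∩ {z | ip n b ≤ ip n z}) h.Am hB h.Hm (fun z hz => by
      rw [ip_one]; exact h.A0 z hz) (fun z hz => by
      rw [ip_one]; exact h.T0 z (h.Tu b hb z hz.2) hz.1) (b := v) (by rw [ip_one]; linarith)
    (by rw [ip_one]; linarith) k u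
  have e1 : H \ (H ∩ {z | ip n b ≤ ip n z}) = Qb n H b := by
    ext z
    constructor
    · rintro ⟨h1, h2⟩
      refine ⟨h1, ?_⟩
      change ip n z < ip n b
      by_contra h3
      exact h2 ⟨h1, le_of_not_gt h3⟩
    · rintro ⟨h1, h2⟩
      refine ⟨h1, fun h3 => ?_⟩
      have h4 : ip n z < ip n b := h2
      have h5 : ip n b ≤ ip n z := h3.2
      linarith
  rw [e1] at h1
  refine h1.trans ?_
  gcongr
  have hl : 0 < d / t := by positivity
  have key : ∀ z : ℂ, u.re + v.re + 2 * δ ≤ ‖z - u‖ → kp ((k + 1) * s) u z ≤ ENNReal.ofReal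
      (Real.exp (-(2 * (d / t) * δ)) * ((1 / t + 2 / d ^ 2) *
        Real.exp ((d / t) ^ 2 * ((k + 1) * s) - d / t * (u.re + v.re)))) := by
    intro z hz
    refine ENNReal.ofReal_le_ofReal ((gk_b2 hτ hkt hd (by linarith) hz).trans (le_of_eq ?_))
    have e : (d / t) ^ 2 * ((k + 1) * s) - d / t * (u.re + v.re + 2 * δ) =
        -(2 * (d / t) * δ) + ((d / t) ^ 2 * ((k + 1) * s) - d / t * (u.re + v.re)) := by ring
    rw [e, Real.exp_add]
    ring
  calc _ ≤ ENNReal.ofReal (Real.exp (-(2 * (d / t) * δ)) * ((1 / t + 2 / d ^ 2) *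
        Real.exp ((d / t) ^ 2 * ((k + 1) * s) - d / t * (u.re + v.re)))) + ENNReal.ofReal
        (Real.exp (-(2 * (d / t) * δ)) * ((1 / t + 2 / d ^ 2) *
        Real.exp ((d / t) ^ 2 * ((k + 1) * s) - d / t * (u.re + v.re)))) := by
        gcongr
        · refine key _ ?_
          rw [← norm_neg]
          refine norm_ge_re _ ?_
          unfold rf
          rw [ip_one, ip_one]
          simp
          linarith
        · refine key _ ?_
          refine norm_ge_re _ ?_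
          unfold rf
          rw [ip_one, ip_one]
          simp
          linarith
    _ = _ := by
        rw [← ENNReal.ofReal_add (by positivity) (by positivity)]
        congr 1
        ring

/-- the good region -/
def Bg (H T : Set ℂ) (d kk Y : ℝ) : Set ℂ := (T ∩ H) ∩ {b | b.re ≤ d + kk ∧ |b.im| ≤ Y / 2}

theorem Bg_meas {H T : Set ℂ} (hH : MeasurableSet H) (hT : MeasurableSet T) (d kk Y : ℝ) :
    MeasurableSet (Bg H T d kk Y) := by
  refine (hT.inter hH).inter ?_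
  have h1 : MeasurableSet {z : ℂ | z.re ≤ d + kk} :=
    (isClosed_le continuous_re continuous_const).measurableSet
  have h3 : MeasurableSet {z : ℂ | |z.im| ≤ Y / 2} :=
    (isClosed_le continuous_im.abs continuous_const).measurableSet
  exact h1.inter h3

/-- all numerical parameters -/
structure Par (n : ℂ) (d t s k kk Y θ Tt : ℝ) (m N : ℕ) : Prop where
  ht : 0 < t
  hs : ((m : ℝ) + 1) * s = t
  hst : d / t * √s ≤ 1
  hk : 0 ≤ k
  hY : 0 < Y
  hkk : 0 ≤ kk
  hθ : 0 ≤ θ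
  hθ2 : θ ≤ π / 2
  hθn : n.re / 2 ≤ Real.cos θ * n.re - Real.sin θ * |n.im|
  hTt : Tt ≤ (N + 1) * s
  hN : N * s ≤ Tt
  hTt4 : Tt ≤ t / 4

theorem Par.s0 {n : ℂ} {d t s k kk Y θ Tt : ℝ} {m N : ℕ} (p : Par n d t s k kk Y θ Tt m N) :
    0 < s := by
  have hm1 : (0 : ℝ) < (m : ℝ) + 1 := by positivity
  by_contra hcon
  have : ((m : ℝ) + 1) * s ≤ 0 := mul_nonpos_of_nonneg_of_nonpos hm1.le (by linarith)
  linarith [p.ht, p.hs]

theorem Par.N2 {n : ℂ} {d t s k kk Y θ Tt : ℝ} {m N : ℕ} (p : Par n d t s k kk Y θ Tt m N) :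
    2 * N ≤ m := by
  have hs := p.s0
  have h1 : (4 * N : ℝ) * s ≤ (m + 1) * s := by
    have := p.hN
    have := p.hTt4
    have := p.hs
    linarith
  have h2 : (4 * N : ℝ) ≤ m + 1 := le_of_mul_le_mul_right h1 hs
  have h3 : 4 * N ≤ m + 1 := by exact_mod_cast h2
  omega

/-- times of the middle part -/
theorem Par.mid {n : ℂ} {d t s k kk Y θ Tt : ℝ} {m N : ℕ} (p : Par n d t s k kk Y θ Tt m N)
    {i j : ℕ} (hi : i < N) (hj : j < N) :
    t - 2 * Tt ≤ (((m - 1 - i - 1 - j : ℕ) : ℝ) + 1) * s ∧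
    (((m - 1 - i - 1 - j : ℕ) : ℝ) + 1) * s = t - ((i + 1) * s + (j + 1) * s) := by
  have hs := p.s0
  have h2N := p.N2
  have e : ((m - 1 - i - 1 - j : ℕ) : ℝ) = (m : ℝ) - i - j - 2 := by
    have : m = (m - 1 - i - 1 - j) + i + j + 2 := by omega
    have h2 : (m : ℝ) = ((m - 1 - i - 1 - j : ℕ) : ℝ) + i + j + 2 := by exact_mod_cast this
    linarith
  have h1 : (((m - 1 - i - 1 - j : ℕ) : ℝ) + 1) * s = t - ((i + 1) * s + (j + 1) * s) := by
    rw [e, ← p.hs]
    ring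
  refine ⟨?_, h1⟩
  rw [h1]
  have h3 : ((i : ℝ) + 1) * s ≤ N * s := by
    gcongr
    exact_mod_cast hi
  have h4 : ((j : ℝ) + 1) * s ≤ N * s := by
    gcongr
    exact_mod_cast hj
  have := p.hN
  linarith

/-- upper bound at a good point -/
theorem Glo.up (hSU : S_SU) (h : Glo n H A T d δ δ') {t s k kk Y θ Tt : ℝ} {m N : ℕ}
    (p : Par n d t s k kk Y θ Tt m N) {b : ℂ} (hb : b ∈ Bg H T d kk Y) :
    hc (kp s) (Qb n H b) A m b b ≤ Ess (hc (kp s) H A) (Qb n H b \ Vh (d - δ)) (H ∩ Sg d δ Y)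
      s m N b + ENNReal.ofReal (Real.exp (-(d ^ 2 / t)) * E1 n d δ' t s k kk δ Y θ Tt m) := by
  have hs := p.s0
  have hd := h.hd
  have ht := p.ht
  have hsit := h.sit hb.1.1 hb.1.2
  have h1 := hsit.up' (N := N) hSU p.ht p.hs p.hst p.hk p.hY hb.2.1 hb.2.2 p.hθ p.hθ2 p.hθn p.hTt
  rw [h.ess_eq hb.1.1 hb.1.2] at h1
  have hE1 : 0 ≤ E1 n d δ' t s k kk δ Y θ Tt m := by
    have h2 := Lc_pos (n := n) h.hr hd h.hδ' ht
    have h3 := zt_nonneg (d / t) k δ s m
    have h4 : 0 < gT (d / t) kk δ Tt := Real.exp_pos _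
    have h5 : 0 < gY (d / t) kk δ Y θ := Real.exp_pos _
    unfold E1
    positivity
  refine h1.trans ?_
  gcongr ?_ + ENNReal.ofReal (?_ * _)
  · unfold Ess
    gcongr with i hi j hj
    exact hc_mono inter_subset_left _ _ _
  · refine Real.exp_le_exp.2 ?_
    have hb1 := hsit.hb
    have e1 : (d / t) ^ 2 * t = d ^ 2 / t := by field_simp
    have e2 : 2 * (d / t) * d = 2 * (d ^ 2 / t) := by ring
    have h3 : 2 * (d / t) * d ≤ 2 * (d / t) * b.re := by gcongr
    linarith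

/-- the error of the reflections -/
noncomputable def E2 (n : ℂ) (d δ' t s δ : ℝ) : ℝ :=
  2 * Real.exp (-(2 * (d / t) * δ)) * ((1 / t + 2 / d ^ 2) * (Lc n d δ' t * √s) ^ 2)

/-- lower bound at a good point -/
theorem Glo.low (hSU : S_SU) (h : Glo n H A T d δ δ') {t s k kk Y θ Tt : ℝ} {m N : ℕ}
    (p : Par n d t s k kk Y θ Tt m N) {b : ℂ} (hb : b ∈ Bg H T d kk Y) :
    Ess (hc (kp s) H A) (Qb n H b \ Vh (d - δ)) (H ∩ Sg d δ Y) s m N b ≤
      hc (kp s) (Qb n H b) A m b b +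
        ENNReal.ofReal (Real.exp (-(d ^ 2 / t)) * E2 n d δ' t s δ) := by
  have hs := p.s0
  have hd := h.hd
  have hδ := h.hδ
  have ht := p.ht
  have hsit := h.sit hb.1.1 hb.1.2
  have hSm : MeasurableSet (H ∩ Sg d δ Y) := h.Hm.inter (Sg_meas _ _ _)
  have hSE : H ∩ Sg d δ Y ⊆ Qb n H b ∩ Vh (d - δ) := by
    rw [← h.ess_eq hb.1.1 hb.1.2]
    rintro z ⟨h1, h2⟩
    exact ⟨h1, h2.2.1⟩
  have hSA : Disjoint (H ∩ Sg d δ Y) A := by
    rw [Set.disjoint_left]
    intro z hz hzA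
    have h1 := h.A0 z hzA
    have h2 := hz.2.1
    have := h.hδd
    linarith
  have hAV : A ⊆ Vh (d - δ) := fun z hz => by
    have := h.A0 z hz
    have := h.hδd
    change z.re ≤ d - δ
    linarith
  have h1 := low_bound (kp_meas s) (kp_comm s) (ch_ne hs) hsit.Qm h.Am (Vh_meas (d - δ)) hAV hSm
    hSE hSA m N p.N2 b
  have hL := Lc_pos (n := n) h.hr hd h.hδ' ht
  have h2 := ess_cmp (K₁ := hc (kp s) H A) (K₂ := hc (kp s) (Qb n H b) A)
    (R := Qb n H b \ Vh (d - δ)) (s := s) hSm (m := m)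
    (N := N) (b := b) (w := fun i u => rr s ((d / t : ℝ) : ℂ) ^ (i + 1) *
      ENNReal.ofReal (Real.exp (-(ip ((d / t : ℝ) : ℂ) u)))) (fun i => (ex_meas _).const_mul _)
    (C := ENNReal.ofReal (2 * Real.exp (-(2 * (d / t) * δ)) * (1 / t + 2 / d ^ 2) *
      Real.exp ((d / t) ^ 2 * t)))
    (fun i hi j hj u hu v hv => by
      have h3 := p.mid hi hj
      have h4 := p.hTt4
      have h5 : 0 < (i + 1) * s := by positivity
      have h6 : 0 < (j + 1) * s := by positivity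
      have h7 := h.refl hb.1.1 hs (m - 1 - i - 1 - j) (t := t) (by linarith [h3.2]) (u := u)
        (v := v) hu.2.1 hu.2.2.1 hv.2.1 hv.2.2.1
      refine h7.trans ?_
      gcongr
      rw [rr_w, rr_w, ← ENNReal.ofReal_mul (Real.exp_pos _).le, ← ENNReal.ofReal_mul (by positivity),
        ← Real.exp_add, h3.2]
      refine ENNReal.ofReal_le_ofReal (le_of_eq ?_)
      have e : Real.exp ((d / t) ^ 2 * (t - ((i + 1) * s + (j + 1) * s)) - d / t * (u.re + v.re)) =
          Real.exp ((d / t) ^ 2 * t) * Real.exp (-((d / t) ^ 2 * ((i + 1) * s)) - d / t * u.re +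
            (-((d / t) ^ 2 * ((j + 1) * s)) - d / t * v.re)) := by
        rw [← Real.exp_add]
        congr 1
        ring
      rw [e]
      ring)
  refine h2.trans (add_le_add h1 ?_)
  have h3 := hsit.good (N := N) hSU ht p.hs p.hst hSm hSE
  calc _ ≤ ENNReal.ofReal (2 * Real.exp (-(2 * (d / t) * δ)) * (1 / t + 2 / d ^ 2) *
      Real.exp ((d / t) ^ 2 * t)) * (ENNReal.ofReal (Real.exp (-(d / t * b.re)) *
        (Lc n d δ' t * √s))) ^ 2 := by
        gcongr
    _ ≤ _ := by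
        rw [← ENNReal.ofReal_pow (by positivity), ← ENNReal.ofReal_mul (by positivity)]
        refine ENNReal.ofReal_le_ofReal ?_
        unfold E2
        have e1 : (d / t) ^ 2 * t = d ^ 2 / t := by field_simp
        have e2 : 2 * (d / t) * d = 2 * (d ^ 2 / t) := by ring
        have h3 : 2 * (d / t) * d ≤ 2 * (d / t) * b.re := by
          have := hsit.hb
          gcongr
        have e3 : Real.exp ((d / t) ^ 2 * t) * Real.exp (-(d / t * b.re)) ^ 2 ≤
            Real.exp (-(d ^ 2 / t)) := by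
          rw [← Real.exp_nat_mul, ← Real.exp_add]
          refine Real.exp_le_exp.2 ?_
          push_cast
          linarith
        calc _ = (Real.exp ((d / t) ^ 2 * t) * Real.exp (-(d / t * b.re)) ^ 2) *
              (2 * Real.exp (-(2 * (d / t) * δ)) * ((1 / t + 2 / d ^ 2) *
                (Lc n d δ' t * √s) ^ 2)) := by ring
          _ ≤ _ := by gcongr

end Pool.Agent.N275.QD
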