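import Pool.Agent.N275.QD.Glo
import Pool.Agent.N275.QD.Fub

set_option autoImplicit false

/-!
# Project QD: the measure of the loops
-/

namespace Pool.Agent.N275.QD

open MeasureTheory Set Filter Topology Complex
open Pool.Agent.R225.LP (gk ks ip ip_self ip_sub_right ip_sub_left ip_add_left ip_add_right
  ip_smul_left ip_smul_right norm_sq_add norm_sq_sub lint_exp gk_pos gk_nonneg gk_cont nG lint_nG
  mgf_nG gkE_meas ip_cont)
open Pool.Agent.R225.LP.TR (ch ch_meas meas_left meas_right ch_mono_set kp kp_meas kp_comm ks_eq)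
open scoped Real ENNReal ComplexConjugate

/-- the main part -/
noncomputable def Mn (K : ℕ → ℂ → ℂ → ℝ≥0∞) (n : ℂ) (H T : Set ℂ) (d δ kk Y s : ℝ) (m N : ℕ) :
    ℝ≥0∞ :=
  ((m + 1 : ℕ) : ℝ≥0∞) * ∫⁻ b in Bg H T d kk Y,
    Ess K (Qb n H b \ Vh (d - δ)) (H ∩ Sg d δ Y) s m N b

variable {n : ℂ} {H A T : Set ℂ} {d δ δ' : ℝ}

theorem E0_nonneg (hr : 0 < n.re) (hd : 0 < d) (hδ' : 0 < δ') {t s : ℝ} (ht : 0 < t)
    (hs : 0 < s) (k : ℝ) (m : ℕ) : 0 ≤ E0 n d δ' t s k δ m := by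
  have h2 := Lc_pos (n := n) hr hd hδ' ht
  have h3 := zt_nonneg (d / t) k δ s m
  unfold E0
  positivity

theorem E1_nonneg (hr : 0 < n.re) (hd : 0 < d) (hδ' : 0 < δ') {t s : ℝ} (ht : 0 < t)
    (hs : 0 < s) (k kk Y θ Tt : ℝ) (m : ℕ) : 0 ≤ E1 n d δ' t s k kk δ Y θ Tt m := by
  have h2 := Lc_pos (n := n) hr hd hδ' ht
  have h3 := zt_nonneg (d / t) k δ s m
  have h4 : 0 < gT (d / t) kk δ Tt := Real.exp_pos _
  have h5 : 0 < gY (d / t) kk δ Y θ := Real.exp_pos _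
  unfold E1
  positivity

theorem E2_nonneg {t s : ℝ} (ht : 0 < t) : 0 ≤ E2 n d δ' t s δ := by
  unfold E2
  positivity

theorem LM_eq (A₀ : Set ℂ) (s : ℝ) (m : ℕ) : LM H A₀ T n s m = ((m + 1 : ℕ) : ℝ≥0∞) *
    ∫⁻ b in T ∩ H, hc (kp s) (Qb n H b) (A₀ ∩ H) m b b := by
  unfold LM
  congr 1
  refine lintegral_congr fun b => ?_
  rw [hk_eq]
  refine hc_congr ?_ _ _ _
  ext z
  constructor
  · rintro ⟨h1, h2⟩
    exact ⟨h1, h2, h1.1⟩
  · rintro ⟨h1, h2⟩
    exact ⟨h1, h2.1⟩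

theorem vol_Bg (h : Glo n H A T d δ δ') {kk Y : ℝ} (hkk : 0 ≤ kk) :
    volume (Bg H T d kk Y) ≤ ENNReal.ofReal (kk * Y) := by
  have h1 := vol_rect d (d + kk) (-(Y / 2)) (Y / 2)
  rw [← ENNReal.ofReal_mul (by linarith)] at h1
  have e : (d + kk - d) * (Y / 2 - -(Y / 2)) = kk * Y := by ring
  rw [e] at h1
  rw [← h1]
  refine measure_mono fun b hb => ⟨⟨h.T0 b hb.1.1 hb.1.2, hb.2.1⟩, ?_⟩
  exact abs_le.1 hb.2.2

/-- upper bound for the measure of the loops -/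
theorem LM_up (hSU : S_SU) {A₀ : Set ℂ} (hA : A = A₀ ∩ H) (h : Glo n H A T d δ δ')
    {t s k kk Y θ Tt : ℝ} {m N : ℕ} (p : Par n d t s k kk Y θ Tt m N) {g c : ℝ} (hc0 : 0 < c)
    (hfar : ∀ b ∈ T ∩ H, b ∉ Bg H T d kk Y → ∃ w : ℂ, ‖w‖ = 1 ∧ n.re / 2 ≤ ip w n ∧
      (∀ z ∈ A, ip w z ≤ 0) ∧ d + g + c * (|b.re - d| + |b.im|) ≤ ip w b) :
    LM H A₀ T n s m ≤ Mn (hc (kp s) H A) n H T d δ kk Y s m N +
      ENNReal.ofReal ((m + 1) * (Real.exp (-(d ^ 2 / t)) * (kk * Y *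
        E1 n d δ' t s k kk δ Y θ Tt m + Real.exp (-(2 * (d / t) * g)) *
          E0 n d δ' t s k δ m * (t / (d * c)) ^ 2))) := by
  have hs := p.s0
  have hd := h.hd
  have ht := p.ht
  have hkk := p.hkk
  have hY := p.hY
  have hl : 0 < d / t := by positivity
  have hE0 := E0_nonneg (δ := δ) h.hr hd h.hδ' ht hs k m
  have hE1 := E1_nonneg (δ := δ) h.hr hd h.hδ' ht hs k kk Y θ Tt m
  have hBg := Bg_meas h.Hm h.Tm d kk Y
  rw [LM_eq, ← hA, Mn]
  -- far points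
  have hf : ∫⁻ b in (T ∩ H) \ Bg H T d kk Y, hc (kp s) (Qb n H b) A m b b ≤
      ENNReal.ofReal (Real.exp (-(d ^ 2 / t)) * (Real.exp (-(2 * (d / t) * g)) *
          E0 n d δ' t s k δ m * (t / (d * c)) ^ 2)) := by
    have h1 : ∀ b ∈ (T ∩ H) \ Bg H T d kk Y, hc (kp s) (Qb n H b) A m b b ≤
        ENNReal.ofReal (Real.exp (-(d ^ 2 / t)) * (Real.exp (-(2 * (d / t) * g)) *
          E0 n d δ' t s k δ m)) * ENNReal.ofReal (Real.exp (-(2 * (d / t) * c *
            (|b.re - d| + |b.im|)))) := by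
      intro b hb
      obtain ⟨w, hw, hwn, hAw, hwb⟩ := hfar b hb.1 hb.2
      have h2 := (h.sit hb.1.1 hb.1.2).tot hSU ht p.hs p.hst p.hk hw hwn hAw
      refine h2.trans ?_
      rw [← ENNReal.ofReal_mul (by positivity)]
      refine ENNReal.ofReal_le_ofReal ?_
      have h3 : Real.exp ((d / t) ^ 2 * t - 2 * (d / t) * ip w b) ≤ Real.exp (-(d ^ 2 / t)) *
          Real.exp (-(2 * (d / t) * g)) * Real.exp (-(2 * (d / t) * c *
            (|b.re - d| + |b.im|))) := by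
        rw [← Real.exp_add, ← Real.exp_add]
        refine Real.exp_le_exp.2 ?_
        have e1 : (d / t) ^ 2 * t = d ^ 2 / t := by field_simp
        have e2 : 2 * (d / t) * d = 2 * (d ^ 2 / t) := by ring
        have h4 : 2 * (d / t) * (d + g + c * (|b.re - d| + |b.im|)) ≤ 2 * (d / t) * ip w b := by
          gcongr
        nlinarith
      calc _ ≤ (Real.exp (-(d ^ 2 / t)) *
          Real.exp (-(2 * (d / t) * g)) * Real.exp (-(2 * (d / t) * c *
            (|b.re - d| + |b.im|)))) * E0 n d δ' t s k δ m := by gcongr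
        _ = _ := by ring
    refine (setLIntegral_mono' ((h.Tm.inter h.Hm).diff hBg) h1).trans ?_
    rw [lintegral_const_mul' _ _ ENNReal.ofReal_ne_top]
    calc _ ≤ ENNReal.ofReal (Real.exp (-(d ^ 2 / t)) * (Real.exp (-(2 * (d / t) * g)) *
          E0 n d δ' t s k δ m)) * ∫⁻ b : ℂ, ENNReal.ofReal (Real.exp (-(2 * (d / t) * c *
            (|b.re - d| + |b.im|)))) := by
          gcongr
          exact Measure.restrict_le_self
      _ = _ := by
          rw [lint_abs2 (by positivity), ← ENNReal.ofReal_mul (by positivity)]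
          congr 1
          have : 2 / (2 * (d / t) * c) = t / (d * c) := by field_simp
          rw [this]
          ring
  -- good points
  have hg : ∫⁻ b in Bg H T d kk Y, hc (kp s) (Qb n H b) A m b b ≤
      (∫⁻ b in Bg H T d kk Y, Ess (hc (kp s) H A) (Qb n H b \ Vh (d - δ)) (H ∩ Sg d δ Y) s m N b) +
      ENNReal.ofReal (Real.exp (-(d ^ 2 / t)) * (kk * Y * E1 n d δ' t s k kk δ Y θ Tt m)) := by
    refine (setLIntegral_mono' hBg fun b hb => h.up hSU p hb).trans ?_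
    rw [lintegral_add_right _ measurable_const, setLIntegral_const]
    gcongr
    refine (mul_le_mul_right (vol_Bg h hkk) _).trans (le_of_eq ?_)
    rw [← ENNReal.ofReal_mul (by positivity)]
    congr 1
    ring
  have hsplit : ∫⁻ b in T ∩ H, hc (kp s) (Qb n H b) A m b b =
      (∫⁻ b in Bg H T d kk Y, hc (kp s) (Qb n H b) A m b b) +
      ∫⁻ b in (T ∩ H) \ Bg H T d kk Y, hc (kp s) (Qb n H b) A m b b := by
    rw [← lintegral_inter_add_sdiff _ (T ∩ H) hBg]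
    congr 3
    ext b
    exact ⟨fun hb => hb.2, fun hb => ⟨hb.1, hb⟩⟩
  rw [hsplit]
  calc _ ≤ ((m + 1 : ℕ) : ℝ≥0∞) * (((∫⁻ b in Bg H T d kk Y, Ess (hc (kp s) H A)
        (Qb n H b \ Vh (d - δ)) (H ∩ Sg d δ Y) s m N b) +
        ENNReal.ofReal (Real.exp (-(d ^ 2 / t)) * (kk * Y * E1 n d δ' t s k kk δ Y θ Tt m))) +
        ENNReal.ofReal (Real.exp (-(d ^ 2 / t)) * (Real.exp (-(2 * (d / t) * g)) *
          E0 n d δ' t s k δ m * (t / (d * c)) ^ 2))) := by
        gcongr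
    _ = _ := by
        rw [add_assoc, mul_add, ← ENNReal.ofReal_add (by positivity) (by positivity)]
        congr 1
        have e : ((m + 1 : ℕ) : ℝ≥0∞) = ENNReal.ofReal ((m : ℝ) + 1) := by
          rw [← ENNReal.ofReal_natCast]
          push_cast
          rfl
        rw [e, ← ENNReal.ofReal_mul (by positivity)]
        congr 1
        ring

/-- lower bound for the measure of the loops -/
theorem LM_low (hSU : S_SU) {A₀ : Set ℂ} (hA : A = A₀ ∩ H) (h : Glo n H A T d δ δ')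
    {t s k kk Y θ Tt : ℝ} {m N : ℕ} (p : Par n d t s k kk Y θ Tt m N) :
    Mn (hc (kp s) H A) n H T d δ kk Y s m N ≤ LM H A₀ T n s m +
      ENNReal.ofReal ((m + 1) * (Real.exp (-(d ^ 2 / t)) * (kk * Y * E2 n d δ' t s δ))) := by
  have hs := p.s0
  have hd := h.hd
  have ht := p.ht
  have hkk := p.hkk
  have hY := p.hY
  have hE2 := E2_nonneg (n := n) (d := d) (δ := δ) (δ' := δ') (s := s) ht
  have hBg := Bg_meas h.Hm h.Tm d kk Y
  rw [LM_eq, ← hA, Mn]
  have hg : (∫⁻ b in Bg H T d kk Y, Ess (hc (kp s) H A) (Qb n H b \ Vh (d - δ)) (H ∩ Sg d δ Y)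
      s m N b) ≤ (∫⁻ b in Bg H T d kk Y, hc (kp s) (Qb n H b) A m b b) +
      ENNReal.ofReal (Real.exp (-(d ^ 2 / t)) * (kk * Y * E2 n d δ' t s δ)) := by
    refine (setLIntegral_mono' hBg fun b hb => h.low hSU p hb).trans ?_
    rw [lintegral_add_right _ measurable_const, setLIntegral_const]
    gcongr
    refine (mul_le_mul_right (vol_Bg h hkk) _).trans (le_of_eq ?_)
    rw [← ENNReal.ofReal_mul (by positivity)]
    congr 1
    ring
  have hsub : ∫⁻ b in Bg H T d kk Y, hc (kp s) (Qb n H b) A m b b ≤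
      ∫⁻ b in T ∩ H, hc (kp s) (Qb n H b) A m b b := lintegral_mono_set fun b hb => hb.1
  calc _ ≤ ((m + 1 : ℕ) : ℝ≥0∞) * ((∫⁻ b in T ∩ H, hc (kp s) (Qb n H b) A m b b) +
        ENNReal.ofReal (Real.exp (-(d ^ 2 / t)) * (kk * Y * E2 n d δ' t s δ))) := by
        gcongr
        exact hg.trans (by gcongr)
    _ = _ := by
        rw [mul_add]
        congr 1
        have e : ((m + 1 : ℕ) : ℝ≥0∞) = ENNReal.ofReal ((m : ℝ) + 1) := by
          rw [← ENNReal.ofReal_natCast]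
          push_cast
          rfl
        rw [e, ← ENNReal.ofReal_mul (by positivity)]

/-- changing the kernel by a constant -/
theorem Mn_cmp (hSU : S_SU) (h : Glo n H A T d δ δ')
    {t s k kk Y θ Tt : ℝ} {m N : ℕ} (p : Par n d t s k kk Y θ Tt m N)
    {K₁ K₂ : ℕ → ℂ → ℂ → ℝ≥0∞} {ε : ℝ}
    (hε : 0 ≤ ε) (hcmp : ∀ i < N, ∀ j < N, ∀ u ∈ H ∩ Sg d δ Y, ∀ v ∈ H ∩ Sg d δ Y,
      K₁ (m - 1 - i - 1 - j) u v ≤ K₂ (m - 1 - i - 1 - j) u v + ENNReal.ofReal ε) :
    Mn K₁ n H T d δ kk Y s m N ≤ Mn K₂ n H T d δ kk Y s m N + ENNReal.ofReal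
      (ε * (kk * Y * Real.exp (2 * (d / t) ^ 2 * Tt) * Lc n d δ' t ^ 2 * t)) := by
  have hs := p.s0
  have hd := h.hd
  have ht := p.ht
  have hkk := p.hkk
  have hY := p.hY
  have hδ := h.hδ
  have hL := Lc_pos (n := n) h.hr hd h.hδ' ht
  have hl : 0 < d / t := by positivity
  have hBg := Bg_meas h.Hm h.Tm d kk Y
  have hSm : MeasurableSet (H ∩ Sg d δ Y) := h.Hm.inter (Sg_meas _ _ _)
  have hb : ∀ b ∈ Bg H T d kk Y, Ess K₁ (Qb n H b \ Vh (d - δ)) (H ∩ Sg d δ Y) s m N b ≤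
      Ess K₂ (Qb n H b \ Vh (d - δ)) (H ∩ Sg d δ Y) s m N b +
        ENNReal.ofReal (ε * (Real.exp ((d / t) ^ 2 * Tt) * (Lc n d δ' t * √s)) ^ 2) := by
    intro b hb
    have hsit := h.sit hb.1.1 hb.1.2
    have hSE : H ∩ Sg d δ Y ⊆ Qb n H b ∩ Vh (d - δ) := by
      rw [← h.ess_eq hb.1.1 hb.1.2]
      rintro z ⟨h1, h2⟩
      exact ⟨h1, h2.2.1⟩
    have h1 := ess_cmp (K₁ := K₁) (K₂ := K₂) (R := Qb n H b \ Vh (d - δ)) (s := s) hSm (m := m)
      (N := N) (b := b) (w := fun _ _ => 1) (fun i => measurable_const) (C := ENNReal.ofReal ε)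
      (fun i hi j hj u hu v hv => by
        rw [mul_one, mul_one]
        exact hcmp i hi j hj u hu v hv)
    refine h1.trans ?_
    gcongr
    have h2 : ∑ i ∈ Finset.range N, ∫⁻ u in H ∩ Sg d δ Y, ch (kp s) (Qb n H b \ Vh (d - δ)) i b u *
        1 ≤ ENNReal.ofReal (Real.exp ((d / t) ^ 2 * Tt + d / t * (d - δ))) *
        ∑ i ∈ Finset.range N, ∫⁻ u in H ∩ Sg d δ Y, ch (kp s) (Qb n H b \ Vh (d - δ)) i b u *
          (rr s ((d / t : ℝ) : ℂ) ^ (i + 1) *
            ENNReal.ofReal (Real.exp (-(ip ((d / t : ℝ) : ℂ) u)))) := by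
      rw [Finset.mul_sum]
      refine Finset.sum_le_sum fun i hi => ?_
      rw [← lintegral_const_mul' _ _ ENNReal.ofReal_ne_top]
      refine setLIntegral_mono' hSm fun u hu => ?_
      rw [mul_left_comm]
      gcongr
      rw [rr_w, ← ENNReal.ofReal_mul (Real.exp_pos _).le, ← Real.exp_add, ← ENNReal.ofReal_one]
      refine ENNReal.ofReal_le_ofReal (Real.one_le_exp ?_)
      have h3 : (((i : ℝ) + 1) * s) ≤ Tt := by
        have h4 : ((i : ℝ) + 1) * s ≤ N * s := by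
          gcongr
          exact_mod_cast Finset.mem_range.1 hi
        exact h4.trans p.hN
      have h5 : (d / t) ^ 2 * (((i : ℝ) + 1) * s) ≤ (d / t) ^ 2 * Tt := by gcongr
      have h6 : d / t * u.re ≤ d / t * (d - δ) := by
        gcongr
        exact hu.2.2.1
      linarith
    have h3 := hsit.good (N := N) hSU ht p.hs p.hst hSm hSE
    calc _ ≤ ENNReal.ofReal ε * (ENNReal.ofReal (Real.exp ((d / t) ^ 2 * Tt + d / t * (d - δ))) *
          ENNReal.ofReal (Real.exp (-(d / t * b.re)) * (Lc n d δ' t * √s))) ^ 2 := by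
          gcongr
          exact h2.trans (by gcongr)
      _ ≤ _ := by
          rw [← ENNReal.ofReal_mul (by positivity), ← ENNReal.ofReal_pow (by positivity),
            ← ENNReal.ofReal_mul hε]
          refine ENNReal.ofReal_le_ofReal ?_
          gcongr ε * ?_ ^ 2
          rw [← mul_assoc, ← Real.exp_add]
          gcongr ?_ * _
          refine Real.exp_le_exp.2 ?_
          have h7 : d / t * (d - δ) ≤ d / t * b.re := by
            gcongr
            have := hsit.hb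
            linarith
          linarith
  unfold Mn
  calc _ ≤ ((m + 1 : ℕ) : ℝ≥0∞) * ∫⁻ b in Bg H T d kk Y,
        (Ess K₂ (Qb n H b \ Vh (d - δ)) (H ∩ Sg d δ Y) s m N b +
        ENNReal.ofReal (ε * (Real.exp ((d / t) ^ 2 * Tt) * (Lc n d δ' t * √s)) ^ 2)) := by
        gcongr ((m + 1 : ℕ) : ℝ≥0∞) * ?_
        exact setLIntegral_mono' hBg hb
    _ ≤ _ := by
        rw [lintegral_add_right _ measurable_const, setLIntegral_const, mul_add]
        gcongr
        refine (mul_le_mul_right (mul_le_mul_right (vol_Bg h hkk) _) _).trans (le_of_eq ?_)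
        have e : ((m + 1 : ℕ) : ℝ≥0∞) = ENNReal.ofReal ((m : ℝ) + 1) := by
          rw [← ENNReal.ofReal_natCast]
          push_cast
          rfl
        rw [e, ← ENNReal.ofReal_mul (by positivity), ← ENNReal.ofReal_mul (by positivity)]
        congr 1
        rw [mul_pow, mul_pow, Real.sq_sqrt hs.le, ← Real.exp_nat_mul, ← p.hs]
        push_cast
        have e3 : 2 * ((d / ((m + 1) * s)) ^ 2 * Tt) = 2 * (d / ((m + 1) * s)) ^ 2 * Tt := by ring
        rw [e3]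
        ring

theorem Mn_mono (h : Glo n H A T d δ δ') {s kk Y : ℝ} {m N : ℕ}
    {K₁ K₂ : ℕ → ℂ → ℂ → ℝ≥0∞}
    (hcmp : ∀ i < N, ∀ j < N, ∀ u ∈ H ∩ Sg d δ Y, ∀ v ∈ H ∩ Sg d δ Y,
      K₁ (m - 1 - i - 1 - j) u v ≤ K₂ (m - 1 - i - 1 - j) u v) :
    Mn K₁ n H T d δ kk Y s m N ≤ Mn K₂ n H T d δ kk Y s m N := by
  have hSm : MeasurableSet (H ∩ Sg d δ Y) := h.Hm.inter (Sg_meas _ _ _)
  unfold Mn
  gcongr
  exact ess_mono hSm hcmp

theorem Mn_mul (C : ℝ≥0∞) (hC : C ≠ ∞) {s kk Y : ℝ} {m N : ℕ} (K : ℕ → ℂ → ℂ → ℝ≥0∞) :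
    Mn (fun k u v => C * K k u v) n H T d δ kk Y s m N = C * Mn K n H T d δ kk Y s m N := by
  have h1 : ∀ b, Ess (fun k u v => C * K k u v) (Qb n H b \ Vh (d - δ)) (H ∩ Sg d δ Y) s m N b =
      C * Ess K (Qb n H b \ Vh (d - δ)) (H ∩ Sg d δ Y) s m N b := by
    intro b
    unfold Ess
    simp_rw [Finset.mul_sum]
    refine Finset.sum_congr rfl fun i _ => Finset.sum_congr rfl fun j _ => ?_
    rw [← lintegral_const_mul' _ _ hC]
    refine lintegral_congr fun u => ?_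
    rw [mul_left_comm, ← lintegral_const_mul' _ _ hC]
    congr 1
    refine lintegral_congr fun v => ?_
    ring
  unfold Mn
  simp_rw [h1]
  rw [lintegral_const_mul' _ _ hC]
  ring

end Pool.Agent.N275.QD
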