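import Pool.Agent.N275.QD.Mid

set_option autoImplicit false

/-!
# Project QD: the good part of the kernel of the loops at a point
-/

namespace Pool.Agent.N275.QD

open MeasureTheory Set Filter Topology Complex
open Pool.Agent.R225.LP (gk ks ip ip_self ip_sub_right ip_sub_left ip_add_left ip_add_right
  ip_smul_left ip_smul_right norm_sq_add norm_sq_sub lint_exp gk_pos gk_nonneg gk_cont nG lint_nG
  mgf_nG gkE_meas ip_cont)
open Pool.Agent.R225.LP.TR (ch ch_meas meas_left meas_right ch_mono_set kp kp_meas kp_comm ks_eq)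
open scoped Real ENNReal ComplexConjugate

/-- the left half-plane -/
def Vh (c : ℝ) : Set ℂ := {z | z.re ≤ c}

theorem Vh_meas (c : ℝ) : MeasurableSet (Vh c) :=
  (isClosed_le continuous_re continuous_const).measurableSet

theorem ip_real (l : ℝ) (u : ℂ) : ip (l : ℂ) u = l * u.re := by simp [ip]

theorem ip_one (u : ℂ) : ip 1 u = u.re := by simp [ip]

theorem norm_ge_re (z : ℂ) {x : ℝ} (h : x ≤ z.re) : x ≤ ‖z‖ := h.trans (re_le_norm z)

/-- the general bound of the middle kernel -/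
theorem mid_b1 {s : ℝ} (hs : 0 < s) {Q A : Set ℂ} (hA : MeasurableSet A)
    (hA0 : ∀ z ∈ A, z.re ≤ 0) (k : ℕ) {l : ℝ} (hl : 0 ≤ l) (u v : ℂ) :
    h2 (kp s) Q A k u v ≤ ENNReal.ofReal (Real.exp (l ^ 2 * ((k + 1) * s) - l * (u.re + v.re)) /
      (4 * π * s)) := by
  have hτ : (0 : ℝ) < (k + 1) * s := by positivity
  have hle : Real.exp (l ^ 2 * ((k + 1) * s) - l * (u.re + v.re)) / (4 * π * ((k + 1) * s)) ≤
      Real.exp (l ^ 2 * ((k + 1) * s) - l * (u.re + v.re)) / (4 * π * s) := by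
    gcongr
    have : (0 : ℝ) ≤ k := Nat.cast_nonneg k
    nlinarith
  have hch : u.re ≤ 0 ∨ v.re ≤ 0 → ch (kp s) Q k u v ≤ ENNReal.ofReal
      (Real.exp (l ^ 2 * ((k + 1) * s) - l * (u.re + v.re)) / (4 * π * s)) := by
    intro h
    refine (ch_le hs Q k u v).trans (ENNReal.ofReal_le_ofReal ((gk_b1 hτ hl ?_).trans hle))
    rcases h with h | h
    · refine norm_ge_re _ ?_
      rw [sub_re]
      linarith
    · rw [← norm_neg]
      refine norm_ge_re _ ?_
      rw [neg_re, sub_re]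
      linarith
  unfold h2
  split_ifs with h
  · rcases h with h | h
    · exact hch (Or.inl (hA0 u h))
    · exact hch (Or.inr (hA0 v h))
  · rcases le_or_gt v.re 0 with hv | hv
    · exact (hc_le_ch (kp_meas s) Q hA k u v).trans (hch (Or.inr hv))
    · have h1 := refl1 hs (w := 1) (by simp) (c := 0) Q hA (fun z hz => by
        rw [ip_one]; exact hA0 z hz) (b := v) (by rw [ip_one]; exact hv.le) k u
      refine h1.trans (ENNReal.ofReal_le_ofReal ((gk_b1 hτ hl ?_).trans hle))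
      rw [← norm_neg]
      refine norm_ge_re _ ?_
      unfold rf
      rw [ip_one]
      simp
      linarith

/-- the bound of the middle kernel near the essential region -/
theorem mid_b2 {s : ℝ} (hs : 0 < s) {Q A : Set ℂ} (hA : MeasurableSet A)
    (hA0 : ∀ z ∈ A, z.re ≤ 0) (k : ℕ) {t d : ℝ} (hkt : (k + 1) * s ≤ t) (hd : 0 < d) {u v : ℂ}
    (hu : 3 / 4 * d ≤ u.re) (hv : 3 / 4 * d ≤ v.re) :
    hc (kp s) Q A k u v ≤ ENNReal.ofReal ((1 / t + 2 / d ^ 2) *
      Real.exp ((d / t) ^ 2 * ((k + 1) * s) - d / t * (u.re + v.re))) := by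
  have hτ : (0 : ℝ) < (k + 1) * s := by positivity
  have h1 := refl1 hs (w := 1) (by simp) (c := 0) Q hA (fun z hz => by
    rw [ip_one]; exact hA0 z hz) (b := v) (by rw [ip_one]; linarith) k u
  refine h1.trans (ENNReal.ofReal_le_ofReal (gk_b2 hτ hkt hd (by linarith) ?_))
  rw [← norm_neg]
  refine norm_ge_re _ ?_
  unfold rf
  rw [ip_one]
  simp
  linarith

/-- comparison of sums over legs -/
theorem lg_cmp {s : ℝ} {L L' : ℂ} {R E E' : Set ℂ} (hE : MeasurableSet E) (hEE : E ⊆ E')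
    {N : ℕ} {b : ℂ} {Γ : ℝ} (hΓ : 0 ≤ Γ) (P : ℕ → Prop) [DecidablePred P]
    (h : ∀ i, P i → ∀ u ∈ E, Real.exp (-(‖L‖ ^ 2 * ((i + 1) * s)) - ip L u) ≤
      Γ * Real.exp (-(‖L'‖ ^ 2 * ((i + 1) * s)) - ip L' u)) :
    ∑ i ∈ Finset.range N, (if P i then rr s L ^ (i + 1) *
      ∫⁻ u in E, ch (kp s) R i b u * ENNReal.ofReal (Real.exp (-(ip L u))) else 0) ≤
      ENNReal.ofReal Γ * lg s L' R E' N b := by
  unfold lg
  rw [Finset.mul_sum]
  refine Finset.sum_le_sum fun i _ => ?_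
  split_ifs with hi
  · rw [← lintegral_const_mul' _ _ (ENNReal.pow_ne_top (rr_ne s L)),
      ← lintegral_const_mul' _ _ (ENNReal.pow_ne_top (rr_ne s L')),
      ← lintegral_const_mul' _ _ ENNReal.ofReal_ne_top]
    refine (setLIntegral_mono' hE fun u hu => ?_).trans (lintegral_mono_set hEE)
    rw [mul_left_comm, mul_left_comm (rr s L' ^ (i + 1)), mul_left_comm (ENNReal.ofReal Γ)]
    gcongr ch (kp s) R i b u * ?_
    rw [rr_pow, rr_pow, ← ENNReal.ofReal_mul (Real.exp_pos _).le,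
      ← ENNReal.ofReal_mul (Real.exp_pos _).le, ← ENNReal.ofReal_mul hΓ, ← Real.exp_add,
      ← Real.exp_add]
    refine ENNReal.ofReal_le_ofReal ?_
    exact h i hi u hu
  · exact zero_le

/-- the situation at one point -/
structure Sit (n : ℂ) (Q A : Set ℂ) (b : ℂ) (d δ δ' : ℝ) : Prop where
  hn : ‖n‖ = 1
  hr : 0 < n.re
  Qm : MeasurableSet Q
  Am : MeasurableSet A
  A0 : ∀ z ∈ A, z.re ≤ 0
  Qn : ∀ z ∈ Q, ip n z < ip n b
  Qc : ∀ z ∈ Q, z.re ≤ d - δ → ip n z ≤ ip n b - δ'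
  hd : 0 < d
  hδ : 0 < δ
  hδd : δ ≤ d / 8
  hδ' : 0 < δ'
  hb : d ≤ b.re

/-- the constant of the tilted legs -/
noncomputable def Lc (n : ℂ) (d δ' t : ℝ) : ℝ := 8 * (d / t) / (1 - Real.exp (-(d / t * n.re * δ')))

theorem Lc_pos {n : ℂ} {d δ' t : ℝ} (hr : 0 < n.re) (hd : 0 < d) (hδ' : 0 < δ') (ht : 0 < t) :
    0 < Lc n d δ' t := by
  unfold Lc
  have : Real.exp (-(d / t * n.re * δ')) < 1 := by
    rw [Real.exp_lt_one_iff]
    have : 0 < d / t * n.re * δ' := by positivity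
    linarith
  have h2 : 0 < 1 - Real.exp (-(d / t * n.re * δ')) := by linarith
  positivity

/-- all tilted legs -/
theorem Sit.tilt (hSU : S_SU) {n : ℂ} {Q A : Set ℂ} {b : ℂ} {d δ δ' : ℝ}
    (h : Sit n Q A b d δ δ') {s t : ℝ} (hs : 0 < s) (ht : 0 < t) (hst : d / t * √s ≤ 1) {L : ℂ}
    (hL : ‖L‖ ≤ d / t) (hLn : d / t * n.re / 2 ≤ ip L n) {E : Set ℂ} (hE : MeasurableSet E)
    (hEQ : E ⊆ Q ∩ Vh (d - δ)) (N : ℕ) :
    lg s L (Q \ Vh (d - δ)) E N b ≤
      ENNReal.ofReal (Real.exp (-(ip L b)) * (Lc n d δ' t * √s)) := by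
  have hd := h.hd
  have hr := h.hr
  have hδ' := h.hδ'
  have hp : 0 < ip L n := lt_of_lt_of_le (by positivity) hLn
  have hpl : ip L n ≤ d / t := by
    have := (abs_le.1 (Pool.Agent.R225.LP.ip_le L n)).2
    rw [h.hn, mul_one] at this
    exact this.trans hL
  have h1 := lg_tilt' hSU hs h.hn hp ((mul_le_mul_of_nonneg_right hpl (Real.sqrt_nonneg s)).trans
    hst) h.hδ' (R := Q \ Vh (d - δ)) (E := E) (h.Qm.diff (Vh_meas _)) hE (by
      rw [Set.disjoint_left]
      rintro z ⟨_, hz⟩ hz'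
      exact hz (hEQ hz').2) (fun z hz => h.Qn z hz.1) (fun z hz => h.Qc z (hEQ hz).1 (hEQ hz).2)
      N rfl
  refine h1.trans (ENNReal.ofReal_le_ofReal ?_)
  rw [mul_div_assoc]
  have e1 : Real.exp (-(2 * ip L n * δ')) ≤ Real.exp (-(d / t * n.re * δ')) := by
    refine Real.exp_le_exp.2 ?_
    nlinarith
  have e2 : Real.exp (-(d / t * n.re * δ')) < 1 := by
    rw [Real.exp_lt_one_iff]
    have : 0 < d / t * n.re * δ' := by positivity
    linarith
  unfold Lc
  rw [div_mul_eq_mul_div]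
  gcongr Real.exp (-(ip L b)) * ?_
  have h3 := Real.sqrt_nonneg s
  refine div_le_div₀ (by positivity) ?_ (by linarith) (by linarith)
  rw [mul_assoc]
  gcongr

/-! ## The bad legs -/

/-- the exceptional legs -/
noncomputable def bt (s : ℝ) (l : ℝ) (C₁ C₂ : ℝ) (J : Set ℂ) (N : ℕ) (Y : ℝ) (i : ℕ) (u : ℂ) :
    ℝ≥0∞ :=
  rr s (l : ℂ) ^ (i + 1) * (ENNReal.ofReal (Real.exp (-(ip (l : ℂ) u))) *
    (ENNReal.ofReal C₂ * J.indicator 1 u + ENNReal.ofReal C₁ * ((if N ≤ i then 1 else 0) *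
      Jᶜ.indicator 1 u + (Jᶜ ∩ {z | Y ≤ z.im}).indicator 1 u +
      (Jᶜ ∩ {z | z.im ≤ -Y}).indicator 1 u)))

theorem bt_meas (s l C₁ C₂ : ℝ) {J : Set ℂ} (hJ : MeasurableSet J) (N : ℕ) (Y : ℝ) (i : ℕ) :
    Measurable (bt s l C₁ C₂ J N Y i) := by
  unfold bt
  have h1 : MeasurableSet {z : ℂ | Y ≤ z.im} :=
    (isClosed_le continuous_const continuous_im).measurableSet
  have h2 : MeasurableSet {z : ℂ | z.im ≤ -Y} :=
    (isClosed_le continuous_im continuous_const).measurableSet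
  refine Measurable.const_mul ?_ _
  refine (ex_meas _).mul ?_
  refine ((measurable_one.indicator hJ).const_mul _).add (Measurable.const_mul ?_ _)
  exact (((measurable_one.indicator hJ.compl).const_mul _).add
    (measurable_one.indicator (hJ.compl.inter h1))).add
    (measurable_one.indicator (hJ.compl.inter h2))

/-- sum of the exceptional legs -/
theorem bt_sum {s : ℝ} {l C₁ C₂ : ℝ} {J R E : Set ℂ} (hJ : MeasurableSet J) (N m : ℕ) (Y : ℝ) (b : ℂ) :
    ∑ i ∈ Finset.range m, ∫⁻ u in E, ch (kp s) R i b u * bt s l C₁ C₂ J N Y i u =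
      ENNReal.ofReal C₂ * lg s (l : ℂ) R (E ∩ J) m b + ENNReal.ofReal C₁ *
      ((∑ i ∈ Finset.range m, (if N ≤ i then rr s (l : ℂ) ^ (i + 1) *
        ∫⁻ u in E ∩ Jᶜ, ch (kp s) R i b u * ENNReal.ofReal (Real.exp (-(ip (l : ℂ) u))) else 0)) +
        lg s (l : ℂ) R (E ∩ (Jᶜ ∩ {z | Y ≤ z.im})) m b +
        lg s (l : ℂ) R (E ∩ (Jᶜ ∩ {z | z.im ≤ -Y})) m b) := by
  have h1 : MeasurableSet {z : ℂ | Y ≤ z.im} :=
    (isClosed_le continuous_const continuous_im).measurableSet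
  have h2 : MeasurableSet {z : ℂ | z.im ≤ -Y} :=
    (isClosed_le continuous_im continuous_const).measurableSet
  set e : ℂ → ℝ≥0∞ := fun u => ENNReal.ofReal (Real.exp (-(ip (l : ℂ) u))) with he
  have hem : Measurable e := ex_meas _
  have hX : ∀ i, Measurable (fun u => ch (kp s) R i b u) :=
    fun i => meas_right (ch_meas (kp_meas s) R i) b
  have hI : ∀ (B : Set ℂ), MeasurableSet B → ∀ i, ∫⁻ u in E, ch (kp s) R i b u *
      (e u * B.indicator 1 u) = ∫⁻ u in E ∩ B, ch (kp s) R i b u * e u := by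
    intro B hB i
    rw [inter_comm, ← Measure.restrict_restrict hB, ← lintegral_indicator hB]
    refine lintegral_congr fun u => ?_
    by_cases hu : u ∈ B
    · rw [indicator_of_mem hu, indicator_of_mem hu, Pi.one_apply, mul_one]
    · rw [indicator_of_notMem hu, indicator_of_notMem hu, mul_zero, mul_zero]
  have hM : ∀ (B : Set ℂ), MeasurableSet B → ∀ i,
      Measurable (fun u => ch (kp s) R i b u * (e u * B.indicator 1 u)) := fun B hB i =>
    (hX i).mul (hem.mul (measurable_one.indicator hB))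
  unfold lg
  rw [Finset.mul_sum, ← Finset.sum_add_distrib, ← Finset.sum_add_distrib, Finset.mul_sum,
    ← Finset.sum_add_distrib]
  refine Finset.sum_congr rfl fun i _ => ?_
  have e1 : ∀ u, ch (kp s) R i b u * bt s l C₁ C₂ J N Y i u =
      rr s (l : ℂ) ^ (i + 1) * ENNReal.ofReal C₂ * (ch (kp s) R i b u * (e u * J.indicator 1 u)) +
      (rr s (l : ℂ) ^ (i + 1) * ENNReal.ofReal C₁ * (if N ≤ i then 1 else 0) *
        (ch (kp s) R i b u * (e u * Jᶜ.indicator 1 u)) +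
      (rr s (l : ℂ) ^ (i + 1) * ENNReal.ofReal C₁ *
        (ch (kp s) R i b u * (e u * (Jᶜ ∩ {z | Y ≤ z.im}).indicator 1 u)) +
      rr s (l : ℂ) ^ (i + 1) * ENNReal.ofReal C₁ *
        (ch (kp s) R i b u * (e u * (Jᶜ ∩ {z | z.im ≤ -Y}).indicator 1 u)))) := by
    intro u
    simp only [bt, he]
    ring
  simp_rw [e1]
  rw [lintegral_add_left ((hM J hJ i).const_mul _),
    lintegral_add_left ((hM Jᶜ hJ.compl i).const_mul _),
    lintegral_add_left ((hM _ (hJ.compl.inter h1) i).const_mul _),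
    lintegral_const_mul _ (hM J hJ i), lintegral_const_mul _ (hM _ hJ.compl i),
    lintegral_const_mul _ (hM _ (hJ.compl.inter h1) i),
    lintegral_const_mul _ (hM _ (hJ.compl.inter h2) i), hI J hJ i, hI _ hJ.compl i,
    hI _ (hJ.compl.inter h1) i, hI _ (hJ.compl.inter h2) i]
  split_ifs
  · ring
  · ring

end Pool.Agent.N275.QD
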