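import Pool.Agent.N275.QD.Ch
import Pool.Agent.N275.QD.Def
import Pool.Agent.R225.LP.TRb
import Pool.Agent.R225.LP.LM1

set_option autoImplicit false

/-!
# Project QD: the Gaussian chain
-/

namespace Pool.Agent.N275.QD

open MeasureTheory Set Filter Topology Complex
open Pool.Agent.R225.LP (gk ks ip ip_self ip_sub_right ip_sub_left ip_add_left ip_add_right
  ip_smul_left ip_smul_right norm_sq_add norm_sq_sub lint_exp gk_pos gk_nonneg gk_cont nG lint_nG
  mgf_nG gkE_meas ip_cont)
open Pool.Agent.R225.LP.TR (ch ch_meas meas_left meas_right ch_mono_set kp kp_meas kp_comm ks_eq)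
open scoped Real ENNReal ComplexConjugate

theorem hk_eq (Q A : Set ℂ) (s : ℝ) (n : ℕ) (a b : ℂ) : hk Q A s n a b = hc (kp s) Q A n a b := by
  induction n generalizing a with
  | zero => rfl
  | succ n ih =>
    simp only [hk, hc, ih, ks_eq, kp]

theorem gk_conv {s τ : ℝ} (hs : 0 < s) (hτ : 0 < τ) (a b : ℂ) :
    ∫⁻ z, kp s a z * kp τ z b = kp (s + τ) a b := by
  set z₀ : ℂ := ((τ / (s + τ) : ℝ) : ℂ) * a + ((s / (s + τ) : ℝ) : ℂ) * b with hz
  have h0 : 0 < s + τ := by positivity
  have key : ∀ z, kp s a z * kp τ z b = kp (s + τ) a b *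
      (ENNReal.ofReal ((s + τ) / (4 * π * s * τ)) *
        ENNReal.ofReal (Real.exp (-(‖z - z₀‖ ^ 2 / (4 * s * τ / (s + τ)))))) := by
    intro z
    unfold kp
    rw [← ENNReal.ofReal_mul (gk_nonneg hs _), ← ENNReal.ofReal_mul (by positivity),
      ← ENNReal.ofReal_mul (gk_nonneg h0 _)]
    congr 1
    unfold gk
    have e : -(‖z - a‖ ^ 2 / (4 * s)) + -(‖b - z‖ ^ 2 / (4 * τ)) =
        -(‖b - a‖ ^ 2 / (4 * (s + τ))) + -(‖z - z₀‖ ^ 2 / (4 * s * τ / (s + τ))) := by
      rw [← ip_self, ← ip_self, ← ip_self, ← ip_self, hz]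
      simp only [ip, sub_re, sub_im, add_re, add_im, mul_re, mul_im, ofReal_re, ofReal_im]
      field_simp
      ring
    have e2 : ∀ x y u v : ℝ, x + y = u + v → Real.exp x / (4 * π * s) * (Real.exp y / (4 * π * τ)) =
        Real.exp u / (4 * π * (s + τ)) * ((s + τ) / (4 * π * s * τ) * Real.exp v) := by
      intro x y u v h
      have h3 : Real.exp x * Real.exp y = Real.exp u * Real.exp v := by
        rw [← Real.exp_add, ← Real.exp_add, h]
      field_simp
      linear_combination h3
    exact e2 _ _ _ _ e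
  simp_rw [key]
  rw [lintegral_const_mul' _ _ (by unfold kp; exact ENNReal.ofReal_ne_top),
    lintegral_const_mul' _ _ ENNReal.ofReal_ne_top,
    lintegral_sub_right_eq_self (fun z => ENNReal.ofReal (Real.exp (-(‖z‖ ^ 2 /
      (4 * s * τ / (s + τ)))))) z₀, lint_exp (by positivity), ← ENNReal.ofReal_mul (by positivity)]
  have : (s + τ) / (4 * π * s * τ) * (π * (4 * s * τ / (s + τ))) = 1 := by
    field_simp
  rw [this, ENNReal.ofReal_one, mul_one]

theorem ch_univ {s : ℝ} (hs : 0 < s) (n : ℕ) (a b : ℂ) :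
    ch (kp s) univ n a b = kp ((n + 1) * s) a b := by
  induction n generalizing a with
  | zero => simp [ch]
  | succ n ih =>
    change ∫⁻ z in univ, kp s a z * ch (kp s) univ n z b = _
    simp_rw [ih]
    rw [Measure.restrict_univ, gk_conv hs (by positivity)]
    congr 1
    push_cast
    ring

theorem ch_le {s : ℝ} (hs : 0 < s) (Q : Set ℂ) (n : ℕ) (a b : ℂ) :
    ch (kp s) Q n a b ≤ kp ((n + 1) * s) a b :=
  (ch_mono_set (subset_univ Q) n a b).trans (ch_univ hs n a b).le

theorem kp_ne (s : ℝ) (a b : ℂ) : kp s a b ≠ ∞ := by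
  unfold kp
  exact ENNReal.ofReal_ne_top

theorem ch_ne {s : ℝ} (hs : 0 < s) (Q : Set ℂ) (n : ℕ) (a b : ℂ) : ch (kp s) Q n a b ≠ ∞ :=
  ne_top_of_le_ne_top (kp_ne _ _ _) (ch_le hs Q n a b)

/-! ## Reflections -/

/-- reflection in the line `ip w z = c` -/
noncomputable def rf (w : ℂ) (c : ℝ) (z : ℂ) : ℂ := z - ((2 * (ip w z - c) : ℝ) : ℂ) * w

theorem ip_comm (a b : ℂ) : ip a b = ip b a := by
  unfold ip
  ring

theorem rf_ip {w : ℂ} (hw : ‖w‖ = 1) (c : ℝ) (z : ℂ) : ip w (rf w c z) = 2 * c - ip w z := by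
  unfold rf
  rw [ip_sub_right, ip_smul_right, ip_self, hw]
  ring

theorem rf_norm {w : ℂ} (hw : ‖w‖ = 1) (c : ℝ) (b z : ℂ) :
    ‖rf w c b - z‖ ^ 2 = ‖b - z‖ ^ 2 + 4 * (ip w b - c) * (ip w z - c) := by
  have e : rf w c b - z = (b - z) - ((2 * (ip w b - c) : ℝ) : ℂ) * w := by
    unfold rf
    ring
  rw [e, norm_sq_sub, norm_mul, hw, ip_smul_right, ip_comm (b - z) w, ip_sub_right, mul_one,
    Complex.norm_real, Real.norm_eq_abs, sq_abs]
  ring

theorem gk_mono {s : ℝ} (hs : 0 < s) {z w : ℂ} (h : ‖w‖ ^ 2 ≤ ‖z‖ ^ 2) : gk s z ≤ gk s w := by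
  unfold gk
  gcongr

theorem kp_rf {s : ℝ} (hs : 0 < s) {w : ℂ} (hw : ‖w‖ = 1) {c : ℝ} {b z : ℂ}
    (h : (ip w b - c) * (ip w z - c) ≤ 0) : kp s z b ≤ kp s z (rf w c b) := by
  unfold kp
  refine ENNReal.ofReal_le_ofReal (gk_mono hs ?_)
  rw [rf_norm hw]
  nlinarith

/-- reflection principle -/
theorem refl1 {s : ℝ} (hs : 0 < s) {w : ℂ} (hw : ‖w‖ = 1) {c : ℝ} (Q : Set ℂ) {A : Set ℂ}
    (hA : MeasurableSet A) (hAw : ∀ z ∈ A, ip w z ≤ c) {b : ℂ} (hb : c ≤ ip w b) (n : ℕ) (a : ℂ) :
    hc (kp s) Q A n a b ≤ kp ((n + 1) * s) a (rf w c b) := by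
  induction n generalizing a with
  | zero => exact zero_le
  | succ n ih =>
    have h0 : (0 : ℝ) < (n + 1) * s := by positivity
    calc hc (kp s) Q A (n + 1) a b = (∫⁻ z in Q ∩ A, kp s a z * ch (kp s) Q n z b) +
          ∫⁻ z in Q \ A, kp s a z * hc (kp s) Q A n z b := rfl
      _ ≤ (∫⁻ z in A, kp s a z * kp ((n + 1) * s) z (rf w c b)) +
          ∫⁻ z in Aᶜ, kp s a z * kp ((n + 1) * s) z (rf w c b) := by
          gcongr ?_ + ?_
          · refine le_trans (lintegral_mono_set inter_subset_right) ?_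
            refine setLIntegral_mono' hA fun z hz => ?_
            gcongr
            refine (ch_le hs Q n z b).trans (kp_rf h0 hw ?_)
            have := hAw z hz
            nlinarith
          · refine (lintegral_mono fun z => ?_).trans (lintegral_mono_set fun z hz => hz.2)
            gcongr
            exact ih z
      _ = kp (((n + 1 : ℕ) + 1) * s) a (rf w c b) := by
          rw [lintegral_add_compl _ hA, gk_conv hs h0]
          congr 1
          push_cast
          ring

/-- two reflections -/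
theorem refl2 {s : ℝ} (hs : 0 < s) {w : ℂ} (hw : ‖w‖ = 1) {c c' : ℝ} (hc' : c < c') (Q : Set ℂ)
    {A B : Set ℂ} (hA : MeasurableSet A) (hB : MeasurableSet B) (hQ : MeasurableSet Q)
    (hAw : ∀ z ∈ A, ip w z ≤ c) (hBw : ∀ z ∈ B, c' ≤ ip w z) {b : ℂ} (hb : c ≤ ip w b)
    (hb' : ip w b ≤ c') (n : ℕ) (a : ℂ) :
    hc (kp s) Q A n a b ≤ hc (kp s) (Q \ B) A n a b + (kp ((n + 1) * s) a (rf w c (rf w c' b)) +
      kp ((n + 1) * s) a (rf w c' (rf w c b))) := by
  induction n generalizing a with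
  | zero => exact zero_le
  | succ n ih =>
    have h0 : (0 : ℝ) < (n + 1) * s := by positivity
    have hw' : ‖-w‖ = 1 := by rw [norm_neg, hw]
    have rneg : ∀ (c : ℝ) (z : ℂ), rf (-w) (-c) z = rf w c z := by
      intro c z
      unfold rf
      rw [Pool.Agent.R225.LP.ip_neg_left]
      push_cast
      ring
    set F : ℂ → ℝ≥0∞ := fun z => kp ((n + 1) * s) z (rf w c (rf w c' b)) +
      kp ((n + 1) * s) z (rf w c' (rf w c b)) with hF
    have hdis : ∀ z ∈ A, z ∉ B := fun z hz hz' => by
      have h1 := hAw z hz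
      have h2 := hBw z hz'
      linarith
    have hm1 : Measurable (fun z => kp s a z) := meas_right (kp_meas s) a
    have hm2 : Measurable (fun z => ch (kp s) (Q \ B) n z b) := meas_left (ch_meas (kp_meas s) _ n) b
    have hm3 : Measurable (fun z => hc (kp s) (Q \ B) A n z b) :=
      meas_left (hc_meas (kp_meas s) _ _ n) b
    have hFm : Measurable F := (meas_left (kp_meas _) _).add (meas_left (kp_meas _) _)
    -- the points in `A`
    have hA1 : ∀ z ∈ A, ch (kp s) Q n z b ≤ ch (kp s) (Q \ B) n z b + F z := by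
      intro z hz
      rw [ch_split (kp_meas s) Q hB]
      gcongr
      have h1 := refl1 hs hw' (c := -c') Q hB (fun y hy => by
        rw [Pool.Agent.R225.LP.ip_neg_left]
        linarith [hBw y hy]) (b := b) (by
        rw [Pool.Agent.R225.LP.ip_neg_left]
        linarith) n z
      rw [rneg] at h1
      refine h1.trans ((kp_rf h0 hw (c := c) ?_).trans le_self_add)
      rw [rf_ip hw]
      have := hAw z hz
      nlinarith
    have hB1 : ∀ z ∈ B, hc (kp s) Q A n z b ≤ F z := by
      intro z hz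
      have h1 := refl1 hs hw (c := c) Q hA hAw hb n z
      refine h1.trans ((kp_rf h0 hw (c := c') ?_).trans le_add_self)
      rw [rf_ip hw]
      have := hBw z hz
      nlinarith
    calc hc (kp s) Q A (n + 1) a b = (∫⁻ z in Q ∩ A, kp s a z * ch (kp s) Q n z b) +
          ∫⁻ z in Q \ A, kp s a z * hc (kp s) Q A n z b := rfl
      _ ≤ (∫⁻ z in Q ∩ A, (kp s a z * ch (kp s) (Q \ B) n z b + kp s a z * F z)) +
          ((∫⁻ z in (Q \ A) \ B, (kp s a z * hc (kp s) (Q \ B) A n z b + kp s a z * F z)) +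
            ∫⁻ z in (Q \ A) ∩ B, kp s a z * F z) := by
          gcongr ?_ + ?_
          · refine setLIntegral_mono' (hQ.inter hA) fun z hz => ?_
            rw [← mul_add]
            gcongr
            exact hA1 z hz.2
          · rw [← lintegral_inter_add_sdiff _ (Q \ A) hB, add_comm]
            gcongr ?_ + ?_
            · refine lintegral_mono fun z => ?_
              rw [← mul_add]
              gcongr
              exact ih z
            · refine setLIntegral_mono' ((hQ.diff hA).inter hB) fun z hz => ?_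
              gcongr
              exact hB1 z hz.2
      _ = hc (kp s) (Q \ B) A (n + 1) a b + ((∫⁻ z in Q ∩ A, kp s a z * F z) +
          ((∫⁻ z in (Q \ A) \ B, kp s a z * F z) + ∫⁻ z in (Q \ A) ∩ B, kp s a z * F z)) := by
          rw [lintegral_add_left (ml hm1 hm2), lintegral_add_left (ml hm1 hm3)]
          have e1 : (Q \ B) ∩ A = Q ∩ A := by
            ext z
            constructor
            · rintro ⟨⟨h, _⟩, h'⟩
              exact ⟨h, h'⟩
            · rintro ⟨h, h'⟩
              exact ⟨⟨h, hdis z h'⟩, h'⟩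
          have e2 : (Q \ B) \ A = (Q \ A) \ B := by
            ext z
            constructor
            · rintro ⟨⟨h, h2⟩, h'⟩
              exact ⟨⟨h, h'⟩, h2⟩
            · rintro ⟨⟨h, h2⟩, h'⟩
              exact ⟨⟨h, h'⟩, h2⟩
          change _ = ((∫⁻ z in (Q \ B) ∩ A, kp s a z * ch (kp s) (Q \ B) n z b) +
            ∫⁻ z in (Q \ B) \ A, kp s a z * hc (kp s) (Q \ B) A n z b) + _
          rw [e1, e2]
          ring
      _ = hc (kp s) (Q \ B) A (n + 1) a b + ∫⁻ z in Q, kp s a z * F z := by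
          rw [add_comm (∫⁻ z in (Q \ A) \ B, kp s a z * F z),
            lintegral_inter_add_sdiff _ _ hB, lintegral_inter_add_sdiff _ _ hA]
      _ ≤ hc (kp s) (Q \ B) A (n + 1) a b + ∫⁻ z, kp s a z * F z := by
          gcongr
          exact Measure.restrict_le_self
      _ = _ := by
          congr 1
          simp_rw [hF, mul_add]
          rw [lintegral_add_left (ml hm1 (meas_left (kp_meas _) _)), gk_conv hs h0, gk_conv hs h0]
          congr 2 <;>
          · push_cast
            ring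

end Pool.Agent.N275.QD
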