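import Pool.Agent.N275.QD.Conn

set_option autoImplicit false

/-!
# Project QD: the limit of many steps at a fixed time
-/

namespace Pool.Agent.N275.QD

open MeasureTheory Set Filter Topology Complex
open Pool.Agent.R225.LP (gk ks ip ip_self ip_sub_right ip_sub_left ip_add_left ip_add_right
  ip_smul_left ip_smul_right norm_sq_add norm_sq_sub lint_exp gk_pos gk_nonneg gk_cont nG lint_nG
  mgf_nG gkE_meas ip_cont)
open Pool.Agent.R225.LP.TR (ch ch_meas meas_left meas_right ch_mono_set kp kp_meas kp_comm ks_eq)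
open scoped Real ENNReal ComplexConjugate

/-- the jump terms -/
noncomputable def jj (n : ℂ) (d δ δ' t : ℝ) (m : ℕ) : ℝ :=
  ((m : ℝ) + 1) * (1 / (4 * π * (t / (m + 1))) * zt (d / t) (√((m : ℝ) + 1)) δ (t / (m + 1)) m *
    (2 * (Lc n d δ' t * √(t / (m + 1))) + 1))

theorem jj_lim {n : ℂ} {d δ δ' t : ℝ} (hr : 0 < n.re) (hd : 0 < d) (hδ : 0 < δ) (hδ' : 0 < δ')
    (ht : 0 < t) : Tendsto (fun m : ℕ => jj n d δ δ' t m) atTop (𝓝 0) := by
  have hL := Lc_pos (n := n) hr hd hδ' ht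
  have h1 : Tendsto (fun m : ℕ => √((m : ℝ) + 1)) atTop atTop :=
    Real.tendsto_sqrt_atTop.comp (tendsto_natCast_atTop_atTop.atTop_add tendsto_const_nhds)
  have h2 : Tendsto (fun y : ℝ => y ^ 6 * Real.exp (-(δ * y))) atTop (𝓝 0) := by
    have h3 := (Real.tendsto_pow_mul_exp_neg_atTop_nhds_zero 6).comp
      (tendsto_id.const_mul_atTop hδ)
    have h4 := h3.const_mul ((δ ^ 6)⁻¹)
    rw [mul_zero] at h4
    refine h4.congr fun y => ?_
    simp only [Function.comp_apply, id]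
    rw [mul_pow]
    field_simp
  have h3 := (h2.comp h1).const_mul (Real.exp (2 * (d / t) ^ 2 * t + 2 * t) *
    (2 * (Lc n d δ' t * √t) + 1) / (4 * π * t))
  rw [mul_zero] at h3
  refine squeeze_zero (fun m => ?_) (fun m => ?_) h3
  · have := zt_nonneg (d / t) (√((m : ℝ) + 1)) δ (t / (m + 1)) m
    unfold jj
    positivity
  · simp only [Function.comp_apply]
    set y := √((m : ℝ) + 1) with hy
    have hm1 : (0 : ℝ) < (m : ℝ) + 1 := by positivity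
    have hy2 : y ^ 2 = (m : ℝ) + 1 := Real.sq_sqrt hm1.le
    have hy0 : 0 < y := Real.sqrt_pos.2 hm1
    have e1 : Real.exp (-(y * δ) + (d / t + y) ^ 2 * (t / (m + 1))) ≤
        Real.exp (2 * (d / t) ^ 2 * t + 2 * t) * Real.exp (-(δ * y)) := by
      rw [← Real.exp_add]
      refine Real.exp_le_exp.2 ?_
      have h5 : (d / t + y) ^ 2 * (t / (m + 1)) ≤ (2 * (d / t) ^ 2 + 2 * y ^ 2) * (t / (m + 1)) := by
        gcongr
        nlinarith [sq_nonneg (d / t - y)]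
      have h6 : (2 * (d / t) ^ 2 + 2 * y ^ 2) * (t / (m + 1)) =
          2 * (d / t) ^ 2 * (t / (m + 1)) + 2 * t := by
        rw [hy2]
        field_simp
      have h7 : t / ((m : ℝ) + 1) ≤ t := by
        rw [div_le_iff₀ hm1]
        have : (0 : ℝ) ≤ m := Nat.cast_nonneg m
        nlinarith
      have h8 : 2 * (d / t) ^ 2 * (t / (m + 1)) ≤ 2 * (d / t) ^ 2 * t := by gcongr
      linarith
    have e2 : √(t / ((m : ℝ) + 1)) ≤ √t := by
      refine Real.sqrt_le_sqrt ?_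
      rw [div_le_iff₀ hm1]
      have : (0 : ℝ) ≤ m := Nat.cast_nonneg m
      nlinarith
    unfold jj zt
    rw [← hy, ← hy2]
    rw [← hy2] at e1 e2
    have hm : (m : ℝ) ≤ y ^ 2 := by
      rw [hy2]
      linarith
    calc y ^ 2 * (1 / (4 * π * (t / y ^ 2)) * (m * Real.exp (-(y * δ) +
          (d / t + y) ^ 2 * (t / y ^ 2))) * (2 * (Lc n d δ' t * √(t / y ^ 2)) + 1))
        ≤ y ^ 2 * (1 / (4 * π * (t / y ^ 2)) * (y ^ 2 *
          (Real.exp (2 * (d / t) ^ 2 * t + 2 * t) * Real.exp (-(δ * y)))) *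
            (2 * (Lc n d δ' t * √t) + 1)) := by
          gcongr
      _ = _ := by
          field_simp

/-- the limiting kernel -/
noncomputable def Gk (α φ s : ℝ) (k : ℕ) (u v : ℂ) : ℝ≥0∞ :=
  ENNReal.ofReal (Gr α φ ((k + 1) * s) u v)

/-- the error at time `t` -/
noncomputable def Bt (n : ℂ) (d δ δ' t kk Y θ Tt g c : ℝ) : ℝ :=
  (1 / t + 2 / d ^ 2) * Lc n d δ' t ^ 2 * t * (kk * Y * (2 * (gT (d / t) kk δ Tt +
    2 * gY (d / t) kk δ Y θ)) + Real.exp (-(2 * (d / t) * g)) * (t / (d * c)) ^ 2 +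
    kk * Y * (2 * Real.exp (-(2 * (d / t) * δ))))

/-- parameters at time `t` -/
structure Pt (n : ℂ) (H A T : Set ℂ) (d δ t kk Y θ Tt g c : ℝ) : Prop where
  ht : 0 < t
  hY : 0 < Y
  hkk : 0 ≤ kk
  hθ : 0 ≤ θ
  hθ2 : θ ≤ π / 2
  hθn : n.re / 2 ≤ Real.cos θ * n.re - Real.sin θ * |n.im|
  hTt : 0 ≤ Tt
  hTt4 : Tt ≤ t / 4
  hc : 0 < c
  far : ∀ b ∈ T ∩ H, b ∉ Bg H T d kk Y → ∃ w : ℂ, ‖w‖ = 1 ∧ n.re / 2 ≤ ip w n ∧
      (∀ z ∈ A, ip w z ≤ 0) ∧ d + g + c * (|b.re - d| + |b.im|) ≤ ip w b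

/-- number of steps of a leg -/
noncomputable def Nt (t Tt : ℝ) (m : ℕ) : ℕ := ⌊Tt / (t / ((m : ℝ) + 1))⌋₊

theorem Pt.par {n : ℂ} {H A T : Set ℂ} {d δ t kk Y θ Tt g c : ℝ}
    (p : Pt n H A T d δ t kk Y θ Tt g c) :
    ∀ᶠ m : ℕ in atTop, Par n d t (t / (m + 1)) (√((m : ℝ) + 1)) kk Y θ Tt m (Nt t Tt m) := by
  have ht := p.ht
  have h1 : Tendsto (fun m : ℕ => d / t * √(t / ((m : ℝ) + 1))) atTop (𝓝 0) := by
    have h2 : Tendsto (fun m : ℕ => t / ((m : ℝ) + 1)) atTop (𝓝 0) :=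
      tendsto_const_nhds.div_atTop (tendsto_natCast_atTop_atTop.atTop_add tendsto_const_nhds)
    have h3 := (Real.continuous_sqrt.tendsto 0).comp h2
    rw [Real.sqrt_zero] at h3
    have h4 := h3.const_mul (d / t)
    rw [mul_zero] at h4
    exact h4
  filter_upwards [h1.eventually (ge_mem_nhds (zero_lt_one' ℝ))] with m hm
  have hs : 0 < t / ((m : ℝ) + 1) := by positivity
  exact
    { ht := ht
      hs := by field_simp
      hst := hm
      hk := Real.sqrt_nonneg _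
      hY := p.hY
      hkk := p.hkk
      hθ := p.hθ
      hθ2 := p.hθ2
      hθn := p.hθn
      hTt := by
        have := (Nat.lt_floor_add_one (Tt / (t / ((m : ℝ) + 1)))).le
        rwa [div_le_iff₀ hs] at this
      hN := by
        have := Nat.floor_le (div_nonneg p.hTt hs.le)
        rwa [le_div_iff₀ hs] at this
      hTt4 := p.hTt4 }

theorem fixed_t (hSU : S_SU) (hKR : S_KR) {α φ : ℝ} (hα : 0 < α) (hφ : 0 ≤ φ)
    (hαφ : φ + α < π / 2) {n : ℂ} {T : Set ℂ} {d δ δ' : ℝ}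
    (h : Glo n (Hh φ) ((Hh (φ + α))ᶜ ∩ Hh φ) T d δ δ') {t kk Y θ Tt g c : ℝ}
    (p : Pt n (Hh φ) ((Hh (φ + α))ᶜ ∩ Hh φ) T d δ t kk Y θ Tt g c) {K : Set ℂ}
    (hK : IsCompact K) (hKS : Hh φ ∩ Sg d δ Y ⊆ K)
    (hKa : ∀ z ∈ K, 0 < z.re ∧ 0 ≤ arg z + φ ∧ arg z + φ < π / 2 - α) {ε : ℝ} (hε : 0 < ε) :
    ∀ᶠ m : ℕ in atTop,
      LM (Hh φ) (Hh (φ + α))ᶜ T n (t / (m + 1)) m ≤
        Mn (Gk α φ (t / (m + 1))) n (Hh φ) T d δ kk Y (t / (m + 1)) m (Nt t Tt m) +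
          ENNReal.ofReal (Real.exp (-(d ^ 2 / t)) * (Bt n d δ δ' t kk Y θ Tt g c + ε)) ∧
      Mn (Gk α φ (t / (m + 1))) n (Hh φ) T d δ kk Y (t / (m + 1)) m (Nt t Tt m) ≤
        LM (Hh φ) (Hh (φ + α))ᶜ T n (t / (m + 1)) m +
          ENNReal.ofReal (Real.exp (-(d ^ 2 / t)) * (Bt n d δ δ' t kk Y θ Tt g c + ε)) := by
  have ht := p.ht
  have hd := h.hd
  have hδ := h.hδ
  have hY := p.hY
  have hkk := p.hkk
  have hc0 := p.hc
  have hL := Lc_pos (n := n) h.hr hd h.hδ' ht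
  -- the error of the kernels
  set D : ℝ := kk * Y * Real.exp (2 * (d / t) ^ 2 * Tt) * Lc n d δ' t ^ 2 * t with hD
  have hD0 : 0 ≤ D := by positivity
  set ε' : ℝ := Real.exp (-(d ^ 2 / t)) * (ε / 2) / (D + 1) with hε'
  have hε'0 : 0 < ε' := by positivity
  have hε'D : ε' * D ≤ Real.exp (-(d ^ 2 / t)) * (ε / 2) := by
    rw [hε', div_mul_eq_mul_div, div_le_iff₀ (by positivity)]
    have : 0 ≤ Real.exp (-(d ^ 2 / t)) * (ε / 2) := by positivity
    nlinarith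
  have hkr := hKR α φ t K ε' hα hφ hαφ ht hK hKa hε'0
  have hkr' := (tendsto_add_atTop_nat 1).eventually hkr
  -- jumps
  have hj := jj_lim (n := n) (δ' := δ') h.hr hd hδ h.hδ' ht
  have hj2 : Tendsto (fun m : ℕ => (kk * Y + Real.exp (-(2 * (d / t) * g)) *
      (t / (d * c)) ^ 2) * jj n d δ δ' t m) atTop (𝓝 0) := by
    have := hj.const_mul (kk * Y + Real.exp (-(2 * (d / t) * g)) * (t / (d * c)) ^ 2)
    rwa [mul_zero] at this
  filter_upwards [hkr', hj2.eventually (ge_mem_nhds (half_pos hε)), p.par] with m hm hjm hp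
  set s := t / ((m : ℝ) + 1) with hs
  have hs0 : 0 < s := by positivity
  have hms : ((m : ℝ) + 1) * s = t := hp.hs
  set N := Nt t Tt m with hN
  have hkm : ∀ i < N, ∀ j < N, ∀ u ∈ Hh φ ∩ Sg d δ Y, ∀ v ∈ Hh φ ∩ Sg d δ Y,
      |(hc (kp s) (Hh φ) ((Hh (φ + α))ᶜ ∩ Hh φ) (m - 1 - i - 1 - j) u v).toReal -
        Gr α φ (((m - 1 - i - 1 - j : ℕ) + 1) * s) u v| ≤ ε' := by
    intro i hi j hj u hu v hv
    have h1 := hp.mid hi hj
    have h2 := hp.hTt4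
    have e : (t / ((m + 1 : ℕ) : ℝ)) = s := by
      rw [hs]
      push_cast
      rfl
    have h3 := hm (m - 1 - i - 1 - j)
    rw [e] at h3
    have h5 : 0 < ((i : ℝ) + 1) * s := by positivity
    have h6 : 0 < ((j : ℝ) + 1) * s := by positivity
    have h4 := h3 (by linarith [h1.1]) (by linarith [h1.2]) u ⟨hKS hu, hu.1⟩ v ⟨hKS hv, hv.1⟩
    rw [hk_eq] at h4
    rwa [hc_congr (A' := (Hh (φ + α))ᶜ ∩ Hh φ)] at h4
    ext z
    constructor
    · rintro ⟨h1, h2⟩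
      exact ⟨h1, h2, h1⟩
    · rintro ⟨h1, h2⟩
      exact ⟨h1, h2.1⟩
  have hne : ∀ k u v, hc (kp s) (Hh φ) ((Hh (φ + α))ᶜ ∩ Hh φ) k u v ≠ ∞ := fun k u v =>
    ne_top_of_le_ne_top (ch_ne hs0 (Hh φ) k u v) (hc_le_ch (kp_meas s) _ h.Am k u v)
  have c1 := Mn_cmp hSU h hp (K₁ := hc (kp s) (Hh φ) ((Hh (φ + α))ᶜ ∩ Hh φ)) (K₂ := Gk α φ s)
    hε'0.le (fun i hi j hj u hu v hv => by
      have h1 := hkm i hi j hj u hu v hv
      rw [abs_le] at h1
      rw [← ENNReal.ofReal_toReal (hne _ u v), Gk]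
      refine (ENNReal.ofReal_le_ofReal ?_).trans ENNReal.ofReal_add_le
      linarith [h1.2])
  have c2 := Mn_cmp hSU h hp (K₂ := hc (kp s) (Hh φ) ((Hh (φ + α))ᶜ ∩ Hh φ)) (K₁ := Gk α φ s)
    hε'0.le (fun i hi j hj u hu v hv => by
      have h1 := hkm i hi j hj u hu v hv
      rw [abs_le] at h1
      conv_rhs => rw [← ENNReal.ofReal_toReal (hne _ u v)]
      rw [Gk]
      refine (ENNReal.ofReal_le_ofReal ?_).trans ENNReal.ofReal_add_le
      linarith [h1.1])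
  have u1 := LM_up hSU rfl h hp hc0 p.far
  have l1 := LM_low hSU (A₀ := (Hh (φ + α))ᶜ) rfl h hp
  have hgT : 0 < gT (d / t) kk δ Tt := Real.exp_pos _
  have hgY : 0 < gY (d / t) kk δ Y θ := Real.exp_pos _
  have hz := zt_nonneg (d / t) (√((m : ℝ) + 1)) δ s m
  have hjm0 : 0 ≤ jj n d δ δ' t m := by
    unfold jj
    rw [← hs]
    positivity
  have hB0 : 0 ≤ Bt n d δ δ' t kk Y θ Tt g c := by
    unfold Bt
    positivity
  have hsq : ((m : ℝ) + 1) * √s ^ 2 = t := by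
    rw [Real.sq_sqrt hs0.le, hms]
  have hE1 : ((m : ℝ) + 1) * E1 n d δ' t s (√((m : ℝ) + 1)) kk δ Y θ Tt m =
      (1 / t + 2 / d ^ 2) * Lc n d δ' t ^ 2 * t * (2 * (gT (d / t) kk δ Tt +
        2 * gY (d / t) kk δ Y θ)) + jj n d δ δ' t m := by
    unfold E1 jj
    rw [← hs]
    linear_combination ((1 / t + 2 / d ^ 2) * Lc n d δ' t ^ 2 * (2 * (gT (d / t) kk δ Tt +
        2 * gY (d / t) kk δ Y θ))) * hsq
  have hE0 : ((m : ℝ) + 1) * E0 n d δ' t s (√((m : ℝ) + 1)) δ m =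
      (1 / t + 2 / d ^ 2) * Lc n d δ' t ^ 2 * t + jj n d δ δ' t m := by
    unfold E0 jj
    rw [← hs]
    linear_combination ((1 / t + 2 / d ^ 2) * Lc n d δ' t ^ 2) * hsq
  have hE2 : ((m : ℝ) + 1) * E2 n d δ' t s δ =
      (1 / t + 2 / d ^ 2) * Lc n d δ' t ^ 2 * t * (2 * Real.exp (-(2 * (d / t) * δ))) := by
    unfold E2
    linear_combination (2 * Real.exp (-(2 * (d / t) * δ)) * ((1 / t + 2 / d ^ 2) *
      Lc n d δ' t ^ 2)) * hsq
  constructor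
  · refine u1.trans ((add_le_add_left c1 _).trans ?_)
    rw [add_assoc, ← ENNReal.ofReal_add (by positivity)]
    · gcongr
      have e : ((m : ℝ) + 1) * (Real.exp (-(d ^ 2 / t)) * (kk * Y *
          E1 n d δ' t s (√((m : ℝ) + 1)) kk δ Y θ Tt m + Real.exp (-(2 * (d / t) * g)) *
          E0 n d δ' t s (√((m : ℝ) + 1)) δ m * (t / (d * c)) ^ 2)) =
          Real.exp (-(d ^ 2 / t)) * (kk * Y * (((m : ℝ) + 1) *
          E1 n d δ' t s (√((m : ℝ) + 1)) kk δ Y θ Tt m) + Real.exp (-(2 * (d / t) * g)) *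
          (((m : ℝ) + 1) * E0 n d δ' t s (√((m : ℝ) + 1)) δ m) * (t / (d * c)) ^ 2) := by ring
      rw [e, hE1, hE0]
      have e3 : Bt n d δ δ' t kk Y θ Tt g c = kk * Y * ((1 / t + 2 / d ^ 2) * Lc n d δ' t ^ 2 * t *
          (2 * (gT (d / t) kk δ Tt + 2 * gY (d / t) kk δ Y θ))) +
          Real.exp (-(2 * (d / t) * g)) * ((1 / t + 2 / d ^ 2) * Lc n d δ' t ^ 2 * t) *
            (t / (d * c)) ^ 2 + (1 / t + 2 / d ^ 2) * Lc n d δ' t ^ 2 * t *
            (kk * Y * (2 * Real.exp (-(2 * (d / t) * δ)))) := by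
        unfold Bt
        ring
      have e4 : 0 ≤ (1 / t + 2 / d ^ 2) * Lc n d δ' t ^ 2 * t *
            (kk * Y * (2 * Real.exp (-(2 * (d / t) * δ)))) := by positivity
      have e5 : kk * Y * ((1 / t + 2 / d ^ 2) * Lc n d δ' t ^ 2 * t * (2 * (gT (d / t) kk δ Tt +
          2 * gY (d / t) kk δ Y θ)) + jj n d δ δ' t m) + Real.exp (-(2 * (d / t) * g)) *
          ((1 / t + 2 / d ^ 2) * Lc n d δ' t ^ 2 * t + jj n d δ δ' t m) * (t / (d * c)) ^ 2 ≤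
          Bt n d δ δ' t kk Y θ Tt g c + ε / 2 := by
        rw [e3]
        nlinarith [hjm]
      calc ε' * D + Real.exp (-(d ^ 2 / t)) * (kk * Y * ((1 / t + 2 / d ^ 2) *
            Lc n d δ' t ^ 2 * t * (2 * (gT (d / t) kk δ Tt +
          2 * gY (d / t) kk δ Y θ)) + jj n d δ δ' t m) + Real.exp (-(2 * (d / t) * g)) *
          ((1 / t + 2 / d ^ 2) * Lc n d δ' t ^ 2 * t + jj n d δ δ' t m) * (t / (d * c)) ^ 2) ≤
          Real.exp (-(d ^ 2 / t)) * (ε / 2) + Real.exp (-(d ^ 2 / t)) *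
            (Bt n d δ δ' t kk Y θ Tt g c + ε / 2) := by gcongr
        _ = _ := by ring
    · have h2 := E0_nonneg (δ := δ) h.hr hd h.hδ' ht hs0 (√((m : ℝ) + 1)) m
      have h3 := E1_nonneg (δ := δ) h.hr hd h.hδ' ht hs0 (√((m : ℝ) + 1)) kk Y θ Tt m
      positivity
  · refine c2.trans ((add_le_add_left l1 _).trans ?_)
    rw [add_assoc, ← ENNReal.ofReal_add _ (by positivity)]
    · gcongr
      have e : ((m : ℝ) + 1) * (Real.exp (-(d ^ 2 / t)) * (kk * Y * E2 n d δ' t s δ)) =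
          Real.exp (-(d ^ 2 / t)) * (kk * Y * (((m : ℝ) + 1) * E2 n d δ' t s δ)) := by ring
      rw [e, hE2]
      have e5 : kk * Y * ((1 / t + 2 / d ^ 2) * Lc n d δ' t ^ 2 * t *
          (2 * Real.exp (-(2 * (d / t) * δ)))) ≤ Bt n d δ δ' t kk Y θ Tt g c := by
        unfold Bt
        have e6 : 0 ≤ (1 / t + 2 / d ^ 2) * Lc n d δ' t ^ 2 * t * (kk * Y *
          (2 * (gT (d / t) kk δ Tt + 2 * gY (d / t) kk δ Y θ)) +
          Real.exp (-(2 * (d / t) * g)) * (t / (d * c)) ^ 2) := by positivity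
        nlinarith
      calc Real.exp (-(d ^ 2 / t)) * (kk * Y * ((1 / t + 2 / d ^ 2) * Lc n d δ' t ^ 2 * t *
          (2 * Real.exp (-(2 * (d / t) * δ))))) + ε' * D ≤
          Real.exp (-(d ^ 2 / t)) * (Bt n d δ δ' t kk Y θ Tt g c) +
            Real.exp (-(d ^ 2 / t)) * (ε / 2) := by gcongr
        _ ≤ _ := by
            have : 0 ≤ Real.exp (-(d ^ 2 / t)) * (ε / 2) := by positivity
            linarith
    · have := E2_nonneg (n := n) (d := d) (δ := δ) (δ' := δ') (s := s) ht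
      positivity

end Pool.Agent.N275.QD
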