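import Pool.Agent.N275.QD.Tilt

set_option autoImplicit false

/-!
# Project QD: two legs and a middle part
-/

namespace Pool.Agent.N275.QD

open MeasureTheory Set Filter Topology Complex
open Pool.Agent.R225.LP (gk ks ip ip_self ip_sub_right ip_sub_left ip_add_left ip_add_right
  ip_smul_left ip_smul_right norm_sq_add norm_sq_sub lint_exp gk_pos gk_nonneg gk_cont nG lint_nG
  mgf_nG gkE_meas ip_cont)
open Pool.Agent.R225.LP.TR (ch ch_meas meas_left meas_right ch_mono_set kp kp_meas kp_comm ks_eq)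
open scoped Real ENNReal ComplexConjugate

section abs

variable {κ : ℂ → ℂ → ℝ≥0∞}

/-- upper bound by the good part and the bad parts -/
theorem up_bound (hκ : Measurable (Function.uncurry κ)) (hs : ∀ a b, κ a b = κ b a)
    (hf : ∀ (Q : Set ℂ) (n : ℕ) (a b : ℂ), ch κ Q n a b ≠ ∞) {Q A E : Set ℂ}
    (hQ : MeasurableSet Q) (hA : MeasurableSet A) (hE : MeasurableSet E) (hAE : A ⊆ E) (m : ℕ)
    (b : ℂ) (G β ω : ℕ → ℂ → ℝ≥0∞) (K : ℕ → ℂ → ℂ → ℝ≥0∞) (Λ : ℝ≥0∞) (βJ : ℕ → ℂ → ℝ≥0∞)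
    (hG : ∀ i, Measurable (G i)) (hβ : ∀ i, Measurable (β i)) (hω : ∀ i, Measurable (ω i))
    (hK : ∀ i, Measurable (Function.uncurry (K i))) 
    (hmid : ∀ i j, i + j + 2 ≤ m → ∀ u ∈ Q ∩ E, ∀ v ∈ Q ∩ E,
      h2 κ Q A (m - 1 - i - 1 - j) u v ≤ G i u * G j v * K (m - 1 - i - 1 - j) u v +
        Λ * (β i u * ω j v + ω i u * β j v))
    (hsing : ∀ i < m, ∀ u ∈ Q ∩ E, u ∈ A → ch κ (Q \ E) (m - 1 - i) u b ≤ βJ i u) :
    hc κ Q A m b b ≤ (∑ i ∈ Finset.range m, ∑ j ∈ Finset.range (m - 1 - i),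
      ∫⁻ u in Q ∩ E, ch κ (Q \ E) i b u * G i u *
        ∫⁻ v in Q ∩ E, K (m - 1 - i - 1 - j) u v * (G j v * ch κ (Q \ E) j v b)) +
      Λ * (2 * (∑ i ∈ Finset.range m, ∫⁻ u in Q ∩ E, ch κ (Q \ E) i b u * β i u) *
        (∑ i ∈ Finset.range m, ∫⁻ u in Q ∩ E, ch κ (Q \ E) i b u * ω i u)) +
      ∑ i ∈ Finset.range m, ∫⁻ u in Q ∩ E, ch κ (Q \ E) i b u * βJ i u := by
  rw [hc_dec2 hκ hs hf hQ hA hE hAE m b b]
  set R := Q \ E with hR
  set Bβ := ∑ i ∈ Finset.range m, ∫⁻ u in Q ∩ E, ch κ R i b u * β i u with hBβ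
  set Bω := ∑ i ∈ Finset.range m, ∫⁻ u in Q ∩ E, ch κ R i b u * ω i u with hBω
  have hX : ∀ i, Measurable (fun u => ch κ R i b u) := fun i => meas_right (ch_meas hκ R i) b
  have hY : ∀ i, Measurable (fun u => ch κ R i u b) := fun i => meas_left (ch_meas hκ R i) b
  have hQE : MeasurableSet (Q ∩ E) := hQ.inter hE
  -- for a fixed first leg
  have step : ∀ i < m, ∀ u ∈ Q ∩ E,
      A.indicator (fun u => ch κ R (m - 1 - i) u b) u + ∑ j ∈ Finset.range (m - 1 - i),
        ∫⁻ v in Q ∩ E, h2 κ Q A (m - 1 - i - 1 - j) u v * ch κ R j v b ≤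
      (G i u * ∑ j ∈ Finset.range (m - 1 - i), ∫⁻ v in Q ∩ E, K (m - 1 - i - 1 - j) u v *
        (G j v * ch κ R j v b)) + Λ * (β i u * Bω + ω i u * Bβ) + βJ i u := by
    intro i hi u hu
    have h1 : A.indicator (fun u => ch κ R (m - 1 - i) u b) u ≤ βJ i u := by
      by_cases hu' : u ∈ A
      · rw [indicator_of_mem hu']
        exact hsing i hi u hu hu'
      · rw [indicator_of_notMem hu']
        exact zero_le
    have h2 : ∀ j ∈ Finset.range (m - 1 - i),
        ∫⁻ v in Q ∩ E, h2 κ Q A (m - 1 - i - 1 - j) u v * ch κ R j v b ≤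
          G i u * (∫⁻ v in Q ∩ E, K (m - 1 - i - 1 - j) u v * (G j v * ch κ R j v b)) +
          Λ * (β i u * (∫⁻ v in Q ∩ E, ch κ R j b v * ω j v) +
            ω i u * (∫⁻ v in Q ∩ E, ch κ R j b v * β j v)) := by
      intro j hj
      have hj' : i + j + 2 ≤ m := by
        have := Finset.mem_range.1 hj
        omega
      calc ∫⁻ v in Q ∩ E, h2 κ Q A (m - 1 - i - 1 - j) u v * ch κ R j v b
          ≤ ∫⁻ v in Q ∩ E, (G i u * (K (m - 1 - i - 1 - j) u v * (G j v * ch κ R j v b)) +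
            (Λ * β i u * (ch κ R j b v * ω j v) + Λ * ω i u * (ch κ R j b v * β j v))) := by
            refine setLIntegral_mono' hQE fun v hv => ?_
            refine (mul_le_mul_left (hmid i j hj' u hu v hv) _).trans (le_of_eq ?_)
            rw [ch_symm hκ hs R j b v]
            ring
        _ = _ := by
            have m1 : Measurable (fun v => K (m - 1 - i - 1 - j) u v * (G j v * ch κ R j v b)) :=
              (meas_right (hK _) u).mul ((hG j).mul (hY j))
            have m2 : Measurable (fun v => ch κ R j b v * ω j v) := (hX j).mul (hω j)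
            have m3 : Measurable (fun v => ch κ R j b v * β j v) := (hX j).mul (hβ j)
            rw [lintegral_add_left (m1.const_mul _), lintegral_add_left (m2.const_mul _),
              lintegral_const_mul _ m1, lintegral_const_mul _ m2, lintegral_const_mul _ m3]
            ring
    calc _ ≤ βJ i u + ∑ j ∈ Finset.range (m - 1 - i),
          (G i u * (∫⁻ v in Q ∩ E, K (m - 1 - i - 1 - j) u v * (G j v * ch κ R j v b)) +
          Λ * (β i u * (∫⁻ v in Q ∩ E, ch κ R j b v * ω j v) +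
            ω i u * (∫⁻ v in Q ∩ E, ch κ R j b v * β j v))) := by
          gcongr with j hj
          exact h2 j hj
      _ = βJ i u + (G i u * (∑ j ∈ Finset.range (m - 1 - i), ∫⁻ v in Q ∩ E,
            K (m - 1 - i - 1 - j) u v * (G j v * ch κ R j v b)) +
          Λ * (β i u * (∑ j ∈ Finset.range (m - 1 - i), ∫⁻ v in Q ∩ E, ch κ R j b v * ω j v) +
            ω i u * (∑ j ∈ Finset.range (m - 1 - i), ∫⁻ v in Q ∩ E, ch κ R j b v * β j v))) := by
          rw [Finset.sum_add_distrib, ← Finset.mul_sum, ← Finset.mul_sum, Finset.sum_add_distrib,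
            ← Finset.mul_sum, ← Finset.mul_sum]
      _ ≤ βJ i u + (G i u * (∑ j ∈ Finset.range (m - 1 - i), ∫⁻ v in Q ∩ E,
            K (m - 1 - i - 1 - j) u v * (G j v * ch κ R j v b)) +
          Λ * (β i u * Bω + ω i u * Bβ)) := by
          have hsub : Finset.range (m - 1 - i) ⊆ Finset.range m :=
            Finset.range_subset_range.2 (by omega)
          gcongr
          · exact Finset.sum_le_sum_of_subset hsub
          · exact Finset.sum_le_sum_of_subset hsub
      _ = _ := by ring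
  have hKm : ∀ i j, Measurable (fun u => ∫⁻ v in Q ∩ E, K (m - 1 - i - 1 - j) u v *
      (G j v * ch κ R j v b)) := fun i j =>
    Measurable.lintegral_prod_right' (f := fun q : ℂ × ℂ => K (m - 1 - i - 1 - j) q.1 q.2 *
      (G j q.2 * ch κ R j q.2 b)) ((hK _).mul (((hG j).comp measurable_snd).mul
        ((hY j).comp measurable_snd)))
  calc _ ≤ ∑ i ∈ Finset.range m, ∫⁻ u in Q ∩ E, ch κ R i b u *
        ((G i u * ∑ j ∈ Finset.range (m - 1 - i), ∫⁻ v in Q ∩ E, K (m - 1 - i - 1 - j) u v *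
        (G j v * ch κ R j v b)) + Λ * (β i u * Bω + ω i u * Bβ) + βJ i u) := by
        refine Finset.sum_le_sum fun i hi => ?_
        refine setLIntegral_mono' hQE fun u hu => ?_
        gcongr ch κ R i b u * ?_
        exact step i (Finset.mem_range.1 hi) u hu
    _ = ∑ i ∈ Finset.range m, ((∑ j ∈ Finset.range (m - 1 - i),
          ∫⁻ u in Q ∩ E, ch κ R i b u * G i u * ∫⁻ v in Q ∩ E, K (m - 1 - i - 1 - j) u v *
            (G j v * ch κ R j v b)) +
          (Λ * (Bω * ∫⁻ u in Q ∩ E, ch κ R i b u * β i u) +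
            Λ * (Bβ * ∫⁻ u in Q ∩ E, ch κ R i b u * ω i u)) +
          ∫⁻ u in Q ∩ E, ch κ R i b u * βJ i u) := by
        refine Finset.sum_congr rfl fun i _ => ?_
        have e : ∀ u, ch κ R i b u *
            ((G i u * ∑ j ∈ Finset.range (m - 1 - i), ∫⁻ v in Q ∩ E, K (m - 1 - i - 1 - j) u v *
            (G j v * ch κ R j v b)) + Λ * (β i u * Bω + ω i u * Bβ) + βJ i u) =
            (∑ j ∈ Finset.range (m - 1 - i), ch κ R i b u * G i u *
              ∫⁻ v in Q ∩ E, K (m - 1 - i - 1 - j) u v * (G j v * ch κ R j v b)) +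
            (Λ * Bω * (ch κ R i b u * β i u) + (Λ * Bβ * (ch κ R i b u * ω i u))) +
            ch κ R i b u * βJ i u := by
          intro u
          rw [mul_add, mul_add, ← mul_assoc, Finset.mul_sum]
          ring
        simp_rw [e]
        have m1 : Measurable (fun u => ch κ R i b u * β i u) := (hX i).mul (hβ i)
        have m2 : Measurable (fun u => ch κ R i b u * ω i u) := (hX i).mul (hω i)
        have m3 : ∀ j, Measurable (fun u => ch κ R i b u * G i u *
              ∫⁻ v in Q ∩ E, K (m - 1 - i - 1 - j) u v * (G j v * ch κ R j v b)) := fun j =>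
          ((hX i).mul (hG i)).mul (hKm i j)
        rw [lintegral_add_left, lintegral_add_left (Finset.measurable_sum _ fun j _ => m3 j),
          lintegral_add_left (m1.const_mul _), lintegral_const_mul _ m1,
          lintegral_const_mul _ m2, lintegral_finsetSum _ fun j _ => m3 j]
        · ring
        · exact (Finset.measurable_sum _ fun j _ => m3 j).add ((m1.const_mul _).add
            (m2.const_mul _))
    _ = _ := by
        rw [Finset.sum_add_distrib, Finset.sum_add_distrib, Finset.sum_add_distrib,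
          ← Finset.mul_sum, ← Finset.mul_sum, ← Finset.mul_sum, ← Finset.mul_sum, ← hBβ, ← hBω]
        ring

/-- lower bound by the good part -/
theorem low_bound (hκ : Measurable (Function.uncurry κ)) (hs : ∀ a b, κ a b = κ b a)
    (hf : ∀ (Q : Set ℂ) (n : ℕ) (a b : ℂ), ch κ Q n a b ≠ ∞) {Q A E S : Set ℂ}
    (hQ : MeasurableSet Q) (hA : MeasurableSet A) (hE : MeasurableSet E) (hAE : A ⊆ E)
    (hS : MeasurableSet S) (hSE : S ⊆ Q ∩ E) (hSA : Disjoint S A) (m N : ℕ)
    (hN : 2 * N ≤ m) (b : ℂ) :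
    ∑ i ∈ Finset.range N, ∑ j ∈ Finset.range N,
      ∫⁻ u in S, ch κ (Q \ E) i b u *
        ∫⁻ v in S, hc κ Q A (m - 1 - i - 1 - j) u v * ch κ (Q \ E) j v b ≤ hc κ Q A m b b := by
  rw [hc_dec2 hκ hs hf hQ hA hE hAE m b b]
  have hsub : Finset.range N ⊆ Finset.range m := Finset.range_subset_range.2 (by omega)
  refine le_trans ?_ (Finset.sum_le_sum_of_subset hsub)
  refine Finset.sum_le_sum fun i hi => ?_
  have hi' := Finset.mem_range.1 hi
  have hsub2 : Finset.range N ⊆ Finset.range (m - 1 - i) :=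
    Finset.range_subset_range.2 (by omega)
  set R := Q \ E with hR
  have hX : ∀ i, Measurable (fun u => ch κ R i b u) := fun i => meas_right (ch_meas hκ R i) b
  have hY : ∀ i, Measurable (fun u => ch κ R i u b) := fun i => meas_left (ch_meas hκ R i) b
  have m3 : ∀ j, Measurable (fun u => ch κ R i b u *
      ∫⁻ v in S, hc κ Q A (m - 1 - i - 1 - j) u v * ch κ R j v b) := fun j =>
    (hX i).mul (Measurable.lintegral_prod_right' (f := fun q : ℂ × ℂ =>
      hc κ Q A (m - 1 - i - 1 - j) q.1 q.2 * ch κ R j q.2 b)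
      ((hc_meas hκ Q A _).mul ((hY j).comp measurable_snd)))
  rw [← lintegral_finsetSum _ fun j _ => m3 j]
  refine le_trans ?_ (lintegral_mono_set hSE)
  refine setLIntegral_mono' hS fun u hu => ?_
  rw [← Finset.mul_sum]
  gcongr
  refine le_trans ?_ le_add_self
  refine le_trans (Finset.sum_le_sum_of_subset hsub2) ?_
  refine Finset.sum_le_sum fun j _ => ?_
  refine le_trans ?_ (lintegral_mono_set hSE)
  refine setLIntegral_mono' hS fun v hv => ?_
  gcongr
  unfold h2
  have h1 : u ∉ A := fun h => hSA.le_bot ⟨hu, h⟩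
  have h2 : v ∉ A := fun h => hSA.le_bot ⟨hv, h⟩
  rw [if_neg (by tauto)]

end abs

/-! ## Bounds of the Gaussian kernel -/

theorem gk_b1 {τ x l : ℝ} (hτ : 0 < τ) (hl : 0 ≤ l) {z : ℂ} (hz : x ≤ ‖z‖) :
    gk τ z ≤ Real.exp (l ^ 2 * τ - l * x) / (4 * π * τ) := by
  unfold gk
  gcongr
  have h1 : -(‖z‖ ^ 2 / (4 * τ)) = l ^ 2 * τ - l * ‖z‖ - (‖z‖ - 2 * l * τ) ^ 2 / (4 * τ) := by
    field_simp
    ring
  have h2 : 0 ≤ (‖z‖ - 2 * l * τ) ^ 2 / (4 * τ) := by positivity
  have h3 : l * x ≤ l * ‖z‖ := mul_le_mul_of_nonneg_left hz hl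
  linarith

theorem gk_b2 {τ t x d : ℝ} (hτ : 0 < τ) (hτt : τ ≤ t) (hd : 0 < d) (hx : 3 / 2 * d ≤ x) {z : ℂ}
    (hz : x ≤ ‖z‖) :
    gk τ z ≤ (1 / t + 2 / d ^ 2) * Real.exp ((d / t) ^ 2 * τ - d / t * x) := by
  have ht : 0 < t := hτ.trans_le hτt
  have hx0 : 0 < x := by linarith
  have hpi := Real.pi_gt_three
  have h1 : gk τ z ≤ Real.exp (-(x ^ 2 / (4 * τ))) / (4 * π * τ) := by
    unfold gk
    gcongr
  refine h1.trans ?_
  have h2 : -(x ^ 2 / (4 * τ)) = ((d / t) ^ 2 * τ - d / t * x) -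
      (x - 2 * (d / t) * τ) ^ 2 / (4 * τ) := by
    field_simp
    ring
  rw [h2, Real.exp_sub, div_div, div_eq_mul_inv, mul_comm]
  gcongr
  rcases le_or_gt (t / 2) τ with h | h
  · have h3 : (1 : ℝ) ≤ Real.exp ((x - 2 * (d / t) * τ) ^ 2 / (4 * τ)) := Real.one_le_exp (by positivity)
    have h4 : t ≤ Real.exp ((x - 2 * (d / t) * τ) ^ 2 / (4 * τ)) * (4 * π * τ) := by
      have : t ≤ 4 * π * τ := by nlinarith
      nlinarith
    calc (Real.exp ((x - 2 * (d / t) * τ) ^ 2 / (4 * τ)) * (4 * π * τ))⁻¹ ≤ t⁻¹ := by gcongr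
      _ = 1 / t := by rw [one_div]
      _ ≤ _ := by
        have : 0 < 2 / d ^ 2 := by positivity
        linarith
  · have h3 : d / 2 ≤ x - 2 * (d / t) * τ := by
      have : 2 * (d / t) * τ ≤ d := by
        rw [mul_assoc, div_mul_eq_mul_div, mul_div_assoc', div_le_iff₀ ht]
        nlinarith
      linarith
    have h4 : d ^ 2 / (16 * τ) ≤ (x - 2 * (d / t) * τ) ^ 2 / (4 * τ) := by
      have : (d / 2) ^ 2 ≤ (x - 2 * (d / t) * τ) ^ 2 := by gcongr
      rw [div_le_div_iff₀ (by positivity) (by positivity)]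
      nlinarith
    have h5 : d ^ 2 / (16 * τ) ≤ Real.exp ((x - 2 * (d / t) * τ) ^ 2 / (4 * τ)) := by
      have := Real.add_one_le_exp ((x - 2 * (d / t) * τ) ^ 2 / (4 * τ))
      linarith
    have h6 : d ^ 2 / 2 ≤ Real.exp ((x - 2 * (d / t) * τ) ^ 2 / (4 * τ)) * (4 * π * τ) := by
      calc d ^ 2 / 2 ≤ d ^ 2 / (16 * τ) * (4 * π * τ) := by
            have : d ^ 2 / (16 * τ) * (4 * π * τ) = d ^ 2 * π / 4 := by
              field_simp
              ring
            rw [this]
            have : 0 < d ^ 2 := by positivity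
            nlinarith
        _ ≤ _ := by gcongr
    calc (Real.exp ((x - 2 * (d / t) * τ) ^ 2 / (4 * τ)) * (4 * π * τ))⁻¹ ≤ (d ^ 2 / 2)⁻¹ := by
          gcongr
      _ = 2 / d ^ 2 := by rw [inv_div]
      _ ≤ _ := by
        have : 0 < 1 / t := by positivity
        linarith

end Pool.Agent.N275.QD
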