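import Pool.Agent.N275.QD.AE
import Pool.Agent.R225.LP.AJ

set_option autoImplicit false

/-!
# Project QD: the results in elementary terms
-/

namespace Pool.Agent.N275.QD

open MeasureTheory Set Filter Topology Complex
open Pool.Agent.W780.PG (IsConvexPolygon region)
open Pool.Agent.W703.GP hiding nu
open Pool.Agent.R225.LP (ip cr co nu sk sd Cg tz)
open scoped Real ENNReal ComplexConjugate

/-- two opposite sides are parallel, or the distances of the two pairs of opposite sides differ -/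
def Reg (p : Fin (1 + 3) → ℂ) : Prop :=
  ds p 0 ≠ ds p 1 ∨ ∃ (k : Fin (1 + 3)) (r : ℝ), p (k + 2) - p (k + 3) = r * (p (k + 1) - p k)

theorem par_of {p : Fin (1 + 3) → ℂ} (hp : IsConvexPolygon p) {k : Fin (1 + 3)} {r : ℝ}
    (h : p (k + 2) - p (k + 3) = r * (p (k + 1) - p k)) :
    sk (nu p) (k + 1) + sk (nu p) (k + 1 + 1) = 0 := by
  have hinj := (Pool.Agent.W174.PG.basic 1 p hp).1
  have hne : ∀ k : Fin (1 + 3), k + 1 ≠ k := by decide
  have hl : ∀ k, 0 < ‖p (k + 1) - p k‖ := fun k => by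
    rw [norm_pos_iff, sub_ne_zero]
    exact fun h => hne k (hinj h)
  obtain ⟨h1, h2, h3⟩ := Pool.Agent.N885.QD.sum_sk p hp (k + 1)
  have e1 : k + 1 - 1 = k := (by decide : ∀ k : Fin (1 + 3), k + 1 - 1 = k) k
  have e2 : k + 1 + 1 = k + 2 := (by decide : ∀ k : Fin (1 + 3), k + 1 + 1 = k + 2) k
  have e3 : k + 2 + 1 = k + 3 := (by decide : ∀ k : Fin (1 + 3), k + 2 + 1 = k + 3) k
  rw [e1] at h1 h3
  rw [e2] at h2 h3 ⊢
  have h4 := cr_side (hl k) (hl (k + 2))
  have h5 : cr (p (k + 1) - p k) (p (k + 2 + 1) - p (k + 2)) = 0 := by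
    rw [e3]
    have : p (k + 3) - p (k + 2) = ((-r : ℝ) : ℂ) * (p (k + 1) - p k) := by
      push_cast
      linear_combination -h
    rw [this]
    simp only [cr, Complex.re_ofReal_mul, Complex.im_ofReal_mul]
    ring
  rw [h5] at h4
  have h6 : cr (nu p k) (nu p (k + 2)) = 0 :=
    (mul_eq_zero.1 h4).resolve_right (mul_pos (hl k) (hl (k + 2))).ne'
  rw [h6, neg_zero] at h3
  exact (mul_eq_zero.1 h3).resolve_right (mul_pos h1 h2).ne'

theorem of_par {p : Fin (1 + 3) → ℂ} (hp : IsConvexPolygon p) {k : Fin (1 + 3)}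
    (h : sk (nu p) k + sk (nu p) (k + 1) = 0) :
    ∃ (j : Fin (1 + 3)) (r : ℝ), p (j + 2) - p (j + 3) = r * (p (j + 1) - p j) := by
  have hinj := (Pool.Agent.W174.PG.basic 1 p hp).1
  have hne : ∀ k : Fin (1 + 3), k + 1 ≠ k := by decide
  have hl : ∀ k, 0 < ‖p (k + 1) - p k‖ := fun k => by
    rw [norm_pos_iff, sub_ne_zero]
    exact fun h => hne k (hinj h)
  have h1 := (Pool.Agent.N885.QD.par p hp k h).1
  have l1 := hl (k + 1)
  have l2 := hl (k + 1 + 2)
  refine ⟨k + 1, ‖p (k + 1 + 2 + 1) - p (k + 1 + 2)‖ / ‖p (k + 1 + 1) - p (k + 1)‖, ?_⟩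
  unfold nu at h1
  rw [← mul_neg] at h1
  have h2 := mul_left_cancel₀ (neg_ne_zero.2 Complex.I_ne_zero) h1
  have c1 : (‖p (k + 1 + 1) - p (k + 1)‖ : ℂ) ≠ 0 := by exact_mod_cast l1.ne'
  have c2 : (‖p (k + 1 + 2 + 1) - p (k + 1 + 2)‖ : ℂ) ≠ 0 := by exact_mod_cast l2.ne'
  have e3 : k + 1 + 3 = k + 1 + 2 + 1 :=
    (by decide : ∀ k : Fin (1 + 3), k + 1 + 3 = k + 1 + 2 + 1) k
  rw [e3]
  push_cast
  field_simp at h2 ⊢
  linear_combination -h2

theorem main_reg {p q : Fin (1 + 3) → ℂ} (hp : IsConvexPolygon p) (hq : IsConvexPolygon q)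
    (hrp : Reg p) (hrq : Reg q) (h : Isospectral (region p) (region q)) :
    Cg (region p) (region q) := by
  refine main hp hq (fun h0 => ?_) (fun h0 => ?_) h
  · rcases hrp with h1 | ⟨k, r, h1⟩
    · exact absurd h0 h1
    · exact ⟨k + 1, par_of hp h1⟩
  · rcases hrq with h1 | ⟨k, r, h1⟩
    · exact absurd h0 h1
    · exact ⟨k + 1, par_of hq h1⟩

theorem ds_motion {p q : Fin (1 + 3) → ℂ} {e v : ℂ} (he : ‖e‖ = 1) (h : ∀ i, q i = e * p i + v)
    (k : Fin (1 + 3)) : ds q k = ds p k := by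
  have hseg : ∀ a b z : ℂ, z ∈ segment ℝ a b → e * z + v ∈ segment ℝ (e * a + v) (e * b + v) := by
    rintro a b z ⟨s, t, hs, ht, hst, rfl⟩
    refine ⟨s, t, hs, ht, hst, ?_⟩
    simp only [Complex.real_smul]
    have : (t : ℂ) = 1 - s := by
      have h1 : (s : ℂ) + t = 1 := by exact_mod_cast hst
      linear_combination h1
    rw [this]; ring
  have hseg' : ∀ a b z : ℂ, z ∈ segment ℝ (e * a + v) (e * b + v) →
      ∃ w ∈ segment ℝ a b, z = e * w + v := by
    rintro a b z ⟨s, t, hs, ht, hst, rfl⟩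
    refine ⟨s • a + t • b, ⟨s, t, hs, ht, hst, rfl⟩, ?_⟩
    simp only [Complex.real_smul]
    have : (t : ℂ) = 1 - s := by
      have h1 : (s : ℂ) + t = 1 := by exact_mod_cast hst
      linear_combination h1
    rw [this]; ring
  have hdist : ∀ x y : ℂ, dist (e * x + v) (e * y + v) = dist x y := by
    intro x y
    rw [dist_add_right, dist_eq_norm, dist_eq_norm, ← mul_sub, norm_mul, he, one_mul]
  unfold ds
  congr 1
  ext r
  constructor
  · rintro ⟨x, hx, y, hy, rfl⟩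
    rw [h, h] at hx hy
    obtain ⟨x', hx', rfl⟩ := hseg' _ _ x hx
    obtain ⟨y', hy', rfl⟩ := hseg' _ _ y hy
    exact ⟨x', hx', y', hy', hdist _ _⟩
  · rintro ⟨x, hx, y, hy, rfl⟩
    refine ⟨e * x + v, ?_, e * y + v, ?_, (hdist _ _).symm⟩
    · rw [h, h]; exact hseg _ _ _ hx
    · rw [h, h]; exact hseg _ _ _ hy

theorem reg_motion {p q : Fin (1 + 3) → ℂ} {e v : ℂ} (he : ‖e‖ = 1) (h : ∀ i, q i = e * p i + v)
    (hr : Reg p) : Reg q := by
  rcases hr with h1 | ⟨k, r, h1⟩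
  · left
    rwa [ds_motion he h, ds_motion he h]
  · right
    refine ⟨k, r, ?_⟩
    rw [h, h, h, h]
    linear_combination e * h1

/-- almost every quadrilateral is regular -/
theorem ae_reg : ∀ᵐ p : Fin (1 + 3) → ℂ, IsConvexPolygon p → Reg p := by
  rw [ae_iff]
  refine measure_mono_null ?_ (h_NM 1 _ ex_null)
  intro p hp
  simp only [mem_ofPred_eq, Classical.not_imp] at hp ⊢
  obtain ⟨hpc, hp2⟩ := hp
  obtain ⟨x, hxY, θ, v, hθ⟩ := h_NF 1 p hpc
  refine ⟨x, ⟨hxY, ?_, ?_⟩, θ, v, hθ⟩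
  · by_contra h
    exact hp2 (reg_motion (Complex.norm_exp_ofReal_mul_I θ) hθ (Or.inl h))
  · intro k hk
    exact hp2 (reg_motion (Complex.norm_exp_ofReal_mul_I θ) hθ (Or.inr (of_par hxY.2 hk)))

/-- trapezoids -/
theorem trap_hull (a b c d a' b' c' d' : ℂ) (r r' : ℝ) (hr : 0 < r) (hr' : 0 < r')
    (hpar : c - d = r * (b - a)) (hpar' : c' - d' = r' * (b' - a'))
    (hP : (interior (convexHull ℝ {a, b, c, d})).Nonempty)
    (hQ : (interior (convexHull ℝ {a', b', c', d'})).Nonempty)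
    (h : ∀ᶠ k in Filter.atTop, dirichletEigenvalue (interior (convexHull ℝ {a, b, c, d})) k =
      dirichletEigenvalue (interior (convexHull ℝ {a', b', c', d'})) k) :
    Cg (interior (convexHull ℝ {a, b, c, d})) (interior (convexHull ℝ {a', b', c', d'})) := by
  replace h := Pool.Agent.R225.LP.almost_hull (Set.toFinite _) (Set.toFinite _) hP hQ h
  obtain ⟨e, f, x, y, h1, h2, h3, hc⟩ := tr_gen0 a b c d r hr hpar hP
  obtain ⟨e', f', x', y', h1', h2', h3', hc'⟩ := tr_gen0 a' b' c' d' r' hr' hpar' hQ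
  have g1 := (Pool.Agent.R225.LP.tz_thm e f x y h1 h2 h3).1
  have g2 := (Pool.Agent.R225.LP.tz_thm e' f' x' y' h1' h2' h3').1
  have h4 : Cg (region (tz e f x y)) (region (tz e' f' x' y')) :=
    main (p := tz e f x y) (q := tz e' f' x' y') g1 g2 (fun _ => tz_par e f x y h1 h2 h3)
      (fun _ => tz_par e' f' x' y' h1' h2' h3')
      (iso_trans hc.symm.iso (iso_trans h hc'.iso))
  exact hc.trans (h4.trans hc'.symm)

end Pool.Agent.N275.QD
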