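import Pool.Agent.N275.QD.AvJ

set_option autoImplicit false

/-!
# Project QD: the contribution of a side with an acute interior angle
-/

namespace Pool.Agent.N275.QD

open MeasureTheory Set Filter Topology Complex
open Pool.Agent.R225.LP (gk ks ip ip_self gk_nonneg)
open scoped Real ENNReal ComplexConjugate

theorem xcB {α φ d δ : ℝ} (hα : 0 < α) (hφ : 0 < φ) (hαφ : φ + α < π / 2)
    (hd : 0 < d) (hδ : 0 < δ) (hδd : δ ≤ d / 16) : ∀ᶠ x : ℝ in 𝓝[>] 0, Xc α φ d δ x := by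
  have hpi := Real.pi_gt_three
  have hsφ : 0 < Real.sin φ := Real.sin_pos_of_pos_of_lt_pi hφ (by linarith)
  filter_upwards [self_mem_nhdsWithin, pow_small 3 (c := 8 * d) (by positivity),
    pow_small 3 (c := 8 * d * (π / 2 - φ - α)) (mul_pos (by positivity) (by linarith)),
    pow_small 7 (c := d * δ) (by positivity),
    pow_small 3 (c := 3 / 8 * d * Real.sin φ) (by positivity)] with x hx0 h1 h2 h3 h4
  exact
    { hα := hα
      hφ := hφ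
      hαφ := hαφ
      hd := hd
      hδ := hδ
      hδd := hδd
      hx := hx0
      h1 := h1
      h2 := h2
      h3 := h3
      h4 := h4 }

theorem GG_ge {φ d δ Y ψ : ℝ} (hφ : 0 < φ) (hφ2 : φ < π / 2) (hd : 0 < d) (hδ : 0 < δ)
    (hδd : δ ≤ d / 16)
    (hψ : 0 ≤ ψ) (hψ1 : ψ ≤ 1) (hψφ : ψ ≤ Real.tan φ / 20)
    (hY : Y ≤ d / 2 * Real.tan φ) : ψ * d * Real.tan φ / 10 ≤ GG φ d δ Y ψ := by
  have hpi := Real.pi_gt_three
  have htan : 0 < Real.tan φ := Real.tan_pos_of_pos_of_lt_pi_div_two hφ hφ2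
  have h1 := half_sin hψ (by linarith)
  have h2 := one_sub_cos_le ψ
  have h3 : 0 ≤ 1 - Real.cos ψ := by linarith [Real.cos_le_one ψ]
  have h4 : d / 4 * Real.tan φ ≤ d / 2 * Real.tan φ - Y / 2 := by linarith
  have h5 : 3 / 5 * ψ * (d / 4 * Real.tan φ) ≤ Real.sin ψ * (d / 2 * Real.tan φ - Y / 2) := by
    gcongr
    exact le_trans (by positivity) h1
  have h6 : (1 - Real.cos ψ) * (d + δ) ≤ ψ ^ 2 / 2 * (2 * d) := by
    gcongr
    linarith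
  have h7 : ψ * (d * ψ) ≤ ψ * (d * (Real.tan φ / 20)) := by gcongr
  unfold GG
  nlinarith

theorem BsB {φ d δ ψ G : ℝ} (hφ : 0 < φ) (hφ2 : φ < π / 2) (hd : 0 < d) (hδ : 0 < δ)
    (hδd : δ ≤ d / 16) (hψ : 0 ≤ ψ) (hψ1 : ψ ≤ 1) (hψφ : ψ ≤ Real.tan φ / 20)
    (hG : G = ψ * d * Real.tan φ / 10) : ∀ᶠ x : ℝ in 𝓝[>] 0,
    Bs φ d δ (x ^ 10) x ψ ≤ (1 + 2 / d ^ 2) * (16 * d) ^ 2 * 1604 / x ^ 20 *
        Real.exp (-(min (1 / 50) (d * G) / x)) := by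
  have htan : 0 < Real.tan φ := Real.tan_pos_of_pos_of_lt_pi_div_two hφ hφ2
  filter_upwards [self_mem_nhdsWithin, pow_small 0 (c := 1) (by norm_num),
    pow_small 9 (c := d * δ) (by positivity), pow_small 3 (c := 1 / δ) (by positivity),
    pow_small 3 (c := d / 2 * Real.tan φ) (by positivity)] with x hx0 hx3 hx4 hx5 hx6
  have hx : 0 < x := hx0
  rw [zero_add, pow_one] at hx3
  have hx4' : x ^ 10 ≤ d * δ := hx4
  have hx5' : x ^ 4 ≤ 1 / δ := hx5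
  have hx6' : x ^ 4 ≤ d / 2 * Real.tan φ := hx6
  have ht : 0 < x ^ 10 := by positivity
  have ht1 : x ^ 10 ≤ 1 := pow_le_one₀ hx.le hx3
  have hG0 : 0 ≤ G := by
    rw [hG]
    positivity
  have hGG : G ≤ GG φ d δ (x ^ 4) ψ := by
    rw [hG]
    exact GG_ge hφ hφ2 hd hδ hδd hψ hψ1 hψφ hx6'
  set c₀ := min (1 / 50) (d * G) with hc₀
  have hc₀0 : 0 ≤ c₀ := by positivity
  have hL0 := (Lc_pos (n := 1) (by simp) hd hδ ht).le
  have hL : Lc 1 d δ (x ^ 10) ≤ 16 * d / x ^ 10 := by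
    refine (Lc_le hd ht ?_).trans (le_of_eq (by ring))
    rw [one_re, mul_one, div_mul_eq_mul_div, le_div_iff₀ ht]
    linarith
  have e1 : Real.exp (-(2 * (d / x ^ 10) * (x ^ 8 / (100 * d)))) ≤ Real.exp (-(c₀ / x)) := by
    have e : 2 * (d / x ^ 10) * (x ^ 8 / (100 * d)) = (1 / 50) / x ^ (1 + 1) := by
      field_simp
      ring
    rw [e]
    exact exp_le_q 1 hx hx3 hc₀0 (min_le_left _ _)
  have e2 : Real.exp (-(d / x ^ 10 * GG φ d δ (x ^ 4) ψ)) ≤ Real.exp (-(c₀ / x)) := by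
    have e3 : Real.exp (-(d / x ^ 10 * GG φ d δ (x ^ 4) ψ)) ≤ Real.exp (-(d * G / x ^ (9 + 1))) := by
      refine Real.exp_le_exp.2 (neg_le_neg ?_)
      rw [div_mul_eq_mul_div]
      gcongr
    exact e3.trans (exp_le_q 9 hx hx3 hc₀0 (min_le_right _ _))
  have e4 : (x ^ 10 / (d * (x ^ 4 / (40 * d)))) ^ 2 ≤ 1600 := by
    have e : x ^ 10 / (d * (x ^ 4 / (40 * d))) = 40 * x ^ 6 := by field_simp
    rw [e, mul_pow]
    have h1 : (x ^ 6) ^ 2 ≤ 1 := pow_le_one₀ (by positivity) (pow_le_one₀ hx.le hx3)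
    nlinarith
  have e5 : δ * x ^ 4 ≤ 1 := by
    rw [le_div_iff₀ hδ] at hx5'
    linarith
  have e6 : (1 / x ^ 10 + 2 / d ^ 2) ≤ (1 + 2 / d ^ 2) / x ^ 10 := by
    rw [add_div]
    have : 2 / d ^ 2 ≤ 2 / d ^ 2 / x ^ 10 := by
      rw [le_div_iff₀ ht]
      have : 0 < 2 / d ^ 2 := by positivity
      nlinarith
    linarith
  unfold Bs
  calc _ ≤ ((1 + 2 / d ^ 2) / x ^ 10) * (16 * d / x ^ 10) ^ 2 * x ^ 10 *
        (Real.exp (-(c₀ / x)) * 1600 + 1 * (4 * Real.exp (-(c₀ / x)))) := by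
        gcongr
    _ = _ := by
        field_simp
        ring

/-- the total error -/
theorem BB {φ d δ : ℝ} (hφ : 0 < φ) (hφ2 : φ < π / 2) (hd : 0 < d) (hδ : 0 < δ)
    (hδd : δ ≤ d / 16) : ∃ ψ CB c : ℝ, 0 ≤ ψ ∧ ψ ≤ 1 ∧ 0 ≤ CB ∧ 0 < c ∧ ∀ᶠ x : ℝ in 𝓝[>] 0,
    Bt (nv (π / 2 + φ) φ) d δ δ (x ^ 10)
      δ (x ^ 4) (x ^ 4 / (10 * δ)) (4 * δ / (d / x ^ 10)) (x ^ 8 / (100 * d))
      (x ^ 4 / (40 * d)) + Bs φ d δ (x ^ 10) x ψ ≤ CB / x ^ 20 * Real.exp (-(c / x)) := by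
  have htan : 0 < Real.tan φ := Real.tan_pos_of_pos_of_lt_pi_div_two hφ hφ2
  set ψ := min 1 (Real.tan φ / 20) with hψ
  have hψ0 : 0 < ψ := by positivity
  set G := ψ * d * Real.tan φ / 10 with hG
  have hG0 : 0 < G := by positivity
  set c₁ := min (3 / 2 * d * δ) (min (3 * d / (200 * δ)) (1 / 50)) with hc₁
  set c₂ := min (1 / 50) (d * G) with hc₂
  have hc₁0 : 0 < c₁ := by positivity
  have hc₂0 : 0 < c₂ := by positivity
  refine ⟨ψ, (1 + 2 / d ^ 2) * (16 * d) ^ 2 * (8 + 1600) + (1 + 2 / d ^ 2) * (16 * d) ^ 2 * 1604,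
    min c₁ c₂, hψ0.le, min_le_left _ _, by positivity, by positivity, ?_⟩
  filter_upwards [self_mem_nhdsWithin, BtB (φ := φ) hd hδ,
    BsB hφ hφ2 hd hδ hδd hψ0.le (min_le_left _ _) (min_le_right _ _) hG] with x hx0 h1 h2
  have hx : 0 < x := hx0
  have e1 : Real.exp (-(c₁ / x)) ≤ Real.exp (-(min c₁ c₂ / x)) := by
    refine Real.exp_le_exp.2 (neg_le_neg ?_)
    gcongr
    exact min_le_left _ _
  have e2 : Real.exp (-(c₂ / x)) ≤ Real.exp (-(min c₁ c₂ / x)) := by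
    refine Real.exp_le_exp.2 (neg_le_neg ?_)
    gcongr
    exact min_le_right _ _
  calc _ ≤ (1 + 2 / d ^ 2) * (16 * d) ^ 2 * (8 + 1600) / x ^ 20 * Real.exp (-(min c₁ c₂ / x)) +
        (1 + 2 / d ^ 2) * (16 * d) ^ 2 * 1604 / x ^ 20 * Real.exp (-(min c₁ c₂ / x)) :=
        add_le_add (h1.trans (by gcongr)) (h2.trans (by gcongr))
    _ = _ := by ring

/-- real form of two inequalities -/
theorem comb1 {a c₀ c η e κ : ℝ} {L Z : ℝ≥0∞} (ha : 0 ≤ a) (hc₀ : 0 < c₀) (he : 0 ≤ e)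
    (hη : 0 ≤ η) (hc : η < c) (h1 : ENNReal.ofReal a = ENNReal.ofReal c₀ * L) {M : ℝ≥0∞}
    (u1 : L ≤ M + ENNReal.ofReal e) (l1 : M ≤ L + ENNReal.ofReal e)
    (m1 : ENNReal.ofReal (c - η) * Z ≤ M) (m2 : M ≤ ENNReal.ofReal (c + η) * Z)
    (hκ : c₀ * e ≤ κ) : Z ≠ ∞ ∧ |a - c₀ * c * Z.toReal| ≤ c₀ * η * Z.toReal + κ := by
  have hL : L ≠ ∞ := by
    intro h
    rw [h, ENNReal.mul_top (by simpa using hc₀)] at h1
    exact ENNReal.ofReal_ne_top h1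
  have hM : M ≠ ∞ := ne_top_of_le_ne_top (ENNReal.add_ne_top.2 ⟨hL, ENNReal.ofReal_ne_top⟩) l1
  have hZ : Z ≠ ∞ := by
    intro h
    rw [h, ENNReal.mul_top (by
      rw [ne_eq, ENNReal.ofReal_eq_zero]
      linarith)] at m1
    exact hM (top_le_iff.1 m1)
  refine ⟨hZ, ?_⟩
  have h1' : a = c₀ * L.toReal := by
    have := congrArg ENNReal.toReal h1
    rwa [ENNReal.toReal_ofReal ha, ENNReal.toReal_mul, ENNReal.toReal_ofReal hc₀.le] at this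
  have key : ∀ {X Z : ℝ≥0∞}, Z ≠ ∞ → X ≤ Z + ENNReal.ofReal e → X.toReal ≤ Z.toReal + e := by
    intro X Z hZ h
    have := ENNReal.toReal_mono (ENNReal.add_ne_top.2 ⟨hZ, ENNReal.ofReal_ne_top⟩) h
    rwa [ENNReal.toReal_add hZ ENNReal.ofReal_ne_top, ENNReal.toReal_ofReal he] at this
  have u1' := key hM u1
  have l1' := key hL l1
  have m1' : (c - η) * Z.toReal ≤ M.toReal := by
    have := ENNReal.toReal_mono hM m1
    rwa [ENNReal.toReal_mul, ENNReal.toReal_ofReal (by linarith)] at this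
  have m2' : M.toReal ≤ (c + η) * Z.toReal := by
    have := ENNReal.toReal_mono (ENNReal.mul_ne_top ENNReal.ofReal_ne_top hZ) m2
    rwa [ENNReal.toReal_mul, ENNReal.toReal_ofReal (by linarith)] at this
  set x := L.toReal
  set y := M.toReal
  set z := Z.toReal
  have a1 : c₀ * x ≤ c₀ * ((c + η) * z + e) := by gcongr; linarith
  have a2 : c₀ * ((c - η) * z) ≤ c₀ * (x + e) := by gcongr; linarith
  rw [h1', abs_le]
  constructor <;> nlinarith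

/-- the parameters -/
noncomputable def ZZ (d δ x : ℝ) (m : ℕ) : ℝ≥0∞ :=
  Ms (Tk (x ^ 10 / ((m : ℝ) + 1))) d δ δ (x ^ 4) (x ^ 10 / ((m : ℝ) + 1)) m
    (Nt (x ^ 10) (4 * δ / (d / x ^ 10)) m)

theorem side (hSU : S_SU) (hKR : S_KR) (hBR : S_BR) (hE3 : S_E3) (hMO : S_MO) (hGW : S_GW)
    (hKF : S_KF) {α φ d ε κ : ℝ} (hα : 0 < α) (hφ : 0 < φ) (hαφ : φ + α < π / 2)
    (hd : 0 < d) (hε : 0 < ε) (hκ : 0 < κ) (k : ℕ)
    (hLB : ∀ᶠ x : ℝ in 𝓝[>] 0, ∀ᶠ m : ℕ in atTop,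
      0 ≤ Nn α (π / 2 + φ) (d / Real.cos φ) (x ^ 10) (m + 1)) :
    ∃ δ₀ : ℝ, 0 < δ₀ ∧ ∀ δ : ℝ, 0 < δ → δ ≤ δ₀ → ∀ᶠ x : ℝ in 𝓝[>] 0, ∀ᶠ m : ℕ in atTop,
      ZZ d δ x m ≠ ∞ ∧ |Nn α (π / 2 + φ) (d / Real.cos φ) (x ^ 10) (m + 1) - 4 * π * x ^ 10 *
        (Df α φ + x ^ 10 / (2 * d ^ 2) * mm 2 α) * (ZZ d δ x m).toReal| ≤
        4 * π * x ^ 10 * (ε * x ^ 10) * (ZZ d δ x m).toReal +
          κ * (x ^ 10) ^ k * Real.exp (-(d ^ 2 / x ^ 10)) := by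
  have hpi := Real.pi_gt_three
  have hφ2 : φ < π / 2 := by linarith
  obtain ⟨η, hη, hE⟩ := hE3 α φ d ε hα hφ hαφ hd hε
  refine ⟨min (d / 16) (min (η / 2) (η * d / 8)), by positivity, fun δ hδ hδ₀ => ?_⟩
  have hδd : δ ≤ d / 16 := hδ₀.trans (min_le_left _ _)
  have hδη : δ ≤ η / 2 := hδ₀.trans ((min_le_right _ _).trans (min_le_left _ _))
  have hδη2 : δ ≤ η * d / 8 := hδ₀.trans ((min_le_right _ _).trans (min_le_right _ _))
  obtain ⟨ψ, CB, c, hψ, hψ1, hCB, hc, hB⟩ := BB hφ hφ2 hd hδ hδd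
  have hD : 0 < Df α φ := by
    have h1 := hMO.2.2.2.2 α hα
    have h2 := h1.1 (⟨le_rfl, by linarith⟩ : (0 : ℝ) ∈ Ico 0 (π / 2 - α))
      (⟨hφ.le, by linarith⟩ : φ ∈ Ico 0 (π / 2 - α)) hφ
    rwa [h1.2] at h2
  have hm2 : 0 < mm 2 α := (hMO.2.1 2 α hα (by linarith)).2
  have hsψ : 0 < Real.sin (π / 2 - α - φ) :=
    Real.sin_pos_of_pos_of_lt_pi (by linarith) (by linarith)
  have e1 := err_small hc hCB (R := 4 * π) (by positivity) hκ k
  have e2 := pow_small 9 (c := η / 2) (by positivity)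
  have e3 := pow_small 1 (c := η) (by positivity)
  have e4 := pow_small 3 (c := 3 / 8 * d * Real.sin (π / 2 - α - φ)) (by positivity)
  have e5 := pow_small 9 (c := Df α φ / (2 * ε)) (by positivity)
  filter_upwards [self_mem_nhdsWithin, pow_small 0 (c := 1) (by norm_num), e1, e2, e3, e4, e5, hB,
    ptB (φ := φ) hα hφ.le hαφ hd hδ hδd, xcB hα hφ hαφ hd hδ hδd, hLB]
    with x hx0 hx1 e1 e2 e3 e4 e5 hB p hX hLB
  have hx : 0 < x := hx0
  rw [zero_add, pow_one] at hx1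
  set t := x ^ 10 with htdef
  have ht : 0 < t := by positivity
  have ht1 : t ≤ 1 := pow_le_one₀ hx.le hx1
  have ht2 : t ≤ η / 2 := e2
  have hx2 : x ^ 2 ≤ η := e3
  have hx4 : x ^ 4 ≤ 3 / 8 * d * Real.sin (π / 2 - α - φ) := e4
  have hxε : t ≤ Df α φ / (2 * ε) := e5
  have hY2 : x ^ 4 < 3 / 4 * d * Real.sin (π / 2 - α - φ) := by
    have : 0 < 3 / 8 * d * Real.sin (π / 2 - α - φ) := by positivity
    linarith
  set q₀ := Real.exp (-(1 / x)) with hq₀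
  have hq₀0 : 0 < q₀ := Real.exp_pos _
  filter_upwards [fixed_s hSU hKR hX hY2 p hψ hψ1 hq₀0, p.par, hLB] with m f hp hN
  have hB0 := Bt_nonneg (n := nv (π / 2 + φ) φ) (d := d) (δ := δ) (δ' := δ) (Y := x ^ 4)
    (θ := x ^ 4 / (10 * δ)) (Tt := 4 * δ / (d / t)) (g := x ^ 8 / (100 * d))
    (c := x ^ 4 / (40 * d)) ht hδ.le (by positivity)
  have hBs0 := Bs_nonneg (φ := φ) (d := d) (x := x) (ψ := ψ) ht hδ.le
  set B := Bt (nv (π / 2 + φ) φ) d δ δ t δ (x ^ 4) (x ^ 4 / (10 * δ)) (4 * δ / (d / t))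
      (x ^ 8 / (100 * d)) (x ^ 4 / (40 * d)) + Bs φ d δ t x ψ with hBdef
  have hB0' : 0 ≤ B := by positivity
  have hTk := Ms_Tk hGW hKF hE hX hY2 hp (by
      have e6 : 4 * δ / (d / t) = 4 * δ / d * t := by field_simp
      have e7 : 4 * δ / d ≤ η / 2 := by
        rw [div_le_iff₀ hd]
        linarith
      rw [e6]
      have : 4 * δ / d * t ≤ η / 2 * t := by gcongr
      linarith) (by linarith) (by linarith) (by
      have e6 : x ^ 10 = x ^ 2 * (x ^ 4) ^ 2 := by ring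
      rw [htdef, e6]
      gcongr) (by
      have e6 : (x ^ 4) ^ 3 = x ^ 2 * x ^ 10 := by ring
      rw [e6]
      gcongr) (by
      have h1 : ε * t ≤ ε * (Df α φ / (2 * ε)) := by gcongr
      have h2 : ε * (Df α φ / (2 * ε)) = Df α φ / 2 := by field_simp
      have : 0 ≤ t / (2 * d ^ 2) * mm 2 α := by positivity
      linarith) hε.le
  have hcon := con (φ := φ) hBR hα (by linarith : 0 < π / 2 + φ) (by linarith)
    (l := d / Real.cos φ) (div_pos hd (Real.cos_pos_of_mem_Ioo ⟨by linarith, hφ2⟩)) ht m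
  have hsin : d / Real.cos φ * Real.sin (π / 2 + φ) = d := by
    have h1 : Real.sin (π / 2 + φ) = Real.cos φ := by
      rw [add_comm, Real.sin_add_pi_div_two]
    have h2 : 0 < Real.cos φ := Real.cos_pos_of_mem_Ioo ⟨by linarith, hφ2⟩
    rw [h1]
    field_simp
  rw [hsin] at hcon
  have herr : 4 * π * t * (Real.exp (-(d ^ 2 / t)) * (B + q₀)) ≤
      κ * t ^ k * Real.exp (-(d ^ 2 / t)) := by
    have h3 : 4 * π * (B + q₀) ≤ κ * t ^ k := e1 B hB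
    calc 4 * π * t * (Real.exp (-(d ^ 2 / t)) * (B + q₀)) =
          t * ((4 * π * (B + q₀)) * Real.exp (-(d ^ 2 / t))) := by ring
      _ ≤ 1 * ((κ * t ^ k) * Real.exp (-(d ^ 2 / t))) := by gcongr
      _ = _ := by ring
  exact comb1 hN (by positivity) (by positivity) (by positivity) (by
    have h1 : ε * t ≤ ε * (Df α φ / (2 * ε)) := by gcongr
    have h2 : ε * (Df α φ / (2 * ε)) = Df α φ / 2 := by field_simp
    have : 0 ≤ t / (2 * d ^ 2) * mm 2 α := by positivity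
    linarith) hcon f.1 f.2 hTk.1 hTk.2 herr

end Pool.Agent.N275.QD
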