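import Pool.Agent.N275.QD.Lim

set_option autoImplicit false

/-!
# Project QD: small errors, and the comparison of two kernels
-/

namespace Pool.Agent.N275.QD

open MeasureTheory Set Filter Topology Complex
open scoped Real ENNReal ComplexConjugate

/-- exponentially small quantities -/
theorem exp_small {c₀ : ℝ} (hc : 0 < c₀) (C : ℝ) (p K : ℕ) {ε : ℝ} (hε : 0 < ε) :
    ∀ᶠ x : ℝ in 𝓝[>] 0, C / x ^ p * Real.exp (-(c₀ / x)) ≤ ε * x ^ K := by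
  have h1 : Tendsto (fun y : ℝ => y ^ (p + K) * Real.exp (-(c₀ * y))) atTop (𝓝 0) := by
    have h3 := (Real.tendsto_pow_mul_exp_neg_atTop_nhds_zero (p + K)).comp
      (tendsto_id.const_mul_atTop hc)
    have h4 := h3.const_mul ((c₀ ^ (p + K))⁻¹)
    rw [mul_zero] at h4
    refine h4.congr fun y => ?_
    simp only [Function.comp_apply, id]
    rw [mul_pow]
    field_simp
  have h2 := (h1.const_mul C).comp tendsto_inv_nhdsGT_zero
  rw [mul_zero] at h2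
  filter_upwards [h2.eventually (ge_mem_nhds hε), self_mem_nhdsWithin] with x hx hx0
  have hx1 : 0 < x := hx0
  simp only [Function.comp_apply] at hx
  have h3 : C / x ^ p * Real.exp (-(c₀ / x)) =
      C * (x⁻¹ ^ (p + K) * Real.exp (-(c₀ * x⁻¹))) * x ^ K := by
    rw [div_eq_mul_inv c₀ x, inv_pow, pow_add]
    field_simp
  rw [h3]
  exact mul_le_mul_of_nonneg_right hx (by positivity)

/-- the bound of `Bt` by its parts -/
theorem Bt_le {n : ℂ} {d δ δ' t kk Y θ Tt g c x CL C₂ q : ℝ} (ht : 0 < t) (hd : 0 < d)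
    (hx : 0 < x) (hx1 : x ≤ 1) (htx : t = x ^ 10) (hL0 : 0 ≤ Lc n d δ' t)
    (hL : Lc n d δ' t ≤ CL / x ^ 10) (hk0 : 0 ≤ kk) (hY0 : 0 ≤ Y) (hkY : kk * Y ≤ 1)
    (h1 : gT (d / t) kk δ Tt ≤ q) (h2 : gY (d / t) kk δ Y θ ≤ q)
    (h3 : Real.exp (-(2 * (d / t) * g)) ≤ q) (h4 : Real.exp (-(2 * (d / t) * δ)) ≤ q)
    (h5 : (t / (d * c)) ^ 2 ≤ C₂) :
    Bt n d δ δ' t kk Y θ Tt g c ≤ (1 + 2 / d ^ 2) * CL ^ 2 * (8 + C₂) / x ^ 20 * q := by
  have hq : 0 ≤ q := (Real.exp_pos _).le.trans h4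
  have hC₂ : 0 ≤ C₂ := (sq_nonneg _).trans h5
  have ht1 : t ≤ 1 := by
    rw [htx]
    exact pow_le_one₀ hx.le hx1
  have e1 : 1 / t + 2 / d ^ 2 ≤ (1 + 2 / d ^ 2) / t := by
    rw [add_div]
    have : 2 / d ^ 2 ≤ 2 / d ^ 2 / t := by
      rw [le_div_iff₀ ht]
      have : 0 < 2 / d ^ 2 := by positivity
      nlinarith
    linarith
  have e2 : Lc n d δ' t ^ 2 ≤ (CL / x ^ 10) ^ 2 := by gcongr
  have e3 : kk * Y * (2 * (gT (d / t) kk δ Tt + 2 * gY (d / t) kk δ Y θ)) ≤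
      1 * (2 * (q + 2 * q)) := by
    have h6 : 0 < gT (d / t) kk δ Tt := Real.exp_pos _
    have h7 : 0 < gY (d / t) kk δ Y θ := Real.exp_pos _
    gcongr
  have e4 : Real.exp (-(2 * (d / t) * g)) * (t / (d * c)) ^ 2 ≤ q * C₂ := by gcongr
  have e5 : kk * Y * (2 * Real.exp (-(2 * (d / t) * δ))) ≤ 1 * (2 * q) := by gcongr
  unfold Bt
  calc _ ≤ ((1 + 2 / d ^ 2) / t) * (CL / x ^ 10) ^ 2 * t * (1 * (2 * (q + 2 * q)) + q * C₂ +
        1 * (2 * q)) := by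
        have h6 : 0 < gT (d / t) kk δ Tt := Real.exp_pos _
        have h7 : 0 < gY (d / t) kk δ Y θ := Real.exp_pos _
        gcongr
    _ = _ := by
        field_simp
        ring

/-- combination of the four inequalities -/
theorem combine {a b c₀ ρ η e₁ e₂ : ℝ} {L₁ L₂ M₁ M₂ : ℝ≥0∞} (ha : 0 ≤ a) (hb : 0 ≤ b)
    (hc : 0 < c₀) (he₁ : 0 ≤ e₁) (he₂ : 0 ≤ e₂) (hη : 0 ≤ η) (hρ : η ≤ ρ)
    (h1 : ENNReal.ofReal a = ENNReal.ofReal c₀ * L₁) (h2 : ENNReal.ofReal b = ENNReal.ofReal c₀ * L₂)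
    (u1 : L₁ ≤ M₁ + ENNReal.ofReal e₁) (l1 : M₁ ≤ L₁ + ENNReal.ofReal e₁)
    (u2 : L₂ ≤ M₂ + ENNReal.ofReal e₂) (l2 : M₂ ≤ L₂ + ENNReal.ofReal e₂)
    (m1 : M₁ ≤ ENNReal.ofReal (ρ + η) * M₂) (m2 : ENNReal.ofReal (ρ - η) * M₂ ≤ M₁) :
    |a - ρ * b| ≤ η * b + c₀ * ((ρ + η) * e₂ + e₁) := by
  have hL₁ : L₁ ≠ ∞ := by
    intro h
    rw [h, ENNReal.mul_top (by simpa using hc)] at h1
    exact ENNReal.ofReal_ne_top h1
  have hL₂ : L₂ ≠ ∞ := by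
    intro h
    rw [h, ENNReal.mul_top (by simpa using hc)] at h2
    exact ENNReal.ofReal_ne_top h2
  have hM₁ : M₁ ≠ ∞ := ne_top_of_le_ne_top (ENNReal.add_ne_top.2 ⟨hL₁, ENNReal.ofReal_ne_top⟩) l1
  have hM₂ : M₂ ≠ ∞ := ne_top_of_le_ne_top (ENNReal.add_ne_top.2 ⟨hL₂, ENNReal.ofReal_ne_top⟩) l2
  have h1' : a = c₀ * L₁.toReal := by
    have := congrArg ENNReal.toReal h1
    rwa [ENNReal.toReal_ofReal ha, ENNReal.toReal_mul, ENNReal.toReal_ofReal hc.le] at this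
  have h2' : b = c₀ * L₂.toReal := by
    have := congrArg ENNReal.toReal h2
    rwa [ENNReal.toReal_ofReal hb, ENNReal.toReal_mul, ENNReal.toReal_ofReal hc.le] at this
  have key : ∀ {X Z : ℝ≥0∞} {e : ℝ}, Z ≠ ∞ → 0 ≤ e → X ≤ Z + ENNReal.ofReal e →
      X.toReal ≤ Z.toReal + e := by
    intro X Z e hZ he h
    have := ENNReal.toReal_mono (ENNReal.add_ne_top.2 ⟨hZ, ENNReal.ofReal_ne_top⟩) h
    rwa [ENNReal.toReal_add hZ ENNReal.ofReal_ne_top, ENNReal.toReal_ofReal he] at this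
  have u1' := key hM₁ he₁ u1
  have l1' := key hL₁ he₁ l1
  have u2' := key hM₂ he₂ u2
  have l2' := key hL₂ he₂ l2
  have m1' : M₁.toReal ≤ (ρ + η) * M₂.toReal := by
    have := ENNReal.toReal_mono (ENNReal.mul_ne_top ENNReal.ofReal_ne_top hM₂) m1
    rwa [ENNReal.toReal_mul, ENNReal.toReal_ofReal (by linarith)] at this
  have m2' : (ρ - η) * M₂.toReal ≤ M₁.toReal := by
    have := ENNReal.toReal_mono hM₁ m2
    rwa [ENNReal.toReal_mul, ENNReal.toReal_ofReal (by linarith)] at this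
  set x₁ := L₁.toReal
  set x₂ := L₂.toReal
  set y₁ := M₁.toReal
  set y₂ := M₂.toReal
  have a1 : a ≤ c₀ * ((ρ + η) * (x₂ + e₂) + e₁) := by
    rw [h1']
    gcongr
    calc x₁ ≤ y₁ + e₁ := u1'
      _ ≤ (ρ + η) * y₂ + e₁ := by gcongr
      _ ≤ _ := by
        have : (ρ + η) * y₂ ≤ (ρ + η) * (x₂ + e₂) := mul_le_mul_of_nonneg_left l2' (by linarith)
        linarith
  have a2 : c₀ * ((ρ - η) * (x₂ - e₂) - e₁) ≤ a := by
    rw [h1']
    gcongr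
    have h3 : (ρ - η) * (x₂ - e₂) ≤ (ρ - η) * y₂ :=
      mul_le_mul_of_nonneg_left (by linarith) (by linarith)
    linarith
  rw [abs_le]
  have e3 : 0 ≤ c₀ * (η * e₂) := by positivity
  constructor
  · have : a - ρ * b ≥ c₀ * ((ρ - η) * (x₂ - e₂) - e₁) - ρ * b := by linarith
    rw [h2'] at this ⊢
    nlinarith
  · rw [h2']
    nlinarith

/-- small arguments -/
theorem arg_small {z : ℂ} {r ψ : ℝ} (hr : 0 < r) (hz : r ≤ z.re) (hψ : 0 < ψ)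
    (hψ2 : ψ ≤ π / 2) (h : |z.im| < r * Real.sin ψ) : |arg z| < ψ := by
  have hre : 0 < z.re := hr.trans_le hz
  have hn : r ≤ ‖z‖ := hz.trans (re_le_norm z)
  have hn0 : 0 < ‖z‖ := hr.trans_le hn
  have hs : 0 < Real.sin ψ := Real.sin_pos_of_pos_of_lt_pi hψ (by linarith [Real.pi_pos])
  rw [Complex.arg_of_re_nonneg hre.le]
  have h1 : |z.im / ‖z‖| < Real.sin ψ := by
    rw [abs_div, abs_of_pos hn0, div_lt_iff₀ hn0]
    refine h.trans_le ?_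
    rw [mul_comm]
    gcongr
  rw [abs_lt] at h1 ⊢
  constructor
  · rw [Real.lt_arcsin_iff_sin_lt' ⟨by linarith, by linarith⟩, Real.sin_neg]
    exact h1.1
  · rw [Real.arcsin_lt_iff_lt_sin' ⟨by linarith, hψ2⟩]
    exact h1.2

/-- changing the variable `t = x ^ 10` -/
theorem root10 {P : ℝ → Prop} (h : ∀ᶠ x : ℝ in 𝓝[>] 0, P (x ^ 10)) :
    ∃ t₀ : ℝ, 0 < t₀ ∧ ∀ t : ℝ, 0 < t → t < t₀ → P t := by
  obtain ⟨x₀, hx₀, hP⟩ := mem_nhdsGT_iff_exists_Ioo_subset.1 h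
  have hx₀' : (0 : ℝ) < x₀ := hx₀
  refine ⟨x₀ ^ 10, by positivity, fun t ht0 ht => ?_⟩
  have h1 : (t ^ ((10 : ℝ)⁻¹)) ^ 10 = t := by
    rw [← Real.rpow_natCast, ← Real.rpow_mul ht0.le]
    norm_num
  have h2 : 0 < t ^ ((10 : ℝ)⁻¹) := Real.rpow_pos_of_pos ht0 _
  have h3 : t ^ ((10 : ℝ)⁻¹) < x₀ := by
    by_contra hcon
    push Not at hcon
    have : x₀ ^ 10 ≤ (t ^ ((10 : ℝ)⁻¹)) ^ 10 := by gcongr
    rw [h1] at this
    linarith
  have := hP ⟨h2, h3⟩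
  rwa [mem_ofPred_eq, h1] at this

end Pool.Agent.N275.QD
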