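import Pool.Agent.N275.QD.T0
import Pool.Agent.N670.QD.FT

set_option autoImplicit false

/-!
# Project QD: from the legs in the domain to the legs in a strip
-/

namespace Pool.Agent.N275.QD

open MeasureTheory Set Filter Topology Complex
open Pool.Agent.R225.LP (gk ks ip ip_self ip_sub_right ip_sub_left ip_add_left ip_add_right
  ip_smul_left ip_smul_right norm_sq_add norm_sq_sub lint_exp gk_pos gk_nonneg gk_cont nG lint_nG
  mgf_nG gkE_meas ip_cont)
open Pool.Agent.R225.LP.TR (ch ch_meas meas_left meas_right ch_mono_set kp kp_meas kp_comm ks_eq)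
open scoped Real ENNReal ComplexConjugate

/-- the strip -/
def St (d δ : ℝ) (b : ℂ) : Set ℂ := {z | z.re ∈ Ioo (d - δ) b.re}

theorem St_meas (d δ : ℝ) (b : ℂ) : MeasurableSet (St d δ b) :=
  continuous_re.measurable measurableSet_Ioo

/-- the main part with legs in the strip -/
noncomputable def Ms (K : ℕ → ℂ → ℂ → ℝ≥0∞) (d δ kk Y s : ℝ) (m N : ℕ) : ℝ≥0∞ :=
  ((m + 1 : ℕ) : ℝ≥0∞) * ∫⁻ b in {b : ℂ | d ≤ b.re ∧ b.re ≤ d + kk},
    Ess K (St d δ b) (Sg d δ Y) s m N b

theorem ess_mono_set {K : ℕ → ℂ → ℂ → ℝ≥0∞} {R R' S S' : Set ℂ} (hR : R ⊆ R') (hS : S ⊆ S')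
    (s : ℝ) (m N : ℕ) (b : ℂ) : Ess K R S s m N b ≤ Ess K R' S' s m N b := by
  unfold Ess
  refine Finset.sum_le_sum fun i _ => Finset.sum_le_sum fun j _ => ?_
  refine (lintegral_mono fun u => ?_).trans (lintegral_mono_set hS)
  refine mul_le_mul' (ch_mono_set hR i b u) ?_
  refine (lintegral_mono fun v => ?_).trans (lintegral_mono_set hS)
  exact mul_le_mul' le_rfl (ch_mono_set hR j v b)

theorem Qb_St {φ d δ : ℝ} (b : ℂ) :
    Qb (nv (π / 2 + φ) φ) (Hh φ) b \ Vh (d - δ) = St d δ b \ (Hh φ)ᶜ := by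
  ext z
  constructor
  · rintro ⟨⟨h1, h2⟩, h3⟩
    have h2' : ip (nv (π / 2 + φ) φ) z < ip (nv (π / 2 + φ) φ) b := h2
    rw [nvB_ip, nvB_ip] at h2'
    have h3' : ¬ z.re ≤ d - δ := h3
    exact ⟨⟨lt_of_not_ge h3', h2'⟩, fun h => h h1⟩
  · rintro ⟨⟨h1, h2⟩, h3⟩
    refine ⟨⟨?_, ?_⟩, ?_⟩
    · by_contra h
      exact h3 h
    · change ip (nv (π / 2 + φ) φ) z < ip (nv (π / 2 + φ) φ) b
      rw [nvB_ip, nvB_ip]
      exact h2
    · intro h
      have h' : z.re ≤ d - δ := h
      linarith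

theorem Mn_le_Ms {K : ℕ → ℂ → ℂ → ℝ≥0∞} {φ d δ kk Y s : ℝ} {m N : ℕ} :
    Mn K (nv (π / 2 + φ) φ) (Hh φ) (Tv (π / 2 + φ) φ d) d δ kk Y s m N ≤
      Ms K d δ kk Y s m N := by
  unfold Mn Ms
  gcongr ((m + 1 : ℕ) : ℝ≥0∞) * ?_
  refine (lintegral_mono fun b => ?_).trans (lintegral_mono_set ?_)
  · refine ess_mono_set ?_ inter_subset_right s m N b
    rw [Qb_St]
    exact sdiff_subset
  · rintro b ⟨⟨h1, _⟩, h2, _⟩
    have h1' : d ≤ ip (nv (π / 2 + φ) φ) b := h1
    rw [nvB_ip] at h1'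
    exact ⟨h1', h2⟩

/-- the loss -/
theorem ess_loss {K : ℕ → ℂ → ℂ → ℝ≥0∞} {R G S : Set ℂ} {s : ℝ}
    (hG : MeasurableSet G) (hS : MeasurableSet S)
    (hK : ∀ k, Measurable (Function.uncurry (K k))) {m N : ℕ} {b : ℂ} {w : ℕ → ℂ → ℝ≥0∞}
    (hw : ∀ i, Measurable (w i)) {C : ℝ≥0∞} (hs0 : 0 < s)
    (h : ∀ i < N, ∀ j < N, ∀ u ∈ S, ∀ v ∈ S, K (m - 1 - i - 1 - j) u v ≤ C * (w i u * w j v)) :
    Ess K R S s m N b ≤ Ess K (R \ G) S s m N b + C * (2 *
      (∑ i ∈ Finset.range N, ∫⁻ u in S, hc (kp s) R G i b u * w i u) *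
      (∑ i ∈ Finset.range N, ∫⁻ u in S, ch (kp s) R i b u * w i u)) := by
  have hX : ∀ i, Measurable (fun u => ch (kp s) R i b u) :=
    fun i => meas_right (ch_meas (kp_meas s) R i) b
  have hXw : ∀ i, Measurable (fun u => ch (kp s) R i b u * w i u) := fun i => (hX i).mul (hw i)
  have hD : ∀ i, Measurable (fun u => hc (kp s) R G i b u) :=
    fun i => meas_right (hc_meas (kp_meas s) R G i) b
  have hDw : ∀ i, Measurable (fun u => hc (kp s) R G i b u * w i u) := fun i => (hD i).mul (hw i)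
  have hx : ∀ i, Measurable (fun u => ch (kp s) (R \ G) i b u) :=
    fun i => meas_right (ch_meas (kp_meas s) (R \ G) i) b
  set BD := fun i => ∫⁻ u in S, hc (kp s) R G i b u * w i u with hBD
  set BX := fun i => ∫⁻ u in S, ch (kp s) R i b u * w i u with hBX
  have key : ∀ i ∈ Finset.range N, ∀ j ∈ Finset.range N,
      ∫⁻ u in S, ch (kp s) R i b u * ∫⁻ v in S, K (m - 1 - i - 1 - j) u v * ch (kp s) R j v b ≤
      (∫⁻ u in S, ch (kp s) (R \ G) i b u * ∫⁻ v in S, K (m - 1 - i - 1 - j) u v *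
        ch (kp s) (R \ G) j v b) + C * (BD i * BX j + BX i * BD j) := by
    intro i hi j hj
    have hKv : ∀ u, Measurable (fun v => K (m - 1 - i - 1 - j) u v * ch (kp s) (R \ G) j v b) :=
      fun u => (meas_right (hK _) u).mul (meas_left (ch_meas (kp_meas s) (R \ G) j) b)
    have hv : ∀ u ∈ S, ch (kp s) R i b u * ∫⁻ v in S, K (m - 1 - i - 1 - j) u v *
        ch (kp s) R j v b ≤ ch (kp s) (R \ G) i b u * (∫⁻ v in S, K (m - 1 - i - 1 - j) u v *
        ch (kp s) (R \ G) j v b) + (C * BX j * (hc (kp s) R G i b u * w i u) +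
          C * BD j * (ch (kp s) R i b u * w i u)) := by
      intro u hu
      have a1 : ∫⁻ v in S, K (m - 1 - i - 1 - j) u v * ch (kp s) R j v b =
          (∫⁻ v in S, K (m - 1 - i - 1 - j) u v * ch (kp s) (R \ G) j v b) +
          ∫⁻ v in S, K (m - 1 - i - 1 - j) u v * hc (kp s) R G j v b := by
        rw [← lintegral_add_left (hKv u)]
        refine lintegral_congr fun v => ?_
        rw [ch_split (kp_meas s) R hG j v b]
        ring
      have a2 : ∫⁻ v in S, K (m - 1 - i - 1 - j) u v * hc (kp s) R G j v b ≤ C * w i u * BD j := by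
        rw [hBD, ← lintegral_const_mul _ (hDw j)]
        refine setLIntegral_mono' hS fun v hv => ?_
        refine (mul_le_mul_left (h i (Finset.mem_range.1 hi) j (Finset.mem_range.1 hj) u hu v
          hv) _).trans (le_of_eq ?_)
        rw [hc_symm (kp_meas s) (kp_comm s) R hG (ch_ne hs0) j b v]
        ring
      have a3 : ∫⁻ v in S, K (m - 1 - i - 1 - j) u v * ch (kp s) R j v b ≤ C * w i u * BX j := by
        rw [hBX, ← lintegral_const_mul _ (hXw j)]
        refine setLIntegral_mono' hS fun v hv => ?_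
        refine (mul_le_mul_left (h i (Finset.mem_range.1 hi) j (Finset.mem_range.1 hj) u hu v
          hv) _).trans (le_of_eq ?_)
        rw [ch_symm (kp_meas s) (kp_comm s) R j b v]
        ring
      calc ch (kp s) R i b u * ∫⁻ v in S, K (m - 1 - i - 1 - j) u v * ch (kp s) R j v b
          = ch (kp s) (R \ G) i b u * (∫⁻ v in S, K (m - 1 - i - 1 - j) u v *
              ch (kp s) R j v b) + hc (kp s) R G i b u * (∫⁻ v in S,
              K (m - 1 - i - 1 - j) u v * ch (kp s) R j v b) := by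
            rw [← add_mul, ← ch_split (kp_meas s) R hG i b u]
        _ ≤ ch (kp s) (R \ G) i b u * ((∫⁻ v in S, K (m - 1 - i - 1 - j) u v *
              ch (kp s) (R \ G) j v b) + C * w i u * BD j) + hc (kp s) R G i b u *
              (C * w i u * BX j) := by
            gcongr
            rw [a1]
            gcongr
        _ ≤ ch (kp s) (R \ G) i b u * (∫⁻ v in S, K (m - 1 - i - 1 - j) u v *
              ch (kp s) (R \ G) j v b) + ch (kp s) R i b u * (C * w i u * BD j) +
              hc (kp s) R G i b u * (C * w i u * BX j) := by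
            rw [mul_add]
            gcongr
            exact ch_mono_set sdiff_subset i b u
        _ = _ := by ring
    refine (setLIntegral_mono' hS hv).trans (le_of_eq ?_)
    have hsum : Measurable (fun u => C * BX j * (hc (kp s) R G i b u * w i u) +
          C * BD j * (ch (kp s) R i b u * w i u)) :=
      ((hDw i).const_mul _).add ((hXw i).const_mul _)
    rw [lintegral_add_right _ hsum,
      lintegral_add_left ((hDw i).const_mul _), lintegral_const_mul _ (hDw i),
      lintegral_const_mul _ (hXw i)]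
    simp only [hBD, hBX]
    ring
  unfold Ess
  calc _ ≤ ∑ i ∈ Finset.range N, ∑ j ∈ Finset.range N,
        ((∫⁻ u in S, ch (kp s) (R \ G) i b u * ∫⁻ v in S, K (m - 1 - i - 1 - j) u v *
        ch (kp s) (R \ G) j v b) + C * (BD i * BX j + BX i * BD j)) :=
        Finset.sum_le_sum fun i hi => Finset.sum_le_sum fun j hj => key i hi j hj
    _ = _ := by
        simp_rw [Finset.sum_add_distrib, ← Finset.mul_sum, Finset.sum_add_distrib,
          ← Finset.mul_sum, ← Finset.sum_mul]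
        ring

/-! ## The leg sums in the strip -/

/-- the situation of the strip -/
theorem sitS {d δ : ℝ} (hd : 0 < d) (hδ : 0 < δ) (hδd : δ ≤ d / 8) {b : ℂ} (hb : d ≤ b.re) :
    Sit 1 {z : ℂ | z.re < b.re} ∅ b d δ δ :=
  { hn := by simp
    hr := by simp
    Qm := (isOpen_lt continuous_re continuous_const).measurableSet
    Am := MeasurableSet.empty
    A0 := fun z hz => hz.elim
    Qn := fun z hz => by
      rw [ip_one, ip_one]
      exact hz
    Qc := fun z _ hz' => by
      rw [ip_one, ip_one]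
      linarith
    hd := hd
    hδ := hδ
    hδd := hδd
    hδ' := hδ
    hb := hb }

theorem St_eq {d δ : ℝ} (b : ℂ) : {z : ℂ | z.re < b.re} \ Vh (d - δ) = St d δ b := by
  ext z
  constructor
  · rintro ⟨h1, h2⟩
    have h2' : ¬ z.re ≤ d - δ := h2
    exact ⟨lt_of_not_ge h2', h1⟩
  · rintro ⟨h1, h2⟩
    refine ⟨h2, fun h => ?_⟩
    have h' : z.re ≤ d - δ := h
    linarith

theorem Sg_sub {d δ Y : ℝ} (hδ : 0 < δ) {b : ℂ} (hb : d ≤ b.re) :
    Sg d δ Y ⊆ {z : ℂ | z.re < b.re} ∩ Vh (d - δ) := by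
  rintro z ⟨_, h2, _⟩
  refine ⟨?_, h2⟩
  change z.re < b.re
  linarith

/-- tilted legs in the strip -/
theorem tiltS (hSU : S_SU) {d δ Y : ℝ} (hd : 0 < d) (hδ : 0 < δ) (hδd : δ ≤ d / 8) {b : ℂ}
    (hb : d ≤ b.re) {s t : ℝ} (hs : 0 < s) (ht : 0 < t) (hst : d / t * √s ≤ 1) {w : ℂ}
    (hw : ‖w‖ = 1) (hw2 : 1 / 2 ≤ w.re) (N : ℕ) :
    ∑ i ∈ Finset.range N, ∫⁻ u in Sg d δ Y, ch (kp s) (St d δ b) i b u *
      (rr s (((d / t : ℝ) : ℂ) * w) ^ (i + 1) *
        ENNReal.ofReal (Real.exp (-(ip (((d / t : ℝ) : ℂ) * w) u)))) ≤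
      ENNReal.ofReal (Real.exp (-(d / t * ip w b)) * (Lc 1 d δ t * √s)) := by
  have hl : 0 < d / t := by positivity
  have h := (sitS hd hδ hδd hb).tilt hSU hs ht hst (L := ((d / t : ℝ) : ℂ) * w) (by
    rw [norm_mul, hw, mul_one, Complex.norm_real, Real.norm_eq_abs, abs_of_pos hl]) (by
    rw [ip_smul_left, one_re, mul_one]
    have : ip w 1 = w.re := by simp [ip]
    rw [this]
    nlinarith) (Sg_meas d δ Y) (Sg_sub hδ hb) N
  rw [St_eq, ip_smul_left] at h
  refine le_trans (le_of_eq ?_) h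
  unfold lg
  refine Finset.sum_congr rfl fun i _ => ?_
  rw [← lintegral_const_mul' _ _ (ENNReal.pow_ne_top (rr_ne s _))]
  refine lintegral_congr fun u => ?_
  ring

/-- an elementary inequality -/
theorem exp_conc {κ y : ℝ} (hκ : 0 ≤ κ) (hκ1 : κ ≤ 1) :
    κ * (1 - Real.exp (-y)) ≤ 1 - Real.exp (-(κ * y)) := by
  have h := convexOn_exp.2 (mem_univ (-y)) (mem_univ (0 : ℝ)) hκ (by linarith : 0 ≤ 1 - κ)
    (by ring)
  simp only [smul_eq_mul, mul_zero, add_zero, Real.exp_zero, mul_one] at h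
  have e : κ * -y = -(κ * y) := by ring
  rw [e] at h
  linarith

/-- the legs which leave the half-plane -/
theorem lossS (hSU : S_SU) {φ d δ Y : ℝ} (hφ : 0 < φ) (hφ2 : φ < π / 2) (hd : 0 < d) (hδ : 0 < δ)
    (hδd : δ ≤ d / 8) {b : ℂ} (hb : d ≤ b.re) {s t : ℝ} (hs : 0 < s) (ht : 0 < t)
    (hst : d / t * √s ≤ 1) {ψ : ℝ} (hψ : 0 ≤ ψ) (hψ1 : ψ ≤ 1) (N : ℕ) :
    ∑ i ∈ Finset.range N, ∫⁻ u in Sg d δ Y, hc (kp s) (St d δ b) (Hh φ)ᶜ i b u *
      (rr s ((d / t : ℝ) : ℂ) ^ (i + 1) *
        ENNReal.ofReal (Real.exp (-(ip ((d / t : ℝ) : ℂ) u)))) ≤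
      ENNReal.ofReal (Real.exp (-(d / t * (Real.cos ψ * b.re + Real.sin ψ * b.im)) -
        d / t * Real.sin ψ * (d / 2 * Real.tan φ)) * (2 * (Lc 1 d δ t * √s))) := by
  have hpi := Real.pi_gt_three
  set l := d / t with hl
  have hl0 : 0 < l := by positivity
  have hcosψ : 1 / 2 ≤ Real.cos ψ := by
    have h1 := Real.one_sub_sq_div_two_le_cos (x := ψ)
    have h2 : ψ ^ 2 ≤ 1 := pow_le_one₀ hψ hψ1
    linarith
  have hcosψ1 := Real.cos_le_one ψ
  have hsinψ : 0 ≤ Real.sin ψ := Real.sin_nonneg_of_nonneg_of_le_pi hψ (by linarith)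
  have hcosφ : 0 < Real.cos φ := Real.cos_pos_of_mem_Ioo ⟨by linarith, hφ2⟩
  have hsinφ : 0 < Real.sin φ := Real.sin_pos_of_pos_of_lt_pi hφ (by linarith)
  have htan : 0 < Real.tan φ := Real.tan_pos_of_pos_of_lt_pi_div_two hφ hφ2
  set L₂ : ℂ := ⟨l * Real.cos ψ, l * Real.sin ψ⟩ with hL₂
  have hnL : ‖L₂‖ = l := by
    have h1 : ‖L₂‖ ^ 2 = l ^ 2 := by
      rw [← ip_self]
      simp only [ip, hL₂]
      nlinarith [Real.sin_sq_add_cos_sq ψ]
    have h2 := abs_eq_abs.2 (sq_eq_sq_iff_abs_eq_abs _ _ |>.1 h1 |> abs_eq_abs.1)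
    rwa [abs_of_nonneg (norm_nonneg _), abs_of_pos hl0] at h2
  have hip : ∀ u, ip L₂ u = l * (Real.cos ψ * u.re + Real.sin ψ * u.im) := fun u => by
    simp only [ip, hL₂]
    ring
  have hip1 : ip L₂ 1 = l * Real.cos ψ := by
    rw [hip]
    simp
  have hipl1 : ip (l : ℂ) 1 = l := by
    rw [ip_real]
    simp
  have hrr : rr s L₂ = rr s (l : ℂ) := by
    unfold rr
    rw [hnL, Complex.norm_real, Real.norm_eq_abs, sq_abs]
  set q := 1 - Real.exp (-(2 * l * δ)) with hq
  have hq0 : 0 < q := by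
    have : Real.exp (-(2 * l * δ)) < 1 := by
      rw [Real.exp_lt_one_iff]
      have : 0 < 2 * l * δ := by positivity
      linarith
    rw [hq]
    linarith
  set Γ := Real.exp (-(l * Real.sin ψ * (d / 2 * Real.tan φ))) / (Real.cos ψ * q) with hΓ
  have hΓ0 : 0 < Γ := by positivity
  have hfm := fS_meas 1 L₂ b.re s
  have h1 := loss_sum (kp_meas s) (R := St d δ b) (G := (Hh φ)ᶜ) (E := Sg d δ Y)
    (D := {z | ip 1 z ≤ b.re}) (St_meas d δ b) (Hh_meas φ).compl (fun z hz => by
      change ip 1 z ≤ b.re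
      rw [ip_one]
      exact hz.2.le) (r := rr s (l : ℂ)) (rr_ne s _)
    (w := fun u => ENNReal.ofReal (Real.exp (-(ip (l : ℂ) u))))
    (g := fun z => ENNReal.ofReal Γ * ENNReal.ofReal (fS 1 L₂ b.re s z)) (ex_meas _)
    (fun a ha => by
      have h2 := fS_sup hSU hs (L := L₂) (n := 1) (by simp) (by rw [hip1]; positivity)
        (by
          rw [hip1]
          have : l * Real.cos ψ * √s ≤ l * √s := by
            have := Real.sqrt_nonneg s
            have : l * Real.cos ψ ≤ l * 1 := by gcongr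
            nlinarith
          linarith) (c := b.re) (R := St d δ b) (fun z hz => by
            rw [ip_one]
            exact hz.2) (a := a) ha
      rw [hrr] at h2
      have e : ∀ z, kp s a z * (ENNReal.ofReal Γ * ENNReal.ofReal (fS 1 L₂ b.re s z)) =
          ENNReal.ofReal Γ * (kp s a z * ENNReal.ofReal (fS 1 L₂ b.re s z)) := fun z => by ring
      simp_rw [e]
      rw [lintegral_const_mul' _ _ ENNReal.ofReal_ne_top, mul_left_comm]
      gcongr)
    (fun N z hz => by
      have hz1 : d - δ < z.re := hz.1.1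
      have hz2 : z.re < b.re := hz.1.2
      have hz3 := (notHhB φ z).1 hz.2
      have h3 := lg_tilt hSU hs (L := (l : ℂ)) (n := 1) (by simp) (by rw [hipl1]; exact hl0)
        (by rw [hipl1]; exact hst) (c := b.re) hδ (R := St d δ b) (E := Sg d δ Y) (St_meas d δ b)
        (Sg_meas d δ Y) (by
          rw [Set.disjoint_left]
          rintro u ⟨hu1, _⟩ ⟨_, hu2, _⟩
          linarith) (fun u hu => by
            rw [ip_one]
            exact hu.2) (fun u hu => by
            rw [ip_one]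
            have := hu.2.1
            linarith) N (b := z) (by rw [ip_one]; exact hz2.le)
      refine h3.trans ?_
      rw [← ENNReal.ofReal_mul hΓ0.le]
      refine ENNReal.ofReal_le_ofReal ?_
      have e1 : 2 * ip (l : ℂ) 1 * δ = 2 * l * δ := by rw [hipl1]
      rw [e1, ← hq, div_le_iff₀ hq0]
      set X := 8 * √s + 2 * (b.re - z.re) with hX
      have hX0 : 0 ≤ X := by
        have := Real.sqrt_nonneg s
        rw [hX]
        linarith
      have f1 : fS 1 (l : ℂ) b.re s z = Real.exp (-(l * z.re)) * (1 - Real.exp (-(l * X))) := by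
        unfold fS
        rw [hipl1, ip_real, ip_one, ← Real.exp_add]
        congr 3
        rw [hX]
        ring
      have f2 : fS 1 L₂ b.re s z = Real.exp (-(l * (Real.cos ψ * z.re + Real.sin ψ * z.im))) *
          (1 - Real.exp (-(Real.cos ψ * (l * X)))) := by
        unfold fS
        rw [hip1, hip, ip_one, ← Real.exp_add]
        congr 3
        rw [hX]
        ring
      rw [f1, f2, hΓ]
      have g1 := exp_conc (κ := Real.cos ψ) (y := l * X) (by linarith) hcosψ1
      have g2 : Real.exp (-(l * z.re)) ≤ Real.exp (-(l * Real.sin ψ * (d / 2 * Real.tan φ))) *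
          Real.exp (-(l * (Real.cos ψ * z.re + Real.sin ψ * z.im))) := by
        rw [← Real.exp_add]
        refine Real.exp_le_exp.2 ?_
        have g3 : d / 2 * Real.tan φ ≤ -z.im := by
          have g4 : z.im * Real.cos φ ≤ -(z.re * Real.sin φ) := by linarith
          have g5 : d / 2 * Real.sin φ ≤ z.re * Real.sin φ := by
            gcongr
            linarith
          rw [Real.tan_eq_sin_div_cos, mul_div_assoc', div_le_iff₀ hcosφ]
          linarith
        have g6 : l * Real.sin ψ * (d / 2 * Real.tan φ) ≤ l * Real.sin ψ * (-z.im) := by gcongr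
        have g7 : 0 ≤ l * z.re * (1 - Real.cos ψ) := by
          have : 0 ≤ z.re := by linarith
          have : 0 ≤ 1 - Real.cos ψ := by linarith
          positivity
        nlinarith
      have g8 : 0 ≤ 1 - Real.exp (-(l * X)) := by
        have : Real.exp (-(l * X)) ≤ 1 := by
          rw [Real.exp_le_one_iff]
          have : 0 ≤ l * X := by positivity
          linarith
        linarith
      have e3 : Real.exp (-(l * Real.sin ψ * (d / 2 * Real.tan φ))) / (Real.cos ψ * q) *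
          (Real.exp (-(l * (Real.cos ψ * z.re + Real.sin ψ * z.im))) *
            (1 - Real.exp (-(Real.cos ψ * (l * X))))) * q =
          (Real.exp (-(l * Real.sin ψ * (d / 2 * Real.tan φ))) *
          Real.exp (-(l * (Real.cos ψ * z.re + Real.sin ψ * z.im)))) *
            ((1 - Real.exp (-(Real.cos ψ * (l * X)))) / Real.cos ψ) := by
        field_simp
      rw [e3]
      gcongr
      rw [le_div_iff₀ (by linarith)]
      linarith) N b (by
        change ip 1 b ≤ b.re
        rw [ip_one])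
  have h2 : ∑ i ∈ Finset.range N, ∫⁻ u in Sg d δ Y, hc (kp s) (St d δ b) (Hh φ)ᶜ i b u *
      (rr s (l : ℂ) ^ (i + 1) * ENNReal.ofReal (Real.exp (-(ip (l : ℂ) u)))) =
      ∑ i ∈ Finset.range N, rr s (l : ℂ) ^ (i + 1) * ∫⁻ u in Sg d δ Y,
        hc (kp s) (St d δ b) (Hh φ)ᶜ i b u * ENNReal.ofReal (Real.exp (-(ip (l : ℂ) u))) := by
    refine Finset.sum_congr rfl fun i _ => ?_
    rw [← lintegral_const_mul' _ _ (ENNReal.pow_ne_top (rr_ne s _))]
    refine lintegral_congr fun u => ?_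
    ring
  rw [h2]
  refine h1.trans ?_
  rw [← ENNReal.ofReal_mul hΓ0.le]
  refine ENNReal.ofReal_le_ofReal ?_
  have h3 := fS_bd (n := 1) (L := L₂) (c := b.re) (s := s) (b := b) (ip_one b)
  rw [hip, hip1] at h3
  have h4 : 8 * l / q ≤ Lc 1 d δ t := by
    unfold Lc
    rw [one_re, mul_one, ← hl]
    have h5 : Real.exp (-(2 * l * δ)) ≤ Real.exp (-(l * δ)) := by
      refine Real.exp_le_exp.2 ?_
      have : 0 ≤ l * δ := by positivity
      linarith
    have h6 : Real.exp (-(l * δ)) < 1 := by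
      rw [Real.exp_lt_one_iff]
      have : 0 < l * δ := by positivity
      linarith
    rw [hq]
    refine div_le_div₀ (by positivity) le_rfl (by linarith) (by linarith)
  calc Γ * fS 1 L₂ b.re s b ≤ Γ * (Real.exp (-(l * (Real.cos ψ * b.re + Real.sin ψ * b.im))) *
        (8 * (l * Real.cos ψ * √s))) := by gcongr
    _ = Real.exp (-(l * (Real.cos ψ * b.re + Real.sin ψ * b.im)) -
        l * Real.sin ψ * (d / 2 * Real.tan φ)) * ((8 * l / q) * √s) := by
        rw [hΓ, sub_eq_add_neg, Real.exp_add]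
        field_simp
    _ ≤ _ := by
        refine mul_le_mul_of_nonneg_left ?_ (Real.exp_pos _).le
        have h7 : 0 ≤ Lc 1 d δ t * √s := by
          have := Lc_pos (n := 1) (by simp) hd hδ ht
          positivity
        have h8 : 8 * l / q * √s ≤ Lc 1 d δ t * √s := by gcongr
        linarith

end Pool.Agent.N275.QD
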