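import Pool.Agent.N275.QD.Strip

set_option autoImplicit false

/-!
# Project QD: from the legs in the strip back to the domain
-/

namespace Pool.Agent.N275.QD

open MeasureTheory Set Filter Topology Complex
open Pool.Agent.R225.LP (gk ks ip ip_self ip_sub_right ip_sub_left ip_add_left ip_add_right
  ip_smul_left ip_smul_right norm_sq_add norm_sq_sub lint_exp gk_pos gk_nonneg gk_cont nG lint_nG
  mgf_nG gkE_meas ip_cont)
open Pool.Agent.R225.LP.TR (ch ch_meas meas_left meas_right ch_mono_set kp kp_meas kp_comm ks_eq)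
open scoped Real ENNReal ComplexConjugate

/-- the bound of the middle kernel by two weights -/
theorem mid_w {n : ℂ} {H A : Set ℂ} (hA : MeasurableSet A) (hA0 : ∀ z ∈ A, z.re ≤ 0)
    {d δ t s k kk Y θ Tt : ℝ} (hd : 0 < d) (hδd : δ ≤ d / 8) {m N : ℕ}
    (p : Par n d t s k kk Y θ Tt m N) {w : ℂ} (hw : ‖w‖ = 1) (hAw : ∀ z ∈ A, ip w z ≤ 0) :
    ∀ i < N, ∀ j < N, ∀ u ∈ Sg d δ Y, ∀ v ∈ Sg d δ Y,
      hc (kp s) H A (m - 1 - i - 1 - j) u v ≤ ENNReal.ofReal ((1 / t + 2 / d ^ 2) *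
        Real.exp ((d / t) ^ 2 * t)) * ((rr s (((d / t : ℝ) : ℂ) * w) ^ (i + 1) *
          ENNReal.ofReal (Real.exp (-(ip (((d / t : ℝ) : ℂ) * w) u)))) *
        (rr s (((d / t : ℝ) : ℂ) * w) ^ (j + 1) *
          ENNReal.ofReal (Real.exp (-(ip (((d / t : ℝ) : ℂ) * w) v))))) := by
  intro i hi j hj u hu v hv
  have hs := p.s0
  have ht := p.ht
  have hl : 0 < d / t := by positivity
  have h3 := p.mid hi hj
  have h5 : 0 < ((i : ℝ) + 1) * s := by positivity
  have h6 : 0 < ((j : ℝ) + 1) * s := by positivity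
  have h1 := mid_b2w hs hA hw hA0 hAw (Q := H) (m - 1 - i - 1 - j) (t := t)
    (by linarith [h3.2]) hd (u := u) (v := v) (by linarith [hu.1]) (by linarith [hv.1])
  refine h1.trans ?_
  have hn : ‖((d / t : ℝ) : ℂ) * w‖ = d / t := by
    rw [norm_mul, hw, mul_one, Complex.norm_real, Real.norm_eq_abs, abs_of_pos hl]
  rw [rr_pow, rr_pow, hn, ip_smul_left, ip_smul_left, ← ENNReal.ofReal_mul (Real.exp_pos _).le,
    ← ENNReal.ofReal_mul (Real.exp_pos _).le, ← ENNReal.ofReal_mul (by positivity),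
    ← ENNReal.ofReal_mul (by positivity), ← Real.exp_add, ← Real.exp_add, h3.2]
  refine ENNReal.ofReal_le_ofReal (le_of_eq ?_)
  rw [← Real.exp_add, mul_assoc, ← Real.exp_add]
  congr 2
  ring

/-- all conditions on `x` -/
structure Xc (α φ d δ x : ℝ) : Prop where
  hα : 0 < α
  hφ : 0 < φ
  hαφ : φ + α < π / 2
  hd : 0 < d
  hδ : 0 < δ
  hδd : δ ≤ d / 16
  hx : 0 < x
  h1 : x ^ 4 ≤ 8 * d
  h2 : x ^ 4 ≤ 8 * d * (π / 2 - φ - α)
  h3 : x ^ 8 ≤ d * δ
  h4 : x ^ 4 ≤ 3 / 8 * d * Real.sin φ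

theorem Xc.S_H {α φ d δ x : ℝ} (h : Xc α φ d δ x) : Sg d δ (x ^ 4) ⊆ Hh φ := by
  rintro z ⟨h1, _, h3⟩
  have hd := h.hd
  have hδd := h.hδd
  have hx := h.hx
  have h4 := h.h4
  have hpi := Real.pi_gt_three
  have hφ2 : φ < π / 2 := by linarith [h.hα, h.hαφ]
  have hs : 0 < Real.sin φ := Real.sin_pos_of_pos_of_lt_pi h.hφ (by linarith)
  have hc : 0 < Real.cos φ := Real.cos_pos_of_mem_Ioo ⟨by linarith [h.hφ], hφ2⟩
  have hc1 := Real.cos_le_one φ
  rw [HhB]
  have h5 : 3 / 4 * d * Real.sin φ ≤ z.re * Real.sin φ := by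
    gcongr
    linarith
  have h6 := (abs_lt.1 h3).1
  have h7 : -(x ^ 4) * Real.cos φ ≤ z.im * Real.cos φ := by gcongr
  have h8 : x ^ 4 * Real.cos φ ≤ x ^ 4 * 1 := by gcongr
  have h9 : 0 < d * Real.sin φ := by positivity
  nlinarith

theorem Xc.B_H {α φ d δ x : ℝ} (h : Xc α φ d δ x) {b : ℂ} (hb : d ≤ b.re)
    (hb2 : b.re ≤ d + δ) (hb3 : |b.im| ≤ x ^ 4 / 2) :
    b ∈ Bg (Hh φ) (Tv (π / 2 + φ) φ d) d δ (x ^ 4) := by
  have hd := h.hd
  have hx := h.hx
  have h4 := h.h4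
  have hpi := Real.pi_gt_three
  have hφ2 : φ < π / 2 := by linarith [h.hα, h.hαφ]
  have hs : 0 < Real.sin φ := Real.sin_pos_of_pos_of_lt_pi h.hφ (by linarith)
  have hc : 0 < Real.cos φ := Real.cos_pos_of_mem_Ioo ⟨by linarith [h.hφ], hφ2⟩
  have hc1 := Real.cos_le_one φ
  refine ⟨⟨?_, ?_⟩, hb2, hb3⟩
  · change d ≤ ip (nv (π / 2 + φ) φ) b
    rw [nvB_ip]
    exact hb
  · rw [HhB]
    have h5 : d * Real.sin φ ≤ b.re * Real.sin φ := by gcongr
    have h6 := (abs_le.1 hb3).1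
    have h7 : -(x ^ 4 / 2) * Real.cos φ ≤ b.im * Real.cos φ := by gcongr
    have h8 : x ^ 4 / 2 * Real.cos φ ≤ x ^ 4 / 2 * 1 := by gcongr
    have h9 : 0 < d * Real.sin φ := by positivity
    nlinarith

/-- the gain of the loss -/
noncomputable def GG (φ d δ Y ψ : ℝ) : ℝ :=
  Real.sin ψ * (d / 2 * Real.tan φ - Y / 2) - (1 - Real.cos ψ) * (d + δ)

theorem mea_S (d kk : ℝ) : MeasurableSet {b : ℂ | d ≤ b.re ∧ b.re ≤ d + kk} := by
  have h1 : MeasurableSet {z : ℂ | d ≤ z.re} :=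
    (isClosed_le continuous_const continuous_re).measurableSet
  have h2 : MeasurableSet {z : ℂ | z.re ≤ d + kk} :=
    (isClosed_le continuous_re continuous_const).measurableSet
  exact h1.inter h2

theorem strip_low (hSU : S_SU) {α φ d δ x : ℝ} (h : Xc α φ d δ x) {t s k θ Tt : ℝ} {m N : ℕ}
    (p : Par (nv (π / 2 + φ) φ) d t s k δ (x ^ 4) θ Tt m N) {ψ : ℝ} (hψ : 0 ≤ ψ) (hψ1 : ψ ≤ 1) :
    Ms (hc (kp s) (Hh φ) ((Hh (φ + α))ᶜ ∩ Hh φ)) d δ δ (x ^ 4) s m N ≤
      Mn (hc (kp s) (Hh φ) ((Hh (φ + α))ᶜ ∩ Hh φ)) (nv (π / 2 + φ) φ) (Hh φ)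
        (Tv (π / 2 + φ) φ d) d δ δ (x ^ 4) s m N + ENNReal.ofReal (Real.exp (-(d ^ 2 / t)) *
          ((1 / t + 2 / d ^ 2) * Lc 1 d δ t ^ 2 * t * (Real.exp (-(2 * (d / t) *
            (x ^ 8 / (100 * d)))) * (t / (d * (x ^ 4 / (40 * d)))) ^ 2 +
            δ * x ^ 4 * (4 * Real.exp (-(d / t * GG φ d δ (x ^ 4) ψ)))))) := by
  have hs := p.s0
  have ht := p.ht
  have hd := h.hd
  have hδ := h.hδ
  have hδd : δ ≤ d / 8 := by linarith [h.hδd]
  have hx := h.hx
  have hpi := Real.pi_gt_three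
  have hφ2 : φ < π / 2 := by linarith [h.hα, h.hαφ]
  have hL := Lc_pos (n := 1) (by simp) hd hδ ht
  set Y := x ^ 4 with hY
  have hY0 : 0 < Y := by positivity
  set l := d / t with hl
  have hl0 : 0 < l := by positivity
  set H := Hh φ with hH
  set A := (Hh (φ + α))ᶜ ∩ Hh φ with hA
  have hHm : MeasurableSet H := Hh_meas φ
  have hAm : MeasurableSet A := (Hh_meas _).compl.inter (Hh_meas φ)
  have hA0 : ∀ z ∈ A, z.re ≤ 0 := fun z hz => (AB h.hα h.hφ.le h.hαφ hz).1
  set n := nv (π / 2 + φ) φ with hn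
  set T := Tv (π / 2 + φ) φ d with hT
  set K := hc (kp s) H A with hK
  have hKm : ∀ k, Measurable (Function.uncurry (K k)) := fun k => hc_meas (kp_meas s) H A k
  set C₁ := 1 / t + 2 / d ^ 2 with hC₁
  have hC₁0 : 0 < C₁ := by positivity
  have hBgm : MeasurableSet (Bg H T d δ Y) := Bg_meas hHm (Tv_meas _ _ _) d δ Y
  set S₀ := {b : ℂ | d ≤ b.re ∧ b.re ≤ d + δ} with hS₀
  have hS₀m : MeasurableSet S₀ := mea_S d δ
  have hSgm : MeasurableSet (Sg d δ Y) := Sg_meas _ _ _
  set g := x ^ 8 / (100 * d) with hg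
  set c := x ^ 4 / (40 * d) with hcc
  have hc0 : 0 < c := by positivity
  -- good points
  have good : ∀ b ∈ Bg H T d δ Y, Ess K (St d δ b) (Sg d δ Y) s m N b ≤
      Ess K (Qb n H b \ Vh (d - δ)) (H ∩ Sg d δ Y) s m N b +
      ENNReal.ofReal (Real.exp (-(d ^ 2 / t)) * (C₁ * (Lc 1 d δ t * √s) ^ 2 *
        (4 * Real.exp (-(l * GG φ d δ Y ψ))))) := by
    intro b hb
    have hb1 : d ≤ b.re := by
      have h1 : d ≤ ip (nv (π / 2 + φ) φ) b := hb.1.1
      rwa [nvB_ip] at h1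
    have hb2 : b.re ≤ d + δ := hb.2.1
    have hb3 : |b.im| ≤ Y / 2 := hb.2.2
    have e1 : Qb n H b \ Vh (d - δ) = St d δ b \ Hᶜ := Qb_St b
    have e2 : H ∩ Sg d δ Y = Sg d δ Y := by
      ext z
      exact ⟨fun hz => hz.2, fun hz => ⟨h.S_H hz, hz⟩⟩
    rw [e1, e2]
    have h1 := ess_loss (R := St d δ b) (G := Hᶜ) (s := s) hHm.compl hSgm hKm (m := m) (N := N)
      (b := b) (w := fun i u => rr s (((d / t : ℝ) : ℂ) * 1) ^ (i + 1) *
        ENNReal.ofReal (Real.exp (-(ip (((d / t : ℝ) : ℂ) * 1) u))))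
      (fun i => (ex_meas _).const_mul _) hs
      (mid_w (H := H) hAm hA0 hd hδd p (w := 1) (by simp) (fun z hz => by
        rw [ip_one]; exact hA0 z hz))
    refine h1.trans ?_
    gcongr
    have h2 := lossS hSU (Y := Y) h.hφ hφ2 hd hδ hδd hb1 hs ht p.hst hψ hψ1 N
    have h3 := tiltS hSU (Y := Y) hd hδ hδd hb1 hs ht p.hst (w := 1) (by simp) (by norm_num) N
    rw [mul_one] at h3 ⊢
    rw [ip_one] at h3
    have h4 : Real.exp (-(d / t * (Real.cos ψ * b.re + Real.sin ψ * b.im)) -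
        d / t * Real.sin ψ * (d / 2 * Real.tan φ)) ≤ Real.exp (-(l * b.re)) *
          Real.exp (-(l * GG φ d δ Y ψ)) := by
      rw [← Real.exp_add]
      refine Real.exp_le_exp.2 ?_
      have h5 : 0 ≤ Real.sin ψ := Real.sin_nonneg_of_nonneg_of_le_pi hψ (by linarith)
      have h6 : 0 ≤ 1 - Real.cos ψ := by linarith [Real.cos_le_one ψ]
      have h7 : l * (Real.sin ψ * -b.im) ≤ l * (Real.sin ψ * (Y / 2)) := by
        gcongr
        linarith [(abs_le.1 hb3).1]
      have h8 : l * ((1 - Real.cos ψ) * b.re) ≤ l * ((1 - Real.cos ψ) * (d + δ)) := by gcongr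
      unfold GG
      nlinarith
    have e3 : (2 : ℝ≥0∞) = ENNReal.ofReal 2 := by simp
    calc _ ≤ ENNReal.ofReal (C₁ * Real.exp (l ^ 2 * t)) * (2 *
          ENNReal.ofReal ((Real.exp (-(l * b.re)) *
          Real.exp (-(l * GG φ d δ Y ψ))) * (2 * (Lc 1 d δ t * √s))) *
          ENNReal.ofReal (Real.exp (-(d / t * b.re)) * (Lc 1 d δ t * √s))) := by
          gcongr
          exact h2.trans (ENNReal.ofReal_le_ofReal (by gcongr))
      _ ≤ _ := by
          rw [e3, ← ENNReal.ofReal_mul (by positivity), ← ENNReal.ofReal_mul (by positivity),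
            ← ENNReal.ofReal_mul (by positivity)]
          refine ENNReal.ofReal_le_ofReal ?_
          have e4 : Real.exp (l ^ 2 * t) * (Real.exp (-(l * b.re)) * Real.exp (-(l * b.re))) ≤
              Real.exp (-(d ^ 2 / t)) := by
            rw [← Real.exp_add, ← Real.exp_add]
            refine Real.exp_le_exp.2 ?_
            have e5 : l ^ 2 * t = d ^ 2 / t := by rw [hl]; field_simp
            have e6 : l * d = d ^ 2 / t := by rw [hl]; ring
            have : l * d ≤ l * b.re := by gcongr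
            linarith
          calc _ = (Real.exp (l ^ 2 * t) * (Real.exp (-(l * b.re)) * Real.exp (-(l * b.re)))) *
                (C₁ * (Lc 1 d δ t * √s) ^ 2 * (4 * Real.exp (-(l * GG φ d δ Y ψ)))) := by
                ring
            _ ≤ _ := by gcongr
  -- bad points
  have bad : ∀ b ∈ S₀ \ Bg H T d δ Y, Ess K (St d δ b) (Sg d δ Y) s m N b ≤
      ENNReal.ofReal (Real.exp (-(d ^ 2 / t)) * (C₁ * (Lc 1 d δ t * √s) ^ 2 *
        Real.exp (-(2 * l * g)))) * ENNReal.ofReal (Real.exp (-(2 * l * c *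
          (|b.re - d| + |b.im|)))) := by
    rintro b ⟨⟨hb1, hb2⟩, hbg⟩
    have hcases : x ^ 4 / 2 < |b.im| ∨ d + δ < b.re := by
      by_contra hcon
      push Not at hcon
      exact hbg (h.B_H hb1 hb2 hcon.1)
    obtain ⟨w, hw, hwn, hAw, hwb⟩ := farB (δ := δ) h.hα h.hφ.le h.hαφ hd hx h.h1 h.h2 h.h3 hb1 hcases
    have hw2 : 1 / 2 ≤ w.re := by
      simp only [ip, nvB_re, nvB_im, mul_one, mul_zero, add_zero] at hwn
      exact hwn
    have h1 := ess_cmp (K₁ := K) (K₂ := fun _ _ _ => 0) (R := St d δ b) (s := s) hSgm (m := m)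
      (N := N) (b := b) (w := fun i u => rr s (((d / t : ℝ) : ℂ) * w) ^ (i + 1) *
        ENNReal.ofReal (Real.exp (-(ip (((d / t : ℝ) : ℂ) * w) u))))
      (fun i => (ex_meas _).const_mul _)
      (C := ENNReal.ofReal ((1 / t + 2 / d ^ 2) * Real.exp ((d / t) ^ 2 * t)))
      (fun i hi j hj u hu v hv => by
        rw [zero_add]
        exact mid_w (H := H) hAm hA0 hd hδd p hw hAw i hi j hj u hu v hv)
    have h0 : Ess (fun _ _ _ => 0) (St d δ b) (Sg d δ Y) s m N b = 0 := by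
      simp [Ess]
    rw [h0, zero_add] at h1
    have h3 := tiltS hSU (Y := Y) hd hδ hδd hb1 hs ht p.hst hw hw2 N
    refine h1.trans ?_
    calc _ ≤ ENNReal.ofReal (C₁ * Real.exp (l ^ 2 * t)) *
          (ENNReal.ofReal (Real.exp (-(l * ip w b)) * (Lc 1 d δ t * √s))) ^ 2 := by
          gcongr
      _ ≤ _ := by
          rw [← ENNReal.ofReal_pow (by positivity), ← ENNReal.ofReal_mul (by positivity),
            ← ENNReal.ofReal_mul (by positivity)]
          refine ENNReal.ofReal_le_ofReal ?_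
          have e4 : Real.exp (l ^ 2 * t) * (Real.exp (-(l * ip w b)) * Real.exp (-(l * ip w b))) ≤
              Real.exp (-(d ^ 2 / t)) * (Real.exp (-(2 * l * g)) *
                Real.exp (-(2 * l * c * (|b.re - d| + |b.im|)))) := by
            rw [← Real.exp_add, ← Real.exp_add, ← Real.exp_add, ← Real.exp_add]
            refine Real.exp_le_exp.2 ?_
            have e5 : l ^ 2 * t = d ^ 2 / t := by rw [hl]; field_simp
            have e6 : l * d = d ^ 2 / t := by rw [hl]; ring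
            have e7 : l * (d + g + c * (|b.re - d| + |b.im|)) ≤ l * ip w b := by gcongr
            nlinarith
          calc _ = (Real.exp (l ^ 2 * t) * (Real.exp (-(l * ip w b)) *
                Real.exp (-(l * ip w b)))) * (C₁ * (Lc 1 d δ t * √s) ^ 2) := by
                ring
            _ ≤ (Real.exp (-(d ^ 2 / t)) * (Real.exp (-(2 * l * g)) *
                Real.exp (-(2 * l * c * (|b.re - d| + |b.im|))))) *
                  (C₁ * (Lc 1 d δ t * √s) ^ 2) := by gcongr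
            _ = _ := by ring
  have hsub : Bg H T d δ Y ⊆ S₀ := by
    rintro b ⟨⟨h1, _⟩, h2, _⟩
    have h1' : d ≤ ip (nv (π / 2 + φ) φ) b := h1
    rw [nvB_ip] at h1'
    exact ⟨h1', h2⟩
  have hsplit : ∫⁻ b in S₀, Ess K (St d δ b) (Sg d δ Y) s m N b =
      (∫⁻ b in Bg H T d δ Y, Ess K (St d δ b) (Sg d δ Y) s m N b) +
      ∫⁻ b in S₀ \ Bg H T d δ Y, Ess K (St d δ b) (Sg d δ Y) s m N b := by
    rw [← lintegral_inter_add_sdiff _ S₀ hBgm]
    congr 3
    exact inter_eq_self_of_subset_right hsub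
  have hglo := gloB (α := α) (φ := φ) h.hα h.hφ.le h.hαφ hd hδ hδd
  have hi1 : ∫⁻ b in Bg H T d δ Y, Ess K (St d δ b) (Sg d δ Y) s m N b ≤
      (∫⁻ b in Bg H T d δ Y, Ess K (Qb n H b \ Vh (d - δ)) (H ∩ Sg d δ Y) s m N b) +
      ENNReal.ofReal (Real.exp (-(d ^ 2 / t)) * (C₁ * (Lc 1 d δ t * √s) ^ 2 *
        (4 * Real.exp (-(l * GG φ d δ Y ψ)))) * (δ * Y)) := by
    refine (setLIntegral_mono' hBgm good).trans ?_
    rw [lintegral_add_right _ measurable_const, setLIntegral_const]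
    gcongr
    refine (mul_le_mul_right (vol_Bg hglo hδ.le) _).trans (le_of_eq ?_)
    rw [← ENNReal.ofReal_mul (by positivity)]
  have hi2 : ∫⁻ b in S₀ \ Bg H T d δ Y, Ess K (St d δ b) (Sg d δ Y) s m N b ≤
      ENNReal.ofReal (Real.exp (-(d ^ 2 / t)) * (C₁ * (Lc 1 d δ t * √s) ^ 2 *
        Real.exp (-(2 * l * g))) * (t / (d * c)) ^ 2) := by
    refine (setLIntegral_mono' (hS₀m.diff hBgm) bad).trans ?_
    rw [lintegral_const_mul' _ _ ENNReal.ofReal_ne_top]
    calc _ ≤ ENNReal.ofReal (Real.exp (-(d ^ 2 / t)) * (C₁ * (Lc 1 d δ t * √s) ^ 2 *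
        Real.exp (-(2 * l * g)))) * ∫⁻ b : ℂ, ENNReal.ofReal (Real.exp (-(2 * l * c *
            (|b.re - d| + |b.im|)))) := by
          gcongr
          exact Measure.restrict_le_self
      _ = _ := by
          rw [lint_abs2 (by positivity), ← ENNReal.ofReal_mul (by positivity)]
          congr 1
          have : 2 / (2 * l * c) = t / (d * c) := by
            rw [hl]
            field_simp
          rw [this]
  unfold Ms Mn
  rw [hsplit]
  calc _ ≤ ((m + 1 : ℕ) : ℝ≥0∞) * (((∫⁻ b in Bg H T d δ Y, Ess K (Qb n H b \ Vh (d - δ))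
        (H ∩ Sg d δ Y) s m N b) +
      ENNReal.ofReal (Real.exp (-(d ^ 2 / t)) * (C₁ * (Lc 1 d δ t * √s) ^ 2 *
        (4 * Real.exp (-(l * GG φ d δ Y ψ)))) * (δ * Y))) +
      ENNReal.ofReal (Real.exp (-(d ^ 2 / t)) * (C₁ * (Lc 1 d δ t * √s) ^ 2 *
        Real.exp (-(2 * l * g))) * (t / (d * c)) ^ 2)) := by
        gcongr
    _ = _ := by
        rw [add_assoc, mul_add, ← ENNReal.ofReal_add (by positivity) (by positivity)]
        congr 1
        have e : ((m + 1 : ℕ) : ℝ≥0∞) = ENNReal.ofReal ((m : ℝ) + 1) := by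
          rw [← ENNReal.ofReal_natCast]
          push_cast
          rfl
        have hsq : ((m : ℝ) + 1) * √s ^ 2 = t := by
          rw [Real.sq_sqrt hs.le, p.hs]
        rw [e, ← ENNReal.ofReal_mul (by positivity)]
        congr 1
        linear_combination (Real.exp (-(d ^ 2 / t)) * C₁ * Lc 1 d δ t ^ 2 *
          (4 * Real.exp (-(l * GG φ d δ Y ψ)) * (δ * Y) + Real.exp (-(2 * l * g)) *
            (t / (d * c)) ^ 2)) * hsq

/-- changing the kernel by a constant -/
theorem Ms_cmp (hSU : S_SU) {α φ d δ x : ℝ} (h : Xc α φ d δ x) {t s k θ Tt : ℝ} {m N : ℕ}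
    (p : Par (nv (π / 2 + φ) φ) d t s k δ (x ^ 4) θ Tt m N)
    {K₁ K₂ : ℕ → ℂ → ℂ → ℝ≥0∞} {ε : ℝ}
    (hε : 0 ≤ ε) (hcmp : ∀ i < N, ∀ j < N, ∀ u ∈ Sg d δ (x ^ 4), ∀ v ∈ Sg d δ (x ^ 4),
      K₁ (m - 1 - i - 1 - j) u v ≤ K₂ (m - 1 - i - 1 - j) u v + ENNReal.ofReal ε) :
    Ms K₁ d δ δ (x ^ 4) s m N ≤ Ms K₂ d δ δ (x ^ 4) s m N + ENNReal.ofReal
      (ε * (t * Lc 1 d δ t ^ 2 * Real.exp (2 * ((d / t) ^ 2 * Tt + d / t * (x ^ 4) +
        d / t * (x ^ 4 / (40 * d)) * (δ + x ^ 4))) * (t / (d * (x ^ 4 / (40 * d)))) ^ 2)) := by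
  have hs := p.s0
  have ht := p.ht
  have hd := h.hd
  have hδ := h.hδ
  have hδd : δ ≤ d / 8 := by linarith [h.hδd]
  have hx := h.hx
  have hL := Lc_pos (n := 1) (by simp) hd hδ ht
  set Y := x ^ 4 with hY
  have hY0 : 0 < Y := by positivity
  set l := d / t with hl
  have hl0 : 0 < l := by positivity
  set c := Y / (40 * d) with hcc
  have hc0 : 0 < c := by positivity
  set S₀ := {b : ℂ | d ≤ b.re ∧ b.re ≤ d + δ} with hS₀
  have hS₀m : MeasurableSet S₀ := mea_S d δ
  have hSgm : MeasurableSet (Sg d δ Y) := Sg_meas _ _ _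
  have key : ∀ b ∈ S₀, Ess K₁ (St d δ b) (Sg d δ Y) s m N b ≤
      Ess K₂ (St d δ b) (Sg d δ Y) s m N b + ENNReal.ofReal (ε * (Real.exp (l ^ 2 * Tt + l * Y +
        l * c * (δ + Y)) * (Lc 1 d δ t * √s)) ^ 2) * ENNReal.ofReal (Real.exp (-(2 * l * c *
          (|b.re - d| + |b.im|)))) := by
    rintro b ⟨hb1, hb2⟩
    obtain ⟨w, hw, hw2, hwb⟩ : ∃ w : ℂ, ‖w‖ = 1 ∧ 1 / 2 ≤ w.re ∧
        d + c * (|b.re - d| + |b.im|) - c * (δ + Y) ≤ ip w b := by
      by_cases hcase : x ^ 4 / 2 < |b.im|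
      · obtain ⟨w, hw, hwn, _, hwb⟩ := farB (δ := δ) h.hα h.hφ.le h.hαφ hd hx h.h1 h.h2 h.h3 hb1
          (Or.inl hcase)
        refine ⟨w, hw, ?_, ?_⟩
        · simp only [ip, nvB_re, nvB_im, mul_one, mul_zero, add_zero] at hwn
          exact hwn
        · have : 0 < x ^ 8 / (100 * d) := by positivity
          have : 0 < c * (δ + Y) := by positivity
          linarith
      · push Not at hcase
        refine ⟨1, by simp, by norm_num, ?_⟩
        rw [ip_one, abs_of_nonneg (by linarith : 0 ≤ b.re - d)]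
        have h1 : c * (b.re - d + |b.im|) ≤ c * (δ + Y) := by
          gcongr
          · linarith
          · exact hcase.trans (by linarith)
        linarith
    have h1 := ess_cmp (K₁ := K₁) (K₂ := K₂) (R := St d δ b) (s := s) hSgm (m := m)
      (N := N) (b := b) (w := fun _ _ => 1) (fun i => measurable_const) (C := ENNReal.ofReal ε)
      (fun i hi j hj u hu v hv => by
        rw [mul_one, mul_one]
        exact hcmp i hi j hj u hu v hv)
    refine h1.trans (add_le_add le_rfl ?_)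
    have h3 := tiltS hSU (Y := Y) hd hδ hδd hb1 hs ht p.hst hw hw2 N
    have hnw : ‖((d / t : ℝ) : ℂ) * w‖ = l := by
      rw [norm_mul, hw, mul_one, Complex.norm_real, Real.norm_eq_abs, abs_of_pos hl0]
    have h2 : ∑ i ∈ Finset.range N, ∫⁻ u in Sg d δ Y, ch (kp s) (St d δ b) i b u * 1 ≤
        ENNReal.ofReal (Real.exp (l ^ 2 * Tt + l * (d + Y))) *
        ∑ i ∈ Finset.range N, ∫⁻ u in Sg d δ Y, ch (kp s) (St d δ b) i b u *
          (rr s (((d / t : ℝ) : ℂ) * w) ^ (i + 1) *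
            ENNReal.ofReal (Real.exp (-(ip (((d / t : ℝ) : ℂ) * w) u)))) := by
      rw [Finset.mul_sum]
      refine Finset.sum_le_sum fun i hi => ?_
      rw [← lintegral_const_mul' _ _ ENNReal.ofReal_ne_top]
      refine setLIntegral_mono' hSgm fun u hu => ?_
      rw [mul_left_comm]
      gcongr
      rw [rr_pow, hnw, ← ENNReal.ofReal_mul (Real.exp_pos _).le, ← ENNReal.ofReal_mul
        (Real.exp_pos _).le, ← Real.exp_add, ← Real.exp_add, ← ENNReal.ofReal_one]
      refine ENNReal.ofReal_le_ofReal (Real.one_le_exp ?_)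
      have h3 : (((i : ℝ) + 1) * s) ≤ Tt := by
        have h4 : ((i : ℝ) + 1) * s ≤ N * s := by
          gcongr
          exact_mod_cast Finset.mem_range.1 hi
        exact h4.trans p.hN
      have h5 : l ^ 2 * (((i : ℝ) + 1) * s) ≤ l ^ 2 * Tt := by gcongr
      have h6 : ip w u ≤ d + Y := by
        have hwre : |w.re| ≤ 1 := by rw [← hw]; exact abs_re_le_norm w
        have hwim : |w.im| ≤ 1 := by rw [← hw]; exact abs_im_le_norm w
        have hure : |u.re| ≤ d := by
          rw [abs_le]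
          constructor
          · linarith [hu.1]
          · linarith [hu.2.1]
        have huim : |u.im| ≤ Y := hu.2.2.le
        have a1 : w.re * u.re ≤ |w.re| * |u.re| := by
          rw [← abs_mul]
          exact le_abs_self _
        have a2 : w.im * u.im ≤ |w.im| * |u.im| := by
          rw [← abs_mul]
          exact le_abs_self _
        have a3 : |w.re| * |u.re| ≤ 1 * d := by gcongr
        have a4 : |w.im| * |u.im| ≤ 1 * Y := by gcongr
        unfold ip
        linarith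
      have h7 : l * ip w u ≤ l * (d + Y) := by gcongr
      rw [ip_smul_left]
      linarith
    calc _ ≤ ENNReal.ofReal ε * (ENNReal.ofReal (Real.exp (l ^ 2 * Tt + l * (d + Y))) *
          ENNReal.ofReal (Real.exp (-(l * ip w b)) * (Lc 1 d δ t * √s))) ^ 2 := by
          gcongr
          exact h2.trans (mul_le_mul_right h3 _)
      _ ≤ ENNReal.ofReal (ε * (Real.exp (l ^ 2 * Tt + l * Y +
        l * c * (δ + Y)) * (Lc 1 d δ t * √s)) ^ 2) * ENNReal.ofReal (Real.exp (-(2 * l * c *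
          (|b.re - d| + |b.im|)))) := by
          rw [← ENNReal.ofReal_mul (by positivity), ← ENNReal.ofReal_pow (by positivity),
            ← ENNReal.ofReal_mul hε, ← ENNReal.ofReal_mul (by positivity)]
          refine ENNReal.ofReal_le_ofReal ?_
          have e1 : Real.exp (l ^ 2 * Tt + l * (d + Y)) * Real.exp (-(l * ip w b)) ≤
              Real.exp (l ^ 2 * Tt + l * Y + l * c * (δ + Y)) *
                Real.exp (-(l * c * (|b.re - d| + |b.im|))) := by
            rw [← Real.exp_add, ← Real.exp_add]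
            refine Real.exp_le_exp.2 ?_
            have e2 : l * (d + c * (|b.re - d| + |b.im|) - c * (δ + Y)) ≤ l * ip w b := by gcongr
            nlinarith
          have e3 : Real.exp (-(2 * l * c * (|b.re - d| + |b.im|))) =
              Real.exp (-(l * c * (|b.re - d| + |b.im|))) ^ 2 := by
            rw [← Real.exp_nat_mul]
            congr 1
            push_cast
            ring
          rw [e3]
          calc _ = ε * ((Real.exp (l ^ 2 * Tt + l * (d + Y)) * Real.exp (-(l * ip w b))) *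
                (Lc 1 d δ t * √s)) ^ 2 := by ring
            _ ≤ ε * ((Real.exp (l ^ 2 * Tt + l * Y + l * c * (δ + Y)) *
                Real.exp (-(l * c * (|b.re - d| + |b.im|)))) *
                (Lc 1 d δ t * √s)) ^ 2 := by gcongr
            _ = _ := by ring
  have hem : Measurable (fun b : ℂ => ENNReal.ofReal (Real.exp (-(2 * l * c *
          (|b.re - d| + |b.im|))))) := by
    have h1 : Continuous fun b : ℂ => Real.exp (-(2 * l * c * (|b.re - d| + |b.im|))) := by fun_prop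
    exact h1.measurable.ennreal_ofReal
  unfold Ms
  calc _ ≤ ((m + 1 : ℕ) : ℝ≥0∞) * ∫⁻ b in S₀,
        (Ess K₂ (St d δ b) (Sg d δ Y) s m N b + ENNReal.ofReal (ε * (Real.exp (l ^ 2 * Tt + l * Y +
        l * c * (δ + Y)) * (Lc 1 d δ t * √s)) ^ 2) * ENNReal.ofReal (Real.exp (-(2 * l * c *
          (|b.re - d| + |b.im|))))) := by
        gcongr ((m + 1 : ℕ) : ℝ≥0∞) * ?_
        exact setLIntegral_mono' hS₀m key
    _ ≤ ((m + 1 : ℕ) : ℝ≥0∞) * ((∫⁻ b in S₀, Ess K₂ (St d δ b) (Sg d δ Y) s m N b) +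
        ENNReal.ofReal (ε * (Real.exp (l ^ 2 * Tt + l * Y +
        l * c * (δ + Y)) * (Lc 1 d δ t * √s)) ^ 2) * ENNReal.ofReal ((t / (d * c)) ^ 2)) := by
        rw [lintegral_add_right _ (hem.const_mul _), lintegral_const_mul' _ _ ENNReal.ofReal_ne_top]
        gcongr
        refine le_trans (lintegral_mono' Measure.restrict_le_self le_rfl) ?_
        rw [lint_abs2 (by positivity)]
        have : 2 / (2 * l * c) = t / (d * c) := by
          rw [hl]
          field_simp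
        rw [this]
    _ = _ := by
        have e : ((m + 1 : ℕ) : ℝ≥0∞) = ENNReal.ofReal ((m : ℝ) + 1) := by
          rw [← ENNReal.ofReal_natCast]
          push_cast
          rfl
        have hsq : ((m : ℝ) + 1) * √s ^ 2 = t := by
          rw [Real.sq_sqrt hs.le, p.hs]
        rw [mul_add, ← ENNReal.ofReal_mul (by positivity)]
        congr 1
        rw [e, ← ENNReal.ofReal_mul (by positivity)]
        congr 1
        have e4 : Real.exp (2 * (l ^ 2 * Tt + l * Y + l * c * (δ + Y))) =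
            Real.exp (l ^ 2 * Tt + l * Y + l * c * (δ + Y)) ^ 2 := by
          rw [← Real.exp_nat_mul]
          push_cast
          rfl
        rw [e4]
        linear_combination (ε * Real.exp (l ^ 2 * Tt + l * Y + l * c * (δ + Y)) ^ 2 *
          Lc 1 d δ t ^ 2 * (t / (d * c)) ^ 2) * hsq

end Pool.Agent.N275.QD
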