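import Pool.Agent.N275.QD.Strip2

set_option autoImplicit false

/-!
# Project QD: the limit of many steps at a fixed time, legs in the strip
-/

namespace Pool.Agent.N275.QD

open MeasureTheory Set Filter Topology Complex
open Pool.Agent.R225.LP (gk ks ip ip_self)
open Pool.Agent.R225.LP.TR (ch ch_meas meas_left meas_right ch_mono_set kp kp_meas kp_comm ks_eq)
open scoped Real ENNReal ComplexConjugate

/-- the compact set -/
def Kd (d δ Y : ℝ) : Set ℂ := (Icc (d - 2 * δ) (d - δ)) ×ℂ (Icc (-Y) Y)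

theorem Kd_compact (d δ Y : ℝ) : IsCompact (Kd d δ Y) := isCompact_Icc.reProdIm isCompact_Icc

theorem Kd_sub (d δ Y : ℝ) : Sg d δ Y ⊆ Kd d δ Y := by
  rintro z ⟨h2, h3, h4⟩
  exact ⟨⟨h2, h3⟩, ⟨(abs_lt.1 h4).1.le, (abs_lt.1 h4).2.le⟩⟩

theorem Kd_arg {d δ Y α φ : ℝ} (hd : 0 < d) (hδ : δ ≤ d / 8) (hφ : 0 < φ) (hα : 0 < α)
    (hαφ : φ + α < π / 2) (hY1 : Y < 3 / 4 * d * Real.sin φ)
    (hY2 : Y < 3 / 4 * d * Real.sin (π / 2 - α - φ)) :
    ∀ z ∈ Kd d δ Y, 0 < z.re ∧ 0 ≤ arg z + φ ∧ arg z + φ < π / 2 - α := by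
  rintro z ⟨⟨h1, h2⟩, ⟨h3, h4⟩⟩
  have hre : 3 / 4 * d ≤ z.re := by
    have h1' : d - 2 * δ ≤ z.re := h1
    linarith
  have him : |z.im| ≤ Y := abs_le.2 ⟨h3, h4⟩
  have a1 := arg_small (z := z) (r := 3 / 4 * d) (ψ := φ) (by linarith) hre hφ
    (by linarith) (by linarith)
  have a2 := arg_small (z := z) (r := 3 / 4 * d) (ψ := π / 2 - α - φ) (by linarith) hre
    (by linarith) (by linarith) (by linarith)
  have b1 := (abs_lt.1 a1).1
  have b2 := (abs_lt.1 a2).2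
  exact ⟨by linarith, by linarith, by linarith⟩

/-- the additional error -/
noncomputable def Bs (φ d δ t x ψ : ℝ) : ℝ :=
  (1 / t + 2 / d ^ 2) * Lc 1 d δ t ^ 2 * t * (Real.exp (-(2 * (d / t) *
            (x ^ 8 / (100 * d)))) * (t / (d * (x ^ 4 / (40 * d)))) ^ 2 +
            δ * x ^ 4 * (4 * Real.exp (-(d / t * GG φ d δ (x ^ 4) ψ))))

theorem Bs_nonneg {φ d δ t x ψ : ℝ} (ht : 0 < t) (hδ : 0 ≤ δ) : 0 ≤ Bs φ d δ t x ψ := by
  unfold Bs
  have : 0 ≤ x ^ 4 := by positivity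
  positivity

theorem Bt_nonneg {n : ℂ} {d δ δ' t kk Y θ Tt g c : ℝ} (ht : 0 < t) (hkk : 0 ≤ kk) (hY : 0 ≤ Y) :
    0 ≤ Bt n d δ δ' t kk Y θ Tt g c := by
  have hgT : 0 < gT (d / t) kk δ Tt := Real.exp_pos _
  have hgY : 0 < gY (d / t) kk δ Y θ := Real.exp_pos _
  unfold Bt
  positivity

theorem fixed_s (hSU : S_SU) (hKR : S_KR) {α φ d δ x : ℝ} (h : Xc α φ d δ x)
    (hY2 : x ^ 4 < 3 / 4 * d * Real.sin (π / 2 - α - φ)) {t θ Tt g c : ℝ}
    (p : Pt (nv (π / 2 + φ) φ) (Hh φ) ((Hh (φ + α))ᶜ ∩ Hh φ) (Tv (π / 2 + φ) φ d) d δ t δ (x ^ 4)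
      θ Tt g c) {ψ : ℝ} (hψ : 0 ≤ ψ) (hψ1 : ψ ≤ 1) {ε : ℝ} (hε : 0 < ε) :
    ∀ᶠ m : ℕ in atTop,
      LM (Hh φ) (Hh (φ + α))ᶜ (Tv (π / 2 + φ) φ d) (nv (π / 2 + φ) φ) (t / (m + 1)) m ≤
        Ms (Gk α φ (t / (m + 1))) d δ δ (x ^ 4) (t / (m + 1)) m (Nt t Tt m) +
          ENNReal.ofReal (Real.exp (-(d ^ 2 / t)) * (Bt (nv (π / 2 + φ) φ) d δ δ t δ (x ^ 4) θ Tt
            g c + Bs φ d δ t x ψ + ε)) ∧
      Ms (Gk α φ (t / (m + 1))) d δ δ (x ^ 4) (t / (m + 1)) m (Nt t Tt m) ≤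
        LM (Hh φ) (Hh (φ + α))ᶜ (Tv (π / 2 + φ) φ d) (nv (π / 2 + φ) φ) (t / (m + 1)) m +
          ENNReal.ofReal (Real.exp (-(d ^ 2 / t)) * (Bt (nv (π / 2 + φ) φ) d δ δ t δ (x ^ 4) θ Tt
            g c + Bs φ d δ t x ψ + ε)) := by
  have ht := p.ht
  have hd := h.hd
  have hδ := h.hδ
  have hx := h.hx
  have hδd : δ ≤ d / 8 := by linarith [h.hδd]
  have hpi := Real.pi_gt_three
  have hsφ : 0 < Real.sin φ := Real.sin_pos_of_pos_of_lt_pi h.hφ (by linarith [h.hα, h.hαφ])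
  have hL := Lc_pos (n := 1) (by simp) hd hδ ht
  have glo := gloB (α := α) (φ := φ) h.hα h.hφ.le h.hαφ hd hδ hδd
  have hY1 : x ^ 4 < 3 / 4 * d * Real.sin φ := by
    have := h.h4
    have : 0 < d * Real.sin φ := by positivity
    linarith
  have hKa := Kd_arg (Y := x ^ 4) hd hδd h.hφ h.hα h.hαφ hY1 hY2
  have hSK : Sg d δ (x ^ 4) ⊆ Kd d δ (x ^ 4) := Kd_sub d δ (x ^ 4)
  -- the error of the kernels
  set D : ℝ := t * Lc 1 d δ t ^ 2 * Real.exp (2 * ((d / t) ^ 2 * Tt + d / t * (x ^ 4) +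
        d / t * (x ^ 4 / (40 * d)) * (δ + x ^ 4))) * (t / (d * (x ^ 4 / (40 * d)))) ^ 2 with hD
  have hD0 : 0 ≤ D := by positivity
  set ε' : ℝ := Real.exp (-(d ^ 2 / t)) * ε / (D + 1) with hε'
  have hε'0 : 0 < ε' := by positivity
  have hε'D : ε' * D ≤ Real.exp (-(d ^ 2 / t)) * ε := by
    rw [hε', div_mul_eq_mul_div, div_le_iff₀ (by positivity)]
    have : 0 ≤ Real.exp (-(d ^ 2 / t)) * ε := by positivity
    nlinarith
  have hkr := hKR α φ t (Kd d δ (x ^ 4)) ε' h.hα h.hφ.le h.hαφ ht (Kd_compact _ _ _) hKa hε'0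
  have hkr' := (tendsto_add_atTop_nat 1).eventually hkr
  have hfix := fixed_t hSU hKR h.hα h.hφ.le h.hαφ glo p (Kd_compact d δ (x ^ 4))
    (fun z hz => hSK hz.2) hKa hε
  filter_upwards [hkr', hfix, p.par] with m hm hf hp
  set s := t / ((m : ℝ) + 1) with hs
  have hs0 : 0 < s := by positivity
  have hms : ((m : ℝ) + 1) * s = t := hp.hs
  set N := Nt t Tt m with hN
  have hB0 : 0 ≤ Bt (nv (π / 2 + φ) φ) d δ δ t δ (x ^ 4) θ Tt g c :=
    Bt_nonneg ht hδ.le (by positivity)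
  have hBs0 : 0 ≤ Bs φ d δ t x ψ := Bs_nonneg ht hδ.le
  have hE2n := E2_nonneg (n := nv (π / 2 + φ) φ) (d := d) (δ := δ) (δ' := δ) (s := s) ht
  constructor
  · refine hf.1.trans ((add_le_add_left Mn_le_Ms _).trans ?_)
    gcongr
    linarith
  · have c2 := Ms_cmp hSU h hp (K₂ := hc (kp s) (Hh φ) ((Hh (φ + α))ᶜ ∩ Hh φ)) (K₁ := Gk α φ s)
      hε'0.le (fun i hi j hj u hu v hv => by
        have h1 := hp.mid hi hj
        have h2 := hp.hTt4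
        have e : (t / ((m + 1 : ℕ) : ℝ)) = s := by
          rw [hs]
          push_cast
          rfl
        have h3 := hm (m - 1 - i - 1 - j)
        rw [e] at h3
        have h5 : 0 < ((i : ℝ) + 1) * s := by positivity
        have h6 : 0 < ((j : ℝ) + 1) * s := by positivity
        have h4 := h3 (by linarith [h1.1]) (by linarith [h1.2]) u ⟨hSK hu, h.S_H hu⟩ v
          ⟨hSK hv, h.S_H hv⟩
        rw [hk_eq] at h4
        rw [hc_congr (A' := (Hh (φ + α))ᶜ ∩ Hh φ)] at h4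
        · rw [abs_le] at h4
          have hne : hc (kp s) (Hh φ) ((Hh (φ + α))ᶜ ∩ Hh φ) (m - 1 - i - 1 - j) u v ≠ ∞ :=
            ne_top_of_le_ne_top (ch_ne hs0 (Hh φ) _ u v) (hc_le_ch (kp_meas s) _ glo.Am _ u v)
          conv_rhs => rw [← ENNReal.ofReal_toReal hne]
          rw [Gk]
          refine (ENNReal.ofReal_le_ofReal ?_).trans ENNReal.ofReal_add_le
          linarith [h4.1]
        · ext z
          constructor
          · rintro ⟨h1, h2⟩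
            exact ⟨h1, h2, h1⟩
          · rintro ⟨h1, h2⟩
            exact ⟨h1, h2.1⟩)
    have c3 := strip_low hSU h hp hψ hψ1
    have l1 := LM_low hSU (A₀ := (Hh (φ + α))ᶜ) rfl glo hp
    refine c2.trans ((add_le_add_left (c3.trans (add_le_add_left l1 _)) _).trans ?_)
    rw [add_assoc, add_assoc]
    gcongr
    have hE2 : ((m : ℝ) + 1) * E2 (nv (π / 2 + φ) φ) d δ t s δ =
        (1 / t + 2 / d ^ 2) * Lc (nv (π / 2 + φ) φ) d δ t ^ 2 * t *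
          (2 * Real.exp (-(2 * (d / t) * δ))) := by
      have hsq : ((m : ℝ) + 1) * √s ^ 2 = t := by
        rw [Real.sq_sqrt hs0.le, hms]
      unfold E2
      linear_combination (2 * Real.exp (-(2 * (d / t) * δ)) * ((1 / t + 2 / d ^ 2) *
        Lc (nv (π / 2 + φ) φ) d δ t ^ 2)) * hsq
    have e5 : δ * x ^ 4 * (((m : ℝ) + 1) * E2 (nv (π / 2 + φ) φ) d δ t s δ) ≤
        Bt (nv (π / 2 + φ) φ) d δ δ t δ (x ^ 4) θ Tt g c := by
      rw [hE2]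
      have hgT : 0 < gT (d / t) δ δ Tt := Real.exp_pos _
      have hgY : 0 < gY (d / t) δ δ (x ^ 4) θ := Real.exp_pos _
      unfold Bt
      have e6 : 0 ≤ (1 / t + 2 / d ^ 2) * Lc (nv (π / 2 + φ) φ) d δ t ^ 2 * t * (δ * x ^ 4 *
        (2 * (gT (d / t) δ δ Tt + 2 * gY (d / t) δ δ (x ^ 4) θ)) +
        Real.exp (-(2 * (d / t) * g)) * (t / (d * c)) ^ 2) := by positivity
      nlinarith
    rw [← ENNReal.ofReal_add (by positivity) (by positivity),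
      ← ENNReal.ofReal_add (by positivity) (by positivity)]
    refine ENNReal.ofReal_le_ofReal ?_
    have e7 : ((m : ℝ) + 1) * (Real.exp (-(d ^ 2 / t)) * (δ * x ^ 4 *
        E2 (nv (π / 2 + φ) φ) d δ t s δ)) = Real.exp (-(d ^ 2 / t)) * (δ * x ^ 4 *
          (((m : ℝ) + 1) * E2 (nv (π / 2 + φ) φ) d δ t s δ)) := by ring
    have e8 : Real.exp (-(d ^ 2 / t)) * (δ * x ^ 4 *
          (((m : ℝ) + 1) * E2 (nv (π / 2 + φ) φ) d δ t s δ)) ≤ Real.exp (-(d ^ 2 / t)) *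
        Bt (nv (π / 2 + φ) φ) d δ δ t δ (x ^ 4) θ Tt g c := by gcongr
    rw [e7]
    have e9 : Real.exp (-(d ^ 2 / t)) * ((1 / t + 2 / d ^ 2) * Lc 1 d δ t ^ 2 * t *
        (Real.exp (-(2 * (d / t) * (x ^ 8 / (100 * d)))) * (t / (d * (x ^ 4 / (40 * d)))) ^ 2 +
            δ * x ^ 4 * (4 * Real.exp (-(d / t * GG φ d δ (x ^ 4) ψ))))) =
        Real.exp (-(d ^ 2 / t)) * Bs φ d δ t x ψ := by
      unfold Bs
      ring
    rw [e9]
    linarith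

end Pool.Agent.N275.QD
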