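import Pool.Agent.N275.QD.B0

set_option autoImplicit false

/-!
# Project QD: a right interior angle
-/

namespace Pool.Agent.N275.QD

open MeasureTheory Set Filter Topology Complex
open Pool.Agent.R225.LP (gk ks ip ip_self)
open scoped Real ENNReal ComplexConjugate

/-- the errors are small compared with a lower bound -/
theorem err_small {c₁ CB R ε : ℝ} (hc₁ : 0 < c₁) (hCB : 0 ≤ CB) (hR : 0 ≤ R) (hε : 0 < ε) (k : ℕ) :
    ∀ᶠ x : ℝ in 𝓝[>] 0, ∀ B : ℝ, B ≤ CB / x ^ 20 * Real.exp (-(c₁ / x)) →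
      R * (B + Real.exp (-(1 / x))) ≤ ε * (x ^ 10) ^ k := by
  set c₀ := min c₁ 1 with hc₀
  have hc₀0 : 0 < c₀ := lt_min hc₁ one_pos
  filter_upwards [self_mem_nhdsWithin, pow_small 0 (c := 1) (by norm_num),
    exp_small hc₀0 (R * (CB + 1)) 20 (10 * k) hε] with x hx0 hx1 e1 B hB
  have hx : 0 < x := hx0
  rw [zero_add, pow_one] at hx1
  have h1 : Real.exp (-(c₁ / x)) ≤ Real.exp (-(c₀ / x)) := by
    refine Real.exp_le_exp.2 (neg_le_neg ?_)
    gcongr
    exact min_le_left _ _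
  have h2 : Real.exp (-(1 / x)) ≤ Real.exp (-(c₀ / x)) := by
    refine Real.exp_le_exp.2 (neg_le_neg ?_)
    gcongr
    exact min_le_right _ _
  have h3 : CB / x ^ 20 * Real.exp (-(c₁ / x)) ≤
      CB / x ^ 20 * Real.exp (-(c₀ / x)) := by gcongr
  have h4 : Real.exp (-(1 / x)) ≤ 1 / x ^ 20 * Real.exp (-(c₀ / x)) := by
    refine h2.trans (le_mul_of_one_le_left (Real.exp_pos _).le ?_)
    rw [le_div_iff₀ (by positivity), one_mul]
    exact pow_le_one₀ hx.le hx1
  calc R * (B + Real.exp (-(1 / x))) ≤ R * (CB / x ^ 20 * Real.exp (-(c₀ / x)) +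
        1 / x ^ 20 * Real.exp (-(c₀ / x))) := by
        gcongr
        exact hB.trans h3
    _ = R * (CB + 1) / x ^ 20 * Real.exp (-(c₀ / x)) := by ring
    _ ≤ ε * x ^ (10 * k) := e1
    _ = _ := by rw [← pow_mul]

theorem t0 (hSU : S_SU) (hKR : S_KR) (hBR : S_BR) (hLB : S_LB) (hE0 : S_E0) (hMO : S_MO) :
    S_T0 := by
  intro α α' l ε hα hα2 hα' hα'2 hl hε
  obtain ⟨η, hη, hE⟩ := hE0 α α' l (ε / 2) hα hα2 hα' hα'2 hl (by positivity)
  obtain ⟨k, t₁, ht₁, hlb⟩ := hLB α (π / 2) l hα hα2 (by linarith) (by linarith) hl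
  obtain ⟨k', t₁', ht₁', hlb'⟩ := hLB α' (π / 2) l hα' hα'2 (by linarith) (by linarith) hl
  set r := mm 2 α / mm 2 α' with hr
  have hr0 : 0 < r := div_pos (hMO.2.1 2 α hα hα2).2 (hMO.2.1 2 α' hα' hα'2).2
  set ε₀ := min ε r with hε₀
  have hε₀0 : 0 < ε₀ := lt_min hε hr0
  obtain ⟨η, hη, hE⟩ := hE0 α α' l (ε₀ / 2) hα hα2 hα' hα'2 hl (by positivity)
  set δ := min (l / 16) (η / 4) with hδdef
  have hδ : 0 < δ := by positivity
  have hδl : δ ≤ l / 16 := min_le_left _ _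
  have hδη : δ ≤ η / 4 := min_le_right _ _
  refine root10 (P := fun t => ∀ᶠ M : ℕ in atTop, |Nn α (π / 2) l t M - r *
    Nn α' (π / 2) l t M| ≤ ε * Nn α' (π / 2) l t M) ?_
  set CB := (1 + 2 / l ^ 2) * (16 * l) ^ 2 * (8 + 1600) with hCB
  have hCB0 : 0 ≤ CB := by positivity
  set c₁ := min (3 / 2 * l * δ) (min (3 * l / (200 * δ)) (1 / 50)) with hc₁
  have hc₁0 : 0 < c₁ := by positivity
  have e1 := err_small hc₁0 hCB0 (R := 4 * π * (2 * r + 2)) (by positivity) (half_pos hε) k'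
  have e2 := pow_small 9 (c := η / 2) (by positivity)
  have e3 := pow_small 9 (c := t₁ / 2) (by positivity)
  have e4 := pow_small 9 (c := t₁' / 2) (by positivity)
  have e5 := pow_small 3 (c := η) (by positivity)
  have hsα : 0 < Real.sin (π / 2 - α) := Real.sin_pos_of_pos_of_lt_pi (by linarith)
    (by linarith [Real.pi_pos])
  have hsα' : 0 < Real.sin (π / 2 - α') := Real.sin_pos_of_pos_of_lt_pi (by linarith)
    (by linarith [Real.pi_pos])
  have e12 := pow_small 3 (c := 3 / 8 * l * Real.sin (π / 2 - α)) (by positivity)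
  have e13 := pow_small 3 (c := 3 / 8 * l * Real.sin (π / 2 - α')) (by positivity)
  filter_upwards [self_mem_nhdsWithin, pow_small 0 (c := 1) (by norm_num), e1, e2, e3, e4, e5,
    e12, e13, ptB (φ := 0) hα le_rfl (by linarith) hl hδ hδl,
    ptB (φ := 0) hα' le_rfl (by linarith) hl hδ hδl, BtB (φ := 0) hl hδ]
    with x hx0 hx1 e1 e2 e3 e4 e5 e12 e13 p p' hB
  have hx : 0 < x := hx0
  rw [zero_add, pow_one] at hx1
  set t := x ^ 10 with htdef
  have ht : 0 < t := by positivity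
  have ht2 : t ≤ η / 2 := e2
  have ht1 : t ≤ 1 := pow_le_one₀ hx.le hx1
  have glo := gloB (α := α) (φ := 0) hα le_rfl (by linarith) hl hδ (by linarith)
  have glo' := gloB (α := α') (φ := 0) hα' le_rfl (by linarith) hl hδ (by linarith)
  set q₀ := Real.exp (-(1 / x)) with hq₀
  have hq₀0 : 0 < q₀ := Real.exp_pos _
  have f1 := fixed_t hSU hKR hα le_rfl (by linarith : (0 : ℝ) + α < π / 2) glo p
    (Kc_compact l δ (x ^ 4)) (Kc_sub l δ (x ^ 4)) (Kc_arg hl (by linarith) hα2 hα (by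
      have : x ^ (3 + 1) = x ^ 4 := rfl
      have : 0 < 3 / 8 * l * Real.sin (π / 2 - α) := by positivity
      linarith)) hq₀0
  have f2 := fixed_t hSU hKR hα' le_rfl (by linarith : (0 : ℝ) + α' < π / 2) glo' p'
    (Kc_compact l δ (x ^ 4)) (Kc_sub l δ (x ^ 4)) (Kc_arg hl (by linarith) hα'2 hα' (by
      have : x ^ (3 + 1) = x ^ 4 := rfl
      have : 0 < 3 / 8 * l * Real.sin (π / 2 - α') := by positivity
      linarith)) hq₀0
  have hlbt := (tendsto_add_atTop_nat 1).eventually (hlb t ht (by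
    have : x ^ (9 + 1) = t := rfl
    linarith))
  have hlbt' := (tendsto_add_atTop_nat 1).eventually (hlb' t ht (by
    have : x ^ (9 + 1) = t := rfl
    linarith))
  have main : ∀ᶠ m : ℕ in atTop, |Nn α (π / 2) l t (m + 1) - r *
      Nn α' (π / 2) l t (m + 1)| ≤ ε * Nn α' (π / 2) l t (m + 1) := by
    filter_upwards [f1, f2, hlbt, hlbt', p.par] with m f1 f2 g1 g2 hp
    have hdd : dd (π / 2) l = l := by unfold dd; rw [if_pos le_rfl]
    rw [hdd] at g1 g2
    have hN : 0 ≤ Nn α (π / 2) l t (m + 1) := le_trans (by positivity) g1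
    have hN' : 0 ≤ Nn α' (π / 2) l t (m + 1) := le_trans (by positivity) g2
    set B := Bt (nv (π / 2 + 0) 0) l δ δ t δ (x ^ 4) (x ^ 4 / (10 * δ)) (4 * δ / (l / t))
      (x ^ 8 / (100 * l)) (x ^ 4 / (40 * l)) with hBdef
    have hB0 : 0 ≤ B := by
      have hgT : 0 < gT (l / t) δ δ (4 * δ / (l / t)) := Real.exp_pos _
      have hgY : 0 < gY (l / t) δ δ (x ^ 4) (x ^ 4 / (10 * δ)) := Real.exp_pos _
      rw [hBdef]
      unfold Bt
      positivity
    set err := Real.exp (-(l ^ 2 / t)) * (B + q₀) with herr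
    have herr0 : 0 ≤ err := by positivity
    have hε₁ : ε₀ ≤ ε := min_le_left _ _
    have hε₂ : ε₀ ≤ r := min_le_right _ _
    -- comparison of the kernels
    have hcmp : ∀ i < Nt t (4 * δ / (l / t)) m, ∀ j < Nt t (4 * δ / (l / t)) m,
        ∀ u ∈ Hh 0 ∩ Sg l δ (x ^ 4), ∀ v ∈ Hh 0 ∩ Sg l δ (x ^ 4),
        |Gf α (((m - 1 - i - 1 - j : ℕ) + 1) * (t / (m + 1))) u v - r *
          Gf α' (((m - 1 - i - 1 - j : ℕ) + 1) * (t / (m + 1))) u v| ≤
          ε₀ / 2 * Gf α' (((m - 1 - i - 1 - j : ℕ) + 1) * (t / (m + 1))) u v := by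
      intro i hi j hj u hu v hv
      have h1 := hp.mid hi hj
      have h5 : 0 < ((i : ℝ) + 1) * (t / (m + 1)) := by positivity
      have h6 : 0 < ((j : ℝ) + 1) * (t / (m + 1)) := by positivity
      have h4 := p.hTt4
      have key := hE t (((m - 1 - i - 1 - j : ℕ) + 1) * (t / (m + 1))) u.re v.re u.im v.im ht
        (by linarith) (by linarith [h1.1]) (by linarith [h1.2]) (by
          have := hu.2.1
          have := hu.2.2.1
          rw [abs_le]
          constructor <;> linarith) (by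
          have := hv.2.1
          have := hv.2.2.1
          rw [abs_le]
          constructor <;> linarith) ((Hh0 u).1 hu.1) (by
          have := hu.2.2.2
          have h8 := (abs_lt.1 this).2
          have : x ^ (3 + 1) = x ^ 4 := rfl
          linarith) ((Hh0 v).1 hv.1) (by
          have := hv.2.2.2
          have h8 := (abs_lt.1 this).2
          have : x ^ (3 + 1) = x ^ 4 := rfl
          linarith)
      rw [Complex.re_add_im, Complex.re_add_im] at key
      exact key.2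
    have m1 : Mn (Gk α 0 (t / (m + 1))) (nv (π / 2 + 0) 0) (Hh 0) (Tv (π / 2 + 0) 0 l) l δ δ
        (x ^ 4) (t / (m + 1)) m (Nt t (4 * δ / (l / t)) m) ≤ ENNReal.ofReal (r + ε₀ / 2) *
        Mn (Gk α' 0 (t / (m + 1))) (nv (π / 2 + 0) 0) (Hh 0) (Tv (π / 2 + 0) 0 l) l δ δ
        (x ^ 4) (t / (m + 1)) m (Nt t (4 * δ / (l / t)) m) := by
      rw [← Mn_mul _ ENNReal.ofReal_ne_top]
      refine Mn_mono glo fun i hi j hj u hu v hv => ?_
      have h1 := hcmp i hi j hj u hu v hv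
      rw [abs_le] at h1
      unfold Gk
      rw [← ENNReal.ofReal_mul (by positivity), Gr0, Gr0]
      refine ENNReal.ofReal_le_ofReal ?_
      linarith [h1.2]
    have m2 : ENNReal.ofReal (r - ε₀ / 2) *
        Mn (Gk α' 0 (t / (m + 1))) (nv (π / 2 + 0) 0) (Hh 0) (Tv (π / 2 + 0) 0 l) l δ δ
        (x ^ 4) (t / (m + 1)) m (Nt t (4 * δ / (l / t)) m) ≤ Mn (Gk α 0 (t / (m + 1)))
        (nv (π / 2 + 0) 0) (Hh 0) (Tv (π / 2 + 0) 0 l) l δ δ
        (x ^ 4) (t / (m + 1)) m (Nt t (4 * δ / (l / t)) m) := by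
      rw [← Mn_mul _ ENNReal.ofReal_ne_top]
      refine Mn_mono glo fun i hi j hj u hu v hv => ?_
      have h1 := hcmp i hi j hj u hu v hv
      rw [abs_le] at h1
      unfold Gk
      rw [← ENNReal.ofReal_mul (by linarith), Gr0, Gr0]
      refine ENNReal.ofReal_le_ofReal ?_
      linarith [h1.1]
    have hTl : Tv (π / 2 + 0) 0 l = Tv (π / 2) 0 (l * Real.sin (π / 2)) := by
      rw [add_zero, Real.sin_pi_div_two, mul_one]
    have hnl : nv (π / 2 + 0) 0 = nv (π / 2) 0 := by rw [add_zero]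
    have c1 := con (φ := 0) hBR hα (by linarith : 0 < π / 2) (by linarith) hl ht m
    have c2 := con (φ := 0) hBR hα' (by linarith : 0 < π / 2) (by linarith) hl ht m
    rw [← hTl, ← hnl] at c1 c2
    have fin := combine (c₀ := 4 * π * t) (ρ := r) (η := ε₀ / 2) hN hN' (by positivity) herr0
      herr0 (by positivity) (by linarith) c1 c2 f1.1 f1.2 f2.1 f2.2 m1 m2
    refine fin.trans ?_
    have hfin : 4 * π * t * ((r + ε₀ / 2) * err + err) ≤ ε / 2 * Nn α' (π / 2) l t (m + 1) := by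
      have h1 : (r + ε₀ / 2) * err + err ≤ (2 * r + 2) * err := by
        have h2 : r + ε₀ / 2 + 1 ≤ 2 * r + 2 := by linarith
        calc (r + ε₀ / 2) * err + err = (r + ε₀ / 2 + 1) * err := by ring
          _ ≤ _ := by gcongr
      have h3 : (4 * π * (2 * r + 2)) * (B + q₀) ≤ ε / 2 * t ^ k' := e1 B hB
      calc 4 * π * t * ((r + ε₀ / 2) * err + err) ≤ 4 * π * t * ((2 * r + 2) * err) := by
            gcongr
        _ = t * (((4 * π * (2 * r + 2)) * (B + q₀)) * Real.exp (-(l ^ 2 / t))) := by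
            rw [herr]
            ring
        _ ≤ 1 * ((ε / 2 * t ^ k') * Real.exp (-(l ^ 2 / t))) := by gcongr
        _ = ε / 2 * (t ^ k' * Real.exp (-(l ^ 2 / t))) := by ring
        _ ≤ ε / 2 * Nn α' (π / 2) l t (m + 1) := by gcongr
    have h5 : ε₀ / 2 * Nn α' (π / 2) l t (m + 1) ≤ ε / 2 * Nn α' (π / 2) l t (m + 1) := by
      gcongr
    linarith
  rw [eventually_atTop] at main ⊢
  obtain ⟨m₀, hm₀⟩ := main
  refine ⟨m₀ + 1, fun M hM => ?_⟩
  obtain ⟨m, rfl⟩ : ∃ m, M = m + 1 := ⟨M - 1, by omega⟩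
  exact hm₀ m (by omega)

end Pool.Agent.N275.QD
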