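import Pool.Agent.N275.QD.Sma

set_option autoImplicit false

/-!
# Project QD: two obtuse interior angles
-/

namespace Pool.Agent.N275.QD

open MeasureTheory Set Filter Topology Complex
open Pool.Agent.R225.LP (gk ks ip ip_self)
open scoped Real ENNReal ComplexConjugate

theorem nv0_re (β : ℝ) : (nv β 0).re = Real.sin β := by simp [nv]

theorem nv0_im (β : ℝ) : (nv β 0).im = -Real.cos β := by simp [nv]

theorem nv0_ip (β : ℝ) (z : ℂ) : ip (nv β 0) z = z.re * Real.sin β - z.im * Real.cos β := by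
  simp only [ip, nv0_re, nv0_im]
  ring

theorem Hh0 (z : ℂ) : z ∈ Hh 0 ↔ 0 < z.im := by simp [Hh]

theorem notHh (α : ℝ) (z : ℂ) : z ∈ (Hh (0 + α))ᶜ ↔ z.re * Real.sin α + z.im * Real.cos α ≤ 0 := by
  simp [Hh]

theorem A_neg {α : ℝ} (hα : 0 < α) (hα2 : α < π / 2) {z : ℂ}
    (hz : z ∈ (Hh (0 + α))ᶜ ∩ Hh 0) : z.re ≤ 0 := by
  have h1 := (notHh α z).1 hz.1
  have h2 := (Hh0 z).1 hz.2
  have h3 : 0 < Real.sin α := Real.sin_pos_of_pos_of_lt_pi hα (by linarith [Real.pi_pos])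
  have h4 : 0 < Real.cos α := Real.cos_pos_of_mem_Ioo ⟨by linarith, hα2⟩
  by_contra hcon
  push Not at hcon
  have := mul_pos hcon h3
  have := mul_pos h2 h4
  linarith

theorem gloA {α β l δ : ℝ} (hα : 0 < α) (hα2 : α < π / 2) (hβ : 0 < β) (hβ2 : β ≤ π / 2)
    (hl : 0 < l) (hδ : 0 < δ) (hδl : δ ≤ l / 8) :
    Glo (nv β 0) (Hh 0) ((Hh (0 + α))ᶜ ∩ Hh 0) (Tv β 0 (l * Real.sin β)) l δ
      (δ * Real.sin β) := by
  have hs : 0 < Real.sin β := Real.sin_pos_of_pos_of_lt_pi hβ (by linarith [Real.pi_pos])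
  have hc : 0 ≤ Real.cos β := Real.cos_nonneg_of_mem_Icc ⟨by linarith, hβ2⟩
  exact
    { hn := nv_norm β 0
      hr := by rw [nv0_re]; exact hs
      Hm := Hh_meas 0
      Am := (Hh_meas _).compl.inter (Hh_meas 0)
      Tm := Tv_meas _ _ _
      A0 := fun z hz => A_neg hα hα2 hz
      Tu := fun b hb z hz => le_trans hb hz
      T0 := fun b hb hb' => by
        have h1 : l * Real.sin β ≤ ip (nv β 0) b := hb
        rw [nv0_ip] at h1
        have h2 := (Hh0 b).1 hb'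
        have h3 : l * Real.sin β ≤ b.re * Real.sin β := by nlinarith
        exact le_of_mul_le_mul_right h3 hs
      Tc := fun b hb _ z hz hz' => by
        have h1 : l * Real.sin β ≤ ip (nv β 0) b := hb
        have h2 := (Hh0 z).1 hz
        rw [nv0_ip (z := z)]
        have h3 : z.re * Real.sin β ≤ (l - δ) * Real.sin β := by gcongr
        nlinarith
      hd := hl
      hδ := hδ
      hδd := hδl
      hδ' := by positivity }

/-- the compact set -/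
def Kc (d δ Y : ℝ) : Set ℂ := (Icc (d - 2 * δ) (d - δ)) ×ℂ (Icc 0 Y)

theorem Kc_compact (d δ Y : ℝ) : IsCompact (Kc d δ Y) := isCompact_Icc.reProdIm isCompact_Icc

theorem Kc_sub (d δ Y : ℝ) : Hh 0 ∩ Sg d δ Y ⊆ Kc d δ Y := by
  rintro z ⟨h1, h2, h3, h4⟩
  have := (Hh0 z).1 h1
  exact ⟨⟨h2, h3⟩, ⟨this.le, (abs_lt.1 h4).2.le⟩⟩

theorem Kc_arg {d δ Y α : ℝ} (hd : 0 < d) (hδ : δ ≤ d / 8) (hα2 : α < π / 2) (hα : 0 < α)
    (hY : Y < 3 / 4 * d * Real.sin (π / 2 - α)) :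
    ∀ z ∈ Kc d δ Y, 0 < z.re ∧ 0 ≤ arg z + 0 ∧ arg z + 0 < π / 2 - α := by
  rintro z ⟨⟨h1, h2⟩, ⟨h3, h4⟩⟩
  have hre : 3 / 4 * d ≤ z.re := by
    have h1' : d - 2 * δ ≤ z.re := h1
    linarith
  have him : 0 ≤ z.im := h3
  have him2 : z.im ≤ Y := h4
  rw [add_zero]
  refine ⟨by linarith, Complex.arg_nonneg_iff.2 him, ?_⟩
  have h5 := arg_small (z := z) (r := 3 / 4 * d) (ψ := π / 2 - α) (by linarith) hre (by linarith)
    (by linarith) (by rw [abs_of_nonneg him]; linarith)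
  exact (abs_lt.1 h5).2

theorem Gr0 (α t : ℝ) (z w : ℂ) : Gr α 0 t z w = Gf α t z w := by
  simp [Gr]

theorem half_sin {θ : ℝ} (h0 : 0 ≤ θ) (h1 : θ ≤ π / 2) : 3 / 5 * θ ≤ Real.sin θ := by
  have h2 := Real.mul_le_sin h0 h1
  have h3 : (3 : ℝ) / 5 ≤ 2 / π := by
    rw [div_le_div_iff₀ (by norm_num) Real.pi_pos]
    have := Real.pi_lt_d2
    linarith
  have : 3 / 5 * θ ≤ 2 / π * θ := by gcongr
  linarith

/-- decay of the legs, common part -/
theorem gY_le {l kk δ Y : ℝ} (hl : 0 < l) (hδ : 0 < δ) (hkk : kk ≤ δ) (hY : 0 < Y)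
    (hθ : Y / (10 * δ) ≤ π / 2) :
    gY l kk δ Y (Y / (10 * δ)) ≤ Real.exp (-(3 / 200 * l * Y ^ 2 / δ)) := by
  unfold gY
  refine Real.exp_le_exp.2 ?_
  set θ := Y / (10 * δ) with hθd
  have hθ0 : 0 < θ := by positivity
  have h1 := one_sub_cos_le θ
  have h2 := half_sin hθ0.le hθ
  have e1 : Y = 10 * δ * θ := by
    rw [hθd]
    field_simp
  have h3 : l * (1 - Real.cos θ) * (kk + 2 * δ) ≤ l * (θ ^ 2 / 2) * (3 * δ) := by
    have h5 : l * (1 - Real.cos θ) * (kk + 2 * δ) ≤ l * (1 - Real.cos θ) * (3 * δ) := by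
      have : 0 ≤ l * (1 - Real.cos θ) := mul_nonneg hl.le (by linarith [Real.cos_le_one θ])
      exact mul_le_mul_of_nonneg_left (by linarith) this
    have h6 : l * (1 - Real.cos θ) * (3 * δ) ≤ l * (θ ^ 2 / 2) * (3 * δ) := by gcongr
    linarith
  have h4 : l * (3 / 5 * θ) * (Y / 2) ≤ l * Real.sin θ * (Y / 2) := by gcongr
  have e2 : 3 / 200 * l * Y ^ 2 / δ = 3 / 2 * l * δ * θ ^ 2 := by
    rw [e1]
    field_simp
    norm_num
  have e3 : l * (3 / 5 * θ) * (Y / 2) = 3 * l * δ * θ ^ 2 := by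
    rw [e1]
    ring
  have e4 : l * (θ ^ 2 / 2) * (3 * δ) = 3 / 2 * l * δ * θ ^ 2 := by ring
  rw [e2]
  linarith

theorem gT_le {l kk δ : ℝ} (hl : 0 < l) (hkk : kk ≤ δ) :
    gT l kk δ (4 * δ / l) ≤ Real.exp (-(3 / 2 * l * δ)) := by
  unfold gT
  refine Real.exp_le_exp.2 ?_
  have e1 : 3 / 4 * l ^ 2 * (4 * δ / l) = 3 * l * δ := by
    field_simp
  have h1 : l / 2 * (kk + 2 * δ) ≤ l / 2 * (3 * δ) := by
    have : 0 ≤ l / 2 := by positivity
    exact mul_le_mul_of_nonneg_left (by linarith) this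
  rw [e1]
  linarith

/-- small bounds of `Lc` -/
theorem Lc_le {n : ℂ} {d δ' t : ℝ} (hd : 0 < d) (ht : 0 < t)
    (h : 1 ≤ d / t * n.re * δ') : Lc n d δ' t ≤ 16 * (d / t) := by
  unfold Lc
  have h1 : Real.exp (-(d / t * n.re * δ')) ≤ 1 / 2 := by
    have h2 : Real.exp (-(d / t * n.re * δ')) ≤ Real.exp (-1) := Real.exp_le_exp.2 (by linarith)
    have h3 := Real.exp_one_gt_d9
    have h4 : Real.exp (-1) ≤ 1 / 2 := by
      rw [Real.exp_neg, one_div]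
      gcongr
      linarith
    linarith
  rw [div_le_iff₀ (by linarith)]
  have : 0 < d / t := by positivity
  nlinarith

end Pool.Agent.N275.QD
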