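import Pool.Agent.N275.QD.Ker

set_option autoImplicit false

/-!
# Project QD: supersolutions
-/

namespace Pool.Agent.N275.QD

open MeasureTheory Set Filter Topology Complex
open Pool.Agent.R225.LP (gk ks ip ip_self ip_sub_right ip_sub_left ip_add_left ip_add_right
  ip_smul_left ip_smul_right norm_sq_add norm_sq_sub lint_exp gk_pos gk_nonneg gk_cont nG lint_nG
  mgf_nG gkE_meas ip_cont)
open Pool.Agent.R225.LP.TR (ch ch_meas meas_left meas_right ch_mono_set kp kp_meas kp_comm ks_eq)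
open scoped Real ENNReal ComplexConjugate

section abs

variable {κ : ℂ → ℂ → ℝ≥0∞}

/-- shifting the sum -/
theorem sum_shift (hκ : Measurable (Function.uncurry κ)) {η : ℕ → ℂ → ℂ → ℝ≥0∞}
    (hη : ∀ i, Measurable (Function.uncurry (η i))) {w : ℂ → ℝ≥0∞} (hw : Measurable w)
    (R E : Set ℂ) (r : ℝ≥0∞) (hr : r ≠ ∞) (N : ℕ) (a : ℂ) :
    ∑ i ∈ Finset.range N, r ^ (i + 1 + 1) * ∫⁻ u in E, (∫⁻ z in R, κ a z * η i z u) * w u =
      r * ∫⁻ z in R, κ a z * ∑ i ∈ Finset.range N, r ^ (i + 1) * ∫⁻ u in E, η i z u * w u := by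
  have hm : ∀ i, Measurable (fun z => ∫⁻ u in E, η i z u * w u) := fun i =>
    Measurable.lintegral_prod_right' (f := fun q : ℂ × ℂ => η i q.1 q.2 * w q.2)
      ((hη i).mul (hw.comp measurable_snd))
  simp_rw [Finset.mul_sum]
  rw [lintegral_finsetSum, Finset.mul_sum]
  · refine Finset.sum_congr rfl fun i _ => ?_
    have e : ∀ z, κ a z * (r ^ (i + 1) * ∫⁻ u in E, η i z u * w u) =
        r ^ (i + 1) * (κ a z * ∫⁻ u in E, η i z u * w u) := fun z => by ring
    simp_rw [e]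
    rw [lintegral_const_mul' _ _ (ENNReal.pow_ne_top hr), swp hκ (hη i) hw R E a]
    ring
  · intro i _
    exact (meas_right hκ a).mul ((hm i).const_mul _)

theorem sup_sum (hκ : Measurable (Function.uncurry κ)) {R E D : Set ℂ} (hR : MeasurableSet R)
    (hE : MeasurableSet E) (hd : Disjoint R E) (hRD : R ⊆ D) {r : ℝ≥0∞} (hr : r ≠ ∞)
    {f : ℂ → ℝ≥0∞} (hf : Measurable f)
    (h : ∀ a ∈ D, r * ∫⁻ z in R ∪ E, κ a z * f z ≤ f a) (N : ℕ) :
    ∀ a ∈ D, ∑ i ∈ Finset.range N, r ^ (i + 1) * ∫⁻ u in E, ch κ R i a u * f u ≤ f a := by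
  induction N with
  | zero => intro a _; simp
  | succ N ih =>
    intro a ha
    rw [Finset.sum_range_succ']
    have e := sum_shift hκ (η := fun i => ch κ R i) (fun i => ch_meas hκ R i) hf R E r hr N a
    change (∑ i ∈ Finset.range N, r ^ (i + 1 + 1) * ∫⁻ u in E,
      (∫⁻ z in R, κ a z * ch κ R i z u) * f u) + r ^ (0 + 1) * (∫⁻ u in E, κ a u * f u) ≤ f a
    rw [e, zero_add, pow_one]
    calc r * (∫⁻ z in R, κ a z * ∑ i ∈ Finset.range N, r ^ (i + 1) *
          ∫⁻ u in E, ch κ R i z u * f u) + r * ∫⁻ u in E, κ a u * f u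
        ≤ r * (∫⁻ z in R, κ a z * f z) + r * ∫⁻ u in E, κ a u * f u := by
          gcongr ?_ + _
          gcongr r * ?_
          refine setLIntegral_mono' hR fun z hz => ?_
          gcongr
          exact ih z (hRD hz)
      _ = r * ∫⁻ z in R ∪ E, κ a z * f z := by
          rw [lintegral_union hE hd, mul_add]
      _ ≤ f a := h a ha

theorem loss_sum (hκ : Measurable (Function.uncurry κ)) {R G E D : Set ℂ} (hR : MeasurableSet R)
    (hG : MeasurableSet G) (hRD : R ⊆ D) {r : ℝ≥0∞} (hr : r ≠ ∞) {w g : ℂ → ℝ≥0∞}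
    (hw : Measurable w)
    (h : ∀ a ∈ D, r * ∫⁻ z in R, κ a z * g z ≤ g a)
    (hF : ∀ N : ℕ, ∀ z ∈ R ∩ G,
      ∑ i ∈ Finset.range N, r ^ (i + 1) * ∫⁻ u in E, ch κ R i z u * w u ≤ g z) (N : ℕ) :
    ∀ a ∈ D, ∑ i ∈ Finset.range N, r ^ (i + 1) * ∫⁻ u in E, hc κ R G i a u * w u ≤ g a := by
  induction N with
  | zero => intro a _; simp
  | succ N ih =>
    intro a ha
    rw [Finset.sum_range_succ']
    have e1 := sum_shift hκ (η := fun i => ch κ R i) (fun i => ch_meas hκ R i) hw (R ∩ G) E r hr N a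
    have e2 := sum_shift hκ (η := fun i => hc κ R G i) (fun i => hc_meas hκ R G i) hw (R \ G) E r
      hr N a
    have hm1 : ∀ i, Measurable (fun u => ∫⁻ z in R ∩ G, κ a z * ch κ R i z u) := fun i =>
      Measurable.lintegral_prod_right' (f := fun q : ℂ × ℂ => κ a q.2 * ch κ R i q.2 q.1)
        (((meas_right hκ a).comp measurable_snd).mul ((ch_meas hκ R i).comp measurable_swap))
    have e3 : ∑ i ∈ Finset.range N, r ^ (i + 1 + 1) * ∫⁻ u in E, hc κ R G (i + 1) a u * w u =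
        r * (∫⁻ z in R ∩ G, κ a z * ∑ i ∈ Finset.range N, r ^ (i + 1) *
          ∫⁻ u in E, ch κ R i z u * w u) +
        r * (∫⁻ z in R \ G, κ a z * ∑ i ∈ Finset.range N, r ^ (i + 1) *
          ∫⁻ u in E, hc κ R G i z u * w u) := by
      rw [← e1, ← e2, ← Finset.sum_add_distrib]
      refine Finset.sum_congr rfl fun i _ => ?_
      rw [← mul_add, ← lintegral_add_left (ml (hm1 i) hw)]
      congr 1
      refine lintegral_congr fun u => ?_
      rw [← add_mul]
      rfl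
    rw [e3]
    simp only [hc, zero_mul, lintegral_zero, mul_zero, add_zero]
    calc r * (∫⁻ z in R ∩ G, κ a z * ∑ i ∈ Finset.range N, r ^ (i + 1) *
          ∫⁻ u in E, ch κ R i z u * w u) +
        r * (∫⁻ z in R \ G, κ a z * ∑ i ∈ Finset.range N, r ^ (i + 1) *
          ∫⁻ u in E, hc κ R G i z u * w u)
        ≤ r * (∫⁻ z in R ∩ G, κ a z * g z) + r * (∫⁻ z in R \ G, κ a z * g z) := by
          gcongr ?_ + ?_
          · gcongr r * ?_
            refine setLIntegral_mono' (hR.inter hG) fun z hz => ?_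
            gcongr
            exact hF N z hz
          · gcongr r * ?_
            refine setLIntegral_mono' (hR.diff hG) fun z hz => ?_
            gcongr
            exact ih z (hRD hz.1)
      _ = r * ∫⁻ z in R, κ a z * g z := by
          rw [← mul_add, lintegral_inter_add_sdiff _ _ hG]
      _ ≤ g a := h a ha

theorem jump_term (hκ : Measurable (Function.uncurry κ)) {R E D : Set ℂ} (hR : MeasurableSet R)
    (hRD : R ⊆ D) {r θ : ℝ≥0∞} (hr : r ≠ ∞) (hθ : θ ≠ ∞) {w g : ℂ → ℝ≥0∞} (hw : Measurable w)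
    (h : ∀ a ∈ D, r * ∫⁻ z in R, κ a z * g z ≤ g a)
    (hj : ∀ a ∈ D, ∫⁻ u in E, κ a u * w u ≤ θ * g a) (i : ℕ) :
    ∀ a ∈ D, r ^ i * ∫⁻ u in E, ch κ R i a u * w u ≤ θ * g a := by
  induction i with
  | zero =>
    intro a ha
    rw [pow_zero, one_mul]
    exact hj a ha
  | succ i ih =>
    intro a ha
    change r ^ (i + 1) * ∫⁻ u in E, (∫⁻ z in R, κ a z * ch κ R i z u) * w u ≤ θ * g a
    rw [← swp hκ (ch_meas hκ R i) hw R E a]
    calc r ^ (i + 1) * ∫⁻ z in R, κ a z * ∫⁻ u in E, ch κ R i z u * w u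
        = r * ∫⁻ z in R, κ a z * (r ^ i * ∫⁻ u in E, ch κ R i z u * w u) := by
          have e : ∀ z, κ a z * (r ^ i * ∫⁻ u in E, ch κ R i z u * w u) =
              r ^ i * (κ a z * ∫⁻ u in E, ch κ R i z u * w u) := fun z => by ring
          simp_rw [e]
          rw [lintegral_const_mul' _ _ (ENNReal.pow_ne_top hr)]
          ring
      _ ≤ r * ∫⁻ z in R, κ a z * (θ * g z) := by
          gcongr r * ?_
          refine setLIntegral_mono' hR fun z hz => ?_
          gcongr κ a z * ?_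
          exact ih z (hRD hz)
      _ = θ * (r * ∫⁻ z in R, κ a z * g z) := by
          have e : ∀ z, κ a z * (θ * g z) = θ * (κ a z * g z) := fun z => by ring
          simp_rw [e]
          rw [lintegral_const_mul' _ _ hθ]
          ring
      _ ≤ θ * g a := by
          gcongr
          exact h a ha

end abs

/-! ## Gaussian tilts -/

theorem kp_exp {s : ℝ} (hs : 0 < s) (L a : ℂ) :
    ∫⁻ z, kp s a z * ENNReal.ofReal (Real.exp (-(ip L z))) =
      ENNReal.ofReal (Real.exp (‖L‖ ^ 2 * s - ip L a)) := by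
  have h := mgf_nG hs (-L)
  rw [lint_nG s (((ip_cont _).measurable.exp).ennreal_ofReal)] at h
  have e : ∀ z, kp s a z * ENNReal.ofReal (Real.exp (-(ip L z))) =
      ENNReal.ofReal (Real.exp (-(ip L a))) * (fun y => ENNReal.ofReal (gk s y) *
        ENNReal.ofReal (Real.exp (ip (-L) y))) (z - a) := by
    intro z
    simp only [kp]
    rw [mul_left_comm, ← ENNReal.ofReal_mul (Real.exp_pos _).le, ← Real.exp_add]
    congr 3
    rw [Pool.Agent.R225.LP.ip_neg_left, ip_sub_right]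
    ring
  simp_rw [e]
  rw [lintegral_const_mul' _ _ ENNReal.ofReal_ne_top, lintegral_sub_right_eq_self (fun y =>
    ENNReal.ofReal (gk s y) * ENNReal.ofReal (Real.exp (ip (-L) y))) a, h,
    ← ENNReal.ofReal_mul (Real.exp_pos _).le, ← Real.exp_add, norm_neg]
  congr 2
  ring

/-- the discount factor -/
noncomputable def rr (s : ℝ) (L : ℂ) : ℝ≥0∞ := ENNReal.ofReal (Real.exp (-(‖L‖ ^ 2 * s)))

theorem rr_ne (s : ℝ) (L : ℂ) : rr s L ≠ ∞ := ENNReal.ofReal_ne_top

theorem rr_pow (s : ℝ) (L : ℂ) (i : ℕ) :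
    rr s L ^ (i + 1) = ENNReal.ofReal (Real.exp (-(‖L‖ ^ 2 * ((i + 1) * s)))) := by
  unfold rr
  rw [← ENNReal.ofReal_pow (Real.exp_pos _).le, ← Real.exp_nat_mul]
  congr 2
  push_cast
  ring

theorem ex_meas (L : ℂ) : Measurable (fun z => ENNReal.ofReal (Real.exp (-(ip L z)))) :=
  ((ip_cont L).measurable.neg.exp).ennreal_ofReal

theorem kp_exp' {s : ℝ} (hs : 0 < s) (L a : ℂ) (R : Set ℂ) :
    rr s L * ∫⁻ z in R, kp s a z * ENNReal.ofReal (Real.exp (-(ip L z))) ≤
      ENNReal.ofReal (Real.exp (-(ip L a))) := by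
  calc rr s L * ∫⁻ z in R, kp s a z * ENNReal.ofReal (Real.exp (-(ip L z)))
      ≤ rr s L * ∫⁻ z, kp s a z * ENNReal.ofReal (Real.exp (-(ip L z))) := by
        gcongr
        exact Measure.restrict_le_self
    _ = ENNReal.ofReal (Real.exp (-(ip L a))) := by
        rw [kp_exp hs, rr, ← ENNReal.ofReal_mul (Real.exp_pos _).le, ← Real.exp_add]
        congr 2
        ring

/-- the sum over the legs -/
noncomputable def lg (s : ℝ) (L : ℂ) (R E : Set ℂ) (N : ℕ) (b : ℂ) : ℝ≥0∞ :=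
  ∑ i ∈ Finset.range N, rr s L ^ (i + 1) *
    ∫⁻ u in E, ch (kp s) R i b u * ENNReal.ofReal (Real.exp (-(ip L u)))

/-- legs with a jump -/
theorem lg_jump {s : ℝ} (hs : 0 < s) {L : ℂ} {R E : Set ℂ} (hR : MeasurableSet R) {c δ k : ℝ}
    (hE : MeasurableSet E) (hk : 0 ≤ k) (hRc : ∀ z ∈ R, c ≤ z.re) (hEc : ∀ z ∈ E, z.re ≤ c - δ)
    (N : ℕ) {b : ℂ} (hb : c ≤ b.re) :
    lg s L R E N b ≤ ENNReal.ofReal (N * Real.exp (-(k * δ) + ‖L + (k : ℂ)‖ ^ 2 * s) *
      Real.exp (-(ip L b))) := by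
  have hj : ∀ a ∈ {z : ℂ | c ≤ z.re}, ∫⁻ u in E, kp s a u * ENNReal.ofReal (Real.exp (-(ip L u))) ≤
      ENNReal.ofReal (Real.exp (-(k * δ) + ‖L + (k : ℂ)‖ ^ 2 * s)) *
        ENNReal.ofReal (Real.exp (-(ip L a))) := by
    intro a ha
    have h1 : ∀ u ∈ E, kp s a u * ENNReal.ofReal (Real.exp (-(ip L u))) ≤
        ENNReal.ofReal (Real.exp (-(k * δ) + k * a.re)) *
          (kp s a u * ENNReal.ofReal (Real.exp (-(ip (L + (k : ℂ)) u)))) := by
      intro u hu
      rw [mul_left_comm, ← ENNReal.ofReal_mul (Real.exp_pos _).le, ← Real.exp_add]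
      gcongr
      have e : ip (L + (k : ℂ)) u = ip L u + k * u.re := by
        simp [ip]
        ring
      rw [e]
      have h2 := hEc u hu
      have h3 : c ≤ a.re := ha
      nlinarith
    refine (setLIntegral_mono' hE h1).trans ?_
    rw [lintegral_const_mul' _ _ ENNReal.ofReal_ne_top]
    calc ENNReal.ofReal (Real.exp (-(k * δ) + k * a.re)) *
          ∫⁻ u in E, kp s a u * ENNReal.ofReal (Real.exp (-(ip (L + (k : ℂ)) u)))
        ≤ ENNReal.ofReal (Real.exp (-(k * δ) + k * a.re)) *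
          ∫⁻ u, kp s a u * ENNReal.ofReal (Real.exp (-(ip (L + (k : ℂ)) u))) := by
          gcongr
          exact Measure.restrict_le_self
      _ = _ := by
          rw [kp_exp hs, ← ENNReal.ofReal_mul (Real.exp_pos _).le, ← Real.exp_add,
            ← ENNReal.ofReal_mul (Real.exp_pos _).le, ← Real.exp_add]
          have e : ip (L + (k : ℂ)) a = ip L a + k * a.re := by
            simp [ip]
            ring
          rw [e]
          congr 2
          ring
  have h0 := jump_term (kp_meas s) hR (D := {z : ℂ | c ≤ z.re}) (fun z hz => hRc z hz)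
    (rr_ne s L) ENNReal.ofReal_ne_top (ex_meas L) (fun a _ => kp_exp' hs L a R) hj
  unfold lg
  calc _ ≤ ∑ i ∈ Finset.range N, ENNReal.ofReal (Real.exp (-(k * δ) + ‖L + (k : ℂ)‖ ^ 2 * s) *
        Real.exp (-(ip L b))) := by
        refine Finset.sum_le_sum fun i _ => ?_
        have h1 := h0 i b hb
        rw [ENNReal.ofReal_mul (Real.exp_pos _).le]
        refine le_trans ?_ h1
        rw [pow_succ, mul_assoc, mul_left_comm]
        refine mul_le_of_le_one_left zero_le ?_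
        unfold rr
        rw [← ENNReal.ofReal_one]
        refine ENNReal.ofReal_le_ofReal ?_
        rw [Real.exp_le_one_iff]
        have : 0 ≤ ‖L‖ ^ 2 * s := by positivity
        linarith
    _ = _ := by
        rw [Finset.sum_const, Finset.card_range, nsmul_eq_mul, mul_assoc,
          ENNReal.ofReal_mul (Nat.cast_nonneg N), ENNReal.ofReal_natCast]

/-- the supersolution -/
noncomputable def fS (n L : ℂ) (c s : ℝ) (z : ℂ) : ℝ := Real.exp (-(ip L z)) *
  (1 - Real.exp (-(8 * (ip L n * √s))) * Real.exp (-(2 * ip L n * (c - ip n z))))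

theorem fS_meas (n L : ℂ) (c s : ℝ) : Measurable (fun z => ENNReal.ofReal (fS n L c s z)) := by
  unfold fS
  refine Measurable.ennreal_ofReal ?_
  refine (ip_cont L).measurable.neg.exp.mul (measurable_const.sub (measurable_const.mul ?_))
  exact ((measurable_const.sub (ip_cont n).measurable).const_mul _).neg.exp

theorem fS_sup (hSU : S_SU) {s : ℝ} (hs : 0 < s) {L n : ℂ} (hn : ‖n‖ = 1) (hp : 0 < ip L n)
    (hps : ip L n * √s ≤ 1) {c : ℝ} {R : Set ℂ} (hRc : ∀ z ∈ R, ip n z < c) {a : ℂ}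
    (ha : ip n a ≤ c) :
    rr s L * ∫⁻ z in R, kp s a z * ENNReal.ofReal (fS n L c s z) ≤
      ENNReal.ofReal (fS n L c s a) := by
  have h := hSU n L c s a hn hs hp hps ha
  calc rr s L * ∫⁻ z in R, kp s a z * ENNReal.ofReal (fS n L c s z)
      ≤ rr s L * ∫⁻ z in {w : ℂ | ip n w < c}, kp s a z * ENNReal.ofReal (fS n L c s z) := by
        gcongr
        exact hRc
    _ ≤ rr s L * ENNReal.ofReal (Real.exp (‖L‖ ^ 2 * s) * fS n L c s a) := by
        gcongr
        exact h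
    _ = ENNReal.ofReal (fS n L c s a) := by
        rw [rr, ← ENNReal.ofReal_mul (Real.exp_pos _).le, ← mul_assoc, ← Real.exp_add,
          neg_add_cancel, Real.exp_zero, one_mul]

theorem fS_sum (hSU : S_SU) {s : ℝ} (hs : 0 < s) {L n : ℂ} (hn : ‖n‖ = 1) (hp : 0 < ip L n)
    (hps : ip L n * √s ≤ 1) {c : ℝ} {R E : Set ℂ} (hR : MeasurableSet R)
    (hE : MeasurableSet E) (hd : Disjoint R E) (hRc : ∀ z ∈ R, ip n z < c)
    (hEc : ∀ z ∈ E, ip n z < c) (N : ℕ) {b : ℂ} (hb : ip n b ≤ c) :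
    ∑ i ∈ Finset.range N, rr s L ^ (i + 1) * ∫⁻ u in E, ch (kp s) R i b u *
      ENNReal.ofReal (fS n L c s u) ≤ ENNReal.ofReal (fS n L c s b) :=
  sup_sum (kp_meas s) hR hE hd (D := {z | ip n z ≤ c}) (fun z hz => (hRc z hz).le) (rr_ne s L)
    (fS_meas n L c s) (fun a ha => fS_sup hSU hs hn hp hps (fun z hz => by
      rcases hz with hz | hz
      · exact hRc z hz
      · exact hEc z hz) ha) N b hb

/-- tilted legs -/
theorem lg_tilt (hSU : S_SU) {s : ℝ} (hs : 0 < s) {L n : ℂ} (hn : ‖n‖ = 1) (hp : 0 < ip L n)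
    (hps : ip L n * √s ≤ 1) {c δ : ℝ} (hδ : 0 < δ) {R E : Set ℂ} (hR : MeasurableSet R)
    (hE : MeasurableSet E) (hd : Disjoint R E) (hRc : ∀ z ∈ R, ip n z < c)
    (hEc : ∀ z ∈ E, ip n z ≤ c - δ) (N : ℕ) {b : ℂ} (hb : ip n b ≤ c) :
    lg s L R E N b ≤ ENNReal.ofReal (fS n L c s b / (1 - Real.exp (-(2 * ip L n * δ)))) := by
  have h := fS_sum hSU hs hn hp hps hR hE hd hRc (fun z hz => by linarith [hEc z hz]) N hb
  set q := 1 - Real.exp (-(2 * ip L n * δ)) with hq
  have hq0 : 0 < q := by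
    have : Real.exp (-(2 * ip L n * δ)) < 1 := by
      rw [Real.exp_lt_one_iff]
      have : 0 < 2 * ip L n * δ := by positivity
      linarith
    rw [hq]
    linarith
  have h1 : ∀ u ∈ E, ENNReal.ofReal (Real.exp (-(ip L u))) ≤
      ENNReal.ofReal q⁻¹ * ENNReal.ofReal (fS n L c s u) := by
    intro u hu
    rw [← ENNReal.ofReal_mul (by positivity)]
    refine ENNReal.ofReal_le_ofReal ?_
    unfold fS
    rw [← div_eq_inv_mul, le_div_iff₀ hq0]
    gcongr
    rw [hq]
    have h2 := hEc u hu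
    have h3 : Real.exp (-(8 * (ip L n * √s))) * Real.exp (-(2 * ip L n * (c - ip n u))) ≤
        Real.exp (-(2 * ip L n * δ)) := by
      rw [← Real.exp_add]
      refine Real.exp_le_exp.2 ?_
      have h4 : 0 ≤ ip L n * √s := by positivity
      nlinarith
    linarith
  unfold lg
  calc _ ≤ ∑ i ∈ Finset.range N, ENNReal.ofReal q⁻¹ * (rr s L ^ (i + 1) * ∫⁻ u in E,
        ch (kp s) R i b u * ENNReal.ofReal (fS n L c s u)) := by
        refine Finset.sum_le_sum fun i _ => ?_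
        rw [mul_left_comm, ← lintegral_const_mul' _ _ ENNReal.ofReal_ne_top]
        gcongr rr s L ^ (i + 1) * ?_
        refine setLIntegral_mono' hE fun u hu => ?_
        rw [mul_left_comm]
        gcongr
        exact h1 u hu
    _ = ENNReal.ofReal q⁻¹ * ∑ i ∈ Finset.range N, rr s L ^ (i + 1) * ∫⁻ u in E,
        ch (kp s) R i b u * ENNReal.ofReal (fS n L c s u) := by
        rw [Finset.mul_sum]
    _ ≤ ENNReal.ofReal q⁻¹ * ENNReal.ofReal (fS n L c s b) := by
        gcongr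
    _ = _ := by
        rw [← ENNReal.ofReal_mul (by positivity), div_eq_inv_mul]

theorem fS_bd {n L : ℂ} {c s : ℝ} {b : ℂ} (hb : ip n b = c) :
    fS n L c s b ≤ Real.exp (-(ip L b)) * (8 * (ip L n * √s)) := by
  unfold fS
  rw [hb, sub_self, mul_zero, neg_zero, Real.exp_zero, mul_one]
  gcongr
  have := Real.add_one_le_exp (-(8 * (ip L n * √s)))
  linarith

/-- tilted legs which start at the boundary -/
theorem lg_tilt' (hSU : S_SU) {s : ℝ} (hs : 0 < s) {L n : ℂ} (hn : ‖n‖ = 1) (hp : 0 < ip L n)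
    (hps : ip L n * √s ≤ 1) {c δ : ℝ} (hδ : 0 < δ) {R E : Set ℂ} (hR : MeasurableSet R)
    (hE : MeasurableSet E) (hd : Disjoint R E) (hRc : ∀ z ∈ R, ip n z < c)
    (hEc : ∀ z ∈ E, ip n z ≤ c - δ) (N : ℕ) {b : ℂ} (hb : ip n b = c) :
    lg s L R E N b ≤ ENNReal.ofReal (Real.exp (-(ip L b)) * (8 * (ip L n * √s)) /
      (1 - Real.exp (-(2 * ip L n * δ)))) := by
  refine (lg_tilt hSU hs hn hp hps hδ hR hE hd hRc hEc N hb.le).trans ?_
  refine ENNReal.ofReal_le_ofReal ?_
  have : Real.exp (-(2 * ip L n * δ)) < 1 := by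
    rw [Real.exp_lt_one_iff]
    have : 0 < 2 * ip L n * δ := by positivity
    linarith
  have h2 : 0 ≤ 1 - Real.exp (-(2 * ip L n * δ)) := by linarith
  gcongr
  exact fS_bd hb

end Pool.Agent.N275.QD
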