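import Pool.Agent.N275.QD.Bd

set_option autoImplicit false

/-!
# Project QD: a bound for all points
-/

namespace Pool.Agent.N275.QD

open MeasureTheory Set Filter Topology Complex
open Pool.Agent.R225.LP (gk ks ip ip_self ip_sub_right ip_sub_left ip_add_left ip_add_right
  ip_smul_left ip_smul_right norm_sq_add norm_sq_sub lint_exp gk_pos gk_nonneg gk_cont nG lint_nG
  mgf_nG gkE_meas ip_cont)
open Pool.Agent.R225.LP.TR (ch ch_meas meas_left meas_right ch_mono_set kp kp_meas kp_comm ks_eq)
open scoped Real ENNReal ComplexConjugate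

theorem norm_ge_ip {w : ℂ} (hw : ‖w‖ = 1) (z : ℂ) {x : ℝ} (h : x ≤ ip w z) : x ≤ ‖z‖ := by
  have := (abs_le.1 (Pool.Agent.R225.LP.ip_le w z)).2
  rw [hw, one_mul] at this
  exact h.trans this

/-- the general bound of the middle kernel -/
theorem mid_b1w {s : ℝ} (hs : 0 < s) {Q A : Set ℂ} (hA : MeasurableSet A) {w : ℂ} (hw : ‖w‖ = 1)
    (hA0 : ∀ z ∈ A, ip w z ≤ 0) (k : ℕ) {l : ℝ} (hl : 0 ≤ l) (u v : ℂ) :
    h2 (kp s) Q A k u v ≤ ENNReal.ofReal (Real.exp (l ^ 2 * ((k + 1) * s) - l * (ip w u + ip w v)) /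
      (4 * π * s)) := by
  have hτ : (0 : ℝ) < (k + 1) * s := by positivity
  have hle : Real.exp (l ^ 2 * ((k + 1) * s) - l * (ip w u + ip w v)) / (4 * π * ((k + 1) * s)) ≤
      Real.exp (l ^ 2 * ((k + 1) * s) - l * (ip w u + ip w v)) / (4 * π * s) := by
    gcongr
    have : (0 : ℝ) ≤ k := Nat.cast_nonneg k
    nlinarith
  have hch : ip w u ≤ 0 ∨ ip w v ≤ 0 → ch (kp s) Q k u v ≤ ENNReal.ofReal
      (Real.exp (l ^ 2 * ((k + 1) * s) - l * (ip w u + ip w v)) / (4 * π * s)) := by
    intro h
    refine (ch_le hs Q k u v).trans (ENNReal.ofReal_le_ofReal ((gk_b1 hτ hl ?_).trans hle))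
    rcases h with h | h
    · refine norm_ge_ip hw _ ?_
      rw [ip_sub_right]
      linarith
    · rw [← norm_neg]
      refine norm_ge_ip hw _ ?_
      rw [Pool.Agent.R225.LP.ip_neg_right, ip_sub_right]
      linarith
  unfold h2
  split_ifs with h
  · rcases h with h | h
    · exact hch (Or.inl (hA0 u h))
    · exact hch (Or.inr (hA0 v h))
  · rcases le_or_gt (ip w v) 0 with hv | hv
    · exact (hc_le_ch (kp_meas s) Q hA k u v).trans (hch (Or.inr hv))
    · have h1 := refl1 hs hw (c := 0) Q hA hA0 (b := v) hv.le k u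
      refine h1.trans (ENNReal.ofReal_le_ofReal ((gk_b1 hτ hl ?_).trans hle))
      rw [← norm_neg]
      refine norm_ge_ip hw _ ?_
      rw [Pool.Agent.R225.LP.ip_neg_right, ip_sub_right, rf_ip hw]
      linarith

/-- the bound of the middle kernel near the essential region -/
theorem mid_b2w {s : ℝ} (hs : 0 < s) {Q A : Set ℂ} (hA : MeasurableSet A) {w : ℂ} (hw : ‖w‖ = 1)
    (hA0 : ∀ z ∈ A, z.re ≤ 0) (hAw : ∀ z ∈ A, ip w z ≤ 0) (k : ℕ) {t d : ℝ}
    (hkt : (k + 1) * s ≤ t) (hd : 0 < d) {u v : ℂ}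
    (hu : 3 / 4 * d ≤ u.re) (hv : 3 / 4 * d ≤ v.re) :
    hc (kp s) Q A k u v ≤ ENNReal.ofReal ((1 / t + 2 / d ^ 2) *
      Real.exp ((d / t) ^ 2 * ((k + 1) * s) - d / t * (ip w u + ip w v))) := by
  have hτ : (0 : ℝ) < (k + 1) * s := by positivity
  have ht : 0 < t := hτ.trans_le hkt
  rcases le_or_gt (3 / 2 * d) (ip w u + ip w v) with h | h
  · have key : ∀ u v : ℂ, 3 / 2 * d ≤ ip w u + ip w v → 0 ≤ ip w v →
        hc (kp s) Q A k u v ≤ ENNReal.ofReal ((1 / t + 2 / d ^ 2) *
          Real.exp ((d / t) ^ 2 * ((k + 1) * s) - d / t * (ip w u + ip w v))) := by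
      intro u v h hv
      have h1 := refl1 hs hw (c := 0) Q hA hAw (b := v) hv k u
      refine h1.trans (ENNReal.ofReal_le_ofReal (gk_b2 hτ hkt hd h ?_))
      rw [← norm_neg]
      refine norm_ge_ip hw _ ?_
      rw [Pool.Agent.R225.LP.ip_neg_right, ip_sub_right, rf_ip hw]
      linarith
    rcases le_or_gt 0 (ip w v) with h' | h'
    · exact key u v h h'
    · rw [hc_symm (kp_meas s) (kp_comm s) Q hA (ch_ne hs) k u v, add_comm (ip w u)]
      exact key v u (by linarith) (by linarith)
  · refine (mid_b2 hs hA hA0 k hkt hd hu hv).trans (ENNReal.ofReal_le_ofReal ?_)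
    have hl : 0 < d / t := by positivity
    have h3 : d / t * (ip w u + ip w v) ≤ d / t * (u.re + v.re) :=
      mul_le_mul_of_nonneg_left (by linarith) hl.le
    gcongr

/-- the constant of the total bound -/
noncomputable def E0 (n : ℂ) (d δ' t s k δ : ℝ) (m : ℕ) : ℝ :=
  (1 / t + 2 / d ^ 2) * (Lc n d δ' t * √s) ^ 2 +
    (2 * (1 / (4 * π * s) * zt (d / t) k δ s m) * (Lc n d δ' t * √s) +
      1 / (4 * π * s) * zt (d / t) k δ s m)

theorem Sit.tot (hSU : S_SU) {n : ℂ} {Q A : Set ℂ} {b : ℂ} {d δ δ' : ℝ}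
    (h : Sit n Q A b d δ δ') {s t : ℝ} (ht : 0 < t) {m : ℕ} (hs : ((m : ℝ) + 1) * s = t)
    (hst : d / t * √s ≤ 1) {k : ℝ} (hk : 0 ≤ k) {w : ℂ} (hw : ‖w‖ = 1)
    (hwn : n.re / 2 ≤ ip w n) (hAw : ∀ z ∈ A, ip w z ≤ 0) :
    hc (kp s) Q A m b b ≤ ENNReal.ofReal (Real.exp ((d / t) ^ 2 * t - 2 * (d / t) * ip w b) *
        E0 n d δ' t s k δ m) := by
  have hd := h.hd
  have hδ := h.hδ
  have hδd := h.hδd
  have hb := h.hb
  have hm1 : (0 : ℝ) < (m : ℝ) + 1 := by positivity
  have hs0 : 0 < s := by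
    by_contra hcon
    have : ((m : ℝ) + 1) * s ≤ 0 := mul_nonpos_of_nonneg_of_nonpos hm1.le (by linarith)
    linarith
  have hLc := Lc_pos (n := n) h.hr hd h.hδ' ht
  set l := d / t with hl
  have hl0 : 0 < l := by positivity
  set L : ℂ := (l : ℂ) * w with hL
  have hLn : ‖L‖ = l := by
    rw [hL, norm_mul, hw, mul_one, Complex.norm_real, Real.norm_eq_abs, abs_of_pos hl0]
  have hipL : ∀ z, ip L z = l * ip w z := fun z => by rw [hL, ip_smul_left]
  set V := Vh (d - δ) with hV
  set J := Jl (d - 2 * δ) with hJ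
  have hVm : MeasurableSet V := Vh_meas _
  have hJm : MeasurableSet J := Jl_meas _
  have hEm : MeasurableSet (Q ∩ V) := h.Qm.inter hVm
  set C₁ := 1 / t + 2 / d ^ 2 with hC₁
  set C₂ := 1 / (4 * π * s) with hC₂
  have hC₁0 : 0 ≤ C₁ := by positivity
  have hC₂0 : 0 ≤ C₂ := by positivity
  set ω : ℕ → ℂ → ℝ≥0∞ := fun i u => rr s L ^ (i + 1) * ENNReal.ofReal
    (Real.exp (-(ip L u))) with hω
  set β : ℕ → ℂ → ℝ≥0∞ := fun i u => (ENNReal.ofReal (C₁ / 2) + ENNReal.ofReal C₂ *
    J.indicator 1 u) * ω i u with hβ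
  set Λ : ℝ≥0∞ := ENNReal.ofReal (Real.exp (l ^ 2 * t)) with hΛ
  set βJ : ℕ → ℂ → ℝ≥0∞ := fun i u => ENNReal.ofReal (Real.exp (l ^ 2 * t - l * ip w b) * C₂) *
    (J.indicator 1 u * ω i u) with hβJ
  have hωm : ∀ i, Measurable (ω i) := fun i => (ex_meas _).const_mul _
  have hJi : Measurable (J.indicator (1 : ℂ → ℝ≥0∞)) := measurable_one.indicator hJm
  have hβm : ∀ i, Measurable (β i) := fun i =>
    (measurable_const.add (hJi.const_mul _)).mul (hωm i)
  have hAV : A ⊆ V := fun z hz => by
    have := h.A0 z hz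
    change z.re ≤ d - δ
    linarith
  have hrw : ∀ i u, ω i u = ENNReal.ofReal (Real.exp (-(l ^ 2 * ((i + 1) * s)) - l * ip w u)) := by
    intro i u
    simp only [hω]
    rw [rr_pow, ← ENNReal.ofReal_mul (Real.exp_pos _).le, ← Real.exp_add, hLn, hipL]
    rfl
  -- the product of the weights
  have hprod : ∀ i j, i + j + 2 ≤ m → ∀ u v, ∀ C : ℝ, 0 ≤ C →
      ENNReal.ofReal (C * Real.exp (l ^ 2 * (((m - 1 - i - 1 - j : ℕ) + 1 : ℝ) * s) -
        l * (ip w u + ip w v))) = ENNReal.ofReal C * (Λ * (ω i u * ω j v)) := by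
    intro i j hij u v C hC
    simp only [hrw, hΛ]
    rw [← ENNReal.ofReal_mul (Real.exp_pos _).le,
      ← ENNReal.ofReal_mul (Real.exp_pos _).le, ← ENNReal.ofReal_mul hC, ← Real.exp_add,
      ← Real.exp_add]
    congr 3
    have e : ((m - 1 - i - 1 - j : ℕ) : ℝ) = (m : ℝ) - i - j - 2 := by
      have : m = (m - 1 - i - 1 - j) + i + j + 2 := by omega
      have h2 : (m : ℝ) = ((m - 1 - i - 1 - j : ℕ) : ℝ) + i + j + 2 := by exact_mod_cast this
      linarith
    rw [e, ← hs]
    ring
  have key := up_bound (kp_meas s) (kp_comm s) (ch_ne hs0) h.Qm h.Am hVm hAV m b (fun _ _ => 0) β ω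
    (fun _ _ _ => 0) Λ βJ (fun i => measurable_const) hβm hωm (fun i => measurable_const) ?_ ?_
  · refine key.trans ?_
    simp only [mul_zero, zero_mul, lintegral_zero, Finset.sum_const_zero, zero_add]
    have hX : ∀ i, Measurable (fun u => ch (kp s) (Q \ V) i b u) :=
      fun i => meas_right (ch_meas (kp_meas s) (Q \ V) i) b
    have hB0 : ∑ i ∈ Finset.range m, ∫⁻ u in Q ∩ V, ch (kp s) (Q \ V) i b u * ω i u =
        lg s L (Q \ V) (Q ∩ V) m b := by
      unfold lg
      refine Finset.sum_congr rfl fun i _ => ?_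
      rw [← lintegral_const_mul' _ _ (ENNReal.pow_ne_top (rr_ne s _))]
      refine lintegral_congr fun u => ?_
      simp only [hω]
      ring
    have hBJ : ∑ i ∈ Finset.range m, ∫⁻ u in Q ∩ V, ch (kp s) (Q \ V) i b u *
        (J.indicator 1 u * ω i u) = lg s L (Q \ V) (Q ∩ V ∩ J) m b := by
      unfold lg
      refine Finset.sum_congr rfl fun i _ => ?_
      rw [← lintegral_const_mul' _ _ (ENNReal.pow_ne_top (rr_ne s _)), inter_comm (Q ∩ V) J,
        ← Measure.restrict_restrict hJm, ← lintegral_indicator hJm]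
      refine lintegral_congr fun u => ?_
      simp only [hω]
      by_cases hu : u ∈ J
      · rw [indicator_of_mem hu, indicator_of_mem hu, Pi.one_apply, one_mul]
        ring
      · rw [indicator_of_notMem hu, indicator_of_notMem hu, zero_mul, mul_zero]
    have hBβ : ∑ i ∈ Finset.range m, ∫⁻ u in Q ∩ V, ch (kp s) (Q \ V) i b u * β i u =
        ENNReal.ofReal (C₁ / 2) * lg s L (Q \ V) (Q ∩ V) m b + ENNReal.ofReal C₂ *
          lg s L (Q \ V) (Q ∩ V ∩ J) m b := by
      rw [← hB0, ← hBJ, Finset.mul_sum, Finset.mul_sum, ← Finset.sum_add_distrib]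
      refine Finset.sum_congr rfl fun i _ => ?_
      have m1 : Measurable (fun u => ch (kp s) (Q \ V) i b u * ω i u) := (hX i).mul (hωm i)
      have m2 : Measurable (fun u => ch (kp s) (Q \ V) i b u * (J.indicator 1 u * ω i u)) :=
        (hX i).mul (hJi.mul (hωm i))
      rw [← lintegral_const_mul _ m1, ← lintegral_const_mul _ m2,
        ← lintegral_add_left (m1.const_mul _)]
      refine lintegral_congr fun u => ?_
      simp only [hβ]
      ring
    have hBs : ∑ i ∈ Finset.range m, ∫⁻ u in Q ∩ V, ch (kp s) (Q \ V) i b u * βJ i u =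
        ENNReal.ofReal (Real.exp (l ^ 2 * t - l * ip w b) * C₂) *
          lg s L (Q \ V) (Q ∩ V ∩ J) m b := by
      rw [← hBJ, Finset.mul_sum]
      refine Finset.sum_congr rfl fun i _ => ?_
      rw [← lintegral_const_mul' _ _ ENNReal.ofReal_ne_top]
      refine lintegral_congr fun u => ?_
      simp only [hβJ]
      ring
    rw [hBβ, hB0, hBs]
    have t1 := h.tilt hSU hs0 ht hst (L := L) hLn.le (by
      rw [hipL]
      have := mul_le_mul_of_nonneg_left hwn hl0.le
      linarith) hEm subset_rfl m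
    have t2 := lg_jump hs0 (L := L) (R := Q \ V) (E := Q ∩ V ∩ J) (h.Qm.diff hVm) (c := d - δ)
      (δ := δ) (hEm.inter hJm) hk (fun z hz => by
        have : ¬ z.re ≤ d - δ := hz.2
        linarith) (fun z hz => by
        have : z.re < d - 2 * δ := hz.2
        linarith) m (b := b) (by linarith)
    have t3 : lg s L (Q \ V) (Q ∩ V ∩ J) m b ≤ ENNReal.ofReal (zt l k δ s m *
        Real.exp (-(ip L b))) := by
      refine t2.trans (ENNReal.ofReal_le_ofReal ?_)
      unfold zt
      gcongr
      calc ‖L + (k : ℂ)‖ ≤ ‖L‖ + ‖(k : ℂ)‖ := norm_add_le _ _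
        _ = l + k := by rw [hLn, Complex.norm_real, Real.norm_eq_abs, abs_of_nonneg hk]
    have hz := zt_nonneg l k δ s m
    have e2 : (2 : ℝ≥0∞) = ENNReal.ofReal 2 := by simp
    calc _ ≤ Λ * (2 * (ENNReal.ofReal (C₁ / 2) * ENNReal.ofReal (Real.exp (-ip L b) *
          (Lc n d δ' t * √s)) + ENNReal.ofReal C₂ * ENNReal.ofReal (zt l k δ s m *
            Real.exp (-(ip L b)))) * ENNReal.ofReal (Real.exp (-ip L b) * (Lc n d δ' t * √s))) +
          ENNReal.ofReal (Real.exp (l ^ 2 * t - l * ip w b) * C₂) *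
            ENNReal.ofReal (zt l k δ s m * Real.exp (-(ip L b))) := by
          gcongr
      _ = _ := by
          rw [e2, hΛ, hipL, ← ENNReal.ofReal_mul (by positivity),
            ← ENNReal.ofReal_mul (by positivity), ← ENNReal.ofReal_add (by positivity)
            (by positivity), ← ENNReal.ofReal_mul (by positivity),
            ← ENNReal.ofReal_mul (by positivity), ← ENNReal.ofReal_mul (by positivity),
            ← ENNReal.ofReal_mul (by positivity),
            ← ENNReal.ofReal_add (by positivity) (by positivity)]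
          congr 1
          have e3 : Real.exp (l ^ 2 * t - 2 * l * ip w b) = Real.exp (l ^ 2 * t) *
              (Real.exp (-(l * ip w b)) * Real.exp (-(l * ip w b))) := by
            rw [← Real.exp_add, ← Real.exp_add]
            congr 1
            ring
          have e4 : Real.exp (l ^ 2 * t - l * ip w b) = Real.exp (l ^ 2 * t) *
              Real.exp (-(l * ip w b)) := by
            rw [← Real.exp_add]
            rfl
          rw [e3, e4, E0, ← hl, ← hC₁, ← hC₂]
          ring
  · -- the middle kernel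
    intro i j hij u hu v hv
    have hks : (((m - 1 - i - 1 - j : ℕ) : ℝ) + 1) * s ≤ t := by
      have : m - 1 - i - 1 - j ≤ m := by omega
      have h2 : ((m - 1 - i - 1 - j : ℕ) : ℝ) ≤ m := by exact_mod_cast this
      rw [← hs]
      gcongr
    rw [zero_mul, zero_mul, zero_add]
    by_cases hJ' : u ∈ J ∨ v ∈ J
    · have h1 := mid_b1w hs0 h.Am hw hAw (m - 1 - i - 1 - j) hl0.le u v (Q := Q)
      have h2 : Real.exp (l ^ 2 * (((m - 1 - i - 1 - j : ℕ) + 1) * s) - l * (ip w u + ip w v)) /
          (4 * π * s) = C₂ * Real.exp (l ^ 2 * (((m - 1 - i - 1 - j : ℕ) + 1) * s) -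
            l * (ip w u + ip w v)) := by
        rw [hC₂]
        ring
      rw [h2, hprod i j hij u v C₂ hC₂0] at h1
      refine h1.trans ?_
      rcases hJ' with h' | h'
      · calc ENNReal.ofReal C₂ * (Λ * (ω i u * ω j v)) = Λ * ((ENNReal.ofReal C₂ * ω i u) *
              ω j v) := by ring
          _ ≤ Λ * (β i u * ω j v) := by
              gcongr Λ * (?_ * _)
              simp only [hβ]
              rw [indicator_of_mem h', Pi.one_apply, mul_one]
              gcongr
              exact le_add_self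
          _ ≤ _ := by
              gcongr
              exact le_self_add
      · calc ENNReal.ofReal C₂ * (Λ * (ω i u * ω j v)) = Λ * (ω i u * (ENNReal.ofReal C₂ *
              ω j v)) := by ring
          _ ≤ Λ * (ω i u * β j v) := by
              gcongr Λ * (_ * ?_)
              simp only [hβ]
              rw [indicator_of_mem h', Pi.one_apply, mul_one]
              gcongr
              exact le_add_self
          _ ≤ _ := by
              gcongr
              exact le_add_self
    · push Not at hJ'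
      have hu' : d - 2 * δ ≤ u.re := by
        have : ¬ u.re < d - 2 * δ := hJ'.1
        linarith
      have hv' : d - 2 * δ ≤ v.re := by
        have : ¬ v.re < d - 2 * δ := hJ'.2
        linarith
      have huA : u ∉ A := fun h' => by
        have := h.A0 u h'
        linarith
      have hvA : v ∉ A := fun h' => by
        have := h.A0 v h'
        linarith
      have e1 : h2 (kp s) Q A (m - 1 - i - 1 - j) u v = hc (kp s) Q A (m - 1 - i - 1 - j) u v := by
        unfold h2
        rw [if_neg (by tauto)]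
      rw [e1]
      have h1 := mid_b2w hs0 h.Am hw h.A0 hAw (m - 1 - i - 1 - j) hks hd
        (by linarith : 3 / 4 * d ≤ u.re) (by linarith : 3 / 4 * d ≤ v.re) (Q := Q)
      rw [hprod i j hij u v C₁ hC₁0] at h1
      refine h1.trans ?_
      have e2 : ENNReal.ofReal C₁ = ENNReal.ofReal (C₁ / 2) + ENNReal.ofReal (C₁ / 2) := by
        rw [← ENNReal.ofReal_add (by positivity) (by positivity)]
        congr 1
        ring
      calc ENNReal.ofReal C₁ * (Λ * (ω i u * ω j v)) = Λ * ((ENNReal.ofReal (C₁ / 2) * ω i u) *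
            ω j v + ω i u * (ENNReal.ofReal (C₁ / 2) * ω j v)) := by
            rw [e2]
            ring
        _ ≤ _ := by
            simp only [hβ]
            gcongr
            · exact le_self_add
            · exact le_self_add
  · -- single points
    intro i hi u hu huA
    have huJ : u ∈ J := by
      have := h.A0 u huA
      change u.re < d - 2 * δ
      linarith
    have h1 := ch_le hs0 (Q \ V) (m - 1 - i) u b
    have hτ : (0 : ℝ) < ((m - 1 - i : ℕ) + 1) * s := by positivity
    have h2 := gk_b1 (x := ip w b - ip w u) hτ hl0.le (z := b - u)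
      (norm_ge_ip hw _ (by rw [ip_sub_right]))
    refine h1.trans ?_
    simp only [hβJ, kp]
    rw [indicator_of_mem huJ, Pi.one_apply, one_mul, hrw, ← ENNReal.ofReal_mul (by positivity)]
    refine ENNReal.ofReal_le_ofReal (h2.trans ?_)
    have e : (((m - 1 - i : ℕ) : ℝ) + 1) = (m : ℝ) - i := by
      have : m = (m - 1 - i) + i + 1 := by omega
      have h2 : (m : ℝ) = ((m - 1 - i : ℕ) : ℝ) + i + 1 := by exact_mod_cast this
      linarith
    have hA0 := hAw u huA
    calc Real.exp (l ^ 2 * (((m - 1 - i : ℕ) + 1) * s) - l * (ip w b - ip w u)) /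
          (4 * π * (((m - 1 - i : ℕ) + 1) * s)) ≤
          Real.exp (l ^ 2 * (((m - 1 - i : ℕ) + 1) * s) - l * (ip w b - ip w u)) / (4 * π * s) := by
          gcongr
          have : (0 : ℝ) ≤ (m - 1 - i : ℕ) := Nat.cast_nonneg _
          nlinarith
      _ ≤ Real.exp (l ^ 2 * t - l * ip w b) * C₂ *
          Real.exp (-(l ^ 2 * ((i + 1) * s)) - l * ip w u) := by
          have e3 : Real.exp (l ^ 2 * t - l * ip w b) * C₂ *
              Real.exp (-(l ^ 2 * ((i + 1) * s)) - l * ip w u) = Real.exp ((l ^ 2 * t - l * ip w b) +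
                (-(l ^ 2 * ((i + 1) * s)) - l * ip w u)) / (4 * π * s) := by
            rw [Real.exp_add, hC₂]
            ring
          rw [e3]
          gcongr
          rw [e, ← hs]
          have : l * ip w u ≤ 0 := mul_nonpos_of_nonneg_of_nonpos hl0.le hA0
          nlinarith

end Pool.Agent.N275.QD
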