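import Pool.Agent.N275.QD.Asm2
import Pool.Agent.N885.QD.CL
import Pool.Agent.R225.LP.Fin3

set_option autoImplicit false

/-!
# Project QD: trapezoids in general position
-/

namespace Pool.Agent.N275.QD

open MeasureTheory Set Filter Topology Complex Pool.Agent.R225.LP.NF
open Pool.Agent.W780.PG (IsConvexPolygon region ang lft)
open Pool.Agent.W703.GP (Isospectral iso_trans)
open Pool.Agent.Y289.SQ (Z area per)
open Pool.Agent.R225.LP
open scoped Real ENNReal ComplexConjugate

/-- trapezoids with a given orientation and position -/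
theorem tr_core0 (u v : ℂ) (r : ℝ) (hr : 0 < r) (hc : 0 < cr u v) :
    ∃ h b x y : ℝ, 0 < h ∧ 0 < b ∧ h * (x + y) < b ∧
    Cg (interior (convexHull ℝ ({0, u, v + r * u, v} : Set ℂ))) (region (tz h b x y)) := by
  have hu0 : u ≠ 0 := by
    rintro rfl
    simp [cr] at hc
  have hb : 0 < ‖u‖ := norm_pos_iff.2 hu0
  obtain ⟨b, hbe⟩ : ∃ b, b = ‖u‖ := ⟨_, rfl⟩
  rw [← hbe] at hb
  have hb2 : b ^ 2 = u.re ^ 2 + u.im ^ 2 := by
    rw [hbe, Complex.sq_norm, Complex.normSq_apply]
    ring
  obtain ⟨h, hh⟩ : ∃ h, h = cr u v / b := ⟨_, rfl⟩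
  obtain ⟨x, hx⟩ : ∃ x, x = ip u v / cr u v := ⟨_, rfl⟩
  obtain ⟨y, hy⟩ : ∃ y, y = ((1 - r) * b - h * x) / h := ⟨_, rfl⟩
  have hh0 : 0 < h := by rw [hh]; exact div_pos hc hb
  have hhb : h * b = cr u v := by rw [hh]; field_simp
  have hhx : h * x * b = ip u v := by
    rw [hh, hx]
    field_simp
  have hhy : h * y = (1 - r) * b - h * x := by rw [hy]; field_simp
  have hc1 : ‖conj u / (b : ℂ)‖ = 1 := by
    rw [norm_div, Complex.norm_conj, ← hbe, Complex.norm_real, Real.norm_of_nonneg hb.le]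
    field_simp
  have hbc : (b : ℂ) ≠ 0 := by exact_mod_cast hb.ne'
  obtain ⟨φ, hφ⟩ : ∃ φ, φ = rt 0 (conj u / (b : ℂ)) hc1 := ⟨_, rfl⟩
  have hφa : ∀ z, φ z = z * (conj u / (b : ℂ)) := fun z => by rw [hφ, rt_apply, sub_zero]
  have g0 : φ 0 = 0 := by rw [hφa]; simp
  have g1 : φ u = b := by
    rw [hφa, mul_div_assoc', Complex.mul_conj, Complex.normSq_eq_norm_sq, ← hbe]
    push_cast
    field_simp
  have g3 : φ v = ((h * x : ℝ) : ℂ) + (h : ℂ) * I := by
    rw [hφa, mul_div_assoc', div_eq_iff hbc]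
    apply Complex.ext
    · have := hhx
      simp only [ip] at this
      simp
      linarith
    · have := hhb
      simp only [cr] at this
      simp
      linarith
  have g2 : φ (v + r * u) = ((b - h * y : ℝ) : ℂ) + (h : ℂ) * I := by
    have : φ (v + r * u) = φ v + r * φ u := by
      rw [hφa, hφa, hφa]
      ring
    rw [this, g1, g3, hhy]
    push_cast
    ring
  refine ⟨h, b, x, y, hh0, hb, ?_, φ, ?_⟩
  · nlinarith
  · unfold region
    rw [image_hull, range_tz, image_insert_eq, image_insert_eq, image_insert_eq, image_singleton,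
      g0, g1, g2, g3]

/-- a trapezoid in general position is congruent to a normal form -/
theorem tr_pos0 (a b c d : ℂ) (r : ℝ) (hr : 0 < r) (hpar : c - d = r * (b - a))
    (hc : 0 < cr (b - a) (d - a)) :
    ∃ h b' x y : ℝ, 0 < h ∧ 0 < b' ∧ h * (x + y) < b' ∧
    Cg (interior (convexHull ℝ ({a, b, c, d} : Set ℂ))) (region (tz h b' x y)) := by
  obtain ⟨h, b', x, y, h1, h2, h3, h5⟩ := tr_core0 (b - a) (d - a) r hr hc
  refine ⟨h, b', x, y, h1, h2, h3, Cg.trans ⟨IsometryEquiv.subRight a, ?_⟩ h5⟩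
  have e : d - a + r * (b - a) = c - a := by rw [← hpar]; ring
  rw [image_hull, image_insert_eq, image_insert_eq, image_insert_eq, image_singleton, e]
  simp

/-- a trapezoid in general position is congruent to a normal form -/
theorem tr_gen0 (a b c d : ℂ) (r : ℝ) (hr : 0 < r) (hpar : c - d = r * (b - a))
    (hne : (interior (convexHull ℝ ({a, b, c, d} : Set ℂ))).Nonempty) :
    ∃ h b' x y : ℝ, 0 < h ∧ 0 < b' ∧ h * (x + y) < b' ∧
    Cg (interior (convexHull ℝ ({a, b, c, d} : Set ℂ))) (region (tz h b' x y)) := by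
  have e0 : ∀ w : ℂ, (conj w * w).im = 0 := fun w => by
    rw [← Complex.normSq_eq_conj_mul_self]; exact Complex.ofReal_im _
  have hab : a ≠ b := by
    rintro rfl
    have hcd : c = d := by
      rw [sub_self, mul_zero] at hpar
      exact sub_eq_zero.1 hpar
    subst hcd
    by_cases hca : c - a = 0
    · refine flat4 (a := a) (w := 1) one_ne_zero ?_ hne
      rintro x (rfl | rfl | rfl | rfl)
      · simp
      · simp
      · rw [hca]; simp
      · rw [hca]; simp
    · refine flat4 (a := a) hca ?_ hne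
      rintro x (rfl | rfl | rfl | rfl)
      · simp
      · simp
      · exact e0 _
      · exact e0 _
  have hba : b - a ≠ 0 := sub_ne_zero.2 hab.symm
  have hc : cr (b - a) (d - a) ≠ 0 := by
    intro h0
    have e1 : (conj (b - a) * (d - a)).im = 0 := by
      rw [← h0]; simp [cr]; ring
    have e3 : (conj (b - a) * (c - a)).im = 0 := by
      have : c - a = (d - a) + r * (b - a) := by rw [← hpar]; ring
      rw [this, mul_add, Complex.add_im, e1, mul_left_comm, Complex.im_ofReal_mul, e0]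
      simp
    refine flat4 (a := a) hba ?_ hne
    rintro x (rfl | rfl | rfl | rfl)
    · simp
    · exact e0 _
    · exact e3
    · exact e1
  rcases lt_or_gt_of_ne hc with hc | hc
  · obtain ⟨κ, hκ⟩ : ∃ κ : ℂ ≃ᵢ ℂ, κ = Complex.conjLIE.toIsometryEquiv := ⟨_, rfl⟩
    have hκa : ∀ z, κ z = conj z := fun z => by rw [hκ]; rfl
    have e1 : cr (conj b - conj a) (conj d - conj a) = -cr (b - a) (d - a) := by
      simp [cr]; ring
    obtain ⟨h, b', x, y, h1, h2, h3, h5⟩ := tr_pos0 (conj a) (conj b) (conj c) (conj d) r hr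
      (by rw [← map_sub, ← map_sub, hpar, map_mul, Complex.conj_ofReal])
      (by rw [e1]; linarith)
    refine ⟨h, b', x, y, h1, h2, h3, Cg.trans ⟨κ, ?_⟩ h5⟩
    rw [image_hull, image_insert_eq, image_insert_eq, image_insert_eq, image_singleton,
      hκa, hκa, hκa, hκa]
  · exact tr_pos0 a b c d r hr hpar hc

/-- a quadrilateral with two parallel sides is either determined among all convex polygons, or the
distances of its pairs of opposite sides are different -/
theorem trap_alt (p : Fin (1 + 3) → ℂ) (hp : IsConvexPolygon p) (k : Fin (1 + 3))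
    (hS : sk (nu p) k + sk (nu p) (k + 1) = 0) :
    (∀ (m : ℕ) (q : Fin (m + 3) → ℂ), IsConvexPolygon q → Isospectral (region p) (region q) →
      Cg (region p) (region q)) ∨ ds p 0 ≠ ds p 1 := by
  obtain ⟨h1, h2⟩ := Pool.Agent.N885.QD.lemA p hp k hS.le
  obtain ⟨h3, h4⟩ := Pool.Agent.N885.QD.par p hp k hS
  rcases lt_or_ge (ds p k) (dk p k) with h | h
  · right
    have hne : ds p k ≠ ds p (k + 1) := (lt_of_lt_of_le h h1).ne
    intro he
    apply hne
    have e1 : ds p 2 = ds p 0 := Pool.Agent.N885.QD.ds_symm p 0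
    have e2 : ds p 3 = ds p 1 := Pool.Agent.N885.QD.ds_symm p 1
    have a1 : (0 : Fin (1 + 3)) + 1 = 1 := by decide
    have a2 : (1 : Fin (1 + 3)) + 1 = 2 := by decide
    have a3 : (2 : Fin (1 + 3)) + 1 = 3 := by decide
    have a4 : (3 : Fin (1 + 3)) + 1 = 0 := by decide
    rcases (by decide : ∀ k : Fin (1 + 3), k = 0 ∨ k = 1 ∨ k = 2 ∨ k = 3) k with rfl | rfl | rfl | rfl
    · rw [a1, he]
    · rw [a2, e1, he]
    · rw [a3, e1, e2, he]
    · rw [a4, e2, he]
  · left
    intro m q hq hi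
    have hk : ds p (k + 1) = dk p k := by
      rcases h2 with h2 | h2
      · exact h2
      · linarith
    refine par_case hp h3 ?_ hq hi
    rw [h4, Pool.Agent.N885.QD.sd_min p k, hk, min_eq_right h]

/-- the normal form of a trapezoid has two parallel sides -/
theorem tz_par (h b x y : ℝ) (hh : 0 < h) (hb : 0 < b) (hxy : h * (x + y) < b) :
    ∃ k : Fin (1 + 3), sk (nu (tz h b x y)) k + sk (nu (tz h b x y)) (k + 1) = 0 := by
  obtain ⟨hc, -, -, -, -, -, hn, -⟩ := tz_thm h b x y hh hb hxy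
  refine ⟨1, ?_⟩
  obtain ⟨h1, h2, h3⟩ := Pool.Agent.N885.QD.sum_sk (tz h b x y) hc 1
  have e1 : (1 : Fin (1 + 3)) - 1 = 0 := by decide
  have e2 : (1 : Fin (1 + 3)) + 1 = 2 := by decide
  have e3 : (0 : Fin (0 + 1 + 3)) + 1 + 1 = 2 := by decide
  rw [e2] at h2 h3 ⊢
  rw [e1] at h1 h3
  have hn' : nu (tz h b x y) 2 = -nu (tz h b x y) 0 := hn
  have h4 : cr (nu (tz h b x y) 0) (nu (tz h b x y) 2) = 0 := by
    rw [hn']
    simp only [cr, Complex.neg_re, Complex.neg_im]
    ring
  rw [h4, neg_zero] at h3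
  exact (mul_eq_zero.1 h3).resolve_right (mul_pos h1 h2).ne'

/-- the parts of the main theorem -/
theorem trap (hCL : S_CL) (hCD : S_CD) (hQE : S_QE) (hN4 : S_N4) (hUQ : S_UQ) (hRC : S_RC)
    (hSW : S_SW) {p q : Fin (1 + 3) → ℂ} (hp : IsConvexPolygon p) (hq : IsConvexPolygon q)
    (hdp : ds p 0 = ds p 1 → ∃ k, sk (nu p) k + sk (nu p) (k + 1) = 0)
    (hdq : ds q 0 = ds q 1 → ∃ k, sk (nu q) k + sk (nu q) (k + 1) = 0)
    (h : Isospectral (region p) (region q)) :
    Cg (region p) (region q) := by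
  by_cases h1 : ds p 0 = ds p 1
  · obtain ⟨k, hk⟩ := hdp h1
    rcases trap_alt p hp k hk with h2 | h2
    · exact h2 1 q hq h
    · exact absurd h1 h2
  · by_cases h2 : ds q 0 = ds q 1
    · obtain ⟨k, hk⟩ := hdq h2
      rcases trap_alt q hq k hk with h3 | h3
      · exact (h3 1 p hp (Pool.Agent.W703.GP.iso_symm h)).symm
      · exact absurd h2 h3
    · exact quad hCL hCD hQE hN4 hUQ hRC hSW hp hq h1 h2 h

end Pool.Agent.N275.QD
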