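import Pool.Agent.N275.QD.Good

set_option autoImplicit false

/-!
# Project QD: upper bound at one point
-/

namespace Pool.Agent.N275.QD

open MeasureTheory Set Filter Topology Complex
open Pool.Agent.R225.LP (gk ks ip ip_self ip_sub_right ip_sub_left ip_add_left ip_add_right
  ip_smul_left ip_smul_right norm_sq_add norm_sq_sub lint_exp gk_pos gk_nonneg gk_cont nG lint_nG
  mgf_nG gkE_meas ip_cont)
open Pool.Agent.R225.LP.TR (ch ch_meas meas_left meas_right ch_mono_set kp kp_meas kp_comm ks_eq)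
open scoped Real ENNReal ComplexConjugate

/-- the essential part -/
noncomputable def Ess (K : ℕ → ℂ → ℂ → ℝ≥0∞) (R S : Set ℂ) (s : ℝ) (m N : ℕ) (b : ℂ) : ℝ≥0∞ :=
  ∑ i ∈ Finset.range N, ∑ j ∈ Finset.range N, ∫⁻ u in S, ch (kp s) R i b u *
    ∫⁻ v in S, K (m - 1 - i - 1 - j) u v * ch (kp s) R j v b

/-- the essential region -/
def Sg (d δ Y : ℝ) : Set ℂ := {z | d - 2 * δ ≤ z.re ∧ z.re ≤ d - δ ∧ |z.im| < Y}

theorem Sg_meas (d δ Y : ℝ) : MeasurableSet (Sg d δ Y) := by
  have h1 : MeasurableSet {z : ℂ | d - 2 * δ ≤ z.re} :=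
    (isClosed_le continuous_const continuous_re).measurableSet
  have h2 : MeasurableSet {z : ℂ | z.re ≤ d - δ} :=
    (isClosed_le continuous_re continuous_const).measurableSet
  have h3 : MeasurableSet {z : ℂ | |z.im| < Y} :=
    (isOpen_lt continuous_im.abs continuous_const).measurableSet
  exact h1.inter (h2.inter h3)

/-- the far left -/
def Jl (c : ℝ) : Set ℂ := {z | z.re < c}

theorem Jl_meas (c : ℝ) : MeasurableSet (Jl c) :=
  (isOpen_lt continuous_re continuous_const).measurableSet

theorem rr_w (s l : ℝ) (i : ℕ) (u : ℂ) : rr s (l : ℂ) ^ (i + 1) * ENNReal.ofReal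
    (Real.exp (-(ip (l : ℂ) u))) = ENNReal.ofReal (Real.exp (-(l ^ 2 * ((i + 1) * s)) - l * u.re)) := by
  rw [rr_pow, ← ENNReal.ofReal_mul (Real.exp_pos _).le, ← Real.exp_add, Complex.norm_real,
    Real.norm_eq_abs, sq_abs, ip_real]
  rfl

theorem Sit.up {n : ℂ} {Q A : Set ℂ} {b : ℂ} {d δ δ' : ℝ} (h : Sit n Q A b d δ δ') {s t : ℝ}
    (ht : 0 < t) {m N : ℕ} (hs : ((m : ℝ) + 1) * s = t) {Y : ℝ} :
    hc (kp s) Q A m b b ≤ Ess (hc (kp s) Q A) (Q \ Vh (d - δ)) (Q ∩ Sg d δ Y) s m N b +
      (ENNReal.ofReal (Real.exp ((d / t) ^ 2 * t)) *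
        (2 * (∑ i ∈ Finset.range m, ∫⁻ u in Q ∩ Vh (d - δ), ch (kp s) (Q \ Vh (d - δ)) i b u *
          bt s (d / t) (1 / t + 2 / d ^ 2) (1 / (4 * π * s)) (Jl (d - 2 * δ)) N Y i u) *
          lg s ((d / t : ℝ) : ℂ) (Q \ Vh (d - δ)) (Q ∩ Vh (d - δ)) m b) +
      ENNReal.ofReal (Real.exp ((d / t) ^ 2 * t - d / t * b.re) / (4 * π * s)) *
        lg s ((d / t : ℝ) : ℂ) (Q \ Vh (d - δ)) (Q ∩ Vh (d - δ) ∩ Jl (d - 2 * δ)) m b) := by
  have hd := h.hd
  have hδ := h.hδ
  have hδd := h.hδd
  have hm1 : (0 : ℝ) < (m : ℝ) + 1 := by positivity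
  have hs0 : 0 < s := by
    by_contra hcon
    have : ((m : ℝ) + 1) * s ≤ 0 := mul_nonpos_of_nonneg_of_nonpos hm1.le (by linarith)
    linarith
  set l := d / t with hl
  have hl0 : 0 < l := by positivity
  set V := Vh (d - δ) with hV
  set J := Jl (d - 2 * δ) with hJ
  set S := Q ∩ Sg d δ Y with hS
  have hVm : MeasurableSet V := Vh_meas _
  have hJm : MeasurableSet J := Jl_meas _
  have hSm : MeasurableSet S := h.Qm.inter (Sg_meas _ _ _)
  set C₁ := 1 / t + 2 / d ^ 2 with hC₁
  set C₂ := 1 / (4 * π * s) with hC₂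
  have hC₁0 : 0 ≤ C₁ := by positivity
  have hC₂0 : 0 ≤ C₂ := by positivity
  set ω : ℕ → ℂ → ℝ≥0∞ := fun i u => rr s (l : ℂ) ^ (i + 1) * ENNReal.ofReal
    (Real.exp (-(ip (l : ℂ) u))) with hω
  set β : ℕ → ℂ → ℝ≥0∞ := bt s l C₁ C₂ J N Y with hβ
  set G : ℕ → ℂ → ℝ≥0∞ := fun i u => if i < N then S.indicator 1 u else 0 with hG
  set Λ : ℝ≥0∞ := ENNReal.ofReal (Real.exp (l ^ 2 * t)) with hΛ
  set βJ : ℕ → ℂ → ℝ≥0∞ := fun i u => ENNReal.ofReal (Real.exp (l ^ 2 * t - l * b.re) * C₂) *
    (J.indicator 1 u * ω i u) with hβJ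
  have hωm : ∀ i, Measurable (ω i) := fun i => (ex_meas _).const_mul _
  have hGm : ∀ i, Measurable (G i) := by
    intro i
    by_cases hi : i < N
    · simp only [hG, if_pos hi]
      exact measurable_one.indicator hSm
    · simp only [hG, if_neg hi]
      exact measurable_const
  have hAV : A ⊆ V := fun z hz => by
    have := h.A0 z hz
    change z.re ≤ d - δ
    linarith
  -- the product of the weights
  have hprod : ∀ i j, i + j + 2 ≤ m → ∀ u v, ∀ C : ℝ, 0 ≤ C →
      ENNReal.ofReal (C * Real.exp (l ^ 2 * (((m - 1 - i - 1 - j : ℕ) + 1 : ℝ) * s) -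
        l * (u.re + v.re))) = ENNReal.ofReal C * (Λ * (ω i u * ω j v)) := by
    intro i j hij u v C hC
    simp only [hω, hΛ]
    rw [rr_w, rr_w, ← ENNReal.ofReal_mul (Real.exp_pos _).le,
      ← ENNReal.ofReal_mul (Real.exp_pos _).le, ← ENNReal.ofReal_mul hC, ← Real.exp_add,
      ← Real.exp_add]
    congr 3
    have e : ((m - 1 - i - 1 - j : ℕ) : ℝ) = (m : ℝ) - i - j - 2 := by
      have : m = (m - 1 - i - 1 - j) + i + j + 2 := by omega
      have h2 : (m : ℝ) = ((m - 1 - i - 1 - j : ℕ) : ℝ) + i + j + 2 := by exact_mod_cast this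
      linarith
    rw [e, ← hs]
    ring
  have key := up_bound (kp_meas s) (kp_comm s) (ch_ne hs0) h.Qm h.Am hVm hAV m b G β ω
    (hc (kp s) Q A) Λ βJ hGm (fun i => bt_meas s l C₁ C₂ hJm N Y i) hωm
    (fun i => hc_meas (kp_meas s) Q A i) ?_ ?_
  · refine key.trans ?_
    rw [add_assoc]
    gcongr ?_ + (?_ + ?_)
    · -- the essential part
      have hsub : ∀ i < N, ∀ j < N, ∫⁻ u in Q ∩ V, ch (kp s) (Q \ V) i b u * G i u *
          ∫⁻ v in Q ∩ V, hc (kp s) Q A (m - 1 - i - 1 - j) u v * (G j v *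
            ch (kp s) (Q \ V) j v b) = ∫⁻ u in S, ch (kp s) (Q \ V) i b u *
          ∫⁻ v in S, hc (kp s) Q A (m - 1 - i - 1 - j) u v * ch (kp s) (Q \ V) j v b := by
        intro i hi j hj
        have hSV : S ∩ (Q ∩ V) = S := by
          ext z
          constructor
          · rintro ⟨h1, _⟩
            exact h1
          · rintro h1
            exact ⟨h1, h1.1, h1.2.2.1⟩
        have hI : ∀ f : ℂ → ℝ≥0∞, ∫⁻ u in Q ∩ V, f u * S.indicator 1 u = ∫⁻ u in S, f u := by
          intro f
          conv_rhs => rw [← hSV]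
          rw [← Measure.restrict_restrict hSm, ← lintegral_indicator hSm]
          refine lintegral_congr fun u => ?_
          by_cases hu : u ∈ S
          · rw [indicator_of_mem hu, indicator_of_mem hu, Pi.one_apply, mul_one]
          · rw [indicator_of_notMem hu, indicator_of_notMem hu, mul_zero]
        simp only [hG, if_pos hi, if_pos hj]
        have e1 : ∀ u v, hc (kp s) Q A (m - 1 - i - 1 - j) u v * (S.indicator 1 v *
            ch (kp s) (Q \ V) j v b) = hc (kp s) Q A (m - 1 - i - 1 - j) u v *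
            ch (kp s) (Q \ V) j v b * S.indicator 1 v := fun u v => by ring
        have e2 : ∀ u (X : ℝ≥0∞), ch (kp s) (Q \ V) i b u * S.indicator 1 u * X =
          ch (kp s) (Q \ V) i b u * X * S.indicator 1 u := fun u X => by ring
        simp_rw [e1, e2, hI]
      unfold Ess
      have hz : ∀ i, ¬ i < N → ∀ j, ∫⁻ u in Q ∩ V, ch (kp s) (Q \ V) i b u * G i u *
          ∫⁻ v in Q ∩ V, hc (kp s) Q A (m - 1 - i - 1 - j) u v * (G j v *
            ch (kp s) (Q \ V) j v b) = 0 := by
        intro i hi j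
        simp only [hG, if_neg hi, mul_zero, zero_mul, lintegral_zero]
      have hz2 : ∀ i j, ¬ j < N → ∫⁻ u in Q ∩ V, ch (kp s) (Q \ V) i b u * G i u *
          ∫⁻ v in Q ∩ V, hc (kp s) Q A (m - 1 - i - 1 - j) u v * (G j v *
            ch (kp s) (Q \ V) j v b) = 0 := by
        intro i j hj
        simp only [hG, if_neg hj, mul_zero, zero_mul, lintegral_zero]
      have hbd : ∀ i, ∑ j ∈ Finset.range (m - 1 - i), ∫⁻ u in Q ∩ V, ch (kp s) (Q \ V) i b u *
          G i u * ∫⁻ v in Q ∩ V, hc (kp s) Q A (m - 1 - i - 1 - j) u v * (G j v *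
            ch (kp s) (Q \ V) j v b) ≤ if i < N then ∑ j ∈ Finset.range N,
          ∫⁻ u in S, ch (kp s) (Q \ V) i b u * ∫⁻ v in S, hc (kp s) Q A (m - 1 - i - 1 - j) u v *
            ch (kp s) (Q \ V) j v b else 0 := by
        intro i
        split_ifs with hi
        · have e3 : ∑ j ∈ Finset.range N,
            ∫⁻ u in S, ch (kp s) (Q \ V) i b u * ∫⁻ v in S, hc (kp s) Q A (m - 1 - i - 1 - j) u v *
              ch (kp s) (Q \ V) j v b = ∑ j ∈ Finset.range N, ∫⁻ u in Q ∩ V,
                ch (kp s) (Q \ V) i b u * G i u * ∫⁻ v in Q ∩ V,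
                  hc (kp s) Q A (m - 1 - i - 1 - j) u v * (G j v * ch (kp s) (Q \ V) j v b) :=
            Finset.sum_congr rfl fun j hj => (hsub i hi j (Finset.mem_range.1 hj)).symm
          rw [e3]
          refine Finset.sum_le_sum_of_ne_zero fun j _ hj0 => ?_
          rw [Finset.mem_range]
          by_contra hj
          exact hj0 (hz2 i j hj)
        · exact (Finset.sum_eq_zero fun j _ => hz i hi j).le
      refine (Finset.sum_le_sum fun i _ => hbd i).trans ?_
      rw [← Finset.sum_filter]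
      refine Finset.sum_le_sum_of_subset fun i hi => ?_
      rw [Finset.mem_filter] at hi
      exact Finset.mem_range.2 hi.2
    · -- the bad part
      refine le_of_eq ?_
      unfold lg
      congr 2
      refine Finset.sum_congr rfl fun i _ => ?_
      rw [← lintegral_const_mul' _ _ (ENNReal.pow_ne_top (rr_ne s _))]
      refine lintegral_congr fun u => ?_
      simp only [hω]
      ring
    · -- single points
      refine le_of_eq ?_
      unfold lg
      rw [Finset.mul_sum]
      refine Finset.sum_congr rfl fun i _ => ?_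
      rw [← lintegral_const_mul' _ _ (ENNReal.pow_ne_top (rr_ne s _)),
        ← lintegral_const_mul' _ _ ENNReal.ofReal_ne_top, inter_comm (Q ∩ V) J,
        ← Measure.restrict_restrict hJm, ← lintegral_indicator hJm]
      refine lintegral_congr fun u => ?_
      simp only [hβJ, hω]
      by_cases hu : u ∈ J
      · rw [indicator_of_mem hu, indicator_of_mem hu, Pi.one_apply, one_mul, div_eq_mul_one_div]
        ring
      · rw [indicator_of_notMem hu, indicator_of_notMem hu, zero_mul, mul_zero, mul_zero]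
  · -- the middle kernel
    intro i j hij u hu v hv
    have hks : (((m - 1 - i - 1 - j : ℕ) : ℝ) + 1) * s ≤ t := by
      have : m - 1 - i - 1 - j ≤ m := by omega
      have h2 : ((m - 1 - i - 1 - j : ℕ) : ℝ) ≤ m := by exact_mod_cast this
      rw [← hs]
      gcongr
    have hbeta : ∀ i u, u ∈ J → β i u = ENNReal.ofReal C₂ * ω i u := by
      intro i u hu
      simp only [hβ, bt, hω]
      rw [indicator_of_mem hu, indicator_of_notMem (fun h' : u ∈ Jᶜ => h' hu),
        indicator_of_notMem (fun h' : u ∈ Jᶜ ∩ {z | Y ≤ z.im} => h'.1 hu),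
        indicator_of_notMem (fun h' : u ∈ Jᶜ ∩ {z | z.im ≤ -Y} => h'.1 hu)]
      simp only [Pi.one_apply, mul_one, mul_zero, add_zero]
      ring
    have hbeta2 : ∀ i u, u ∈ Q ∩ V → u ∉ J → ¬ (i < N ∧ u ∈ S) →
        ENNReal.ofReal C₁ * ω i u ≤ β i u := by
      intro i u hu hJu hn
      simp only [hβ, bt, hω]
      rw [indicator_of_notMem hJu, mul_zero, zero_add, mul_left_comm]
      gcongr rr s (l : ℂ) ^ (i + 1) * ?_
      rw [mul_comm (ENNReal.ofReal C₁)]
      gcongr ENNReal.ofReal _ * ?_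
      refine le_mul_of_one_le_right zero_le ?_
      rw [indicator_of_mem (show u ∈ Jᶜ from hJu)]
      by_cases hi : i < N
      · have hS' : u ∉ S := fun h' => hn ⟨hi, h'⟩
        rw [if_neg (by omega), zero_mul, zero_add]
        by_cases h1 : Y ≤ u.im
        · rw [indicator_of_mem (show u ∈ Jᶜ ∩ {z | Y ≤ z.im} from ⟨hJu, h1⟩)]
          exact le_self_add
        · have h2 : u.im ≤ -Y := by
            by_contra h3
            refine hS' ⟨hu.1, ?_, hu.2, ?_⟩
            · have : ¬ u.re < d - 2 * δ := hJu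
              linarith
            · rw [abs_lt]
              push Not at h1 h3
              exact ⟨h3, h1⟩
          rw [indicator_of_mem (show u ∈ Jᶜ ∩ {z | z.im ≤ -Y} from ⟨hJu, h2⟩)]
          exact le_add_self
      · rw [if_pos (by omega), one_mul, Pi.one_apply, add_assoc]
        exact le_self_add
    by_cases hJ' : u ∈ J ∨ v ∈ J
    · have h1 := mid_b1 hs0 h.Am h.A0 (m - 1 - i - 1 - j) hl0.le u v (Q := Q)
      have h2 : Real.exp (l ^ 2 * (((m - 1 - i - 1 - j : ℕ) + 1) * s) - l * (u.re + v.re)) /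
          (4 * π * s) = C₂ * Real.exp (l ^ 2 * (((m - 1 - i - 1 - j : ℕ) + 1) * s) -
            l * (u.re + v.re)) := by
        rw [hC₂]
        ring
      rw [h2, hprod i j hij u v C₂ hC₂0] at h1
      refine h1.trans (le_trans ?_ le_add_self)
      rcases hJ' with h' | h'
      · rw [hbeta i u h']
        rw [mul_add]
        refine le_trans (le_of_eq ?_) le_self_add
        ring
      · rw [hbeta j v h', mul_add]
        refine le_trans (le_of_eq ?_) le_add_self
        ring
    · push Not at hJ'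
      have hu' : d - 2 * δ ≤ u.re := by
        have : ¬ u.re < d - 2 * δ := hJ'.1
        linarith
      have hv' : d - 2 * δ ≤ v.re := by
        have : ¬ v.re < d - 2 * δ := hJ'.2
        linarith
      have huA : u ∉ A := fun h' => by
        have := h.A0 u h'
        linarith
      have hvA : v ∉ A := fun h' => by
        have := h.A0 v h'
        linarith
      have e1 : h2 (kp s) Q A (m - 1 - i - 1 - j) u v = hc (kp s) Q A (m - 1 - i - 1 - j) u v := by
        unfold h2
        rw [if_neg (by tauto)]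
      rw [e1]
      by_cases hgood : (i < N ∧ u ∈ S) ∧ (j < N ∧ v ∈ S)
      · refine le_trans (le_of_eq ?_) le_self_add
        simp only [hG]
        rw [if_pos hgood.1.1, if_pos hgood.2.1, indicator_of_mem hgood.1.2,
          indicator_of_mem hgood.2.2]
        simp
      · refine le_trans ?_ le_add_self
        have h1 := mid_b2 hs0 h.Am h.A0 (m - 1 - i - 1 - j) hks hd (by linarith : 3 / 4 * d ≤ u.re)
          (by linarith : 3 / 4 * d ≤ v.re) (Q := Q)
        rw [hprod i j hij u v C₁ hC₁0] at h1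
        refine h1.trans ?_
        rcases not_and_or.1 hgood with h' | h'
        · calc ENNReal.ofReal C₁ * (Λ * (ω i u * ω j v)) = Λ * ((ENNReal.ofReal C₁ * ω i u) *
                ω j v) := by ring
            _ ≤ Λ * (β i u * ω j v) := by
                gcongr
                exact hbeta2 i u hu hJ'.1 h'
            _ ≤ _ := by
                gcongr
                exact le_self_add
        · calc ENNReal.ofReal C₁ * (Λ * (ω i u * ω j v)) = Λ * (ω i u * (ENNReal.ofReal C₁ *
                ω j v)) := by ring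
            _ ≤ Λ * (ω i u * β j v) := by
                gcongr
                exact hbeta2 j v hv hJ'.2 h'
            _ ≤ _ := by
                gcongr
                exact le_add_self
  · -- single points
    intro i hi u hu huA
    have huJ : u ∈ J := by
      have := h.A0 u huA
      change u.re < d - 2 * δ
      linarith
    have h1 := ch_le hs0 (Q \ V) (m - 1 - i) u b
    have hτ : (0 : ℝ) < ((m - 1 - i : ℕ) + 1) * s := by positivity
    have h2 := gk_b1 (x := b.re - u.re) hτ hl0.le (z := b - u) (norm_ge_re _ (by rw [sub_re]))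
    refine h1.trans ?_
    simp only [hβJ, kp]
    rw [indicator_of_mem huJ, Pi.one_apply, one_mul]
    simp only [hω]
    rw [rr_w, ← ENNReal.ofReal_mul (by positivity)]
    refine ENNReal.ofReal_le_ofReal (h2.trans ?_)
    have e : (((m - 1 - i : ℕ) : ℝ) + 1) = (m : ℝ) - i := by
      have : m = (m - 1 - i) + i + 1 := by omega
      have h2 : (m : ℝ) = ((m - 1 - i : ℕ) : ℝ) + i + 1 := by exact_mod_cast this
      linarith
    have hA0 := h.A0 u huA
    calc Real.exp (l ^ 2 * (((m - 1 - i : ℕ) + 1) * s) - l * (b.re - u.re)) /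
          (4 * π * (((m - 1 - i : ℕ) + 1) * s)) ≤
          Real.exp (l ^ 2 * (((m - 1 - i : ℕ) + 1) * s) - l * (b.re - u.re)) / (4 * π * s) := by
          gcongr
          have : (0 : ℝ) ≤ (m - 1 - i : ℕ) := Nat.cast_nonneg _
          nlinarith
      _ ≤ Real.exp (l ^ 2 * t - l * b.re) * C₂ *
          Real.exp (-(l ^ 2 * ((i + 1) * s)) - l * u.re) := by
          have e3 : Real.exp (l ^ 2 * t - l * b.re) * C₂ *
              Real.exp (-(l ^ 2 * ((i + 1) * s)) - l * u.re) = Real.exp ((l ^ 2 * t - l * b.re) +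
                (-(l ^ 2 * ((i + 1) * s)) - l * u.re)) / (4 * π * s) := by
            rw [Real.exp_add, hC₂]
            ring
          rw [e3]
          gcongr
          rw [e, ← hs]
          nlinarith
end Pool.Agent.N275.QD
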